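import Mathlib

set_option autoImplicit false

open scoped Topology
open Set Filter Real

noncomputable section

namespace Pool.Agent.H365R3

theorem contDiffOn_one_of {X Y : Type*} [NormedAddCommGroup X] [NormedSpace ℝ X]
    [NormedAddCommGroup Y] [NormedSpace ℝ Y] {f : X → Y} {g : X → X →L[ℝ] Y} {U : Set X}
    (hU : IsOpen U) (hd : ∀ p ∈ U, HasFDerivAt f (g p) p) (hc : ContinuousOn g U) :
    ContDiffOn ℝ 1 f U := by
  have h1 : ContDiffOn ℝ (0 + 1) f U := by
    rw [contDiffOn_succ_iff_fderiv_of_isOpen hU]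
    refine ⟨fun p hp => (hd p hp).differentiableAt.differentiableWithinAt, by simp, ?_⟩
    rw [contDiffOn_zero]
    exact hc.congr fun p hp => (hd p hp).fderiv
  simpa using h1

/-! ### The affine group acting on `[-π/2, π/2]` -/

/-- Displacement of the parabolic element `u ↦ u + s` in the coordinate `u = tan x`. -/
def thet (s x : ℝ) : ℝ := arctan ((cos x) ^ 2 * (s / (1 + s * sin x * cos x)))

/-- Displacement of the hyperbolic element `u ↦ l * u` in the coordinate `u = tan x`. -/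
def kap (l x : ℝ) : ℝ := arctan ((l - 1) * sin x * cos x / ((cos x) ^ 2 + l * (sin x) ^ 2))

theorem cos_arctan_div {D N : ℝ} (hD : 0 < D) : cos (arctan (N / D)) = D / √(D ^ 2 + N ^ 2) := by
  rw [cos_arctan]
  have h1 : 1 + (N / D) ^ 2 = (D ^ 2 + N ^ 2) / D ^ 2 := by field_simp
  rw [h1, sqrt_div (by positivity), sqrt_sq hD.le]
  field_simp

theorem sin_arctan_div {D N : ℝ} (hD : 0 < D) : sin (arctan (N / D)) = N / √(D ^ 2 + N ^ 2) := by
  rw [sin_arctan]
  have h1 : 1 + (N / D) ^ 2 = (D ^ 2 + N ^ 2) / D ^ 2 := by field_simp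
  rw [h1, sqrt_div (by positivity), sqrt_sq hD.le]
  field_simp

theorem den_pos {s : ℝ} (hs : |s| < 2) (x : ℝ) : 0 < 1 + s * sin x * cos x := by
  have h1 : |sin x * cos x| ≤ 1 / 2 := by
    have := abs_sin_le_one (2 * x)
    rw [sin_two_mul] at this
    rw [show sin x * cos x = (2 * sin x * cos x) / 2 by ring, abs_div, abs_two]
    linarith
  have h2 : |s * (sin x * cos x)| < 1 := by
    rw [abs_mul]
    nlinarith [abs_nonneg s, abs_nonneg (sin x * cos x)]
  have := (abs_lt.1 h2).1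
  rw [mul_assoc]; linarith

theorem den_pos' {l : ℝ} (hl : 0 < l) (x : ℝ) : 0 < (cos x) ^ 2 + l * (sin x) ^ 2 := by
  have h := sin_sq_add_cos_sq x
  by_cases h0 : sin x = 0
  · rw [h0] at h ⊢; nlinarith
  · have : 0 < l * (sin x) ^ 2 := by positivity
    positivity

/-- The direction of the vector `(cos, sin)` after the parabolic displacement. -/
theorem thet_dir {s : ℝ} (hs : |s| < 2) (x : ℝ) : ∃ R : ℝ, 0 < R ∧
    cos (x + thet s x) = cos x / R ∧ sin (x + thet s x) = (sin x + s * cos x) / R := by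
  have hD := den_pos hs x
  set D := 1 + s * sin x * cos x with hDdef
  have h1 : thet s x = arctan ((s * (cos x) ^ 2) / D) := by
    rw [thet, ← hDdef]; congr 1; ring
  refine ⟨√(D ^ 2 + (s * (cos x) ^ 2) ^ 2), by positivity, ?_, ?_⟩
  · rw [h1, cos_add, cos_arctan_div hD, sin_arctan_div hD]
    have hR : 0 < √(D ^ 2 + (s * (cos x) ^ 2) ^ 2) := by positivity
    field_simp
    rw [hDdef]; ring
  · rw [h1, sin_add, cos_arctan_div hD, sin_arctan_div hD]
    have hR : 0 < √(D ^ 2 + (s * (cos x) ^ 2) ^ 2) := by positivity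
    field_simp
    rw [hDdef]
    have := sin_sq_add_cos_sq x
    linear_combination (s * cos x) * this

theorem kap_dir {l : ℝ} (hl : 0 < l) (x : ℝ) : ∃ R : ℝ, 0 < R ∧
    cos (x + kap l x) = cos x / R ∧ sin (x + kap l x) = (l * sin x) / R := by
  have hD := den_pos' hl x
  set D := (cos x) ^ 2 + l * (sin x) ^ 2 with hDdef
  have h1 : kap l x = arctan (((l - 1) * sin x * cos x) / D) := rfl
  have hR : 0 < √(D ^ 2 + ((l - 1) * sin x * cos x) ^ 2) := by positivity
  refine ⟨√(D ^ 2 + ((l - 1) * sin x * cos x) ^ 2), hR, ?_, ?_⟩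
  · rw [h1, cos_add, cos_arctan_div hD, sin_arctan_div hD]
    field_simp
    rw [hDdef]
    have := sin_sq_add_cos_sq x
    linear_combination (cos x) * this
  · rw [h1, sin_add, cos_arctan_div hD, sin_arctan_div hD]
    field_simp
    rw [hDdef]
    have := sin_sq_add_cos_sq x
    linear_combination (l * sin x) * this

theorem abs_le_of_cos_nonneg {x t : ℝ} (hx : |x| ≤ π / 2) (ht : |t| < π / 2)
    (h : 0 ≤ cos (x + t)) : |x + t| ≤ π / 2 := by
  by_contra hcon
  push Not at hcon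
  have h1 : |x + t| < π := by
    have := abs_add_le x t
    linarith
  have h2 : cos |x + t| < 0 := cos_neg_of_pi_div_two_lt_of_lt hcon (by linarith)
  rw [cos_abs] at h2
  linarith

theorem abs_arctan_lt (y : ℝ) : |arctan y| < π / 2 :=
  abs_lt.2 ⟨neg_pi_div_two_lt_arctan y, arctan_lt_pi_div_two y⟩

theorem cos_nonneg_of_abs {x : ℝ} (hx : |x| ≤ π / 2) : 0 ≤ cos x :=
  cos_nonneg_of_mem_Icc ⟨(abs_le.1 hx).1, (abs_le.1 hx).2⟩

theorem thet_mem {s x : ℝ} (hs : |s| < 2) (hx : |x| ≤ π / 2) : |x + thet s x| ≤ π / 2 := by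
  obtain ⟨R, hR, h1, -⟩ := thet_dir hs x
  refine abs_le_of_cos_nonneg hx (abs_arctan_lt _) ?_
  rw [h1]
  exact div_nonneg (cos_nonneg_of_abs hx) hR.le

theorem kap_mem {l x : ℝ} (hl : 0 < l) (hx : |x| ≤ π / 2) : |x + kap l x| ≤ π / 2 := by
  obtain ⟨R, hR, h1, -⟩ := kap_dir hl x
  refine abs_le_of_cos_nonneg hx (abs_arctan_lt _) ?_
  rw [h1]
  exact div_nonneg (cos_nonneg_of_abs hx) hR.le

/-- Two points of `[-π/2, π/2]` with the same direction agree. -/
theorem eq_of_dir {x y c d R R' : ℝ} (hx : |x| ≤ π / 2) (hy : |y| ≤ π / 2) (hR : 0 < R)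
    (hR' : 0 < R') (h1 : cos x = c / R) (h2 : sin x = d / R) (h3 : cos y = c / R')
    (h4 : sin y = d / R') : x = y := by
  have e1 : c ^ 2 + d ^ 2 = R ^ 2 := by
    have := sin_sq_add_cos_sq x
    rw [h1, h2] at this
    field_simp at this
    linarith
  have e2 : c ^ 2 + d ^ 2 = R' ^ 2 := by
    have := sin_sq_add_cos_sq y
    rw [h3, h4] at this
    field_simp at this
    linarith
  have e3 : R = R' := by
    have : R ^ 2 = R' ^ 2 := by rw [← e1, e2]
    exact (sq_eq_sq₀ hR.le hR'.le).1 this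
  apply injOn_sin ⟨(abs_le.1 hx).1, (abs_le.1 hx).2⟩ ⟨(abs_le.1 hy).1, (abs_le.1 hy).2⟩
  rw [h2, h4, e3]

/-- The group relation `γ₋ₛ ∘ γₛ = id`. -/
theorem thet_neg {s x : ℝ} (hs : |s| < 2) (hx : |x| ≤ π / 2) :
    thet (-s) (x + thet s x) = - thet s x := by
  obtain ⟨R, hR, h1, h2⟩ := thet_dir hs x
  have hs' : |(-s)| < 2 := by rwa [abs_neg]
  obtain ⟨R', hR', h3, h4⟩ := thet_dir hs' (x + thet s x)
  have hm := thet_mem hs hx
  have hm' := thet_mem hs' hm
  have : x + thet s x + thet (-s) (x + thet s x) = x := by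
    refine eq_of_dir hm' hx (mul_pos hR hR') one_pos (c := cos x) (d := sin x) ?_ ?_
      (by rw [div_one]) (by rw [div_one])
    · rw [h3, h1]; field_simp
    · rw [h4, h1, h2]; field_simp; ring
  linarith

/-- The relation `k_l ∘ γₛ = γ_{l s} ∘ k_l`. -/
theorem kap_thet {s l x : ℝ} (hs : |s| < 2) (hl : 0 < l) (hls : |l * s| < 2) (hx : |x| ≤ π / 2) :
    kap l (x + thet s x) + thet s x = thet (l * s) (x + kap l x) + kap l x := by
  obtain ⟨R, hR, h1, h2⟩ := thet_dir hs x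
  obtain ⟨R', hR', h3, h4⟩ := kap_dir hl (x + thet s x)
  obtain ⟨Q, hQ, g1, g2⟩ := kap_dir hl x
  obtain ⟨Q', hQ', g3, g4⟩ := thet_dir hls (x + kap l x)
  have hm := kap_mem hl (thet_mem hs hx)
  have hm' := thet_mem hls (kap_mem hl hx)
  have : x + thet s x + kap l (x + thet s x) = x + kap l x + thet (l * s) (x + kap l x) := by
    refine eq_of_dir hm hm' (mul_pos hR hR') (mul_pos hQ hQ') (c := cos x)
      (d := l * (sin x + s * cos x)) ?_ ?_ ?_ ?_
    · rw [h3, h1]; field_simp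
    · rw [h4, h2]; field_simp
    · rw [g3, g1]; field_simp
    · rw [g4, g1, g2]; field_simp
  linarith

theorem kap_one (x : ℝ) : kap 1 x = 0 := by simp [kap]

theorem thet_zero (x : ℝ) : thet 0 x = 0 := by simp [thet]

theorem kap_half (l : ℝ) {x : ℝ} (hx : |x| = π / 2) : kap l x = 0 := by
  have : cos x = 0 := by
    rw [← cos_abs, hx, cos_pi_div_two]
  simp [kap, this]

theorem thet_pos {s : ℝ} (hs0 : s ≠ 0) : thet s 0 ≠ 0 := by
  simp [thet, hs0]

/-- The glued displacement. -/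
def tg (s x : ℝ) : ℝ := if |x| ≤ π / 2 then thet s x else 0

theorem contDiffAt_thet {s : ℝ} (hs : |s| < 2) (x : ℝ) :
    ContDiffAt ℝ 1 (fun p : ℝ × ℝ => thet p.1 p.2) (s, x) := by
  have hD := den_pos hs x
  have h1 : ContDiffAt ℝ 1 (fun p : ℝ × ℝ => 1 + p.1 * sin p.2 * cos p.2) (s, x) := by
    fun_prop
  have h2 : ContDiffAt ℝ 1 (fun p : ℝ × ℝ => p.1 / (1 + p.1 * sin p.2 * cos p.2)) (s, x) :=
    contDiffAt_fst.div h1 hD.ne'
  have h3 : ContDiffAt ℝ 1 (fun p : ℝ × ℝ => (cos p.2) ^ 2) (s, x) := by fun_prop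
  exact contDiff_arctan.contDiffAt.comp (s, x) (h3.mul h2)

theorem fderiv_thet_zero {s : ℝ} (hs : |s| < 2) {x : ℝ} (hx : |x| = π / 2) :
    fderiv ℝ (fun p : ℝ × ℝ => thet p.1 p.2) (s, x) = 0 := by
  have hcos : cos x = 0 := by rw [← cos_abs, hx, cos_pi_div_two]
  have hD := den_pos hs x
  have h1 : ContDiffAt ℝ 1 (fun p : ℝ × ℝ => 1 + p.1 * sin p.2 * cos p.2) (s, x) := by
    fun_prop
  have h2 : ContDiffAt ℝ 1 (fun p : ℝ × ℝ => p.1 / (1 + p.1 * sin p.2 * cos p.2)) (s, x) :=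
    contDiffAt_fst.div h1 hD.ne'
  have h2' := (h2.differentiableAt one_ne_zero).hasFDerivAt
  have h3 : HasFDerivAt (fun p : ℝ × ℝ => (cos p.2)) (-(sin x) • ContinuousLinearMap.snd ℝ ℝ ℝ)
      (s, x) := by
    have := (Real.hasDerivAt_cos x).comp_hasFDerivAt (s, x)
      (hasFDerivAt_snd (𝕜 := ℝ) (E := ℝ) (F := ℝ) (p := (s, x)))
    exact this
  have h4 : HasFDerivAt (fun p : ℝ × ℝ => (cos p.2) ^ 2) (0 : ℝ × ℝ →L[ℝ] ℝ) (s, x) := by
    have := h3.pow 2
    simpa [hcos] using this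
  have h5 := h4.mul h2'
  have h6 : HasFDerivAt (fun p : ℝ × ℝ => thet p.1 p.2) (0 : ℝ × ℝ →L[ℝ] ℝ) (s, x) := by
    have := (Real.hasDerivAt_arctan _).comp_hasFDerivAt (s, x) h5
    simpa [hcos, Function.comp_def, thet] using this
  exact h6.fderiv

theorem thet_half (s : ℝ) {x : ℝ} (hx : |x| = π / 2) : thet s x = 0 := by
  have : cos x = 0 := by rw [← cos_abs, hx, cos_pi_div_two]
  simp [thet, this]

theorem contDiffAt_tg {s : ℝ} (hs : |s| < 2) (x : ℝ) :
    ContDiffAt ℝ 1 (fun p : ℝ × ℝ => tg p.1 p.2) (s, x) := by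
  let f : ℝ × ℝ → ℝ := fun p => thet p.1 p.2
  let U : Set (ℝ × ℝ) := {p | |p.1| < 2}
  have hU : IsOpen U := isOpen_lt (continuous_fst.abs) continuous_const
  have hfU : ∀ p ∈ U, ContDiffAt ℝ 1 f p := fun p hp => contDiffAt_thet hp p.2
  let g' : ℝ × ℝ → (ℝ × ℝ →L[ℝ] ℝ) := fun p => if |p.2| ≤ π / 2 then fderiv ℝ f p else 0
  have hd : ∀ p ∈ U, HasFDerivAt (fun p : ℝ × ℝ => tg p.1 p.2) (g' p) p := by
    rintro p hp
    have hfd : HasFDerivAt f (fderiv ℝ f p) p := ((hfU p hp).differentiableAt one_ne_zero).hasFDerivAt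
    rcases lt_trichotomy |p.2| (π / 2) with h | h | h
    · have h1 : g' p = fderiv ℝ f p := by simp only [g', if_pos h.le]
      rw [h1]
      refine hfd.congr_of_eventuallyEq ?_
      have : ∀ᶠ q : ℝ × ℝ in 𝓝 p, |q.2| < π / 2 :=
        (continuous_snd.abs.continuousAt).eventually_lt continuousAt_const h
      filter_upwards [this] with q hq
      simp only [tg, if_pos hq.le]; rfl
    · have h1 : g' p = 0 := by
        simp only [g', if_pos h.le]
        exact fderiv_thet_zero hp h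
      have h2 : fderiv ℝ f p = 0 := fderiv_thet_zero hp h
      rw [h1]
      rw [h2] at hfd
      rw [hasFDerivAt_iff_isLittleO_nhds_zero] at hfd ⊢
      refine (Asymptotics.IsBigO.of_norm_le (g := fun q => ‖f (p + q) - f p -
        (0 : ℝ × ℝ →L[ℝ] ℝ) q‖) ?_).trans_isLittleO hfd.norm_left
      intro q
      have e1 : tg p.1 p.2 = 0 := by simp only [tg, if_pos h.le, thet_half _ h]
      have e2 : f p = 0 := thet_half _ h
      simp only [e1, e2, ContinuousLinearMap.zero_apply, sub_zero]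
      by_cases hq : |(p + q).2| ≤ π / 2
      · simp only [tg, if_pos hq]; exact le_rfl
      · simp only [tg, if_neg hq, norm_zero]; positivity
    · have h1 : g' p = 0 := by simp only [g', if_neg (not_le.2 h)]
      rw [h1]
      refine (hasFDerivAt_const (0 : ℝ) p).congr_of_eventuallyEq ?_
      have : ∀ᶠ q : ℝ × ℝ in 𝓝 p, π / 2 < |q.2| :=
        continuousAt_const.eventually_lt (continuous_snd.abs.continuousAt) h
      filter_upwards [this] with q hq
      simp only [tg, if_neg (not_le.2 hq)]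
  have hc : ContinuousOn g' U := by
    have hfc : ContinuousOn (fderiv ℝ f) U := fun p hp =>
      ((hfU p hp).fderiv_right (m := 0) (by simp)).continuousAt.continuousWithinAt
    refine ContinuousOn.if ?_ ?_ continuousOn_const
    · rintro p ⟨hp, hp2⟩
      have h3 : |p.2| = π / 2 :=
        frontier_le_subset_eq continuous_snd.abs continuous_const hp2
      exact fderiv_thet_zero hp h3
    · exact hfc.mono inter_subset_left
  have hon : ContDiffOn ℝ 1 (fun p : ℝ × ℝ => tg p.1 p.2) U := by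
    exact contDiffOn_one_of hU hd hc
  exact hon.contDiffAt (hU.mem_nhds hs)

theorem contDiffAt_kap {l : ℝ} (hl : 0 < l) (x : ℝ) :
    ContDiffAt ℝ 1 (fun p : ℝ × ℝ => kap p.1 p.2) (l, x) := by
  have hD := den_pos' hl x
  have h1 : ContDiffAt ℝ 1 (fun p : ℝ × ℝ => (cos p.2) ^ 2 + p.1 * (sin p.2) ^ 2) (l, x) := by
    fun_prop
  have h2 : ContDiffAt ℝ 1 (fun p : ℝ × ℝ => (p.1 - 1) * sin p.2 * cos p.2) (l, x) := by
    fun_prop
  exact contDiff_arctan.contDiffAt.comp (l, x) (h2.div h1 hD.ne')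

end Pool.Agent.H365R3
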