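import Mathlib

set_option autoImplicit false

open scoped Topology
open Set Filter

noncomputable section

namespace Pool.Agent.H365R3

variable {F : Type*} [NormedAddCommGroup F] [NormedSpace ℝ F]

/-- A continuous linear map close to the identity is invertible. -/
theorem exists_equiv_of_close [CompleteSpace F] (A : F →L[ℝ] F)
    (h : ‖A - ContinuousLinearMap.id ℝ F‖ ≤ 1 / 2) : ∃ e : F ≃L[ℝ] F, (e : F →L[ℝ] F) = A := by
  have h1 : ‖(1 : F →L[ℝ] F) - A‖ < 1 := by
    rw [norm_sub_rev]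
    exact lt_of_le_of_lt h (by norm_num)
  refine ⟨ContinuousLinearEquiv.ofUnit (Units.oneSub (1 - A) h1), ?_⟩
  ext x
  change ((Units.oneSub (1 - A) h1 : (F →L[ℝ] F)ˣ) : F →L[ℝ] F) x = A x
  rw [Units.val_oneSub]
  simp

theorem norm_image_sub_sub_le (K : F → F) (hK : Differentiable ℝ K) (ε : ℝ)
    (h : ∀ x, ‖fderiv ℝ K x - ContinuousLinearMap.id ℝ F‖ ≤ ε) (x y : F) :
    ‖(K x - x) - (K y - y)‖ ≤ ε * ‖x - y‖ := by
  have h1 : ∀ z ∈ (univ : Set F), HasFDerivWithinAt (fun z => K z - z)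
      (fderiv ℝ K z - ContinuousLinearMap.id ℝ F) univ z := by
    intro z _
    exact ((hK z).hasFDerivAt.sub (hasFDerivAt_id z)).hasFDerivWithinAt
  exact convex_univ.norm_image_sub_le_of_norm_hasFDerivWithin_le h1 (fun z _ => h z)
    (mem_univ y) (mem_univ x)

theorem norm_sub_le_of_small (K : F → F) (hK : Differentiable ℝ K) (ε : ℝ)
    (h : ∀ x, ‖fderiv ℝ K x - ContinuousLinearMap.id ℝ F‖ ≤ ε) (x y : F) :
    ‖K x - K y‖ ≤ (1 + ε) * ‖x - y‖ := by
  have h1 := norm_image_sub_sub_le K hK ε h x y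
  have h2 : K x - K y = ((K x - x) - (K y - y)) + (x - y) := by abel
  calc ‖K x - K y‖ = ‖((K x - x) - (K y - y)) + (x - y)‖ := by rw [← h2]
    _ ≤ ‖(K x - x) - (K y - y)‖ + ‖x - y‖ := norm_add_le _ _
    _ ≤ ε * ‖x - y‖ + ‖x - y‖ := by gcongr
    _ = (1 + ε) * ‖x - y‖ := by ring

theorem le_norm_sub_of_small (K : F → F) (hK : Differentiable ℝ K) (ε : ℝ)
    (h : ∀ x, ‖fderiv ℝ K x - ContinuousLinearMap.id ℝ F‖ ≤ ε) (x y : F) :
    (1 - ε) * ‖x - y‖ ≤ ‖K x - K y‖ := by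
  have h1 := norm_image_sub_sub_le K hK ε h x y
  have h2 : x - y = (K x - K y) - ((K x - x) - (K y - y)) := by abel
  have h3 : ‖x - y‖ ≤ ‖K x - K y‖ + ‖(K x - x) - (K y - y)‖ := by
    calc ‖x - y‖ = ‖(K x - K y) - ((K x - x) - (K y - y))‖ := by rw [← h2]
      _ ≤ _ := norm_sub_le _ _
  nlinarith [h1, h3]

/-- A map `C¹`-close to the identity is a diffeomorphism. -/
theorem exists_inverse [CompleteSpace F] (K : F → F) (hK : ContDiff ℝ 1 K)
    (h : ∀ x, ‖fderiv ℝ K x - ContinuousLinearMap.id ℝ F‖ ≤ 1 / 2) :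
    ∃ e : F ≃ F, (∀ x, e x = K x) ∧ ContDiff ℝ 1 e.symm := by
  have hd : Differentiable ℝ K := hK.differentiable one_ne_zero
  have happ : ApproximatesLinearOn K ((ContinuousLinearEquiv.refl ℝ F : F ≃L[ℝ] F) : F →L[ℝ] F)
      univ (1 / 2 : NNReal) := by
    intro x _ y _
    have h1 := norm_image_sub_sub_le K hd (1 / 2) h x y
    have h2 : K x - K y - ((ContinuousLinearEquiv.refl ℝ F : F ≃L[ℝ] F) : F →L[ℝ] F) (x - y)
        = (K x - x) - (K y - y) := by
      simp only [ContinuousLinearEquiv.coe_coe, ContinuousLinearEquiv.refl_apply]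
      abel
    rw [h2]
    simpa using h1
  have hc : Subsingleton F ∨
      (1 / 2 : NNReal) < ‖((ContinuousLinearEquiv.refl ℝ F).symm : F →L[ℝ] F)‖₊⁻¹ := by
    rcases subsingleton_or_nontrivial F with hs | hn
    · exact Or.inl hs
    · right
      have : ‖((ContinuousLinearEquiv.refl ℝ F).symm : F →L[ℝ] F)‖₊ = 1 := by
        have h1 : ((ContinuousLinearEquiv.refl ℝ F).symm : F →L[ℝ] F)
          = ContinuousLinearMap.id ℝ F := rfl
        rw [h1]
        exact ContinuousLinearMap.nnnorm_id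
      rw [this, inv_one]
      exact NNReal.half_lt_self one_ne_zero
  let e := happ.toHomeomorph K hc
  have he : ∀ x, e x = K x := fun x => rfl
  refine ⟨e.toEquiv, he, ?_⟩
  rw [contDiff_iff_contDiffAt]
  intro y
  obtain ⟨A, hA⟩ := exists_equiv_of_close _ (h (e.symm y))
  have := (e.toOpenPartialHomeomorph).contDiffAt_symm (n := 1) (f₀' := A) (a := y) (by simp)
    (by
      rw [hA]
      exact (hd _).hasFDerivAt) hK.contDiffAt
  exact this

end Pool.Agent.H365R3
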