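import Mathlib
import Pool.Agent.H365R3.Ana1

set_option autoImplicit false

open scoped Topology
open Set Filter

noncomputable section

namespace Pool.Agent.H365R3

variable {F : Type*} [NormedAddCommGroup F] [NormedSpace ℝ F]

/-- A standard cut-off function. -/
theorem exists_cutoff [FiniteDimensional ℝ F] : ∃ (χ : F → ℝ) (C : ℝ), 0 ≤ C ∧ ContDiff ℝ 1 χ ∧
    (∀ x, ‖x‖ ≤ 1 → χ x = 1) ∧ (∀ x, 2 ≤ ‖x‖ → χ x = 0) ∧ (∀ x, 0 ≤ χ x) ∧ (∀ x, χ x ≤ 1) ∧
    ∀ x, ‖fderiv ℝ χ x‖ ≤ C := by
  let c : ContDiffBump (0 : F) := ⟨1, 2, by norm_num, by norm_num⟩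
  have hd : ContDiff ℝ 1 (c : F → ℝ) := c.contDiff
  have hcs : HasCompactSupport (c : F → ℝ) := c.hasCompactSupport
  obtain ⟨C, hC⟩ := (hcs.fderiv (𝕜 := ℝ)).exists_bound_of_continuous
    (hd.continuous_fderiv one_ne_zero)
  refine ⟨c, max C 0, le_max_right _ _, hd, ?_, ?_, fun x => c.nonneg, fun x => c.le_one, ?_⟩
  · intro x hx
    exact c.one_of_mem_closedBall (by simpa using hx)
  · intro x hx
    exact c.zero_of_le_dist (by simpa using hx)
  · intro x
    exact (hC x).trans (le_max_left _ _)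

/-- Replace the identity near `b` by a map `J` which is tangent to the identity at `b`. -/
theorem exists_patch [FiniteDimensional ℝ F] (J : F → F) (b : F) (hJb : J b = b)
    (hJ : ContDiffAt ℝ 1 J b) (hDJ : fderiv ℝ J b = ContinuousLinearMap.id ℝ F) (ε ρ : ℝ)
    (hε : 0 < ε) (hρ : 0 < ρ) :
    ∃ K : F → F, ContDiff ℝ 1 K ∧ (∀ x, ρ ≤ ‖x - b‖ → K x = x) ∧
      (∃ r > 0, ∀ x, ‖x - b‖ < r → K x = J x) ∧
      ∀ x, ‖fderiv ℝ K x - ContinuousLinearMap.id ℝ F‖ ≤ ε := by
  obtain ⟨χ, C, hC0, hχ, hχ1, hχ2, hχ3, hχ4, hχ5⟩ := exists_cutoff (F := F)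
  let η : ℝ := ε / (1 + 4 * C)
  have hη : 0 < η := by positivity
  have hηε : η * (1 + 4 * C) = ε := by
    have : (1 + 4 * C) ≠ 0 := by positivity
    simp only [η]; field_simp
  have hcont : ContinuousAt (fderiv ℝ J) b :=
    (hJ.fderiv_right (m := 0) (by simp)).continuousAt
  have h1 : ∀ᶠ x in 𝓝 b, ContDiffAt ℝ 1 J x := hJ.eventually (by simp)
  have h2 : ∀ᶠ x in 𝓝 b, ‖fderiv ℝ J x - ContinuousLinearMap.id ℝ F‖ < η := by
    have : ContinuousAt (fun x => ‖fderiv ℝ J x - ContinuousLinearMap.id ℝ F‖) b :=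
      (hcont.sub continuousAt_const).norm
    refine this.eventually_lt continuousAt_const ?_
    rw [hDJ]; simpa using hη
  obtain ⟨r', hr', hball⟩ := Metric.eventually_nhds_iff_ball.1 (h1.and h2)
  -- choose r
  let r : ℝ := min (r' / 2) ρ
  have hr : 0 < r := lt_min (by positivity) hρ
  have hrr' : 2 * r ≤ r' := by
    have := min_le_left (r' / 2) ρ
    simp only [r]; linarith
  have hrρ : r ≤ ρ := min_le_right _ _
  have hJlip : ∀ x, ‖x - b‖ < r' → ‖J x - x‖ ≤ η * ‖x - b‖ := by
    intro x hx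
    have hd : ∀ z ∈ Metric.ball b r', HasFDerivWithinAt (fun z => J z - z)
        (fderiv ℝ J z - ContinuousLinearMap.id ℝ F) (Metric.ball b r') z := by
      intro z hz
      exact (((hball z hz).1.differentiableAt one_ne_zero).hasFDerivAt.sub
        (hasFDerivAt_id z)).hasFDerivWithinAt
    have := (convex_ball b r').norm_image_sub_le_of_norm_hasFDerivWithin_le hd
      (fun z hz => (hball z hz).2.le) (Metric.mem_ball_self hr')
      (show x ∈ Metric.ball b r' by simpa [dist_eq_norm] using hx)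
    simpa [hJb] using this
  let ψ : F → ℝ := fun x => χ ((2 / r) • (x - b))
  have hψ : ContDiff ℝ 1 ψ := hχ.comp (contDiff_const.smul (contDiff_id.sub contDiff_const))
  have hψd : ∀ x, ‖fderiv ℝ ψ x‖ ≤ (2 / r) * C := by
    intro x
    have h3 : HasFDerivAt (fun x : F => (2 / r) • (x - b))
        ((2 / r) • ContinuousLinearMap.id ℝ F) x :=
      ((hasFDerivAt_id x).sub_const b).const_smul (2 / r)
    have h4 : HasFDerivAt ψ ((fderiv ℝ χ ((2 / r) • (x - b))).comp
        ((2 / r) • ContinuousLinearMap.id ℝ F)) x :=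
      ((hχ.differentiable one_ne_zero _).hasFDerivAt).comp x h3
    rw [h4.fderiv]
    calc ‖(fderiv ℝ χ ((2 / r) • (x - b))).comp ((2 / r) • ContinuousLinearMap.id ℝ F)‖
        ≤ ‖fderiv ℝ χ ((2 / r) • (x - b))‖ * ‖(2 / r) • ContinuousLinearMap.id ℝ F‖ :=
          ContinuousLinearMap.opNorm_comp_le _ _
      _ ≤ C * ((2 / r) * 1) := by
          gcongr
          · exact hχ5 _
          · rw [norm_smul, Real.norm_of_nonneg (by positivity)]
            gcongr
            exact ContinuousLinearMap.norm_id_le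
      _ = (2 / r) * C := by ring
  have hψ0 : ∀ x, r ≤ ‖x - b‖ → ψ x = 0 := by
    intro x hx
    apply hχ2
    rw [norm_smul, Real.norm_of_nonneg (by positivity), div_mul_eq_mul_div, le_div_iff₀ hr]
    linarith
  have hψ1 : ∀ x, ‖x - b‖ ≤ r / 2 → ψ x = 1 := by
    intro x hx
    apply hχ1
    rw [norm_smul, Real.norm_of_nonneg (by positivity), div_mul_eq_mul_div, div_le_one hr]
    linarith
  let K : F → F := fun x => x + ψ x • (J x - x)
  have hKid : ∀ x, r ≤ ‖x - b‖ → K x = x := by
    intro x hx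
    simp only [K, hψ0 x hx, zero_smul, add_zero]
  have hKat : ∀ x, ‖x - b‖ < r' → ContDiffAt ℝ 1 K x := by
    intro x hx
    exact contDiffAt_id.add (hψ.contDiffAt.smul
      (((hball x (by simpa [dist_eq_norm] using hx)).1).sub contDiffAt_id))
  have hKev : ∀ x, r < ‖x - b‖ → K =ᶠ[𝓝 x] id := by
    intro x hx
    have : ∀ᶠ y in 𝓝 x, r < ‖y - b‖ :=
      (continuousAt_const.eventually_lt ((continuous_id.sub continuous_const).norm.continuousAt) hx)
    filter_upwards [this] with y hy
    exact hKid y hy.le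
  refine ⟨K, ?_, fun x hx => hKid x (hrρ.trans hx), ⟨r / 2, by positivity, ?_⟩, ?_⟩
  · rw [contDiff_iff_contDiffAt]
    intro x
    rcases lt_or_ge ‖x - b‖ r' with hx | hx
    · exact hKat x hx
    · have : r < ‖x - b‖ := by linarith
      exact contDiffAt_id.congr_of_eventuallyEq (hKev x this)
  · intro x hx
    simp only [K, hψ1 x hx.le, one_smul]
    abel
  · intro x
    rcases lt_or_ge r ‖x - b‖ with hx | hx
    · rw [(hKev x hx).fderiv_eq, fderiv_id]
      simpa using hε.le
    · have hx' : ‖x - b‖ < r' := by linarith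
      have hb := hball x (by simpa [dist_eq_norm] using hx')
      have hJd : HasFDerivAt (fun z => J z - z) (fderiv ℝ J x - ContinuousLinearMap.id ℝ F) x :=
        (hb.1.differentiableAt one_ne_zero).hasFDerivAt.sub (hasFDerivAt_id x)
      have hψx : HasFDerivAt ψ (fderiv ℝ ψ x) x := (hψ.differentiable one_ne_zero x).hasFDerivAt
      have hK : HasFDerivAt K (ContinuousLinearMap.id ℝ F +
          (ψ x • (fderiv ℝ J x - ContinuousLinearMap.id ℝ F) +
            (fderiv ℝ ψ x).smulRight (J x - x))) x :=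
        (hasFDerivAt_id x).add (hψx.smul hJd)
      rw [hK.fderiv, add_sub_cancel_left]
      have hψn : ‖ψ x‖ ≤ 1 := by
        rw [Real.norm_of_nonneg (hχ3 _)]; exact hχ4 _
      calc ‖ψ x • (fderiv ℝ J x - ContinuousLinearMap.id ℝ F) +
            (fderiv ℝ ψ x).smulRight (J x - x)‖
          ≤ ‖ψ x • (fderiv ℝ J x - ContinuousLinearMap.id ℝ F)‖ +
            ‖(fderiv ℝ ψ x).smulRight (J x - x)‖ := norm_add_le _ _
        _ ≤ 1 * η + (2 / r * C) * (η * (r * 2)) := by
            rw [norm_smul, ContinuousLinearMap.norm_smulRight_apply]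
            gcongr
            · exact hb.2.le
            · exact hψd x
            · refine (hJlip x hx').trans ?_
              gcongr
              linarith
        _ = η * (1 + 4 * C) := by field_simp; ring
        _ = ε := hηε

end Pool.Agent.H365R3
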