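import Mathlib
import Pool.Agent.H365R3.Ana2
import Pool.Agent.H365R3.Aff1

set_option autoImplicit false

open scoped Topology
open Set Filter Real

noncomputable section

namespace Pool.Agent.H365R3

variable {F : Type*} [NormedAddCommGroup F] [NormedSpace ℝ F]

theorem small_param [FiniteDimensional ℝ F] (Φ : ℝ × F → ℝ) (s₀ δ : ℝ) (hδ : 0 < δ) (b : F)
    (ρ : ℝ) (hΦ : ∀ s x, |s - s₀| < δ → ContDiffAt ℝ 1 Φ (s, x))
    (hsupp : ∀ s x, ρ ≤ ‖x - b‖ → Φ (s, x) = 0) (h0 : ∀ x, Φ (s₀, x) = 0) (ε : ℝ) (hε : 0 < ε) :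
    ∀ᶠ s in 𝓝 s₀, ∀ x, ‖fderiv ℝ (fun x => Φ (s, x)) x‖ ≤ ε := by
  have hev : ∀ᶠ s in 𝓝 s₀, |s - s₀| < δ := by
    have := Metric.ball_mem_nhds s₀ hδ
    filter_upwards [this] with s hs
    simpa [Real.dist_eq] using hs
  let D : ℝ × F → (F →L[ℝ] ℝ) := fun p => (fderiv ℝ Φ p).comp (ContinuousLinearMap.inr ℝ ℝ F)
  have hDeq : ∀ s x, |s - s₀| < δ → fderiv ℝ (fun x => Φ (s, x)) x = D (s, x) := by
    intro s x hs
    have h1 : HasFDerivAt (fun x : F => ((s, x) : ℝ × F)) (ContinuousLinearMap.inr ℝ ℝ F) x :=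
      hasFDerivAt_prodMk_right s x
    have h2 := (((hΦ s x hs).differentiableAt one_ne_zero).hasFDerivAt).comp x h1
    exact h2.fderiv
  have hD0 : ∀ x, D (s₀, x) = 0 := by
    intro x
    rw [← hDeq s₀ x (by simpa using hδ)]
    have : (fun x => Φ (s₀, x)) = fun _ => 0 := funext h0
    rw [this]; simp
  have hDc : ∀ x, ContinuousAt D (s₀, x) := by
    intro x
    have h1 : ContinuousAt (fderiv ℝ Φ) (s₀, x) :=
      ((hΦ s₀ x (by simpa using hδ)).fderiv_right (m := 0) (by simp)).continuousAt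
    exact h1.clm_comp continuousAt_const
  have hK : ∀ᶠ s in 𝓝 s₀, ∀ x ∈ Metric.closedBall b ρ, ‖D (s, x)‖ < ε := by
    refine (isCompact_closedBall b ρ).eventually_forall_of_forall_eventually
      (P := fun s x => ‖D (s, x)‖ < ε) ?_
    intro x _
    refine ((hDc x).norm).eventually_lt continuousAt_const ?_
    rw [hD0]; simpa using hε
  filter_upwards [hev, hK] with s hs hs2 x
  by_cases hx : x ∈ Metric.closedBall b ρ
  · rw [hDeq s x hs]; exact (hs2 x hx).le
  · have : (fun x => Φ (s, x)) =ᶠ[𝓝 x] fun _ => 0 := by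
      have h1 : (Metric.closedBall b ρ)ᶜ ∈ 𝓝 x := Metric.isClosed_closedBall.isOpen_compl.mem_nhds hx
      filter_upwards [h1] with y hy
      apply hsupp
      simp only [mem_compl_iff, Metric.mem_closedBall, not_le, dist_eq_norm] at hy
      exact hy.le
    rw [this.fderiv_eq]
    simpa using hε.le

theorem abs_arctan_le (y : ℝ) : |arctan y| ≤ |y| := by
  have key : ∀ y : ℝ, 0 < y → arctan y ≤ y := by
    intro y hy
    have h1 : 0 < arctan y := arctan_pos.2 hy
    have := (lt_tan h1 (arctan_lt_pi_div_two y)).le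
    rwa [tan_arctan] at this
  rcases lt_trichotomy y 0 with h | h | h
  · have h1 := key (-y) (by linarith)
    rw [arctan_neg] at h1
    rw [abs_of_neg h, abs_of_neg (arctan_lt_zero.2 h)]
    exact h1
  · simp [h]
  · rw [abs_of_pos h, abs_of_pos (arctan_pos.2 h)]
    exact key y h

theorem abs_kap_le {l : ℝ} (hl : 1 / 2 ≤ l) {y : ℝ} (hy : π / 2 ≤ |y|) :
    |kap l y| ≤ 2 * |l - 1| * (|y| - π / 2) := by
  have hD : 1 / 2 ≤ (cos y) ^ 2 + l * (sin y) ^ 2 := by
    have := sin_sq_add_cos_sq y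
    nlinarith [sq_nonneg (sin y), sq_nonneg (cos y)]
  have h1 : |kap l y| ≤ |(l - 1) * sin y * cos y / ((cos y) ^ 2 + l * (sin y) ^ 2)| :=
    abs_arctan_le _
  refine h1.trans ?_
  rw [abs_div, abs_mul, abs_mul, abs_of_pos (show 0 < (cos y) ^ 2 + l * (sin y) ^ 2 by linarith),
    div_le_iff₀ (by linarith)]
  have h2 : |cos y| ≤ |y| - π / 2 := by
    have e1 : cos y = - sin (|y| - π / 2) := by
      rw [sin_sub_pi_div_two, cos_abs, neg_neg]
    rw [e1, abs_neg]
    have := Real.abs_sin_le_abs (x := |y| - π / 2)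
    rwa [abs_of_nonneg (by linarith : 0 ≤ |y| - π / 2)] at this
  have h3 : |sin y| ≤ 1 := abs_sin_le_one y
  have h4 : 0 ≤ |y| - π / 2 := by linarith
  calc |l - 1| * |sin y| * |cos y| ≤ |l - 1| * 1 * (|y| - π / 2) := by gcongr
    _ = 2 * |l - 1| * (|y| - π / 2) * (1 / 2) := by ring
    _ ≤ 2 * |l - 1| * (|y| - π / 2) * ((cos y) ^ 2 + l * (sin y) ^ 2) := by gcongr

/-- A compactly supported model of the action of the affine group, with displacements in the
direction `v`. -/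
theorem exists_action [FiniteDimensional ℝ F] (v : F) (hv : v ≠ 0) (b : F) (ρ : ℝ) (hρ : 0 < ρ) :
    ∃ σ κ : ℝ → F → ℝ,
      (∀ s, |s| ≤ 1 → ContDiff ℝ 1 (σ s)) ∧
      (∀ l, |l - 1| ≤ 1 / 4 → ContDiff ℝ 1 (κ l)) ∧
      (∀ s x, ρ ≤ ‖x - b‖ → σ s x = 0) ∧
      (∀ l x, ρ ≤ ‖x - b‖ → κ l x = 0) ∧
      (∀ ε > 0, ∀ᶠ s in 𝓝 (0 : ℝ), ∀ x, ‖fderiv ℝ (σ s) x‖ ≤ ε) ∧
      (∀ ε > 0, ∀ᶠ l in 𝓝 (1 : ℝ), ∀ x, ‖fderiv ℝ (κ l) x‖ ≤ ε) ∧
      (∀ x, κ 1 x = 0) ∧
      (∀ s, |s| ≤ 1 → s ≠ 0 → σ s b ≠ 0) ∧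
      (∀ s x, |s| ≤ 1 → σ (-s) (x + σ s x • v) = - σ s x) ∧
      (∀ l s x, |l - 1| ≤ 1 / 4 → |s| ≤ 1 →
        κ l (x + σ s x • v) + σ s x = σ (l * s) (x + κ l x • v) + κ l x) := by
  obtain ⟨f, hf1, hf2⟩ := exists_dual_vector ℝ v (norm_ne_zero_iff.2 hv)
  have hvn : 0 < ‖v‖ := norm_pos_iff.2 hv
  let ξ : F →L[ℝ] ℝ := (1 / ‖v‖) • f
  have hξv : ξ v = 1 := by
    simp only [ξ, ContinuousLinearMap.smul_apply, hf2, smul_eq_mul]
    have : (RCLike.ofReal ‖v‖ : ℝ) = ‖v‖ := rfl
    rw [this]; field_simp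
  obtain ⟨χ, C, hC0, hχ, hχ1, hχ2, hχ3, hχ4, -⟩ := exists_cutoff (F := F)
  let μ : ℝ := 4 * π * ‖v‖ / ρ
  have hμ : 0 < μ := by have := pi_pos; positivity
  let ν : ℝ := 16 / ρ
  have hν : 0 < ν := by positivity
  let τ : F → F := fun x => (x - b) - ξ (x - b) • v
  let β : F → ℝ := fun x => χ (ν • τ x)
  let yy : F → ℝ := fun x => μ * ξ (x - b)
  let χb : F → ℝ := fun x => χ ((2 / ρ) • (x - b))
  let σ : ℝ → F → ℝ := fun s x => (1 / μ) * tg (s * β x) (yy x)
  let κ : ℝ → F → ℝ := fun l x => χb x * ((1 / μ) * kap l (yy x))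
  have hτ : ∀ (x : F) (t : ℝ), τ (x + t • v) = τ x := by
    intro x t
    simp only [τ]
    have : x + t • v - b = (x - b) + t • v := by abel
    rw [this, map_add, map_smul, hξv, smul_eq_mul, mul_one, add_smul]
    abel
  have hβ : ∀ (x : F) (t : ℝ), β (x + t • v) = β x := by
    intro x t; simp only [β, hτ]
  have hyy : ∀ (x : F) (t : ℝ), yy (x + t • v) = yy x + μ * t := by
    intro x t
    simp only [yy]
    have : x + t • v - b = (x - b) + t • v := by abel
    rw [this, map_add, map_smul, hξv, smul_eq_mul, mul_one]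
    ring
  have hβ0 : ∀ x, 0 ≤ β x := fun x => hχ3 _
  have hβ1 : ∀ x, β x ≤ 1 := fun x => hχ4 _
  have habs : ∀ (s : ℝ) (x : F), |s * β x| ≤ |s| := by
    intro s x
    rw [abs_mul, abs_of_nonneg (hβ0 x)]
    exact mul_le_of_le_one_right (abs_nonneg s) (hβ1 x)
  have hτc : ContDiff ℝ 1 τ := by
    have h1 : ContDiff ℝ 1 (fun x : F => x - b) := contDiff_id.sub contDiff_const
    exact h1.sub ((ξ.contDiff.comp h1).smul contDiff_const)
  have hβc : ContDiff ℝ 1 β := hχ.comp (contDiff_const.smul hτc)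
  have hyc : ContDiff ℝ 1 yy :=
    contDiff_const.mul (ξ.contDiff.comp (contDiff_id.sub contDiff_const))
  have hχbc : ContDiff ℝ 1 χb := hχ.comp (contDiff_const.smul (contDiff_id.sub contDiff_const))
  -- the support region
  have hreg : ∀ x, β x ≠ 0 → |yy x| ≤ π / 2 → ‖x - b‖ ≤ ρ / 4 := by
    intro x h1 h2
    have h3 : ‖ν • τ x‖ < 2 := by
      by_contra hcon
      exact h1 (hχ2 _ (not_lt.1 hcon))
    have h4 : ‖τ x‖ ≤ ρ / 8 := by
      rw [norm_smul, Real.norm_of_nonneg hν.le] at h3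
      simp only [ν] at h3
      rw [div_mul_eq_mul_div, div_lt_iff₀ hρ] at h3
      linarith
    have h5 : |ξ (x - b)| * ‖v‖ ≤ ρ / 8 := by
      simp only [yy, μ] at h2
      rw [abs_mul, abs_of_pos (by have := pi_pos; positivity : 0 < 4 * π * ‖v‖ / ρ),
        div_mul_eq_mul_div, div_le_iff₀ hρ] at h2
      have hpi := pi_pos
      have : π * (4 * (|ξ (x - b)| * ‖v‖)) ≤ π * (ρ / 2) := by linarith
      have := le_of_mul_le_mul_left this hpi
      linarith
    have h6 : x - b = τ x + ξ (x - b) • v := by simp only [τ]; abel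
    calc ‖x - b‖ = ‖τ x + ξ (x - b) • v‖ := by rw [← h6]
      _ ≤ ‖τ x‖ + ‖ξ (x - b) • v‖ := norm_add_le _ _
      _ ≤ ρ / 8 + ρ / 8 := by
          rw [norm_smul]
          exact add_le_add h4 h5
      _ = ρ / 4 := by ring
  have hχb1 : ∀ x, ‖x - b‖ ≤ ρ / 4 → χb x = 1 := by
    intro x hx
    apply hχ1
    rw [norm_smul, Real.norm_of_nonneg (by positivity), div_mul_eq_mul_div, div_le_one hρ]
    linarith
  have hσat : ∀ s x, |s| < 2 → ContDiffAt ℝ 1 (fun p : ℝ × F => σ p.1 p.2) (s, x) := by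
    intro s x hs
    have h1 : ContDiffAt ℝ 1 (fun p : ℝ × F => ((p.1 * β p.2, yy p.2) : ℝ × ℝ)) (s, x) :=
      (contDiffAt_fst.mul (hβc.contDiffAt.comp (s, x) contDiffAt_snd)).prodMk
        (hyc.contDiffAt.comp (s, x) contDiffAt_snd)
    have h2 : ContDiffAt ℝ 1 (fun p : ℝ × ℝ => tg p.1 p.2) (s * β x, yy x) :=
      contDiffAt_tg ((habs s x).trans_lt hs) _
    exact contDiffAt_const.mul (ContDiffAt.comp (s, x)
      (g := fun p : ℝ × ℝ => tg p.1 p.2) (f := fun p : ℝ × F => ((p.1 * β p.2, yy p.2) : ℝ × ℝ))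
      h2 h1)
  have hκat : ∀ l x, 0 < l → ContDiffAt ℝ 1 (fun p : ℝ × F => κ p.1 p.2) (l, x) := by
    intro l x hl
    have h1 : ContDiffAt ℝ 1 (fun p : ℝ × F => ((p.1, yy p.2) : ℝ × ℝ)) (l, x) :=
      contDiffAt_fst.prodMk (hyc.contDiffAt.comp (l, x) contDiffAt_snd)
    have h2 : ContDiffAt ℝ 1 (fun p : ℝ × ℝ => kap p.1 p.2) (l, yy x) := contDiffAt_kap hl _
    exact (hχbc.contDiffAt.comp (l, x) contDiffAt_snd).mul (contDiffAt_const.mul
      (ContDiffAt.comp (l, x) (g := fun p : ℝ × ℝ => kap p.1 p.2)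
        (f := fun p : ℝ × F => ((p.1, yy p.2) : ℝ × ℝ)) h2 h1))
  have hslice : ∀ (Φ : ℝ → F → ℝ) (s : ℝ), (∀ x, ContDiffAt ℝ 1 (fun p : ℝ × F => Φ p.1 p.2) (s, x))
      → ContDiff ℝ 1 (Φ s) := by
    intro Φ s h
    rw [contDiff_iff_contDiffAt]
    intro x
    have h1 : ContDiffAt ℝ 1 (fun x : F => ((s, x) : ℝ × F)) x :=
      contDiffAt_const.prodMk contDiffAt_id
    exact ContDiffAt.comp x (g := fun p : ℝ × F => Φ p.1 p.2) (f := fun x : F => ((s, x) : ℝ × F))
      (h x) h1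
  have hsupσ : ∀ s x, ρ ≤ ‖x - b‖ → σ s x = 0 := by
    intro s x hx
    simp only [σ]
    by_cases h1 : β x = 0
    · rw [h1, mul_zero, tg]
      split_ifs <;> simp [thet_zero]
    · rw [tg, if_neg, mul_zero]
      intro h2
      have := hreg x h1 h2
      linarith
  have hsupκ : ∀ l x, ρ ≤ ‖x - b‖ → κ l x = 0 := by
    intro l x hx
    simp only [κ]
    have : χb x = 0 := by
      apply hχ2
      rw [norm_smul, Real.norm_of_nonneg (by positivity), div_mul_eq_mul_div, le_div_iff₀ hρ]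
      linarith
    rw [this, zero_mul]
  have hκ1 : ∀ x, κ 1 x = 0 := fun x => by simp only [κ, kap_one, mul_zero]
  refine ⟨σ, κ, ?_, ?_, hsupσ, hsupκ, ?_, ?_, hκ1, ?_, ?_, ?_⟩
  · intro s hs
    exact hslice σ s fun x => hσat s x (by linarith)
  · intro l hl
    exact hslice κ l fun x => hκat l x (by linarith [(abs_le.1 hl).1])
  · intro ε hε
    refine small_param (fun p : ℝ × F => σ p.1 p.2) 0 2 (by norm_num) b ρ ?_ hsupσ ?_ ε hε
    · intro s x hs
      exact hσat s x (by simpa using hs)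
    · intro x
      simp only [σ, zero_mul, tg]
      split_ifs <;> simp [thet_zero]
  · intro ε hε
    refine small_param (fun p : ℝ × F => κ p.1 p.2) 1 1 (by norm_num) b ρ ?_ hsupκ hκ1 ε hε
    intro l x hl
    exact hκat l x (by linarith [(abs_lt.1 hl).1])
  · intro s hs hs0
    have h1 : β b = 1 := by
      apply hχ1
      simp [τ]
    have h2 : yy b = 0 := by simp [yy]
    simp only [σ, h1, h2, mul_one, tg, abs_zero]
    rw [if_pos (by positivity)]
    exact mul_ne_zero (by positivity) (thet_pos hs0)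
  · intro s x hs
    have hs2 : |s * β x| < 2 := (habs s x).trans_lt (by linarith)
    simp only [σ, hβ, hyy]
    have e1 : μ * (1 / μ * tg (s * β x) (yy x)) = tg (s * β x) (yy x) := by field_simp
    rw [e1]
    by_cases hy : |yy x| ≤ π / 2
    · have e2 : tg (s * β x) (yy x) = thet (s * β x) (yy x) := by rw [tg, if_pos hy]
      rw [e2, neg_mul, tg, if_pos (thet_mem hs2 hy), thet_neg hs2 hy]
      ring
    · have e2 : ∀ t, tg t (yy x) = 0 := fun t => by rw [tg, if_neg hy]
      simp only [e2, add_zero, mul_zero, neg_zero]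
  · intro l s x hl hs
    have hl0 : 0 < l := by linarith [(abs_le.1 hl).1]
    have hl2 : |l| ≤ 5 / 4 := by
      have := abs_le.1 hl
      rw [abs_of_pos hl0]; linarith
    have hs2 : |s * β x| < 2 := (habs s x).trans_lt (by linarith)
    by_cases hβx : β x = 0
    · have e1 : ∀ s t : ℝ, σ s (x + t • v) = 0 := by
        intro s t
        simp only [σ, hβ, hβx, mul_zero, tg]
        split_ifs <;> simp [thet_zero]
      have e2 : σ s x = 0 := by simpa using e1 s 0
      rw [e2, e1]; simp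
    · by_cases hy : |yy x| ≤ π / 2
      · have hxb := hreg x hβx hy
        have e1 : κ l x = (1 / μ) * kap l (yy x) := by
          simp only [κ, hχb1 x hxb, one_mul]
        have e2 : σ s x = (1 / μ) * thet (s * β x) (yy x) := by
          simp only [σ, tg, if_pos hy]
        have e3 : yy (x + σ s x • v) = yy x + thet (s * β x) (yy x) := by
          rw [hyy, e2]; field_simp
        have e4 : yy (x + κ l x • v) = yy x + kap l (yy x) := by
          rw [hyy, e1]; field_simp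
        have hm3 : |yy (x + σ s x • v)| ≤ π / 2 := by
          rw [e3]; exact thet_mem hs2 hy
        have hm4 : |yy (x + κ l x • v)| ≤ π / 2 := by
          rw [e4]; exact kap_mem hl0 hy
        have hxb' := hreg (x + σ s x • v) (by rw [hβ]; exact hβx) hm3
        have e5 : κ l (x + σ s x • v) = (1 / μ) * kap l (yy x + thet (s * β x) (yy x)) := by
          simp only [κ, hχb1 _ hxb', one_mul]
          rw [e3]
        have e6 : σ (l * s) (x + κ l x • v)
            = (1 / μ) * thet (l * (s * β x)) (yy x + kap l (yy x)) := by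
          simp only [σ, tg, if_pos hm4]
          rw [e4, hβ, mul_assoc]
        have hls : |l * (s * β x)| < 2 := by
          rw [abs_mul]
          nlinarith [abs_nonneg l, abs_nonneg (s * β x), habs s x]
        have key := kap_thet hs2 hl0 hls hy
        rw [e5, e6, e1, e2, ← mul_add, ← mul_add, key]
      · have e0 : ∀ t, tg t (yy x) = 0 := fun t => by rw [tg, if_neg hy]
        have e2 : σ s x = 0 := by simp only [σ, e0, mul_zero]
        have e4 : yy (x + κ l x • v) = yy x + χb x * kap l (yy x) := by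
          rw [hyy]; simp only [κ]; field_simp
        have hlt : π / 2 < |yy x| := not_le.1 hy
        have h7 : |kap l (yy x)| ≤ (1 / 2) * (|yy x| - π / 2) := by
          refine (abs_kap_le (by linarith [(abs_le.1 hl).1]) hlt.le).trans ?_
          have : 0 ≤ |yy x| - π / 2 := by linarith
          gcongr
          linarith
        have h8 : |χb x * kap l (yy x)| ≤ (1 / 2) * (|yy x| - π / 2) := by
          rw [abs_mul, abs_of_nonneg (hχ3 _)]
          exact (mul_le_of_le_one_left (abs_nonneg _) (hχ4 _)).trans h7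
        have h9 : π / 2 < |yy (x + κ l x • v)| := by
          rw [e4]
          have := abs_sub_abs_le_abs_sub (yy x) (-(χb x * kap l (yy x)))
          rw [abs_neg, sub_neg_eq_add] at this
          linarith
        have e6 : σ (l * s) (x + κ l x • v) = 0 := by
          simp only [σ, tg, if_neg (not_le.2 h9), mul_zero]
        rw [e6, e2, zero_smul, add_zero, add_zero, zero_add]

end Pool.Agent.H365R3
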