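import Mathlib
import Pool.Agent.H365R3.Ana2

set_option autoImplicit false

open scoped Topology
open Set Filter

noncomputable section

namespace Pool.Agent.H365R3

/-- Sums of functions with disjoint supports converge uniformly when the sup norms tend to `0`. -/
theorem disjoint_sum {X V : Type*} [NormedAddCommGroup V] (Z : ℕ → Set X)
    (hZ : ∀ z, ∀ m n : ℕ, z ∈ Z m → z ∈ Z n → m = n) (G : ℕ → X → V)
    (hG : ∀ n z, z ∉ Z n → G n z = 0) :
    (∀ n z, z ∈ Z n → ∑' m, G m z = G n z) ∧ (∀ z, (∀ n, z ∉ Z n) → ∑' m, G m z = 0) ∧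
    (∀ z, ∃ n₀, ∀ N, n₀ ≤ N → ∑ m ∈ Finset.range N, G m z = ∑' m, G m z) ∧
    ∀ e : ℕ → ℝ, Tendsto e atTop (𝓝 0) → (∀ n z, ‖G n z‖ ≤ e n) →
      TendstoUniformly (fun N z => ∑ m ∈ Finset.range N, G m z) (fun z => ∑' m, G m z) atTop := by
  have h1 : ∀ n z, z ∈ Z n → ∑' m, G m z = G n z := by
    intro n z hz
    refine tsum_eq_single n fun m hm => hG m z fun hz' => hm (hZ z m n hz' hz)
  have h2 : ∀ z, (∀ n, z ∉ Z n) → ∑' m, G m z = 0 := by
    intro z hz
    have : ∀ m, G m z = 0 := fun m => hG m z (hz m)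
    simp [this]
  have h3 : ∀ n z, z ∈ Z n → ∀ N, n < N → ∑ m ∈ Finset.range N, G m z = G n z := by
    intro n z hz N hN
    refine Finset.sum_eq_single n (fun m _ hm => hG m z fun hz' => hm (hZ z m n hz' hz)) ?_
    intro h; exact absurd (Finset.mem_range.2 hN) h
  have h4 : ∀ z N, (∀ n < N, z ∉ Z n) → ∑ m ∈ Finset.range N, G m z = 0 := by
    intro z N hz
    exact Finset.sum_eq_zero fun m hm => hG m z (hz m (Finset.mem_range.1 hm))
  refine ⟨h1, h2, ?_, ?_⟩
  · intro z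
    by_cases hz : ∃ n, z ∈ Z n
    · obtain ⟨n, hn⟩ := hz
      refine ⟨n + 1, fun N hN => ?_⟩
      rw [h3 n z hn N hN, h1 n z hn]
    · push Not at hz
      refine ⟨0, fun N _ => ?_⟩
      rw [h2 z hz, h4 z N fun n _ => hz n]
  · intro e he hGe
    rw [Metric.tendstoUniformly_iff]
    intro ε hε
    obtain ⟨N₀, hN₀⟩ := (he.eventually_lt_const hε).exists_forall_of_atTop
    filter_upwards [eventually_ge_atTop N₀] with N hN z
    rw [dist_eq_norm]
    by_cases hz : ∃ n, z ∈ Z n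
    · obtain ⟨n, hn⟩ := hz
      rw [h1 n z hn]
      rcases lt_or_ge n N with hnN | hnN
      · rw [h3 n z hn N hnN, sub_self, norm_zero]; exact hε
      · rw [h4 z N fun m hm hzm => by
          have := hZ z m n hzm hn
          omega, sub_zero]
        exact (hGe n z).trans_lt (hN₀ n (hN.trans hnN))
    · push Not at hz
      rw [h2 z hz, h4 z N fun n _ => hz n, sub_self, norm_zero]; exact hε

variable {F : Type*} [NormedAddCommGroup F] [NormedSpace ℝ F]

/-- A chain of bumps `z ↦ z + αₙ (A⁻ⁿ z) Aⁿ v`, supported on the disjoint sets `Aⁿ B`. -/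
theorem chain (A A' : F →L[ℝ] F) (v : F) (C : ℝ)
    (hC : ∀ n : ℕ, ‖(A ^ n) v‖ * ‖A' ^ n‖ ≤ C) (B : Set F) (hB : IsClosed B)
    (hdisj : ∀ z, ∀ m n : ℕ, (A' ^ m) z ∈ B → (A' ^ n) z ∈ B → m = n) (α : ℕ → F → ℝ)
    (hα : ∀ n, ContDiff ℝ 1 (α n)) (hsupp : ∀ n x, x ∉ B → α n x = 0) (e : ℕ → ℝ)
    (he : Tendsto e atTop (𝓝 0)) (hder : ∀ n x, ‖fderiv ℝ (α n) x‖ ≤ e n) (ε : ℝ) (hε : 0 ≤ ε)
    (heε : ∀ n, C * e n ≤ ε) :
    ∃ T : F → F, ContDiff ℝ 1 T ∧ (∀ z, ‖fderiv ℝ T z - ContinuousLinearMap.id ℝ F‖ ≤ ε) ∧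
      (∀ n z, (A' ^ n) z ∈ B → T z = z + α n ((A' ^ n) z) • (A ^ n) v) ∧
      ∀ z, (∀ n, (A' ^ n) z ∉ B) → T z = z := by
  let Z : ℕ → Set F := fun n => {z | (A' ^ n) z ∈ B}
  have hZ : ∀ z, ∀ m n : ℕ, z ∈ Z m → z ∈ Z n → m = n := hdisj
  let G : ℕ → F → F := fun n z => α n ((A' ^ n) z) • (A ^ n) v
  have hG : ∀ n z, z ∉ Z n → G n z = 0 := by
    intro n z hz
    simp only [G, hsupp n _ hz, zero_smul]
  let G' : ℕ → F → F →L[ℝ] F := fun n z =>
    ((fderiv ℝ (α n) ((A' ^ n) z)).comp (A' ^ n)).smulRight ((A ^ n) v)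
  have hder0 : ∀ n x, x ∉ B → fderiv ℝ (α n) x = 0 := by
    intro n x hx
    have : α n =ᶠ[𝓝 x] fun _ => 0 := by
      filter_upwards [hB.isOpen_compl.mem_nhds hx] with y hy using hsupp n y hy
    rw [this.fderiv_eq]
    simp
  have hG' : ∀ n z, z ∉ Z n → G' n z = 0 := by
    intro n z hz
    simp only [G', hder0 n _ hz, ContinuousLinearMap.zero_comp]
    ext; simp
  have hGd : ∀ n z, HasFDerivAt (G n) (G' n z) z := by
    intro n z
    have h1 : HasFDerivAt (α n) (fderiv ℝ (α n) ((A' ^ n) z)) ((A' ^ n) z) :=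
      ((hα n).differentiable one_ne_zero _).hasFDerivAt
    have h2 : HasFDerivAt (fun z => α n ((A' ^ n) z))
        ((fderiv ℝ (α n) ((A' ^ n) z)).comp (A' ^ n)) z := h1.comp z (A' ^ n).hasFDerivAt
    exact h2.smul_const ((A ^ n) v)
  have hGn : ∀ n z, ‖G' n z‖ ≤ C * e n := by
    intro n z
    simp only [G']
    rw [ContinuousLinearMap.norm_smulRight_apply]
    have he0 : 0 ≤ e n := (norm_nonneg _).trans (hder n 0)
    calc ‖(fderiv ℝ (α n) ((A' ^ n) z)).comp (A' ^ n)‖ * ‖(A ^ n) v‖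
        ≤ (‖fderiv ℝ (α n) ((A' ^ n) z)‖ * ‖A' ^ n‖) * ‖(A ^ n) v‖ := by
          gcongr
          exact ContinuousLinearMap.opNorm_comp_le _ _
      _ ≤ (e n * ‖A' ^ n‖) * ‖(A ^ n) v‖ := by
          gcongr
          exact hder n _
      _ = (‖(A ^ n) v‖ * ‖A' ^ n‖) * e n := by ring
      _ ≤ C * e n := by
          gcongr
          exact hC n
  obtain ⟨g1, g2, g3, -⟩ := disjoint_sum Z hZ G hG
  obtain ⟨k1, k2, -, k4⟩ := disjoint_sum Z hZ G' hG'
  have hunif := k4 (fun n => C * e n) (by simpa using he.const_mul C) hGn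
  have hcontG' : ∀ n, Continuous (G' n) := by
    intro n
    have h1 : Continuous fun z => fderiv ℝ (α n) ((A' ^ n) z) :=
      ((hα n).continuous_fderiv one_ne_zero).comp (A' ^ n).continuous
    have h2 : Continuous fun z => (fderiv ℝ (α n) ((A' ^ n) z)).comp (A' ^ n) :=
      h1.clm_comp continuous_const
    exact (ContinuousLinearMap.smulRightL ℝ F F).continuous.comp h2 |>.clm_apply continuous_const
  have hS' : Continuous fun z => ∑' m, G' m z :=
    hunif.continuous (Eventually.frequently (Eventually.of_forall fun N =>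
      continuous_finset_sum _ fun m _ => hcontG' m))
  have hSd : ∀ z, HasFDerivAt (fun z => ∑' m, G m z) (∑' m, G' m z) z := by
    refine hasFDerivAt_of_tendstoUniformly hunif (f := fun N z => ∑ m ∈ Finset.range N, G m z)
      ?_ ?_
    · intro N z
      exact HasFDerivAt.fun_sum fun m _ => hGd m z
    · intro z
      obtain ⟨n₀, hn₀⟩ := g3 z
      refine tendsto_const_nhds.congr' ?_
      filter_upwards [eventually_ge_atTop n₀] with N hN
      exact (hn₀ N hN).symm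
  let T : F → F := fun z => z + ∑' m, G m z
  have hTd : ∀ z, HasFDerivAt T (ContinuousLinearMap.id ℝ F + ∑' m, G' m z) z := fun z =>
    (hasFDerivAt_id z).add (hSd z)
  refine ⟨T, ?_, ?_, ?_, ?_⟩
  · rw [contDiff_one_iff_fderiv]
    refine ⟨fun z => (hTd z).differentiableAt, ?_⟩
    have : fderiv ℝ T = fun z => ContinuousLinearMap.id ℝ F + ∑' m, G' m z :=
      funext fun z => (hTd z).fderiv
    rw [this]
    exact continuous_const.add hS'
  · intro z
    rw [(hTd z).fderiv, add_sub_cancel_left]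
    by_cases hz : ∃ n, z ∈ Z n
    · obtain ⟨n, hn⟩ := hz
      rw [k1 n z hn]
      exact (hGn n z).trans (heε n)
    · push Not at hz
      rw [k2 z hz, norm_zero]; exact hε
  · intro n z hz
    simp only [T]
    rw [g1 n z hz]
  · intro z hz
    simp only [T]
    rw [g2 z hz, add_zero]

end Pool.Agent.H365R3
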