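import Mathlib

set_option autoImplicit false

open scoped Manifold ContDiff Topology
open Set Filter

noncomputable section

namespace Pool.Agent.H365R3

section Diffeos

variable {E : Type} [NormedAddCommGroup E] [NormedSpace ℝ E] {H : Type} [TopologicalSpace H]
  {I : ModelWithCorners ℝ E H} {M : Type} [TopologicalSpace M] [ChartedSpace H M]

/-- Multiplication of `C¹` diffeomorphisms: `f * g = f ∘ g`. -/
instance d1Mul : Mul (M ≃ₘ^1⟮I, I⟯ M) := ⟨fun f g => g.trans f⟩

/-- The identity diffeomorphism. -/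
instance d1One : One (M ≃ₘ^1⟮I, I⟯ M) := ⟨Diffeomorph.refl I M 1⟩

/-- The inverse diffeomorphism. -/
instance d1Inv : Inv (M ≃ₘ^1⟮I, I⟯ M) := ⟨fun f => f.symm⟩

theorem d1_inv_mul_cancel (f : M ≃ₘ^1⟮I, I⟯ M) : f⁻¹ * f = 1 := by
  apply Diffeomorph.ext
  intro x
  exact f.symm_apply_apply x

/-- The group of `C¹` diffeomorphisms of `M` under composition. -/
instance d1Group : Group (M ≃ₘ^1⟮I, I⟯ M) :=
  Group.ofLeftAxioms (fun _ _ _ => rfl) (fun _ => rfl) d1_inv_mul_cancel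

theorem d1_mul_apply (f g : M ≃ₘ^1⟮I, I⟯ M) (x : M) : (f * g) x = f (g x) := rfl

theorem d1_one_apply (x : M) : (1 : M ≃ₘ^1⟮I, I⟯ M) x = x := rfl

theorem d1_inv_apply (f : M ≃ₘ^1⟮I, I⟯ M) (x : M) : (f⁻¹) x = f.symm x := rfl

/-- The tangent map `Tf : TM → TM` of a `C¹` diffeomorphism, as a continuous map. -/
def tanMap [IsManifold I 1 M] (f : M ≃ₘ^1⟮I, I⟯ M) : C(TangentBundle I M, TangentBundle I M) :=
  ⟨tangentMap I I f, f.contMDiff.continuous_tangentMap le_rfl⟩

/-- The `C¹` topology on `Diff¹(M)`: uniform convergence of the tangent map on compact subsets of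
`TM`, that is, the initial topology for `f ↦ Tf` into `C(TM, TM)` with the compact-open
topology. -/
instance c1Topology [IsManifold I 1 M] : TopologicalSpace (M ≃ₘ^1⟮I, I⟯ M) :=
  TopologicalSpace.induced tanMap ContinuousMap.compactOpen

/-- The nonwandering set `Ω(f)`. -/
def Omega (f : M ≃ₘ^1⟮I, I⟯ M) : Set M :=
  {x | ∀ U ∈ 𝓝 x, ∃ n : ℕ, 1 ≤ n ∧ ((f^[n]) '' U ∩ U).Nonempty}

/-- A continuous family of norms on the tangent spaces of `M`. -/
structure IsFibreNorm [IsManifold I 1 M] (N : TangentBundle I M → ℝ) : Prop where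
  continuous : Continuous N
  pos : ∀ (x : M) (v : TangentSpace I x), v ≠ 0 → 0 < N ⟨x, v⟩
  smul : ∀ (x : M) (c : ℝ) (v : TangentSpace I x), N ⟨x, c • v⟩ = |c| * N ⟨x, v⟩
  add : ∀ (x : M) (v w : TangentSpace I x), N ⟨x, v + w⟩ ≤ N ⟨x, v⟩ + N ⟨x, w⟩

/-- A family of subspaces of the tangent spaces of `M`. -/
def SubFam (I : ModelWithCorners ℝ E H) (M : Type) [TopologicalSpace M] [ChartedSpace H M] : Type :=
  ∀ x : M, Submodule ℝ (TangentSpace I x)

/-- The tangent vector `z` belongs to the family `S`. -/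
def MemFam (S : SubFam I M) (z : TangentBundle I M) : Prop := z.2 ∈ S z.1

/-- Over `Λ` the tangent spaces are the direct sums of `Es` and `Eu`. -/
def IsSplitting (Λ : Set M) (Es Eu : SubFam I M) : Prop := ∀ x ∈ Λ, IsCompl (Es x) (Eu x)

/-- Over `Λ` the tangent map of `f` preserves the family `S`. -/
def InvariantOver (f : M ≃ₘ^1⟮I, I⟯ M) (Λ : Set M) (S : SubFam I M) : Prop :=
  ∀ z : TangentBundle I M, z.1 ∈ Λ → MemFam S z → MemFam S (tangentMap I I f z)

/-- Over `Λ` the iterates of the tangent map of `f` contract the vectors of `S` at least at the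
exponential rate `C * lam ^ n`, in the family of norms `N`. -/
def ContractsOver (f : M ≃ₘ^1⟮I, I⟯ M) (Λ : Set M) (S : SubFam I M) (N : TangentBundle I M → ℝ)
    (C lam : ℝ) : Prop :=
  ∀ x ∈ Λ, ∀ v ∈ S x, ∀ n : ℕ, N ((tangentMap I I f)^[n] ⟨x, v⟩) ≤ C * lam ^ n * N ⟨x, v⟩

/-- Over `Λ` the iterates of the tangent map of `f` expand the vectors of `S` at least at the
inverse of the rate `C * lam ^ n`, in the family of norms `N`. -/
def ExpandsOver (f : M ≃ₘ^1⟮I, I⟯ M) (Λ : Set M) (S : SubFam I M) (N : TangentBundle I M → ℝ)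
    (C lam : ℝ) : Prop :=
  ∀ x ∈ Λ, ∀ v ∈ S x, ∀ n : ℕ, N ⟨x, v⟩ ≤ C * lam ^ n * N ((tangentMap I I f)^[n] ⟨x, v⟩)

/-- The set `Λ` (a compact invariant set in all uses) is hyperbolic for `f`: over `Λ` there is a
`Df`-invariant splitting `TM = Eˢ ⊕ Eᵘ` with `Df` uniformly contracting on `Eˢ` and uniformly
expanding on `Eᵘ`, with respect to a continuous family of norms. (Such a splitting is
automatically continuous on a compact invariant set.) -/
def IsHyperbolicSet [IsManifold I 1 M] (f : M ≃ₘ^1⟮I, I⟯ M) (Λ : Set M) : Prop :=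
  ∃ (N : TangentBundle I M → ℝ) (Es Eu : SubFam I M) (C lam : ℝ),
    IsFibreNorm N ∧ 0 < C ∧ 0 < lam ∧ lam < 1 ∧ IsSplitting Λ Es Eu ∧
    InvariantOver f Λ Es ∧ InvariantOver f Λ Eu ∧ ContractsOver f Λ Es N C lam ∧
    ExpandsOver f Λ Eu N C lam

/-- Axiom A: the nonwandering set is hyperbolic and periodic points are dense in it. -/
def AxiomA [IsManifold I 1 M] (f : M ≃ₘ^1⟮I, I⟯ M) : Prop :=
  IsHyperbolicSet f (Omega f) ∧ Omega f ⊆ closure (Function.periodicPts f)

/-- `Ω(f)` is the disjoint union of the closed invariant transitive sets `Λ 0, …, Λ (k - 1)`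
(the basic sets in the spectral decomposition of `f`). -/
structure IsSpectralDecomposition (f : M ≃ₘ^1⟮I, I⟯ M) {k : ℕ} (Λ : Fin k → Set M) : Prop where
  closed : ∀ i, IsClosed (Λ i)
  invariant : ∀ i, f '' Λ i = Λ i
  transitive : ∀ i, ∃ x ∈ Λ i, Λ i ⊆ closure (range fun n : ℤ => (f ^ n) x)
  disjoint : ∀ i j, i ≠ j → Disjoint (Λ i) (Λ j)
  union : ⋃ i, Λ i = Omega f

/-- The stable set of `Λ`: the points whose forward orbit converges to `Λ`. -/
def StableSet (f : M ≃ₘ^1⟮I, I⟯ M) (Λ : Set M) : Set M :=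
  {x | ∀ U : Set M, IsOpen U → Λ ⊆ U → ∀ᶠ n : ℕ in atTop, f^[n] x ∈ U}

/-- The unstable set of `Λ`: the points whose backward orbit converges to `Λ`. -/
def UnstableSet (f : M ≃ₘ^1⟮I, I⟯ M) (Λ : Set M) : Set M := StableSet f⁻¹ Λ

/-- `f` has no cycles: there is no cyclic sequence of basic sets, each joined to the next one by
an orbit outside `Ω(f)` going from the unstable set of the former to the stable set of the
latter. -/
def NoCycles (f : M ≃ₘ^1⟮I, I⟯ M) : Prop :=
  ∀ (k : ℕ) (Λ : Fin k → Set M), IsSpectralDecomposition f Λ →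
    ¬ ∃ (m : ℕ) (i : ℕ → Fin k), 1 ≤ m ∧ i m = i 0 ∧
      ∀ j < m, ((UnstableSet f (Λ (i j)) ∩ StableSet f (Λ (i (j + 1)))) \ Omega f).Nonempty

/-- The centralizer of `f` in `Diff¹(M)` is trivial: it consists of the powers of `f`. -/
def TrivialCentralizer (f : M ≃ₘ^1⟮I, I⟯ M) : Prop :=
  ∀ g : M ≃ₘ^1⟮I, I⟯ M, g * f = f * g → ∃ n : ℤ, g = f ^ n

end Diffeos

end Pool.Agent.H365R3
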