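import Mathlib
import Pool.Agent.H365R3.Defs

set_option autoImplicit false

open scoped Manifold ContDiff Topology
open Set Filter

noncomputable section

namespace Pool.Agent.H365R3

/-- Convergence in the compact-open topology from continuous convergence. -/
theorem tendsto_compactOpen_of {X Y ι : Type*} [TopologicalSpace X] [TopologicalSpace Y]
    {l : Filter ι} {F : ι → C(X, Y)} {F₀ : C(X, Y)}
    (h : ∀ x, Tendsto (fun p : ι × X => F p.1 p.2) (l ×ˢ 𝓝 x) (𝓝 (F₀ x))) :
    Tendsto F l (𝓝 F₀) := by
  rw [ContinuousMap.tendsto_nhds_compactOpen]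
  intro K hK U hU hKU
  refine hK.induction_on (p := fun S => ∀ᶠ i in l, MapsTo (F i) S U) ?_ ?_ ?_ ?_
  · exact Eventually.of_forall fun f => mapsTo_empty _ _
  · intro s t hst ht
    filter_upwards [ht] with f hf using hf.mono_left hst
  · intro s t hs ht
    filter_upwards [hs, ht] with f hf hf' using hf.union hf'
  · intro x hx
    have h1 := (h x) (hU.mem_nhds (hKU hx))
    rw [mem_map, mem_prod_iff] at h1
    obtain ⟨A, hA, B, hB, hAB⟩ := h1
    refine ⟨B, mem_nhdsWithin_of_mem_nhds hB, ?_⟩
    filter_upwards [hA] with i hi y hy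
    exact hAB (mk_mem_prod hi hy)

/-- The theorem of Arens: inversion is continuous for the compact-open topology. -/
theorem arens {X ι : Type*} [TopologicalSpace X] [T2Space X] [LocallyCompactSpace X]
    [LocallyConnectedSpace X] {l : Filter ι} {F G : ι → C(X, X)} {F₀ G₀ : C(X, X)}
    (hFG : ∀ i x, F i (G i x) = x) (hGF : ∀ i x, G i (F i x) = x)
    (h1 : ∀ x, F₀ (G₀ x) = x) (h2 : ∀ x, G₀ (F₀ x) = x) (h : Tendsto F l (𝓝 F₀)) :
    Tendsto G l (𝓝 G₀) := by
  apply tendsto_compactOpen_of
  intro x
  rw [tendsto_def]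
  intro U' hU'
  obtain ⟨U, hUU', hU, hx⟩ := mem_nhds_iff.1 hU'
  -- choose V
  obtain ⟨V, hVo, hyV, hVU, hVc⟩ := exists_open_between_and_isCompact_closure
    (isCompact_singleton (x := G₀ x)) hU (singleton_subset_iff.2 hx)
  rw [singleton_subset_iff] at hyV
  have hFim : F₀ '' V = G₀ ⁻¹' V := by
    ext z
    constructor
    · rintro ⟨y, hy, rfl⟩; simpa [h2] using hy
    · intro hz; exact ⟨G₀ z, hz, h1 z⟩
  have hfV : IsOpen (F₀ '' V) := by rw [hFim]; exact hVo.preimage G₀.continuous
  have hxV : x ∈ F₀ '' V := ⟨G₀ x, hyV, h1 x⟩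
  obtain ⟨W, hWo, hxW, hWV, hWc⟩ := exists_open_between_and_isCompact_closure
    (isCompact_singleton (x := x)) hfV (singleton_subset_iff.2 hxV)
  rw [singleton_subset_iff] at hxW
  let L := connectedComponentIn W x
  have hLo : IsOpen L := hWo.connectedComponentIn
  have hxL : x ∈ L := mem_connectedComponentIn hxW
  have hLW : L ⊆ W := connectedComponentIn_subset W x
  have hLconn : IsPreconnected L := isPreconnected_connectedComponentIn
  have hbd : IsCompact (closure V \ V) := hVc.diff hVo
  have hclL : closure L ⊆ F₀ '' V := (closure_mono hLW).trans hWV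
  have e1 : ∀ᶠ i in l, MapsTo (F i) {G₀ x} L := by
    refine h.eventually (ContinuousMap.eventually_mapsTo (isCompact_singleton) hLo ?_)
    intro z hz; rw [mem_singleton_iff] at hz; subst hz; rw [h1]; exact hxL
  have e2 : ∀ᶠ i in l, MapsTo (F i) (closure V \ V) (closure L)ᶜ := by
    refine h.eventually (ContinuousMap.eventually_mapsTo hbd isClosed_closure.isOpen_compl ?_)
    intro z hz hzL
    obtain ⟨w, hw, hwz⟩ := hclL hzL
    have : w = z := by rw [← h2 w, hwz, h2]
    exact hz.2 (this ▸ hw)
  rw [mem_prod_iff]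
  refine ⟨_, e1.and e2, L, hLo.mem_nhds hxL, ?_⟩
  rintro ⟨i, y⟩ ⟨⟨hi1, hi2⟩, hy⟩
  have hy1 : F i (G₀ x) ∈ L := hi1 rfl
  have hpre : IsPreconnected (G i '' L) := hLconn.image _ (G i).continuous.continuousOn
  have hsub : G i '' L ⊆ V ∪ (closure V)ᶜ := by
    rintro _ ⟨m, hm, rfl⟩
    by_contra hcon
    rw [mem_union, not_or, mem_compl_iff, not_not] at hcon
    have := hi2 ⟨hcon.2, hcon.1⟩
    rw [hFG] at this
    exact this (subset_closure hm)
  have hmeet : (G i '' L ∩ V).Nonempty := ⟨G₀ x, ⟨F i (G₀ x), hy1, hGF i _⟩, hyV⟩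
  have hfin := hpre.subset_left_of_subset_union hVo isClosed_closure.isOpen_compl
    (disjoint_left.2 fun z hz hz' => hz' (subset_closure hz)) hsub hmeet
  exact hUU' (hVU (subset_closure (hfin ⟨y, hy, rfl⟩)))

section General

variable {E : Type} [NormedAddCommGroup E] [NormedSpace ℝ E] {H : Type} [TopologicalSpace H]
  {I : ModelWithCorners ℝ E H} {M : Type} [TopologicalSpace M] [ChartedSpace H M]

/-- The tangent bundle of a Hausdorff manifold is Hausdorff. -/
theorem t2_tangent [IsManifold I 1 M] [T2Space M] : T2Space (TangentBundle I M) := by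
  constructor
  intro p q hpq
  by_cases h : p.proj = q.proj
  · -- same base point
    let e := trivializationAt E (TangentSpace I : M → Type) p.proj
    have hp : p ∈ e.source := by
      rw [e.mem_source]; exact FiberBundle.mem_baseSet_trivializationAt' p.proj
    have hq : q ∈ e.source := by
      rw [e.mem_source, ← h]; exact FiberBundle.mem_baseSet_trivializationAt' p.proj
    have hne : e p ≠ e q := fun hh => hpq (e.injOn hp hq hh)
    obtain ⟨u, v, hu, hv, hpu, hqv, huv⟩ := t2_separation hne
    refine ⟨e.source ∩ e ⁻¹' u, e.source ∩ e ⁻¹' v, ?_, ?_, ⟨hp, hpu⟩, ⟨hq, hqv⟩, ?_⟩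
    · exact e.continuousOn.isOpen_inter_preimage e.open_source hu
    · exact e.continuousOn.isOpen_inter_preimage e.open_source hv
    · rw [Set.disjoint_left] at huv ⊢
      rintro x ⟨_, hx1⟩ ⟨_, hx2⟩
      exact huv hx1 hx2
  · obtain ⟨u, v, hu, hv, hpu, hqv, huv⟩ := t2_separation h
    have hc : Continuous (Bundle.TotalSpace.proj : TangentBundle I M → M) :=
      FiberBundle.continuous_proj E (TangentSpace I : M → Type)
    refine ⟨_, _, hu.preimage hc, hv.preimage hc, hpu, hqv, huv.preimage _⟩

theorem tanMap_mul [IsManifold I 1 M] (f g : M ≃ₘ^1⟮I, I⟯ M) :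
    tanMap (f * g) = (tanMap f).comp (tanMap g) := by
  ext1 p
  exact congrFun (tangentMap_comp (I := I) (I' := I) (I'' := I) (g := f) (f := g)
    (f.contMDiff.mdifferentiable (by simp)) (g.contMDiff.mdifferentiable (by simp))) p

theorem tanMap_one [IsManifold I 1 M] : tanMap (1 : M ≃ₘ^1⟮I, I⟯ M) = ContinuousMap.id _ := by
  ext1 p
  exact congrFun (tangentMap_id (I := I) (M := M)) p

theorem continuous_tanMap [IsManifold I 1 M] :
    Continuous (tanMap : (M ≃ₘ^1⟮I, I⟯ M) → C(TangentBundle I M, TangentBundle I M)) :=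
  continuous_induced_dom

instance d1TopGroup [IsManifold I ∞ M] [IsManifold I 1 M] [FiniteDimensional ℝ E]
    [LocallyConnectedSpace H] [T2Space M] : IsTopologicalGroup (M ≃ₘ^1⟮I, I⟯ M) := by
  have : T2Space (TangentBundle I M) := t2_tangent
  have : LocallyConnectedSpace (ModelProd H E) :=
    inferInstanceAs (LocallyConnectedSpace (H × E))
  have : LocallyCompactSpace (TangentBundle I M) :=
    Manifold.locallyCompact_of_finiteDimensional (M := TangentBundle I M) I.tangent
  have : LocallyConnectedSpace (TangentBundle I M) :=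
    ChartedSpace.locallyConnectedSpace (ModelProd H E) (TangentBundle I M)
  refine { continuous_mul := ?_, continuous_inv := ?_ }
  · apply continuous_induced_rng.2
    have : (tanMap ∘ fun p : (M ≃ₘ^1⟮I, I⟯ M) × (M ≃ₘ^1⟮I, I⟯ M) => p.1 * p.2)
        = fun p => (tanMap p.1).comp (tanMap p.2) := funext fun p => tanMap_mul p.1 p.2
    rw [this]
    exact (ContinuousMap.continuous_comp' (X := TangentBundle I M) (Y := TangentBundle I M)
      (Z := TangentBundle I M)).comp ((continuous_tanMap.comp continuous_snd).prodMk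
        (continuous_tanMap.comp continuous_fst))
  · apply continuous_induced_rng.2
    rw [continuous_iff_continuousAt]
    intro f₀
    have key : ∀ f : M ≃ₘ^1⟮I, I⟯ M, ∀ x, tanMap f (tanMap f⁻¹ x) = x := by
      intro f x
      have h := tanMap_mul f f⁻¹
      rw [mul_inv_cancel, tanMap_one] at h
      exact (DFunLike.congr_fun h x).symm
    have key2 : ∀ f : M ≃ₘ^1⟮I, I⟯ M, ∀ x, tanMap f⁻¹ (tanMap f x) = x := by
      intro f x
      have h := tanMap_mul f⁻¹ f
      rw [inv_mul_cancel, tanMap_one] at h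
      exact (DFunLike.congr_fun h x).symm
    exact arens (F := fun f : M ≃ₘ^1⟮I, I⟯ M => tanMap f) key key2 (key f₀) (key2 f₀)
      continuous_tanMap.continuousAt

end General

end Pool.Agent.H365R3
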