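import Mathlib
import Pool.Agent.H365R3.Top
import Pool.Agent.H365R3.Ana1

set_option autoImplicit false

open scoped Manifold ContDiff Topology
open Set Filter Bundle

noncomputable section

namespace Pool.Agent.H365R3

/-- A `C¹` chart of `M` with values in the normed space `F`. -/
structure Cht {E : Type} [NormedAddCommGroup E] [NormedSpace ℝ E] {H : Type} [TopologicalSpace H]
    (I : ModelWithCorners ℝ E H) (M : Type) [TopologicalSpace M] [ChartedSpace H M]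
    (F : Type) [NormedAddCommGroup F] [NormedSpace ℝ F] where
  src : Set M
  tgt : Set F
  φ : M → F
  ψ : F → M
  open_src : IsOpen src
  open_tgt : IsOpen tgt
  φ_mem : ∀ x ∈ src, φ x ∈ tgt
  ψ_mem : ∀ z ∈ tgt, ψ z ∈ src
  ψφ : ∀ x ∈ src, ψ (φ x) = x
  φψ : ∀ z ∈ tgt, φ (ψ z) = z
  smooth_φ : ContMDiffOn I 𝓘(ℝ, F) 1 φ src
  smooth_ψ : ContMDiffOn 𝓘(ℝ, F) I 1 ψ tgt

variable {E : Type} [NormedAddCommGroup E] [NormedSpace ℝ E] {H : Type} [TopologicalSpace H]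
  {I : ModelWithCorners ℝ E H} {M : Type} [TopologicalSpace M] [ChartedSpace H M]
  {F : Type} [NormedAddCommGroup F] [NormedSpace ℝ F]

namespace Cht

variable (c : Cht I M F)

theorem φ_at {x : M} (hx : x ∈ c.src) : ContMDiffAt I 𝓘(ℝ, F) 1 c.φ x :=
  (c.smooth_φ x hx).contMDiffAt (c.open_src.mem_nhds hx)

theorem ψ_at {z : F} (hz : z ∈ c.tgt) : ContMDiffAt 𝓘(ℝ, F) I 1 c.ψ z :=
  (c.smooth_ψ z hz).contMDiffAt (c.open_tgt.mem_nhds hz)

theorem φ_inj {x y : M} (hx : x ∈ c.src) (hy : y ∈ c.src) (h : c.φ x = c.φ y) : x = y := by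
  rw [← c.ψφ x hx, h, c.ψφ y hy]

/-- The map induced by `φ` on tangent vectors. -/
def dφ (z : TangentBundle I M) : F × F := (c.φ z.1, (mfderiv I 𝓘(ℝ, F) c.φ z.1 z.2 : F))

/-- The map induced by `ψ` on tangent vectors. -/
def dψ (p : F × F) : TangentBundle I M := ⟨c.ψ p.1, mfderiv 𝓘(ℝ, F) I c.ψ p.1 (p.2 : F)⟩

theorem dψ_dφ [IsManifold I 1 M] (z : TangentBundle I M) (hz : z.1 ∈ c.src) : c.dψ (c.dφ z) = z := by
  have h1 : tangentMap I I (c.ψ ∘ c.φ) z = z := by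
    have e : (c.ψ ∘ c.φ : M → M) =ᶠ[𝓝 z.1] id := by
      filter_upwards [c.open_src.mem_nhds hz] with y hy using c.ψφ y hy
    have e2 : mfderiv I I (c.ψ ∘ c.φ) z.1 = mfderiv I I id z.1 := e.mfderiv_eq
    refine TotalSpace.ext ?_ ?_
    · exact c.ψφ _ hz
    · refine heq_of_eq ?_
      change mfderiv I I (c.ψ ∘ c.φ) z.1 z.2 = z.2
      rw [e2, mfderiv_id]
      rfl
  rw [tangentMap_comp_at z (I' := 𝓘(ℝ, F)) ((c.ψ_at (c.φ_mem _ hz)).mdifferentiableAt one_ne_zero)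
    ((c.φ_at hz).mdifferentiableAt one_ne_zero)] at h1
  exact h1

theorem dφ_dψ [IsManifold I 1 M] (p : F × F) (hp : p.1 ∈ c.tgt) : c.dφ (c.dψ p) = p := by
  have e : (c.φ ∘ c.ψ : F → F) =ᶠ[𝓝 p.1] id := by
    filter_upwards [c.open_tgt.mem_nhds hp] with y hy using c.φψ y hy
  have h1 : mfderiv 𝓘(ℝ, F) 𝓘(ℝ, F) (c.φ ∘ c.ψ) p.1 = mfderiv 𝓘(ℝ, F) 𝓘(ℝ, F) id p.1 := e.mfderiv_eq
  rw [mfderiv_comp p.1 (I' := I) ((c.φ_at (c.ψ_mem _ hp)).mdifferentiableAt one_ne_zero)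
    ((c.ψ_at hp).mdifferentiableAt one_ne_zero), mfderiv_id] at h1
  refine Prod.ext (c.φψ _ hp) ?_
  exact DFunLike.congr_fun h1 p.2

theorem continuousOn_dφ [IsManifold I 1 M] :
    ContinuousOn c.dφ (TotalSpace.proj ⁻¹' c.src) := by
  have h1 : ContinuousOn (tangentMapWithin I 𝓘(ℝ, F) c.φ c.src) (TotalSpace.proj ⁻¹' c.src) :=
    c.smooth_φ.continuousOn_tangentMapWithin le_rfl c.open_src.uniqueMDiffOn
  have h2 : ContinuousOn (fun z => (tangentBundleModelSpaceHomeomorph 𝓘(ℝ, F))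
      (tangentMapWithin I 𝓘(ℝ, F) c.φ c.src z)) (TotalSpace.proj ⁻¹' c.src) :=
    (tangentBundleModelSpaceHomeomorph 𝓘(ℝ, F)).continuous.comp_continuousOn h1
  refine h2.congr ?_
  intro z hz
  beta_reduce
  rw [tangentMapWithin_eq_tangentMap (p := z) (c.open_src.uniqueMDiffOn _ hz)
    ((c.φ_at hz).mdifferentiableAt one_ne_zero)]
  rfl

theorem continuousOn_dψ [IsManifold I 1 M] :
    ContinuousOn c.dψ (Prod.fst ⁻¹' c.tgt) := by
  have h1 : ContinuousOn (tangentMapWithin 𝓘(ℝ, F) I c.ψ c.tgt) (TotalSpace.proj ⁻¹' c.tgt) :=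
    c.smooth_ψ.continuousOn_tangentMapWithin le_rfl c.open_tgt.uniqueMDiffOn
  have h2 : ContinuousOn (fun p : F × F => tangentMapWithin 𝓘(ℝ, F) I c.ψ c.tgt
      ((tangentBundleModelSpaceHomeomorph 𝓘(ℝ, F)).symm p)) (Prod.fst ⁻¹' c.tgt) := by
    refine h1.comp (tangentBundleModelSpaceHomeomorph 𝓘(ℝ, F)).symm.continuous.continuousOn ?_
    intro p hp; exact hp
  refine h2.congr ?_
  intro p hp
  beta_reduce
  rw [tangentMapWithin_eq_tangentMap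
    (p := (tangentBundleModelSpaceHomeomorph 𝓘(ℝ, F)).symm p)
    (c.open_tgt.uniqueMDiffOn p.1 hp)
    ((c.ψ_at hp).mdifferentiableAt one_ne_zero)]
  rfl

/-- The tangent map of `f` in charts. -/
theorem dφ_tangentMap [IsManifold I 1 M] (c' : Cht I M F) (f : M → M) (z : TangentBundle I M)
    (hz : z.1 ∈ c.src) (hfz : f z.1 ∈ c'.src) (hf : ContMDiffAt I I 1 f z.1) :
    c'.dφ (tangentMap I I f z) =
      (c'.φ (f z.1), fderiv ℝ (fun w => c'.φ (f (c.ψ w))) (c.φ z.1) (c.dφ z).2) := by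
  refine Prod.ext rfl ?_
  have hmem : c.φ z.1 ∈ c.tgt := c.φ_mem _ hz
  have hψz : c.ψ (c.φ z.1) = z.1 := c.ψφ _ hz
  have hf' : ContMDiffAt I I 1 f (c.ψ (c.φ z.1)) := by rwa [hψz]
  have hφ' : ContMDiffAt I 𝓘(ℝ, F) 1 c'.φ (f (c.ψ (c.φ z.1))) := by
    rw [hψz]; exact c'.φ_at hfz
  have h1 : fderiv ℝ (fun w => c'.φ (f (c.ψ w))) (c.φ z.1)
      = ((mfderiv I 𝓘(ℝ, F) c'.φ (f (c.ψ (c.φ z.1)))).comp
        ((mfderiv I I f (c.ψ (c.φ z.1))).comp (mfderiv 𝓘(ℝ, F) I c.ψ (c.φ z.1)))) := by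
    rw [← mfderiv_eq_fderiv]
    have e1 : (fun w => c'.φ (f (c.ψ w))) = c'.φ ∘ (f ∘ c.ψ) := rfl
    rw [e1, mfderiv_comp (c.φ z.1) (I' := I) (hφ'.mdifferentiableAt one_ne_zero)
      ((hf'.mdifferentiableAt one_ne_zero).comp _ ((c.ψ_at hmem).mdifferentiableAt one_ne_zero)),
      mfderiv_comp (c.φ z.1) (I' := I) (hf'.mdifferentiableAt one_ne_zero)
      ((c.ψ_at hmem).mdifferentiableAt one_ne_zero)]
    rfl
  have h2 := c.dψ_dφ z hz
  change mfderiv I 𝓘(ℝ, F) c'.φ (f z.1) (mfderiv I I f z.1 z.2) = _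
  rw [h1]
  have h3 : (tangentMap I I f z) = tangentMap I I f (c.dψ (c.dφ z)) := by rw [h2]
  have h4 : c'.dφ (tangentMap I I f z) = c'.dφ (tangentMap I I f (c.dψ (c.dφ z))) := by rw [h2]
  exact congrArg Prod.snd h4

end Cht

end Pool.Agent.H365R3
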