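import Mathlib
import Pool.Agent.H365R3.Chart

set_option autoImplicit false

open scoped Manifold ContDiff Topology
open Set Filter Bundle

noncomputable section

namespace Pool.Agent.H365R3

variable {E : Type} [NormedAddCommGroup E] [NormedSpace ℝ E] {H : Type} [TopologicalSpace H]
  {I : ModelWithCorners ℝ E H} {M : Type} [TopologicalSpace M] [ChartedSpace H M]
  {F : Type} [NormedAddCommGroup F] [NormedSpace ℝ F]

/-- `K` is a `C¹` diffeomorphism of `F` fixing `0`, supported in the ball of radius `ρ` and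
`ε`-close to the identity. -/
structure Sml (ρ ε : ℝ) (K : F ≃ F) : Prop where
  cd : ContDiff ℝ 1 K
  cds : ContDiff ℝ 1 K.symm
  off : ∀ z, ρ ≤ ‖z‖ → K z = z
  small : ∀ z, ‖fderiv ℝ K z - ContinuousLinearMap.id ℝ F‖ ≤ ε
  zero : K 0 = 0

/-- Data allowing to lift `K` to `M` through a chart. -/
structure LiftOK (c : Cht I M F) (K : F ≃ F) : Prop where
  ex : ∃ ρ, Metric.closedBall (0 : F) ρ ⊆ c.tgt ∧ ∀ z, ρ ≤ ‖z‖ → K z = z
  cd : ContDiff ℝ 1 K
  cds : ContDiff ℝ 1 K.symm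

theorem Sml.ok {ρ ε : ℝ} {K : F ≃ F} (h : Sml ρ ε K) (c : Cht I M F)
    (hρ : Metric.closedBall (0 : F) ρ ⊆ c.tgt) : LiftOK c K :=
  ⟨⟨ρ, hρ, h.off⟩, h.cd, h.cds⟩

theorem off_symm {ρ : ℝ} {K : F ≃ F} (h : ∀ z, ρ ≤ ‖z‖ → K z = z) :
    ∀ z, ρ ≤ ‖z‖ → K.symm z = z := by
  intro z hz
  rw [Equiv.symm_apply_eq]; exact (h z hz).symm

theorem norm_lt_of_off {ρ : ℝ} {K : F ≃ F} (h : ∀ z, ρ ≤ ‖z‖ → K z = z) {z : F} (hz : ‖z‖ < ρ) :
    ‖K z‖ < ρ := by
  by_contra hcon
  have h1 := h (K z) (not_lt.1 hcon)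
  have h2 := K.injective h1
  rw [h2] at hcon
  exact hcon hz

theorem norm_le_of_off {ρ r : ℝ} {K : F ≃ F} (h : ∀ z, ρ ≤ ‖z‖ → K z = z) (hr : ρ ≤ r) {z : F}
    (hz : ‖z‖ < r) : ‖K z‖ < r :=
  norm_lt_of_off (fun w hw => h w (hr.trans hw)) hz

open Classical in
/-- The lift of a map of `F` through a chart. -/
def liftF (c : Cht I M F) (K : F → F) (x : M) : M :=
  if x ∈ c.src then c.ψ (K (c.φ x)) else x

theorem liftF_src (c : Cht I M F) (K : F → F) {x : M} (hx : x ∈ c.src) :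
    liftF c K x = c.ψ (K (c.φ x)) := if_pos hx

theorem liftF_not (c : Cht I M F) (K : F → F) {x : M} (hx : x ∉ c.src) :
    liftF c K x = x := if_neg hx

theorem LiftOK.mem {c : Cht I M F} {K : F ≃ F} (h : LiftOK c K) {z : F} (hz : z ∈ c.tgt) :
    K z ∈ c.tgt := by
  obtain ⟨ρ, hρ, hoff⟩ := h.ex
  rcases lt_or_ge ‖z‖ ρ with h1 | h1
  · exact hρ (by simpa using (norm_lt_of_off hoff h1).le)
  · rw [hoff z h1]; exact hz

theorem LiftOK.symm {c : Cht I M F} {K : F ≃ F} (h : LiftOK c K) : LiftOK c K.symm := by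
  obtain ⟨ρ, hρ, hoff⟩ := h.ex
  exact ⟨⟨ρ, hρ, off_symm hoff⟩, h.cds, by simpa using h.cd⟩

theorem liftF_smooth [FiniteDimensional ℝ F] [T2Space M] (c : Cht I M F) {K : F ≃ F}
    (h : LiftOK c K) : ContMDiff I I 1 (liftF c K) := by
  obtain ⟨ρ, hρ, hoff⟩ := h.ex
  intro x
  by_cases hx : x ∈ c.src
  · have e : liftF c K =ᶠ[𝓝 x] fun y => c.ψ (K (c.φ y)) := by
      filter_upwards [c.open_src.mem_nhds hx] with y hy using liftF_src c K hy
    refine ContMDiffAt.congr_of_eventuallyEq ?_ e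
    have h1 := c.φ_at hx
    have h2 : ContMDiffAt 𝓘(ℝ, F) 𝓘(ℝ, F) 1 K (c.φ x) := h.cd.contMDiff.contMDiffAt
    have h3 := c.ψ_at (h.mem (c.φ_mem x hx))
    exact ContMDiffAt.comp x (g := c.ψ) (f := fun y => K (c.φ y)) h3
      (ContMDiffAt.comp x (g := K) (f := c.φ) h2 h1)
  · have hc : IsCompact (c.ψ '' Metric.closedBall (0 : F) ρ) :=
      (isCompact_closedBall (0 : F) ρ).image_of_continuousOn
        (c.smooth_ψ.continuousOn.mono hρ)
    have hx' : x ∈ (c.ψ '' Metric.closedBall (0 : F) ρ)ᶜ := by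
      rintro ⟨z, hz, rfl⟩
      exact hx (c.ψ_mem z (hρ hz))
    have e : liftF c K =ᶠ[𝓝 x] id := by
      filter_upwards [hc.isClosed.isOpen_compl.mem_nhds hx'] with y hy
      by_cases hys : y ∈ c.src
      · rw [liftF_src c K hys]
        have : ρ ≤ ‖c.φ y‖ := by
          by_contra hcon
          exact hy ⟨c.φ y, by simpa using (not_le.1 hcon).le, c.ψφ y hys⟩
        rw [hoff _ this, c.ψφ y hys]; rfl
      · exact liftF_not c K hys
    exact ContMDiffAt.congr_of_eventuallyEq contMDiffAt_id e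

theorem liftF_left (c : Cht I M F) {K : F ≃ F} (h : LiftOK c K) (x : M) :
    liftF c K.symm (liftF c K x) = x := by
  by_cases hx : x ∈ c.src
  · have h1 : K (c.φ x) ∈ c.tgt := h.mem (c.φ_mem x hx)
    rw [liftF_src c K hx, liftF_src c _ (c.ψ_mem _ h1), c.φψ _ h1, K.symm_apply_apply, c.ψφ x hx]
  · rw [liftF_not c K hx, liftF_not c _ hx]

/-- The lift of `K` to a diffeomorphism of `M`. -/
def liftD [FiniteDimensional ℝ F] [T2Space M] (c : Cht I M F) (K : F ≃ F) (h : LiftOK c K) :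
    M ≃ₘ^1⟮I, I⟯ M where
  toFun := liftF c K
  invFun := liftF c K.symm
  left_inv := liftF_left c h
  right_inv x := by
    have := liftF_left c h.symm x
    simpa using this
  contMDiff_toFun := liftF_smooth c h
  contMDiff_invFun := liftF_smooth c h.symm

variable [FiniteDimensional ℝ F] [T2Space M]

theorem liftD_src (c : Cht I M F) {K : F ≃ F} (h : LiftOK c K) {x : M} (hx : x ∈ c.src) :
    liftD c K h x = c.ψ (K (c.φ x)) := liftF_src c K hx

theorem liftD_not (c : Cht I M F) {K : F ≃ F} (h : LiftOK c K) {x : M} (hx : x ∉ c.src) :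
    liftD c K h x = x := liftF_not c K hx

theorem liftD_mem (c : Cht I M F) {K : F ≃ F} (h : LiftOK c K) {x : M} (hx : x ∈ c.src) :
    liftD c K h x ∈ c.src := by
  rw [liftD_src c h hx]
  exact c.ψ_mem _ (h.mem (c.φ_mem x hx))

theorem φ_liftD (c : Cht I M F) {K : F ≃ F} (h : LiftOK c K) {x : M} (hx : x ∈ c.src) :
    c.φ (liftD c K h x) = K (c.φ x) := by
  rw [liftD_src c h hx, c.φψ _ (h.mem (c.φ_mem x hx))]

theorem liftD_off (c : Cht I M F) {K : F ≃ F} (h : LiftOK c K) {x : M}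
    (hx : x ∈ c.src → K (c.φ x) = c.φ x) : liftD c K h x = x := by
  by_cases hs : x ∈ c.src
  · rw [liftD_src c h hs, hx hs, c.ψφ x hs]
  · exact liftD_not c h hs

theorem liftD_inv (c : Cht I M F) {K : F ≃ F} (h : LiftOK c K) :
    (liftD c K h)⁻¹ = liftD c K.symm h.symm := by
  apply Diffeomorph.ext
  intro x
  rfl

theorem tangentMap_of_eventually_id [IsManifold I 1 M] {f : M → M} {z : TangentBundle I M}
    (h : f =ᶠ[𝓝 z.1] id) : tangentMap I I f z = z := by
  have h1 : mfderiv I I f z.1 = mfderiv I I id z.1 := h.mfderiv_eq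
  refine TotalSpace.ext ?_ ?_
  · exact h.self_of_nhds
  · refine heq_of_eq ?_
    change mfderiv I I f z.1 z.2 = z.2
    rw [h1, mfderiv_id]; rfl

/-- Lifts of maps converging to the identity converge to the identity. -/
theorem tendsto_liftD [IsManifold I 1 M] (c : Cht I M F) (ρ : ℝ)
    (hρ : Metric.closedBall (0 : F) ρ ⊆ c.tgt) (K : ℕ → (F ≃ F)) (ε : ℕ → ℝ)
    (hε : Tendsto ε atTop (𝓝 0)) (h : ∀ n, Sml ρ (ε n) (K n)) :
    Tendsto (fun n => liftD c (K n) ((h n).ok c hρ)) atTop (𝓝 (1 : M ≃ₘ^1⟮I, I⟯ M)) := by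
  rw [nhds_induced, tendsto_comap_iff, tanMap_one]
  apply tendsto_compactOpen_of
  intro z
  have hprojc : Continuous (TotalSpace.proj : TangentBundle I M → M) :=
    FiberBundle.continuous_proj E (TangentSpace I : M → Type)
  by_cases hz : z.1 ∈ c.src
  · have hopen : IsOpen (TotalSpace.proj ⁻¹' c.src : Set (TangentBundle I M)) :=
      c.open_src.preimage hprojc
    have hcφ : ContinuousAt c.dφ z := c.continuousOn_dφ.continuousAt (hopen.mem_nhds hz)
    have hopen2 : IsOpen (Prod.fst ⁻¹' c.tgt : Set (F × F)) := c.open_tgt.preimage continuous_fst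
    have hmem2 : c.dφ z ∈ (Prod.fst ⁻¹' c.tgt : Set (F × F)) := c.φ_mem _ hz
    have hcψ : ContinuousAt c.dψ (c.dφ z) := c.continuousOn_dψ.continuousAt (hopen2.mem_nhds hmem2)
    have hform : ∀ n (w : TangentBundle I M), w.1 ∈ c.src →
        tangentMap I I (liftD c (K n) ((h n).ok c hρ)) w =
          c.dψ (K n (c.dφ w).1, fderiv ℝ (K n) (c.dφ w).1 (c.dφ w).2) := by
      intro n w hw
      have hok := (h n).ok c hρ
      have h1 := c.dφ_tangentMap c (liftD c (K n) hok) w hw (liftD_mem c hok hw)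
        (liftD c (K n) hok).contMDiff.contMDiffAt
      have h2 : fderiv ℝ (fun y => c.φ (liftD c (K n) hok (c.ψ y))) (c.φ w.1)
          = fderiv ℝ (K n) (c.φ w.1) := by
        apply Filter.EventuallyEq.fderiv_eq
        filter_upwards [c.open_tgt.mem_nhds (c.φ_mem _ hw)] with y hy
        rw [φ_liftD c hok (c.ψ_mem y hy), c.φψ y hy]
      rw [h2, φ_liftD c hok hw] at h1
      have h3 := c.dψ_dφ (tangentMap I I (liftD c (K n) hok) w) (liftD_mem c hok hw)
      rw [← h3, h1]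
      rfl
    have hlim : Tendsto (fun p : ℕ × TangentBundle I M =>
        ((K p.1 (c.dφ p.2).1, fderiv ℝ (K p.1) (c.dφ p.2).1 (c.dφ p.2).2) : F × F))
        (atTop ×ˢ 𝓝 z) (𝓝 (c.dφ z)) := by
      have hsnd : Tendsto (fun p : ℕ × TangentBundle I M => c.dφ p.2) (atTop ×ˢ 𝓝 z)
          (𝓝 (c.dφ z)) := hcφ.tendsto.comp tendsto_snd
      have hfst : Tendsto (fun p : ℕ × TangentBundle I M => ε p.1) (atTop ×ˢ 𝓝 z) (𝓝 0) :=
        hε.comp tendsto_fst
      have a1 : Tendsto (fun p : ℕ × TangentBundle I M => (c.dφ p.2).1) (atTop ×ˢ 𝓝 z)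
          (𝓝 (c.dφ z).1) := (continuous_fst.tendsto _).comp hsnd
      have a2 : Tendsto (fun p : ℕ × TangentBundle I M => (c.dφ p.2).2) (atTop ×ˢ 𝓝 z)
          (𝓝 (c.dφ z).2) := (continuous_snd.tendsto _).comp hsnd
      have b1 : Tendsto (fun p : ℕ × TangentBundle I M => K p.1 (c.dφ p.2).1 - (c.dφ p.2).1)
          (atTop ×ˢ 𝓝 z) (𝓝 0) := by
        refine squeeze_zero_norm (a := fun p : ℕ × TangentBundle I M => ε p.1 * ‖(c.dφ p.2).1‖)
          ?_ ?_
        · intro p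
          have := norm_image_sub_sub_le (K p.1) ((h p.1).cd.differentiable one_ne_zero) (ε p.1)
            (h p.1).small (c.dφ p.2).1 0
          simpa [(h p.1).zero] using this
        · simpa using hfst.mul a1.norm
      have b2 : Tendsto (fun p : ℕ × TangentBundle I M =>
          fderiv ℝ (K p.1) (c.dφ p.2).1 (c.dφ p.2).2 - (c.dφ p.2).2)
          (atTop ×ˢ 𝓝 z) (𝓝 0) := by
        refine squeeze_zero_norm (a := fun p : ℕ × TangentBundle I M => ε p.1 * ‖(c.dφ p.2).2‖)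
          ?_ ?_
        · intro p
          have h1 := (h p.1).small (c.dφ p.2).1
          have h2 := (fderiv ℝ (K p.1) (c.dφ p.2).1 - ContinuousLinearMap.id ℝ F).le_of_opNorm_le
            h1 (c.dφ p.2).2
          simpa using h2
        · simpa using hfst.mul a2.norm
      have c1 := b1.add a1
      have c2 := b2.add a2
      simp only [sub_add_cancel, zero_add] at c1 c2
      exact c1.prodMk_nhds c2
    have hfin := hcψ.tendsto.comp hlim
    rw [c.dψ_dφ z hz] at hfin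
    refine hfin.congr' ?_
    have : ∀ᶠ p : ℕ × TangentBundle I M in atTop ×ˢ 𝓝 z, p.2.1 ∈ c.src :=
      tendsto_snd.eventually (hopen.mem_nhds hz)
    filter_upwards [this] with p hp
    exact (hform p.1 p.2 hp).symm
  · have hc : IsCompact (c.ψ '' Metric.closedBall (0 : F) ρ) :=
      (isCompact_closedBall (0 : F) ρ).image_of_continuousOn
        (c.smooth_ψ.continuousOn.mono hρ)
    have hx' : z.1 ∈ (c.ψ '' Metric.closedBall (0 : F) ρ)ᶜ := by
      rintro ⟨w, hw, hwz⟩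
      exact hz (hwz ▸ c.ψ_mem w (hρ hw))
    have hopen : IsOpen (TotalSpace.proj ⁻¹' (c.ψ '' Metric.closedBall (0 : F) ρ)ᶜ :
        Set (TangentBundle I M)) := hc.isClosed.isOpen_compl.preimage hprojc
    have : ∀ᶠ p : ℕ × TangentBundle I M in atTop ×ˢ 𝓝 z,
        p.2 ∈ (TotalSpace.proj ⁻¹' (c.ψ '' Metric.closedBall (0 : F) ρ)ᶜ :
        Set (TangentBundle I M)) := tendsto_snd.eventually (hopen.mem_nhds hx')
    have hsnd : Tendsto (fun p : ℕ × TangentBundle I M => p.2) (atTop ×ˢ 𝓝 z) (𝓝 z) := tendsto_snd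
    refine hsnd.congr' ?_
    filter_upwards [this] with p hp
    symm
    apply tangentMap_of_eventually_id
    filter_upwards [hc.isClosed.isOpen_compl.mem_nhds hp] with y hy
    apply liftD_off
    intro hys
    apply (h p.1).off
    by_contra hcon
    exact hy ⟨c.φ y, by simpa using (not_le.1 hcon).le, c.ψφ y hys⟩

end Pool.Agent.H365R3
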