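import Mathlib
import Pool.Agent.H365R3.Lift

set_option autoImplicit false

open scoped Manifold ContDiff Topology
open Set Filter Bundle

noncomputable section

namespace Pool.Agent.H365R3

variable {E : Type} [NormedAddCommGroup E] [NormedSpace ℝ E] {H : Type} [TopologicalSpace H]
  {I : ModelWithCorners ℝ E H} {M : Type} [TopologicalSpace M] [ChartedSpace H M]
  {F : Type} [NormedAddCommGroup F] [NormedSpace ℝ F]

theorem d1_pow_apply (f : M ≃ₘ^1⟮I, I⟯ M) (n : ℕ) (x : M) : (f ^ n) x = f^[n] x := by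
  induction n generalizing x with
  | zero => rfl
  | succ n ih => rw [pow_succ, d1_mul_apply, ih, Function.iterate_succ_apply]

theorem d1_inv_self (f : M ≃ₘ^1⟮I, I⟯ M) (x : M) : f (f⁻¹ x) = x := f.apply_symm_apply x

theorem d1_self_inv (f : M ≃ₘ^1⟮I, I⟯ M) (x : M) : f⁻¹ (f x) = x := f.symm_apply_apply x

theorem iter_inv (f : M ≃ₘ^1⟮I, I⟯ M) (n : ℕ) (x : M) : f^[n] ((⇑f⁻¹)^[n] x) = x := by
  induction n generalizing x with
  | zero => rfl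
  | succ n ih =>
    rw [Function.iterate_succ_apply', Function.iterate_succ_apply, ih, d1_inv_self]

theorem inv_iter (f : M ≃ₘ^1⟮I, I⟯ M) (n : ℕ) (x : M) : (⇑f⁻¹)^[n] (f^[n] x) = x := by
  induction n generalizing x with
  | zero => rfl
  | succ n ih =>
    rw [Function.iterate_succ_apply', Function.iterate_succ_apply, ih, d1_self_inv]

theorem Omega_inv (f : M ≃ₘ^1⟮I, I⟯ M) : Omega f⁻¹ = Omega f := by
  have key : ∀ g : M ≃ₘ^1⟮I, I⟯ M, Omega g ⊆ Omega g⁻¹ := by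
    intro g x hx U hU
    obtain ⟨n, hn, y, ⟨z, hz, hzy⟩, hy⟩ := hx U hU
    refine ⟨n, hn, z, ⟨y, hy, ?_⟩, hz⟩
    rw [← hzy]; exact inv_iter g n z
  refine Subset.antisymm ?_ (key f)
  have := key f⁻¹
  rwa [inv_inv] at this

/-- `c.ψ 0` is an attracting fixed point of `f`: `f` contracts the closed ball of radius `r`
in the chart `c`. -/
structure SinkAt (c : Cht I M F) (f : M ≃ₘ^1⟮I, I⟯ M) (k r : ℝ) : Prop where
  hk0 : 0 < k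
  hk1 : k < 1
  hr : 0 < r
  sub : Metric.closedBall (0 : F) r ⊆ c.tgt
  fix : f (c.ψ 0) = c.ψ 0
  src : ∀ z, ‖z‖ ≤ r → f (c.ψ z) ∈ c.src
  lip : ∀ z z', ‖z‖ ≤ r → ‖z'‖ ≤ r → ‖c.φ (f (c.ψ z)) - c.φ (f (c.ψ z'))‖ ≤ k * ‖z - z'‖

/-- The closed disc of radius `ρ` in the chart `c`. -/
def disk (c : Cht I M F) (ρ : ℝ) : Set M := {x | x ∈ c.src ∧ ‖c.φ x‖ ≤ ρ}

theorem disk_eq (c : Cht I M F) {ρ : ℝ} (h : Metric.closedBall (0 : F) ρ ⊆ c.tgt) :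
    disk c ρ = c.ψ '' Metric.closedBall (0 : F) ρ := by
  ext x
  constructor
  · rintro ⟨h1, h2⟩
    exact ⟨c.φ x, by simpa using h2, c.ψφ x h1⟩
  · rintro ⟨z, hz, rfl⟩
    exact ⟨c.ψ_mem z (h hz), by rw [c.φψ z (h hz)]; simpa using hz⟩

theorem disk_mono (c : Cht I M F) {ρ ρ' : ℝ} (h : ρ ≤ ρ') : disk c ρ ⊆ disk c ρ' :=
  fun _ hx => ⟨hx.1, hx.2.trans h⟩

namespace SinkAt

variable {c : Cht I M F} {f : M ≃ₘ^1⟮I, I⟯ M} {k r : ℝ}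

theorem zero_mem (h : SinkAt c f k r) : (0 : F) ∈ c.tgt := h.sub (by simp [h.hr.le])

theorem tgt (h : SinkAt c f k r) {z : F} (hz : ‖z‖ ≤ r) : z ∈ c.tgt := h.sub (by simpa using hz)

theorem φp (h : SinkAt c f k r) : c.φ (c.ψ 0) = 0 := c.φψ 0 h.zero_mem

theorem p_src (h : SinkAt c f k r) : c.ψ 0 ∈ c.src := c.ψ_mem 0 h.zero_mem

theorem eq_p (h : SinkAt c f k r) {x : M} (hx : x ∈ c.src) (h0 : c.φ x = 0) : x = c.ψ 0 := by
  rw [← c.ψφ x hx, h0]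

theorem step (h : SinkAt c f k r) {x : M} (hx : x ∈ c.src) (hr : ‖c.φ x‖ ≤ r) :
    f x ∈ c.src ∧ ‖c.φ (f x)‖ ≤ k * ‖c.φ x‖ := by
  have h1 := h.src (c.φ x) hr
  rw [c.ψφ x hx] at h1
  refine ⟨h1, ?_⟩
  have h2 := h.lip (c.φ x) 0 hr (by simp [h.hr.le])
  rw [c.ψφ x hx, h.fix, h.φp, sub_zero, sub_zero] at h2
  exact h2

theorem iter (h : SinkAt c f k r) {x : M} (hx : x ∈ c.src) (hr : ‖c.φ x‖ ≤ r) (n : ℕ) :
    f^[n] x ∈ c.src ∧ ‖c.φ (f^[n] x)‖ ≤ k ^ n * ‖c.φ x‖ ∧ ‖c.φ (f^[n] x)‖ ≤ ‖c.φ x‖ := by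
  induction n with
  | zero => exact ⟨hx, by simp, le_rfl⟩
  | succ n ih =>
    obtain ⟨h1, h2, h3⟩ := ih
    rw [Function.iterate_succ_apply']
    obtain ⟨h4, h5⟩ := h.step h1 (h3.trans hr)
    refine ⟨h4, ?_, ?_⟩
    · calc _ ≤ k * ‖c.φ (f^[n] x)‖ := h5
        _ ≤ k * (k ^ n * ‖c.φ x‖) := mul_le_mul_of_nonneg_left h2 h.hk0.le
        _ = k ^ (n + 1) * ‖c.φ x‖ := by ring
    · calc _ ≤ k * ‖c.φ (f^[n] x)‖ := h5
        _ ≤ 1 * ‖c.φ (f^[n] x)‖ := mul_le_mul_of_nonneg_right h.hk1.le (norm_nonneg _)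
        _ ≤ ‖c.φ x‖ := by rw [one_mul]; exact h3

theorem maps_disk (h : SinkAt c f k r) {ρ : ℝ} (hρ : ρ ≤ r) {x : M} (hx : x ∈ disk c ρ) :
    f x ∈ disk c ρ := by
  obtain ⟨h1, h2⟩ := h.step hx.1 (hx.2.trans hρ)
  refine ⟨h1, h2.trans ?_⟩
  have := mul_le_mul_of_nonneg_right h.hk1.le (norm_nonneg (c.φ x))
  linarith [hx.2]

theorem iter_disk (h : SinkAt c f k r) {ρ : ℝ} (hρ : ρ ≤ r) {x : M} (hx : x ∈ disk c ρ) (n : ℕ) :
    f^[n] x ∈ disk c ρ := by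
  obtain ⟨h1, h2, h3⟩ := h.iter hx.1 (hx.2.trans hρ) n
  exact ⟨h1, h3.trans hx.2⟩

theorem sub' (h : SinkAt c f k r) {ρ : ℝ} (hρ : ρ ≤ r) : Metric.closedBall (0 : F) ρ ⊆ c.tgt :=
  (Metric.closedBall_subset_closedBall hρ).trans h.sub

theorem disk_nhds (h : SinkAt c f k r) {ρ : ℝ} (hρ : 0 < ρ) : disk c ρ ∈ 𝓝 (c.ψ 0) := by
  have h1 : ContinuousAt c.φ (c.ψ 0) := (c.φ_at h.p_src).continuousAt
  have h2 : ∀ᶠ x in 𝓝 (c.ψ 0), ‖c.φ x‖ < ρ := by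
    have := h1.norm
    refine this.eventually_lt continuousAt_const ?_
    rw [h.φp]; simpa using hρ
  filter_upwards [h2, c.open_src.mem_nhds h.p_src] with x hx hx' using ⟨hx', hx.le⟩

theorem omega (h : SinkAt c f k r) {x : M} (hx : x ∈ c.src) (hr : ‖c.φ x‖ < r)
    (hΩ : x ∈ Omega f) : x = c.ψ 0 := by
  by_contra hne
  have hpos : 0 < ‖c.φ x‖ := by
    rw [norm_pos_iff]; intro h0; exact hne (h.eq_p hx h0)
  let s := ‖c.φ x‖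
  have hs : 0 < s := hpos
  -- s1 < s < s2 < r with k * s2 < s1
  obtain ⟨s2, hs2, hs2r, hks2⟩ : ∃ s2, s < s2 ∧ s2 ≤ r ∧ k * s2 < s := by
    refine ⟨min r (s * ((1 + 1 / k) / 2)), ?_, min_le_left _ _, ?_⟩
    · refine lt_min hr ?_
      have : 1 < 1 / k := by rw [lt_div_iff₀ h.hk0]; linarith [h.hk1]
      nlinarith
    · calc k * min r (s * ((1 + 1 / k) / 2)) ≤ k * (s * ((1 + 1 / k) / 2)) :=
            mul_le_mul_of_nonneg_left (min_le_right _ _) h.hk0.le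
        _ = s * ((k + 1) / 2) := by have := h.hk0.ne'; field_simp
        _ < s := by nlinarith [h.hk1]
  have hU : {y | y ∈ c.src ∧ (k * s2 < ‖c.φ y‖ ∧ ‖c.φ y‖ < s2)} ∈ 𝓝 x := by
    have h1 : ContinuousAt (fun y => ‖c.φ y‖) x := (c.φ_at hx).continuousAt.norm
    have h2 : ∀ᶠ y in 𝓝 x, k * s2 < ‖c.φ y‖ := continuousAt_const.eventually_lt h1 hks2
    have h3 : ∀ᶠ y in 𝓝 x, ‖c.φ y‖ < s2 := h1.eventually_lt continuousAt_const hs2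
    filter_upwards [c.open_src.mem_nhds hx, h2, h3] with y a b d using ⟨a, b, d⟩
  obtain ⟨n, hn, y, ⟨z, hz, hzy⟩, hy⟩ := hΩ _ hU
  obtain ⟨h1, h2, h3⟩ := h.iter hz.1 (hz.2.2.le.trans hs2r) n
  rw [hzy] at h2
  have h4 : k ^ n ≤ k := by
    calc k ^ n ≤ k ^ 1 := pow_le_pow_of_le_one h.hk0.le h.hk1.le hn
      _ = k := pow_one k
  have h5 : k ^ n * ‖c.φ z‖ ≤ k * s2 :=
    mul_le_mul h4 hz.2.2.le (norm_nonneg _) h.hk0.le
  linarith [hy.2.1]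

theorem back (h : SinkAt c f k r) {x : M} (hx : ∀ n : ℕ, (⇑f⁻¹)^[n] x ∈ disk c r) :
    x = c.ψ 0 := by
  have h0 := hx 0
  refine h.eq_p h0.1 ?_
  rw [← norm_le_zero_iff]
  have h1 : ∀ n : ℕ, ‖c.φ x‖ ≤ k ^ n * r := by
    intro n
    obtain ⟨-, h2, -⟩ := h.iter (hx n).1 (hx n).2 n
    rw [iter_inv] at h2
    exact h2.trans (mul_le_mul_of_nonneg_left (hx n).2 (pow_nonneg h.hk0.le n))
  have h2 : Tendsto (fun n : ℕ => k ^ n * r) atTop (𝓝 (0 * r)) :=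
    (tendsto_pow_atTop_nhds_zero_of_lt_one h.hk0.le h.hk1).mul_const r
  rw [zero_mul] at h2
  exact ge_of_tendsto' h2 h1

theorem disk_closed [FiniteDimensional ℝ F] [T2Space M] (h : SinkAt c f k r) {ρ : ℝ}
    (hρ : ρ ≤ r) : IsClosed (disk c ρ) := by
  rw [disk_eq c (h.sub' hρ)]
  exact ((isCompact_closedBall (0 : F) ρ).image_of_continuousOn
    (c.smooth_ψ.continuousOn.mono (h.sub' hρ))).isClosed

end SinkAt

end Pool.Agent.H365R3
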