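import Mathlib
import Pool.Agent.H365R3.Sink

set_option autoImplicit false

open scoped Manifold ContDiff Topology
open Set Filter Bundle

noncomputable section

namespace Pool.Agent.H365R3

variable {E : Type} [NormedAddCommGroup E] [NormedSpace ℝ E] {H : Type} [TopologicalSpace H]
  {I : ModelWithCorners ℝ E H} {M : Type} [TopologicalSpace M] [ChartedSpace H M]

/-- `C` is a trapping neighbourhood of the attracting fixed point `p` of `f`. -/
structure Attr (f : M ≃ₘ^1⟮I, I⟯ M) (p : M) (C : Set M) : Prop where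
  closed : IsClosed C
  nhds : C ∈ 𝓝 p
  maps : ∀ x ∈ C, f x ∈ C
  fix : f p = p
  omega : ∀ x ∈ C, x ∈ Omega f → x = p
  back : ∀ x, (∀ n : ℕ, (⇑f⁻¹)^[n] x ∈ C) → x = p

theorem Attr.iter {f : M ≃ₘ^1⟮I, I⟯ M} {p : M} {C : Set M} (h : Attr f p C) {x : M} (hx : x ∈ C)
    (n : ℕ) : f^[n] x ∈ C := by
  induction n generalizing x with
  | zero => exact hx
  | succ n ih => rw [Function.iterate_succ_apply]; exact ih (h.maps x hx)

theorem omega_of_fix {f : M ≃ₘ^1⟮I, I⟯ M} {p : M} (h : f p = p) : p ∈ Omega f := by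
  intro U hU
  exact ⟨1, le_rfl, p, ⟨p, mem_of_mem_nhds hU, h⟩, mem_of_mem_nhds hU⟩

theorem omega_map {f : M ≃ₘ^1⟮I, I⟯ M} {x : M} (h : x ∈ Omega f) : f x ∈ Omega f := by
  intro U hU
  have h1 : f ⁻¹' U ∈ 𝓝 x := f.contMDiff.continuous.continuousAt hU
  obtain ⟨n, hn, y, ⟨z, hz, hzy⟩, hy⟩ := h _ h1
  refine ⟨n, hn, f y, ⟨f z, hz, ?_⟩, hy⟩
  rw [← hzy]
  exact (Function.iterate_succ_apply f n z).symm.trans (Function.iterate_succ_apply' f n z)

theorem omega_map_inv {f : M ≃ₘ^1⟮I, I⟯ M} {x : M} (h : x ∈ Omega f) : f⁻¹ x ∈ Omega f := by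
  rw [← Omega_inv] at h ⊢
  exact omega_map h

theorem omega_iter {f : M ≃ₘ^1⟮I, I⟯ M} {x : M} (h : x ∈ Omega f) (n : ℕ) : f^[n] x ∈ Omega f := by
  induction n with
  | zero => exact h
  | succ n ih => rw [Function.iterate_succ_apply']; exact omega_map ih

theorem omega_of_iter {f : M ≃ₘ^1⟮I, I⟯ M} {x : M} {n : ℕ} (h : f^[n] x ∈ Omega f) :
    x ∈ Omega f := by
  have h1 : (⇑f⁻¹)^[n] (f^[n] x) ∈ Omega f := by
    rw [← Omega_inv] at h ⊢
    exact omega_iter h n
  rwa [inv_iter] at h1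

theorem iter_fix {f : M ≃ₘ^1⟮I, I⟯ M} {p : M} (h : f p = p) (n : ℕ) : f^[n] p = p :=
  Function.iterate_fixed h n

theorem inv_fix {f : M ≃ₘ^1⟮I, I⟯ M} {p : M} (h : f p = p) : f⁻¹ p = p := by
  conv_lhs => rw [← h]
  exact d1_self_inv f p

/-- Two diffeomorphisms with the same trapping regions that agree elsewhere. -/
structure Pair (f f' : M ≃ₘ^1⟮I, I⟯ M) (p q : M) (C D : Set M) : Prop where
  hp : Attr f p C
  hp' : Attr f' p C
  hq : Attr f⁻¹ q D
  hq' : Attr f'⁻¹ q D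
  disj : Disjoint C D
  eq : ∀ x, x ∉ C → x ∉ D → f' x = f x

namespace Pair

variable {f f' : M ≃ₘ^1⟮I, I⟯ M} {p q : M} {C D : Set M}

theorem symm (h : Pair f f' p q C D) : Pair f' f p q C D :=
  ⟨h.hp', h.hp, h.hq', h.hq, h.disj, fun x h1 h2 => (h.eq x h1 h2).symm⟩

theorem fixq (h : Pair f f' p q C D) : f q = q := by
  have := inv_fix h.hq.fix
  rwa [inv_inv] at this

theorem D_omega (h : Pair f f' p q C D) {x : M} (hx : x ∈ D) (hΩ : x ∈ Omega f) : x = q :=
  h.hq.omega x hx (by rwa [Omega_inv])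

theorem off_C (h : Pair f f' p q C D) {x : M} {n j : ℕ} (hj : j ≤ n) (hx : f^[n] x ∉ C) :
    f^[j] x ∉ C := by
  intro hc
  apply hx
  have := h.hp.iter hc (n - j)
  rwa [← Function.iterate_add_apply, Nat.sub_add_cancel hj] at this

theorem off_D (h : Pair f f' p q C D) {x : M} {j : ℕ} (hx : x ∉ D) : f^[j] x ∉ D := by
  intro hc
  apply hx
  have := h.hq.iter hc j
  rwa [inv_iter] at this

theorem iter_eq (h : Pair f f' p q C D) {x : M} {n : ℕ}
    (hx : ∀ j < n, f^[j] x ∉ C ∧ f^[j] x ∉ D) : f'^[n] x = f^[n] x := by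
  induction n with
  | zero => rfl
  | succ n ih =>
    rw [Function.iterate_succ_apply', Function.iterate_succ_apply',
      ih fun j hj => hx j (Nat.lt_succ_of_lt hj)]
    exact h.eq _ (hx n (Nat.lt_succ_self n)).1 (hx n (Nat.lt_succ_self n)).2

theorem omega_sub (h : Pair f f' p q C D) : Omega f ⊆ Omega f' := by
  intro x hx
  by_cases hC : x ∈ C
  · rw [h.hp.omega x hC hx]; exact omega_of_fix h.hp'.fix
  by_cases hD : x ∈ D
  · rw [h.D_omega hD hx]; exact omega_of_fix h.symm.fixq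
  intro U hU
  have hV : U ∩ (Cᶜ ∩ Dᶜ) ∈ 𝓝 x := inter_mem hU (inter_mem
    (h.hp.closed.isOpen_compl.mem_nhds hC) (h.hq.closed.isOpen_compl.mem_nhds hD))
  obtain ⟨n, hn, y, ⟨z, hz, hzy⟩, hy⟩ := hx _ hV
  refine ⟨n, hn, y, ⟨z, hz.1, ?_⟩, hy.1⟩
  rw [← hzy]
  refine h.iter_eq fun j hj => ⟨h.off_C hj.le ?_, h.off_D hz.2.2⟩
  rw [hzy]; exact hy.2.1

theorem omega_eq (h : Pair f f' p q C D) : Omega f' = Omega f :=
  Subset.antisymm h.symm.omega_sub h.omega_sub

/-- On the nonwandering set the maps agree. -/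
theorem eq_omega (h : Pair f f' p q C D) {x : M} (hx : x ∈ Omega f) : f' x = f x := by
  by_cases hC : x ∈ C
  · rw [h.hp.omega x hC hx, h.hp'.fix, h.hp.fix]
  by_cases hD : x ∈ D
  · rw [h.D_omega hD hx, h.fixq, h.symm.fixq]
  exact h.eq x hC hD

theorem eq_omega_inv (h : Pair f f' p q C D) {x : M} (hx : x ∈ Omega f) : f'⁻¹ x = f⁻¹ x := by
  have h1 := h.eq_omega (omega_map_inv hx)
  rw [d1_inv_self] at h1
  conv_lhs => rw [← h1]
  exact d1_self_inv f' _

theorem iter_omega (h : Pair f f' p q C D) {x : M} (hx : x ∈ Omega f) (n : ℕ) :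
    f'^[n] x = f^[n] x := by
  induction n with
  | zero => rfl
  | succ n ih =>
    rw [Function.iterate_succ_apply', Function.iterate_succ_apply', ih]
    exact h.eq_omega (omega_iter hx n)

theorem zpow_omega (h : Pair f f' p q C D) {x : M} (hx : x ∈ Omega f) (n : ℤ) :
    (f' ^ n) x = (f ^ n) x := by
  obtain ⟨m, rfl | rfl⟩ := n.eq_nat_or_neg
  · rw [zpow_natCast, zpow_natCast, d1_pow_apply, d1_pow_apply, h.iter_omega hx]
  · rw [zpow_neg, zpow_neg, zpow_natCast, zpow_natCast, ← inv_pow, ← inv_pow, d1_pow_apply,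
      d1_pow_apply]
    induction m with
    | zero => rfl
    | succ n ih =>
      rw [Function.iterate_succ_apply', Function.iterate_succ_apply', ih]
      refine h.eq_omega_inv ?_
      rw [← Omega_inv] at hx ⊢
      exact omega_iter hx n

theorem per_sub (h : Pair f f' p q C D) : Function.periodicPts f ⊆ Function.periodicPts f' := by
  rintro x ⟨n, hn, hx⟩
  refine ⟨n, hn, ?_⟩
  have hΩ : x ∈ Omega f := by
    intro U hU
    exact ⟨n, hn, x, ⟨x, mem_of_mem_nhds hU, hx⟩, mem_of_mem_nhds hU⟩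
  have := h.iter_omega hΩ n
  rw [Function.IsPeriodicPt, Function.IsFixedPt, this]
  exact hx

theorem omega_zpow {f : M ≃ₘ^1⟮I, I⟯ M} {x : M} (hx : x ∈ Omega f) (n : ℤ) :
    (f ^ n) x ∈ Omega f := by
  obtain ⟨m, rfl | rfl⟩ := n.eq_nat_or_neg
  · rw [zpow_natCast, d1_pow_apply]; exact omega_iter hx m
  · rw [zpow_neg, zpow_natCast, ← inv_pow, d1_pow_apply]
    rw [← Omega_inv] at hx ⊢
    exact omega_iter hx m

theorem spectral (h : Pair f f' p q C D) {k : ℕ} {Λ : Fin k → Set M}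
    (hS : IsSpectralDecomposition f' Λ) : IsSpectralDecomposition f Λ := by
  have hsub : ∀ i, Λ i ⊆ Omega f' := fun i => by rw [← hS.union]; exact subset_iUnion _ i
  refine ⟨hS.closed, fun i => ?_, fun i => ?_, hS.disjoint, ?_⟩
  · conv_rhs => rw [← hS.invariant i]
    exact image_congr fun x hx => h.symm.eq_omega (hsub i hx)
  · obtain ⟨x, hx, hx2⟩ := hS.transitive i
    refine ⟨x, hx, ?_⟩
    have : (fun n : ℤ => (f ^ n) x) = fun n : ℤ => (f' ^ n) x :=
      funext fun n => h.symm.zpow_omega (hsub i hx) n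
    rw [this]; exact hx2
  · rw [hS.union, h.omega_eq]

theorem single [T1Space M] {f : M ≃ₘ^1⟮I, I⟯ M} {k : ℕ} {Λ : Fin k → Set M}
    (hS : IsSpectralDecomposition f Λ) {p : M} {C : Set M} (hC : C ∈ 𝓝 p) (hfix : f p = p)
    (homega : ∀ x ∈ C, x ∈ Omega f → x = p) {i : Fin k} (hp : p ∈ Λ i) : Λ i = {p} := by
  have hsub : Λ i ⊆ Omega f := by rw [← hS.union]; exact subset_iUnion _ i
  obtain ⟨x, hx, hx2⟩ := hS.transitive i
  obtain ⟨y, hy1, n, hn⟩ := mem_closure_iff_nhds.1 (hx2 hp) C hC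
  have hn' : (f ^ n) x = y := hn
  have h1 : (f ^ n) x = p := by
    rw [hn']; exact homega y hy1 (hn' ▸ omega_zpow (hsub hx) n)
  have hfixz : ∀ m : ℤ, (f ^ m) p = p := by
    intro m
    obtain ⟨l, rfl | rfl⟩ := m.eq_nat_or_neg
    · rw [zpow_natCast, d1_pow_apply]; exact iter_fix hfix l
    · rw [zpow_neg, zpow_natCast, ← inv_pow, d1_pow_apply]; exact iter_fix (inv_fix hfix) l
  have h2 : x = p := by
    have h3 : (f ^ (-n)) ((f ^ n) x) = x := by
      rw [← d1_mul_apply, ← zpow_add, neg_add_cancel, zpow_zero]; rfl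
    rw [← h3, h1, hfixz]
  have h4 : range (fun n : ℤ => (f ^ n) x) = {p} := by
    rw [h2]
    ext z
    constructor
    · rintro ⟨m, rfl⟩; exact hfixz m
    · rintro rfl; exact ⟨0, hfixz 0⟩
  rw [h4, closure_singleton] at hx2
  exact Subset.antisymm hx2 (singleton_subset_iff.2 hp)

theorem stable_congr {f f' : M ≃ₘ^1⟮I, I⟯ M} {x : M} {Λ : Set M} (h : ∀ n : ℕ, f^[n] x = f'^[n] x)
    (hx : x ∈ StableSet f' Λ) : x ∈ StableSet f Λ := by
  intro U hU hΛ
  filter_upwards [hx U hU hΛ] with n hn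
  rwa [h n]

theorem no_unstable {f : M ≃ₘ^1⟮I, I⟯ M} {p : M} {C : Set M} (h : Attr f p C) {x : M}
    (hx : x ∈ StableSet f⁻¹ {p}) : x = p := by
  obtain ⟨U, hUC, hUo, hpU⟩ := mem_nhds_iff.1 h.nhds
  obtain ⟨n₀, hn₀⟩ := (hx U hUo (singleton_subset_iff.2 hpU)).exists_forall_of_atTop
  have h1 : (⇑f⁻¹)^[n₀] x = p := by
    refine h.back _ fun n => ?_
    rw [← Function.iterate_add_apply]
    exact hUC (hn₀ _ (by omega))
  have h2 := iter_inv f n₀ x
  rw [h1, iter_fix h.fix] at h2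
  exact h2.symm

theorem noCycles [T1Space M] (h : Pair f f' p q C D) (hN : NoCycles f) : NoCycles f' := by
  rintro k Λ hS ⟨m, i, hm, him, hcyc⟩
  have hsub : ∀ i, Λ i ⊆ Omega f' := fun i => by rw [← hS.union]; exact subset_iUnion _ i
  have hA : ∀ j < m, p ∉ Λ (i j) := by
    intro j hj hpj
    have h1 := single hS h.hp'.nhds h.hp'.fix h.hp'.omega hpj
    obtain ⟨x, ⟨hx1, -⟩, hx2⟩ := hcyc j hj
    rw [h1] at hx1
    have := no_unstable h.hp' hx1
    exact hx2 (this ▸ omega_of_fix h.hp'.fix)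
  have hB : ∀ j < m, q ∉ Λ (i (j + 1)) := by
    intro j hj hpj
    have h1 := single hS h.hq'.nhds h.symm.fixq (fun x hx hΩ => h.symm.D_omega hx hΩ) hpj
    obtain ⟨x, ⟨-, hx1⟩, hx2⟩ := hcyc j hj
    rw [h1] at hx1
    have hx3 : x ∈ StableSet (f'⁻¹)⁻¹ {q} := by rwa [inv_inv]
    have := no_unstable h.hq' hx3
    exact hx2 (this ▸ omega_of_fix h.symm.fixq)
  have hA' : ∀ j ≤ m, p ∉ Λ (i j) := by
    intro j hj
    rcases hj.lt_or_eq with h1 | h1
    · exact hA j h1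
    · rw [h1, him]; exact hA 0 hm
  have hB' : ∀ j ≤ m, q ∉ Λ (i j) := by
    intro j hj
    rcases Nat.eq_zero_or_pos j with h1 | h1
    · rw [h1, ← him]
      have := hB (m - 1) (by omega)
      rwa [Nat.sub_add_cancel hm] at this
    · have := hB (j - 1) (by omega)
      rwa [Nat.sub_add_cancel h1] at this
  have hoff : ∀ j ≤ m, Λ (i j) ⊆ Cᶜ ∩ Dᶜ := by
    intro j hj x hx
    refine ⟨fun hC => hA' j hj ?_, fun hD => hB' j hj ?_⟩
    · rw [← h.hp'.omega x hC (hsub _ hx)]; exact hx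
    · rw [← h.symm.D_omega hD (hsub _ hx)]; exact hx
  refine hN k Λ (h.spectral hS) ⟨m, i, hm, him, fun j hj => ?_⟩
  obtain ⟨x, ⟨hx1, hx2⟩, hx3⟩ := hcyc j hj
  have hopen : IsOpen (Cᶜ ∩ Dᶜ) := h.hp.closed.isOpen_compl.inter h.hq.closed.isOpen_compl
  obtain ⟨n1, hn1⟩ := (hx2 _ hopen (hoff (j + 1) hj)).exists_forall_of_atTop
  obtain ⟨n2, hn2⟩ := (hx1 _ hopen (hoff j hj.le)).exists_forall_of_atTop
  have a1 : ∀ n : ℕ, f'^[n] x ∉ C := fun n =>
    h.symm.off_C (le_max_left n n1) (hn1 _ (le_max_right n n1)).1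
  have a2 : ∀ n : ℕ, (⇑f'⁻¹)^[n] x ∉ D := by
    intro n hD
    have h1 := (hn2 _ (le_max_right n n2)).2
    apply h1
    have := h.hq'.iter hD (max n n2 - n)
    rwa [← Function.iterate_add_apply, Nat.sub_add_cancel (le_max_left n n2)] at this
  have a3 : ∀ n : ℕ, (⇑f'⁻¹)^[n] x ∉ C := by
    intro n hC
    have := h.hp'.iter hC n
    rw [iter_inv] at this
    exact a1 0 this
  have a4 : ∀ n : ℕ, f'^[n] x ∉ D := fun n => h.symm.off_D (a2 0)
  have b1 : ∀ n : ℕ, f^[n] x = f'^[n] x := fun n => h.symm.iter_eq fun j _ => ⟨a1 j, a4 j⟩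
  have b2 : ∀ n : ℕ, (⇑f⁻¹)^[n] x = (⇑f'⁻¹)^[n] x := by
    intro n
    induction n with
    | zero => rfl
    | succ n ih =>
      rw [Function.iterate_succ_apply', Function.iterate_succ_apply', ih]
      have h1 := a2 (n + 1)
      have h2 := a3 (n + 1)
      rw [Function.iterate_succ_apply'] at h1 h2
      have h3 := h.eq _ h2 h1
      rw [d1_inv_self] at h3
      conv_lhs => rw [h3]
      exact d1_self_inv f _
  refine ⟨x, ⟨stable_congr b2 hx1, stable_congr b1 hx2⟩, ?_⟩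
  rwa [← h.omega_eq]

end Pair

theorem fibreNorm_nonneg [IsManifold I 1 M] {N : TangentBundle I M → ℝ} (hN : IsFibreNorm N)
    (x : M) (v : TangentSpace I x) : 0 ≤ N ⟨x, v⟩ := by
  by_cases hv : v = 0
  · have := hN.smul x 0 v
    rw [zero_smul, abs_zero, zero_mul] at this
    rw [hv, this]
  · exact (hN.pos x v hv).le

theorem pow_bound {a C C' l l' : ℝ} (ha : 0 ≤ a) (hC : 0 ≤ C) (hCC : C ≤ C') (hl : 0 ≤ l)
    (hll : l ≤ l') (n : ℕ) : C * l ^ n * a ≤ C' * l' ^ n * a := by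
  have h1 : l ^ n ≤ l' ^ n := pow_le_pow_left₀ hl hll n
  have h2 : C * l ^ n ≤ C' * l' ^ n := mul_le_mul hCC h1 (pow_nonneg hl n) (hC.trans hCC)
  exact mul_le_mul_of_nonneg_right h2 ha

theorem zero_of_bot {S : Submodule ℝ E} (hS : S = ⊥) {v : E} (hv : v ∈ S) : v = 0 := by
  subst hS; simpa using hv

namespace Pair

variable {f f' : M ≃ₘ^1⟮I, I⟯ M} {p q : M} {C D : Set M}

theorem axiomA [IsManifold I 1 M] [T1Space M] (h : Pair f f' p q C D)
    (hsink : ∀ N : TangentBundle I M → ℝ, IsFibreNorm N → ∃ B l : ℝ, 0 < B ∧ 0 < l ∧ l < 1 ∧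
      ∀ (v : TangentSpace I p) (n : ℕ), N ((tangentMap I I f')^[n] ⟨p, v⟩) ≤ B * l ^ n * N ⟨p, v⟩)
    (hsource : ∀ N : TangentBundle I M → ℝ, IsFibreNorm N → ∃ B l : ℝ, 0 < B ∧ 0 < l ∧ l < 1 ∧
      ∀ (v : TangentSpace I q) (n : ℕ), N ⟨q, v⟩ ≤ B * l ^ n * N ((tangentMap I I f')^[n] ⟨q, v⟩))
    (hA : AxiomA f) : AxiomA f' := by
  classical
  obtain ⟨⟨N, Es, Eu, B, l, hN, hB, hl0, hl1, hcompl, hs, hu, hcs, hcu⟩, hper⟩ := hA
  refine ⟨?_, ?_⟩
  swap
  · rw [h.omega_eq]; exact hper.trans (closure_mono h.per_sub)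
  obtain ⟨B1, l1, hB1, hl10, hl11, hc1⟩ := hsink N hN
  obtain ⟨B2, l2, hB2, hl20, hl21, hc2⟩ := hsource N hN
  have hpq : p ≠ q := by
    intro heq
    exact (h.disj.ne_of_mem (mem_of_mem_nhds h.hp.nhds) (mem_of_mem_nhds h.hq.nhds)) heq
  let Es' : M → Submodule ℝ E := fun x => if x = p then ⊤ else if x = q then ⊥ else Es x
  let Eu' : M → Submodule ℝ E := fun x => if x = p then ⊥ else if x = q then ⊤ else Eu x
  have e1 : Es' p = ⊤ := if_pos rfl
  have e2 : Es' q = ⊥ := (if_neg hpq.symm).trans (if_pos rfl)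
  have e3 : Eu' p = ⊥ := if_pos rfl
  have e4 : Eu' q = ⊤ := (if_neg hpq.symm).trans (if_pos rfl)
  have e5 : ∀ x, x ≠ p → x ≠ q → Es' x = Es x := fun x h1 h2 =>
    (if_neg h1).trans (if_neg h2)
  have e6 : ∀ x, x ≠ p → x ≠ q → Eu' x = Eu x := fun x h1 h2 =>
    (if_neg h1).trans (if_neg h2)
  have hfq' : f' q = q := h.symm.fixq
  have hmapp : ∀ x, x ≠ p → f x ≠ p := by
    intro x hx hfx
    exact hx (f.injective (hfx.trans h.hp.fix.symm))
  have hmapq : ∀ x, x ≠ q → f x ≠ q := by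
    intro x hx hfx
    exact hx (f.injective (hfx.trans h.fixq.symm))
  have hev : ∀ x, x ∈ Omega f → x ≠ p → x ≠ q → (f' : M → M) =ᶠ[𝓝 x] f := by
    intro x hx h1 h2
    have hC : x ∉ C := fun hC => h1 (h.hp.omega x hC hx)
    have hD : x ∉ D := fun hD => h2 (h.D_omega hD hx)
    filter_upwards [h.hp.closed.isOpen_compl.mem_nhds hC, h.hq.closed.isOpen_compl.mem_nhds hD]
      with y hy1 hy2 using h.eq y hy1 hy2
  have hmf : ∀ x, x ∈ Omega f → x ≠ p → x ≠ q →
      (mfderiv I I f' x : E →L[ℝ] E) = mfderiv I I f x :=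
    fun x hx h1 h2 => (hev x hx h1 h2).mfderiv_eq
  have htm : ∀ (n : ℕ) (z : TangentBundle I M), z.1 ∈ Omega f → z.1 ≠ p → z.1 ≠ q →
      (tangentMap I I f')^[n] z = (tangentMap I I f)^[n] z := by
    intro n
    induction n with
    | zero => intro z _ _ _; rfl
    | succ n ih =>
      intro z h1 h2 h3
      rw [Function.iterate_succ_apply, Function.iterate_succ_apply]
      have h4 : tangentMap I I f' z = tangentMap I I f z := by
        refine TotalSpace.ext (h.eq_omega h1) (heq_of_eq ?_)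
        exact DFunLike.congr_fun (hmf z.1 h1 h2 h3) z.2
      rw [h4]
      exact ih _ (omega_map h1) (hmapp _ h2) (hmapq _ h3)
  let B' := max B (max B1 B2)
  let l' := max l (max l1 l2)
  have hB' : B ≤ B' := le_max_left _ _
  have hB1' : B1 ≤ B' := (le_max_left _ _).trans (le_max_right _ _)
  have hB2' : B2 ≤ B' := (le_max_right _ _).trans (le_max_right _ _)
  have hl' : l ≤ l' := le_max_left _ _
  have hl1' : l1 ≤ l' := (le_max_left _ _).trans (le_max_right _ _)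
  have hl2' : l2 ≤ l' := (le_max_right _ _).trans (le_max_right _ _)
  refine ⟨N, Es', Eu', B', l', hN, hB.trans_le hB', hl0.trans_le hl', ?_, ?_, ?_, ?_, ?_, ?_⟩
  · exact max_lt hl1 (max_lt hl11 hl21)
  · intro x hx
    rw [h.omega_eq] at hx
    by_cases h1 : x = p
    · subst h1
      have : IsCompl (⊤ : Submodule ℝ E) ⊥ := isCompl_top_bot
      rw [← e1, ← e3] at this
      exact this
    by_cases h2 : x = q
    · subst h2
      have : IsCompl (⊥ : Submodule ℝ E) ⊤ := isCompl_bot_top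
      rw [← e2, ← e4] at this
      exact this
    have : @IsCompl (Submodule ℝ E) _ _ (Es x) (Eu x) := hcompl x hx
    rw [← e5 x h1 h2, ← e6 x h1 h2] at this
    exact this
  · rintro ⟨x, v⟩ hx hv
    have hx : x ∈ Omega f' := hx
    rw [h.omega_eq] at hx
    have hv' : (v : E) ∈ Es' x := hv
    change ((mfderiv I I f' x : E →L[ℝ] E) v) ∈ Es' (f' x)
    by_cases h1 : x = p
    · have : Es' (f' x) = ⊤ := by rw [h1, h.hp'.fix, e1]
      change ((mfderiv I I f' x : E →L[ℝ] E) v) ∈ Es' (f' x)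
      rw [this]; trivial
    by_cases h2 : x = q
    · change ((mfderiv I I f' x : E →L[ℝ] E) v) ∈ Es' (f' x)
      have hv'' : (v : E) = 0 := zero_of_bot (by rw [h2]; exact e2 : Es' x = ⊥) hv'
      rw [hv'', map_zero]; exact Submodule.zero_mem _
    rw [e5 x h1 h2] at hv'
    have h3 : (mfderiv I I f x : E →L[ℝ] E) v ∈ Es (f x) := hs ⟨x, v⟩ hx hv'
    rw [← hmf x hx h1 h2, ← e5 (f x) (hmapp x h1) (hmapq x h2), ← h.eq_omega hx] at h3
    exact h3
  · rintro ⟨x, v⟩ hx hv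
    have hx : x ∈ Omega f' := hx
    rw [h.omega_eq] at hx
    have hv' : (v : E) ∈ Eu' x := hv
    change ((mfderiv I I f' x : E →L[ℝ] E) v) ∈ Eu' (f' x)
    by_cases h1 : x = p
    · change ((mfderiv I I f' x : E →L[ℝ] E) v) ∈ Eu' (f' x)
      have hv'' : (v : E) = 0 := zero_of_bot (by rw [h1]; exact e3 : Eu' x = ⊥) hv'
      rw [hv'', map_zero]; exact Submodule.zero_mem _
    by_cases h2 : x = q
    · have : Eu' (f' x) = ⊤ := by rw [h2, hfq', e4]
      change ((mfderiv I I f' x : E →L[ℝ] E) v) ∈ Eu' (f' x)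
      rw [this]; trivial
    rw [e6 x h1 h2] at hv'
    have h3 : (mfderiv I I f x : E →L[ℝ] E) v ∈ Eu (f x) := hu ⟨x, v⟩ hx hv'
    rw [← hmf x hx h1 h2, ← e6 (f x) (hmapp x h1) (hmapq x h2), ← h.eq_omega hx] at h3
    exact h3
  · intro x hx v hv n
    rw [h.omega_eq] at hx
    have hv' : (v : E) ∈ Es' x := hv
    by_cases h1 : x = p
    · subst h1
      exact (hc1 v n).trans (pow_bound (fibreNorm_nonneg hN _ _) hB1.le hB1' hl10.le hl1' n)
    by_cases h2 : x = q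
    · have hv'' : v = 0 := zero_of_bot (by rw [h2]; exact e2 : Es' x = ⊥) hv'
      subst hv''
      have h3 : ∀ n : ℕ, (tangentMap I I f')^[n] ⟨x, 0⟩ = ⟨f'^[n] x, 0⟩ := by
        intro n
        induction n with
        | zero => rfl
        | succ n ih =>
          rw [Function.iterate_succ_apply', ih, Function.iterate_succ_apply']
          refine TotalSpace.ext rfl (heq_of_eq ?_)
          exact map_zero (mfderiv I I f' (f'^[n] x))
      have h4 : ∀ y : M, N ⟨y, 0⟩ = 0 := by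
        intro y
        have := hN.smul y 0 0
        rwa [zero_smul, abs_zero, zero_mul] at this
      rw [h3, h4, h4, mul_zero]
    rw [e5 x h1 h2] at hv'
    rw [htm n ⟨x, v⟩ hx h1 h2]
    exact (hcs x hx v hv' n).trans (pow_bound (fibreNorm_nonneg hN _ _) hB.le hB' hl0.le hl' n)
  · intro x hx v hv n
    rw [h.omega_eq] at hx
    have hv' : (v : E) ∈ Eu' x := hv
    by_cases h1 : x = p
    · have hv'' : v = 0 := zero_of_bot (by rw [h1]; exact e3 : Eu' x = ⊥) hv'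
      subst hv''
      have h3 : ∀ n : ℕ, (tangentMap I I f')^[n] ⟨x, 0⟩ = ⟨f'^[n] x, 0⟩ := by
        intro n
        induction n with
        | zero => rfl
        | succ n ih =>
          rw [Function.iterate_succ_apply', ih, Function.iterate_succ_apply']
          refine TotalSpace.ext rfl (heq_of_eq ?_)
          exact map_zero (mfderiv I I f' (f'^[n] x))
      have h4 : ∀ y : M, N ⟨y, 0⟩ = 0 := by
        intro y
        have := hN.smul y 0 0
        rwa [zero_smul, abs_zero, zero_mul] at this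
      rw [h3, h4, h4, mul_zero]
    by_cases h2 : x = q
    · subst h2
      refine (hc2 v n).trans (pow_bound ?_ hB2.le hB2' hl20.le hl2' n)
      exact fibreNorm_nonneg hN _ _
    rw [e6 x h1 h2] at hv'
    rw [htm n ⟨x, v⟩ hx h1 h2]
    refine (hcu x hx v hv' n).trans (pow_bound ?_ hB.le hB' hl0.le hl' n)
    exact fibreNorm_nonneg hN _ _

end Pair

end Pool.Agent.H365R3
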