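import Mathlib
import Pool.Agent.H365R3.Pert

set_option autoImplicit false

open scoped Manifold ContDiff Topology
open Set Filter Bundle

noncomputable section

namespace Pool.Agent.H365R3

variable {E : Type} [NormedAddCommGroup E] [NormedSpace ℝ E] {H : Type} [TopologicalSpace H]
  {I : ModelWithCorners ℝ E H} {M : Type} [TopologicalSpace M] [ChartedSpace H M]
  {F : Type} [NormedAddCommGroup F] [NormedSpace ℝ F]

theorem tangentMap_inv [IsManifold I 1 M] (f : M ≃ₘ^1⟮I, I⟯ M) (z : TangentBundle I M) :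
    tangentMap I I (⇑f⁻¹) (tangentMap I I f z) = z := by
  have h1 : tanMap (f⁻¹ * f) z = z := by
    rw [inv_mul_cancel, tanMap_one]; rfl
  rw [tanMap_mul] at h1
  exact h1

theorem tangentMap_inv_iter [IsManifold I 1 M] (f : M ≃ₘ^1⟮I, I⟯ M) (n : ℕ)
    (z : TangentBundle I M) : (tangentMap I I (⇑f⁻¹))^[n] ((tangentMap I I f)^[n] z) = z := by
  induction n generalizing z with
  | zero => rfl
  | succ n ih =>
    rw [Function.iterate_succ_apply', Function.iterate_succ_apply, ih, tangentMap_inv]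

theorem tangentMap_iter_proj [IsManifold I 1 M] (f : M ≃ₘ^1⟮I, I⟯ M) (n : ℕ)
    (z : TangentBundle I M) : ((tangentMap I I f)^[n] z).1 = f^[n] z.1 := by
  induction n generalizing z with
  | zero => rfl
  | succ n ih =>
    rw [Function.iterate_succ_apply, Function.iterate_succ_apply, ih]; rfl

namespace SinkAt

variable {c : Cht I M F} {f : M ≃ₘ^1⟮I, I⟯ M} {k r : ℝ}

theorem attr [FiniteDimensional ℝ F] [T2Space M] (h : SinkAt c f k r) {ρ : ℝ} (h0 : 0 < ρ)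
    (hρ : ρ < r) : Attr f (c.ψ 0) (disk c ρ) where
  closed := h.disk_closed hρ.le
  nhds := h.disk_nhds h0
  maps x hx := h.maps_disk hρ.le hx
  fix := h.fix
  omega x hx hΩ := h.omega hx.1 (hx.2.trans_lt hρ) hΩ
  back x hx := h.back fun n => disk_mono c hρ.le (hx n)

/-- The map `f` in the chart `c`. -/
theorem norm_fderiv_le (h : SinkAt c f k r) :
    ‖fderiv ℝ (fun z => c.φ (f (c.ψ z))) 0‖ ≤ k := by
  refine norm_fderiv_le_of_lip' ℝ h.hk0.le ?_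
  filter_upwards [Metric.closedBall_mem_nhds (0 : F) h.hr] with z hz
  exact h.lip z 0 (by simpa using hz) (by simp [h.hr.le])

theorem norm_equiv [FiniteDimensional ℝ F] [IsManifold I 1 M] {N : TangentBundle I M → ℝ}
    (hN : IsFibreNorm N) (h0 : (0 : F) ∈ c.tgt) :
    ∃ m B : ℝ, 0 < m ∧ 0 < B ∧ ∀ ξ : F, m * ‖ξ‖ ≤ N (c.dψ (0, ξ)) ∧ N (c.dψ (0, ξ)) ≤ B * ‖ξ‖ := by
  have hzero : N (c.dψ (0, 0)) = 0 := by
    have h1 : c.dψ ((0 : F), (0 : F)) = ⟨c.ψ 0, 0⟩ :=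
      TotalSpace.ext rfl (heq_of_eq (map_zero (mfderiv 𝓘(ℝ, F) I c.ψ 0)))
    have := hN.smul (c.ψ 0) 0 0
    rw [zero_smul, abs_zero, zero_mul] at this
    rw [h1, this]
  have hsmul : ∀ (t : ℝ) (ξ : F), N (c.dψ (0, t • ξ)) = |t| * N (c.dψ (0, ξ)) := by
    intro t ξ
    have h1 : c.dψ ((0 : F), t • ξ) = ⟨c.ψ 0, t • (c.dψ (0, ξ)).2⟩ :=
      TotalSpace.ext rfl (heq_of_eq ((mfderiv 𝓘(ℝ, F) I c.ψ 0).map_smul t ξ))
    rw [h1]
    exact hN.smul (c.ψ 0) t _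
  have hpos : ∀ ξ : F, ξ ≠ 0 → 0 < N (c.dψ (0, ξ)) := by
    intro ξ hξ
    refine hN.pos (c.ψ 0) _ ?_
    intro hz
    have h1 := c.dφ_dψ (0, ξ) h0
    have h2 : (c.dφ (c.dψ (0, ξ))).2 = 0 := by
      change mfderiv I 𝓘(ℝ, F) c.φ (c.ψ 0) (mfderiv 𝓘(ℝ, F) I c.ψ 0 ξ) = 0
      have hz' : mfderiv 𝓘(ℝ, F) I c.ψ 0 ξ = 0 := hz
      rw [hz']
      exact map_zero (mfderiv I 𝓘(ℝ, F) c.φ (c.ψ 0))
    rw [h1] at h2
    exact hξ h2
  have hcont : Continuous fun ξ : F => N (c.dψ (0, ξ)) := by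
    refine hN.continuous.comp ?_
    have h1 : Continuous fun ξ : F => ((0 : F), ξ) := by fun_prop
    exact c.continuousOn_dψ.comp_continuous h1 fun ξ => h0
  rcases subsingleton_or_nontrivial F with hs | hn
  · refine ⟨1, 1, one_pos, one_pos, fun ξ => ?_⟩
    have : ξ = 0 := Subsingleton.elim _ _
    rw [this, hzero]; simp
  · have hc : IsCompact (Metric.sphere (0 : F) 1) := isCompact_sphere 0 1
    have hne : (Metric.sphere (0 : F) 1).Nonempty := NormedSpace.sphere_nonempty.2 zero_le_one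
    obtain ⟨a, ha, hamin⟩ := hc.exists_isMinOn hne hcont.continuousOn
    obtain ⟨b, hb, hbmax⟩ := hc.exists_isMaxOn hne hcont.continuousOn
    have ha1 : ‖a‖ = 1 := by simpa using ha
    have hb1 : ‖b‖ = 1 := by simpa using hb
    have ha0 : a ≠ 0 := by intro h; rw [h, norm_zero] at ha1; norm_num at ha1
    have hb0 : b ≠ 0 := by intro h; rw [h, norm_zero] at hb1; norm_num at hb1
    refine ⟨N (c.dψ (0, a)), N (c.dψ (0, b)), hpos a ha0, hpos b hb0, fun ξ => ?_⟩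
    by_cases hξ : ξ = 0
    · rw [hξ, hzero]; simp
    have hξn : 0 < ‖ξ‖ := norm_pos_iff.2 hξ
    have hmem : ‖ξ‖⁻¹ • ξ ∈ Metric.sphere (0 : F) 1 := by
      rw [mem_sphere_zero_iff_norm, norm_smul, norm_inv, norm_norm, inv_mul_cancel₀ hξn.ne']
    have h1 := hamin hmem
    have h2 := hbmax hmem
    have h3 : N (c.dψ (0, ξ)) = ‖ξ‖ * N (c.dψ (0, ‖ξ‖⁻¹ • ξ)) := by
      rw [hsmul, abs_of_pos (inv_pos.2 hξn), ← mul_assoc, mul_inv_cancel₀ hξn.ne', one_mul]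
    simp only [mem_ofPred_eq] at h1 h2
    rw [h3]
    constructor
    · rw [mul_comm]; exact mul_le_mul_of_nonneg_left h1 hξn.le
    · rw [mul_comm (N _) ‖ξ‖]; exact mul_le_mul_of_nonneg_left h2 hξn.le

theorem hyp [FiniteDimensional ℝ F] [IsManifold I 1 M] (h : SinkAt c f k r)
    {N : TangentBundle I M → ℝ} (hN : IsFibreNorm N) : ∃ B : ℝ, 0 < B ∧
      ∀ (z : TangentBundle I M) (n : ℕ), z.1 = c.ψ 0 →
        N ((tangentMap I I f)^[n] z) ≤ B * k ^ n * N z := by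
  obtain ⟨m, B, hm, hB, hmB⟩ := norm_equiv (c := c) hN h.zero_mem
  refine ⟨B / m, by positivity, fun z n hz => ?_⟩
  let L := fderiv ℝ (fun z => c.φ (f (c.ψ z))) 0
  have hL : ‖L‖ ≤ k := h.norm_fderiv_le
  have hT : ∀ ξ : F, tangentMap I I f (c.dψ (0, ξ)) = c.dψ (0, L ξ) := by
    intro ξ
    have hsrc : (c.dψ (0, ξ)).1 ∈ c.src := h.p_src
    have hfix : f (c.dψ (0, ξ)).1 = c.ψ 0 := h.fix
    have hfs : f (c.dψ (0, ξ)).1 ∈ c.src := by rw [hfix]; exact h.p_src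
    have h1 := c.dφ_tangentMap c f (c.dψ (0, ξ)) hsrc hfs f.contMDiff.contMDiffAt
    have h2 := c.dψ_dφ (tangentMap I I f (c.dψ (0, ξ))) hfs
    rw [← h2, h1, c.dφ_dψ (0, ξ) h.zero_mem, hfix, h.φp]
    have h3 : c.φ (c.dψ (0, ξ)).1 = 0 := h.φp
    rw [h3]
  have hTn : ∀ (n : ℕ) (ξ : F), (tangentMap I I f)^[n] (c.dψ (0, ξ)) = c.dψ (0, (L ^ n) ξ) := by
    intro n
    induction n with
    | zero => intro ξ; rfl
    | succ n ih =>
      intro ξ
      rw [Function.iterate_succ_apply, hT, ih]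
      rfl
  let ξ := (c.dφ z).2
  have hzξ : z = c.dψ (0, ξ) := by
    have h1 := c.dψ_dφ z (by rw [hz]; exact h.p_src)
    have h2 : c.dφ z = (0, ξ) := by
      refine Prod.ext ?_ rfl
      change c.φ z.1 = 0
      rw [hz, h.φp]
    rw [h2] at h1
    exact h1.symm
  rw [hzξ, hTn]
  have hLn : ‖(L ^ n) ξ‖ ≤ k ^ n * ‖ξ‖ := by
    calc ‖(L ^ n) ξ‖ ≤ ‖L ^ n‖ * ‖ξ‖ := ContinuousLinearMap.le_opNorm _ _
      _ ≤ k ^ n * ‖ξ‖ := by
        refine mul_le_mul_of_nonneg_right ?_ (norm_nonneg _)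
        rcases subsingleton_or_nontrivial F with hs | hn
        · have : L ^ n = 0 := by ext x; exact Subsingleton.elim _ _
          rw [this, norm_zero]; exact pow_nonneg h.hk0.le n
        · exact (norm_pow_le L n).trans (pow_le_pow_left₀ (norm_nonneg _) hL n)
  calc N (c.dψ (0, (L ^ n) ξ)) ≤ B * ‖(L ^ n) ξ‖ := (hmB _).2
    _ ≤ B * (k ^ n * ‖ξ‖) := mul_le_mul_of_nonneg_left hLn hB.le
    _ = B / m * k ^ n * (m * ‖ξ‖) := by field_simp
    _ ≤ B / m * k ^ n * N (c.dψ (0, ξ)) := by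
      refine mul_le_mul_of_nonneg_left (hmB ξ).1 ?_
      have := h.hk0
      positivity

theorem hyp_source [FiniteDimensional ℝ F] [IsManifold I 1 M] (h : SinkAt c f⁻¹ k r)
    {N : TangentBundle I M → ℝ} (hN : IsFibreNorm N) : ∃ B : ℝ, 0 < B ∧
      ∀ (z : TangentBundle I M) (n : ℕ), z.1 = c.ψ 0 →
        N z ≤ B * k ^ n * N ((tangentMap I I f)^[n] z) := by
  obtain ⟨B, hB, hh⟩ := h.hyp hN
  refine ⟨B, hB, fun z n hz => ?_⟩
  have hfix : f (c.ψ 0) = c.ψ 0 := by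
    have := inv_fix h.fix
    rwa [inv_inv] at this
  have h1 := hh ((tangentMap I I f)^[n] z) n (by
    rw [tangentMap_iter_proj, hz, iter_fix hfix])
  rwa [tangentMap_inv_iter] at h1

theorem congr (h : SinkAt c f k r) {f' : M ≃ₘ^1⟮I, I⟯ M} (he : ∀ x ∈ disk c r, f' x = f x) :
    SinkAt c f' k r := by
  have he' : ∀ z, ‖z‖ ≤ r → f' (c.ψ z) = f (c.ψ z) := by
    intro z hz
    refine he _ ⟨c.ψ_mem z (h.tgt hz), ?_⟩
    rw [c.φψ z (h.tgt hz)]; exact hz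
  refine ⟨h.hk0, h.hk1, h.hr, h.sub, ?_, ?_, ?_⟩
  · rw [he' 0 (by simp [h.hr.le])]; exact h.fix
  · intro z hz; rw [he' z hz]; exact h.src z hz
  · intro z z' hz hz'; rw [he' z hz, he' z' hz']; exact h.lip z z' hz hz'

variable [FiniteDimensional ℝ F] [T2Space M]

theorem pert (h : SinkAt c f k r) {ρ ε : ℝ} {K : F ≃ F} (hK : Sml ρ ε K) (hρ : ρ ≤ r)
    (hk : k * (1 + ε) < 1) (hε : 0 ≤ ε) :
    SinkAt c (f * liftD c K (hK.ok c (h.sub' hρ))) (k * (1 + ε)) r := by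
  have hKr : ∀ z, ‖z‖ ≤ r → ‖K z‖ ≤ r := by
    intro z hz
    rcases hz.lt_or_eq with h1 | h1
    · exact (norm_le_of_off hK.off hρ h1).le
    · rw [hK.off z (by rw [h1]; exact hρ)]; exact hz
  have hval : ∀ z, ‖z‖ ≤ r →
      (f * liftD c K (hK.ok c (h.sub' hρ))) (c.ψ z) = f (c.ψ (K z)) := by
    intro z hz
    rw [d1_mul_apply, liftD_src c _ (c.ψ_mem z (h.tgt hz)), c.φψ z (h.tgt hz)]
  have hk0 : 0 < k * (1 + ε) := mul_pos h.hk0 (by linarith)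
  refine ⟨hk0, hk, h.hr, h.sub, ?_, ?_, ?_⟩
  · rw [hval 0 (by simp [h.hr.le]), hK.zero, h.fix]
  · intro z hz
    rw [hval z hz]; exact h.src _ (hKr z hz)
  · intro z z' hz hz'
    rw [hval z hz, hval z' hz']
    refine (h.lip _ _ (hKr z hz) (hKr z' hz')).trans ?_
    have := norm_sub_le_of_small K (hK.cd.differentiable one_ne_zero) ε hK.small z z'
    calc k * ‖K z - K z'‖ ≤ k * ((1 + ε) * ‖z - z'‖) := mul_le_mul_of_nonneg_left this h.hk0.le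
      _ = k * (1 + ε) * ‖z - z'‖ := by ring

theorem pert_source (h : SinkAt c f⁻¹ k r) {ρ ε : ℝ} {K : F ≃ F} (hK : Sml ρ ε K) (hρ : ρ ≤ r)
    (hk : k / (1 - ε) < 1) (hε : ε < 1) :
    SinkAt c (f * liftD c K (hK.ok c (h.sub' hρ)))⁻¹ (k / (1 - ε)) r := by
  have hKr : ∀ z, ‖z‖ ≤ r → ‖K.symm z‖ ≤ r := by
    intro z hz
    have hoff := off_symm hK.off
    rcases hz.lt_or_eq with h1 | h1
    · exact (norm_le_of_off hoff hρ h1).le
    · rw [hoff z (by rw [h1]; exact hρ)]; exact hz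
  have hval : ∀ z, ‖z‖ ≤ r →
      (f * liftD c K (hK.ok c (h.sub' hρ)))⁻¹ (c.ψ z) = c.ψ (K.symm (c.φ (f⁻¹ (c.ψ z)))) := by
    intro z hz
    rw [mul_inv_rev, liftD_inv, d1_mul_apply, liftD_src c _ (h.src z hz)]
  have hin : ∀ z, ‖z‖ ≤ r → ‖c.φ (f⁻¹ (c.ψ z))‖ ≤ r := by
    intro z hz
    have h1 : c.ψ z ∈ disk c r := ⟨c.ψ_mem z (h.tgt hz), by rw [c.φψ z (h.tgt hz)]; exact hz⟩
    exact (h.maps_disk le_rfl h1).2
  have hφ : ∀ z, ‖z‖ ≤ r →
      c.φ (c.ψ (K.symm (c.φ (f⁻¹ (c.ψ z))))) = K.symm (c.φ (f⁻¹ (c.ψ z))) := fun z hz =>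
    c.φψ _ (h.tgt (hKr _ (hin z hz)))
  have hk0 : 0 < k / (1 - ε) := div_pos h.hk0 (by linarith)
  refine ⟨hk0, hk, h.hr, h.sub, ?_, ?_, ?_⟩
  · rw [hval 0 (by simp [h.hr.le]), h.fix, h.φp]
    have : K.symm 0 = 0 := by rw [Equiv.symm_apply_eq]; exact hK.zero.symm
    rw [this]
  · intro z hz
    rw [hval z hz]
    exact c.ψ_mem _ (h.tgt (hKr _ (hin z hz)))
  · intro z z' hz hz'
    rw [hval z hz, hval z' hz', hφ z hz, hφ z' hz']
    have h1 := le_norm_sub_of_small K (hK.cd.differentiable one_ne_zero) ε hK.small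
      (K.symm (c.φ (f⁻¹ (c.ψ z)))) (K.symm (c.φ (f⁻¹ (c.ψ z'))))
    rw [K.apply_symm_apply, K.apply_symm_apply] at h1
    have h2 := h.lip z z' hz hz'
    rw [div_mul_eq_mul_div, le_div_iff₀ (by linarith)]
    linarith

end SinkAt

/-- Maps close to the identity have lifts close to the identity. -/
theorem near_one [FiniteDimensional ℝ F] [T2Space M] [IsManifold I 1 M] (c : Cht I M F) {ρ : ℝ}
    (hρ : Metric.closedBall (0 : F) ρ ⊆ c.tgt) {W : Set (M ≃ₘ^1⟮I, I⟯ M)} (hW : W ∈ 𝓝 1) :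
    ∃ ε : ℝ, 0 < ε ∧ ∀ (K : F ≃ F) (h : Sml ρ ε K), liftD c K (h.ok c hρ) ∈ W := by
  by_contra hcon
  push Not at hcon
  choose! K hK hKW using hcon
  have hpos : ∀ n : ℕ, (0 : ℝ) < 1 / ((n : ℝ) + 1) := fun n => by positivity
  have h1 := tendsto_liftD c ρ hρ (fun n : ℕ => K (1 / ((n : ℝ) + 1)))
    (fun n : ℕ => 1 / ((n : ℝ) + 1)) tendsto_one_div_add_atTop_nhds_zero_nat
    (fun n => hK _ (hpos n))
  obtain ⟨n, hn⟩ := (h1.eventually_mem hW).exists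
  exact hKW _ (hpos n) hn

end Pool.Agent.H365R3
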