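import Mathlib
import Pool.Agent.H365R3.Good
import Pool.Agent.H365R3.Ana3

set_option autoImplicit false

open scoped Manifold ContDiff Topology
open Set Filter Bundle

noncomputable section

namespace Pool.Agent.H365R3

variable {E : Type} [NormedAddCommGroup E] [NormedSpace ℝ E] {H : Type} [TopologicalSpace H]
  {I : ModelWithCorners ℝ E H} {M : Type} [TopologicalSpace M] [ChartedSpace H M]
  {F : Type} [NormedAddCommGroup F] [NormedSpace ℝ F]

/-- The situation: an Axiom A no-cycle diffeomorphism with a sink, a source and an orbit from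
the one to the other. -/
structure Good [IsManifold I 1 M] (c d : Cht I M F) (r : ℝ) (f : M ≃ₘ^1⟮I, I⟯ M) : Prop where
  ax : AxiomA f
  nc : NoCycles f
  snk : ∃ k, SinkAt c f k r
  src : ∃ k, SinkAt d f⁻¹ k r
  disj : Disjoint (disk c r) (disk d r)
  conn : ∃ n : ℕ, ∃ y ∈ disk d r, f^[n] y ∈ disk c r

theorem Sml.mono {ρ ε ρ' ε' : ℝ} {K : F ≃ F} (h : Sml ρ ε K) (hρ : ρ ≤ ρ') (hε : ε ≤ ε') :
    Sml ρ' ε' K :=
  ⟨h.cd, h.cds, fun z hz => h.off z (hρ.trans hz), fun z => (h.small z).trans hε, h.zero⟩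

theorem Sml.norm_le_iff {ρ ε r : ℝ} {K : F ≃ F} (h : Sml ρ ε K) (hr : ρ ≤ r) (z : F) :
    ‖K z‖ ≤ r ↔ ‖z‖ ≤ r := by
  constructor
  · intro hz
    rcases hz.lt_or_eq with h1 | h1
    · have := norm_le_of_off (off_symm h.off) hr h1
      rw [K.symm_apply_apply] at this
      exact this.le
    · have h2 : K.symm (K z) = K z := off_symm h.off _ (by rw [h1]; exact hr)
      rw [K.symm_apply_apply] at h2
      rw [h2]; exact hz
  · intro hz
    rcases hz.lt_or_eq with h1 | h1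
    · exact (norm_le_of_off h.off hr h1).le
    · rw [h.off z (by rw [h1]; exact hr)]; exact hz

section

variable [FiniteDimensional ℝ F] [T2Space M]

theorem liftD_off_disk {c : Cht I M F} {ρ ε : ℝ} {K : F ≃ F} (h : Sml ρ ε K) (hok : LiftOK c K)
    {x : M} (hx : x ∉ disk c ρ) : liftD c K hok x = x := by
  apply liftD_off
  intro hs
  apply h.off
  by_contra hcon
  exact hx ⟨hs, (not_le.1 hcon).le⟩

theorem liftD_disk_iff {c : Cht I M F} {ρ ε r : ℝ} {K : F ≃ F} (h : Sml ρ ε K) (hok : LiftOK c K)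
    (hr : ρ ≤ r) (x : M) : liftD c K hok x ∈ disk c r ↔ x ∈ disk c r := by
  by_cases hx : x ∈ c.src
  · constructor
    · rintro ⟨-, h2⟩
      rw [φ_liftD c hok hx, h.norm_le_iff hr] at h2
      exact ⟨hx, h2⟩
    · rintro ⟨-, h2⟩
      refine ⟨liftD_mem c hok hx, ?_⟩
      rw [φ_liftD c hok hx, h.norm_le_iff hr]; exact h2
  · rw [liftD_not c hok hx]

variable [IsManifold I 1 M] {c d : Cht I M F} {r : ℝ} {f : M ≃ₘ^1⟮I, I⟯ M}

theorem Good.next (hg : Good c d r f) (h : M ≃ₘ^1⟮I, I⟯ M) (hsink : ∃ k, SinkAt c (f * h) k r)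
    (hsrc : ∃ k, SinkAt d (f * h)⁻¹ k r)
    (hoff : ∀ x, x ∉ disk c (r / 2) → x ∉ disk d (r / 2) → h x = x)
    (hpres : ∀ x, h x ∈ disk d r ↔ x ∈ disk d r) : Good c d r (f * h) := by
  obtain ⟨k1, h1⟩ := hg.snk
  obtain ⟨k2, h2⟩ := hg.src
  obtain ⟨k3, h3⟩ := hsink
  obtain ⟨k4, h4⟩ := hsrc
  have hr := h1.hr
  have hr2 : r / 2 < r := by linarith
  have hr0 : 0 < r / 2 := by linarith
  have hsub : ∀ c : Cht I M F, disk c (r / 2) ⊆ disk c r := fun c => disk_mono c hr2.le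
  have hP : Pair f (f * h) (c.ψ 0) (d.ψ 0) (disk c (r / 2)) (disk d (r / 2)) := by
    refine ⟨h1.attr hr0 hr2, h3.attr hr0 hr2, h2.attr hr0 hr2, h4.attr hr0 hr2,
      hg.disj.mono (hsub c) (hsub d), fun x hx hx' => ?_⟩
    rw [d1_mul_apply, hoff x hx hx']
  refine ⟨?_, hP.noCycles hg.nc, ⟨k3, h3⟩, ⟨k4, h4⟩, hg.disj, ?_⟩
  · refine hP.axiomA ?_ ?_ hg.ax
    · intro N hN
      obtain ⟨B, hB, hh⟩ := h3.hyp hN
      exact ⟨B, k3, hB, h3.hk0, h3.hk1, fun v n => hh ⟨_, v⟩ n rfl⟩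
    · intro N hN
      obtain ⟨B, hB, hh⟩ := h4.hyp_source hN
      exact ⟨B, k4, hB, h4.hk0, h4.hk1, fun v n => hh ⟨_, v⟩ n rfl⟩
  · classical
    let n := Nat.find hg.conn
    obtain ⟨y, hy, hny⟩ := Nat.find_spec hg.conn
    have hmin : ∀ m < n, ¬ ∃ y ∈ disk d r, f^[m] y ∈ disk c r := fun m hm =>
      Nat.find_min hg.conn hm
    change f^[n] y ∈ disk c r at hny
    have hn0 : n ≠ 0 := by
      intro h0
      rw [h0] at hny
      exact hg.disj.ne_of_mem hny hy rfl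
    obtain ⟨m, hm⟩ := Nat.exists_eq_succ_of_ne_zero hn0
    have hy' : h⁻¹ y ∈ disk d r := by
      rw [← hpres, d1_inv_self]; exact hy
    refine ⟨n, h⁻¹ y, hy', ?_⟩
    have key : ∀ j ≤ m, (f * h)^[j] (f y) = f^[j] (f y) := by
      intro j
      induction j with
      | zero => intro _; rfl
      | succ j ih =>
        intro hj
        rw [Function.iterate_succ_apply', Function.iterate_succ_apply', ih (by omega),
          d1_mul_apply]
        congr 1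
        have hc : f^[j] (f y) ∉ disk c r := by
          intro hc
          rw [← Function.iterate_succ_apply] at hc
          exact hmin (j + 1) (by omega) ⟨y, hy, hc⟩
        have hd : f^[j] (f y) ∉ disk d r := by
          intro hd
          rw [← Function.iterate_succ_apply] at hd
          refine hmin (n - (j + 1)) (by omega) ⟨_, hd, ?_⟩
          rw [← Function.iterate_add_apply, Nat.sub_add_cancel (by omega)]
          exact hny
        exact hoff _ (fun hh => hc (hsub c hh)) (fun hh => hd (hsub d hh))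
    have h5 : (f * h) (h⁻¹ y) = f y := by rw [d1_mul_apply, d1_inv_self]
    rw [hm, Function.iterate_succ_apply, h5, key m le_rfl, ← Function.iterate_succ_apply, ← hm]
    exact hny

theorem Good.pert_c (hg : Good c d r f) {k : ℝ} (hk : SinkAt c f k r) {ε : ℝ} {K : F ≃ F}
    (hK : Sml (r / 2) ε K) (h0 : 0 ≤ ε) (hε : k * (1 + ε) < 1) (hok : LiftOK c K) :
    Good c d r (f * liftD c K hok) ∧ ∀ x ∈ disk d r, (f * liftD c K hok)⁻¹ x = f⁻¹ x := by
  have hr := hk.hr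
  have hr2 : r / 2 ≤ r := by linarith
  obtain ⟨k2, h2⟩ := hg.src
  have hfix : ∀ x ∈ disk d r, (f * liftD c K hok)⁻¹ x = f⁻¹ x := by
    intro x hx
    have h3 := h2.maps_disk le_rfl hx
    have h4 : liftD c K hok (f⁻¹ x) = f⁻¹ x := by
      refine liftD_off_disk hK hok fun hc => ?_
      exact hg.disj.ne_of_mem (disk_mono c hr2 hc) h3 rfl
    rw [mul_inv_rev, d1_mul_apply]
    conv_lhs => rw [← h4]
    exact d1_self_inv _ _
  refine ⟨hg.next _ ⟨_, hk.pert hK hr2 hε h0⟩ ⟨k2, h2.congr hfix⟩ ?_ ?_, hfix⟩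
  · intro x hx _
    exact liftD_off_disk hK hok hx
  · intro x
    by_cases hx : x ∈ disk c (r / 2)
    · have h5 := (liftD_disk_iff hK hok le_rfl x).2 hx
      constructor
      · intro h6; exact absurd rfl (hg.disj.ne_of_mem (disk_mono c hr2 h5) h6)
      · intro h6; exact absurd rfl (hg.disj.ne_of_mem (disk_mono c hr2 hx) h6)
    · rw [liftD_off_disk hK hok hx]

theorem Good.pert_d (hg : Good c d r f) {k : ℝ} (hk : SinkAt d f⁻¹ k r) {ε : ℝ} {K : F ≃ F}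
    (hK : Sml (r / 2) ε K) (h0 : ε < 1) (hε : k / (1 - ε) < 1) (hok : LiftOK d K) :
    Good c d r (f * liftD d K hok) ∧ ∀ x ∈ disk c r, (f * liftD d K hok) x = f x := by
  have hr := hk.hr
  have hr2 : r / 2 ≤ r := by linarith
  obtain ⟨k2, h2⟩ := hg.snk
  have hfix : ∀ x ∈ disk c r, (f * liftD d K hok) x = f x := by
    intro x hx
    have h4 : liftD d K hok x = x := by
      refine liftD_off_disk hK hok fun hc => ?_
      exact hg.disj.ne_of_mem hx (disk_mono d hr2 hc) rfl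
    rw [d1_mul_apply, h4]
  refine ⟨hg.next _ ⟨k2, h2.congr hfix⟩ ⟨_, hk.pert_source hK hr2 hε h0⟩ ?_ ?_, hfix⟩
  · intro x _ hx
    exact liftD_off_disk hK hok hx
  · intro x
    exact liftD_disk_iff hK hok hr2 x

end

section

variable [FiniteDimensional ℝ F] [T2Space M] [IsManifold I ∞ M] [IsManifold I 1 M]
  [FiniteDimensional ℝ E] [LocallyConnectedSpace H] {c d : Cht I M F} {r : ℝ}
  {f : M ≃ₘ^1⟮I, I⟯ M}

theorem near_mul {W : Set (M ≃ₘ^1⟮I, I⟯ M)} (hW : W ∈ 𝓝 f) : {h | f * h ∈ W} ∈ 𝓝 1 := by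
  have h1 : ContinuousAt (fun h : M ≃ₘ^1⟮I, I⟯ M => f * h) 1 := (continuous_mul_left f).continuousAt
  have h2 : W ∈ 𝓝 (f * 1) := by rwa [mul_one]
  exact h1 h2

theorem Good.near_c (hg : Good c d r f) {W : Set (M ≃ₘ^1⟮I, I⟯ M)} (hW : W ∈ 𝓝 f) :
    ∃ ε : ℝ, 0 < ε ∧ ε ≤ 1 / 2 ∧ ∀ (K : F ≃ F) (_ : Sml (r / 2) ε K) (hok : LiftOK c K),
      Good c d r (f * liftD c K hok) ∧ f * liftD c K hok ∈ W ∧
      ∀ x ∈ disk d r, (f * liftD c K hok)⁻¹ x = f⁻¹ x := by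
  obtain ⟨k, hk⟩ := hg.snk
  have hr2 : r / 2 ≤ r := by linarith [hk.hr]
  obtain ⟨ε, hε, hh⟩ := near_one c (hk.sub' hr2) (near_mul hW)
  have hk0 := hk.hk0
  have hk1 := hk.hk1
  let ε' := min ε (min (1 / 2) ((1 - k) / 2))
  have h1 : 0 < ε' := lt_min hε (lt_min (by norm_num) (by linarith))
  have h2 : ε' ≤ (1 - k) / 2 := (min_le_right _ _).trans (min_le_right _ _)
  have h3 : ε' ≤ 1 / 2 := (min_le_right _ _).trans (min_le_left _ _)
  refine ⟨ε', h1, h3, fun K hK hok => ?_⟩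
  obtain ⟨h4, h5⟩ := hg.pert_c hk hK h1.le (by nlinarith) hok
  exact ⟨h4, hh K (hK.mono le_rfl (min_le_left _ _)), h5⟩

theorem Good.near_d (hg : Good c d r f) {W : Set (M ≃ₘ^1⟮I, I⟯ M)} (hW : W ∈ 𝓝 f) :
    ∃ ε : ℝ, 0 < ε ∧ ε ≤ 1 / 2 ∧ ∀ (K : F ≃ F) (_ : Sml (r / 2) ε K) (hok : LiftOK d K),
      Good c d r (f * liftD d K hok) ∧ f * liftD d K hok ∈ W ∧
      ∀ x ∈ disk c r, (f * liftD d K hok) x = f x := by
  obtain ⟨k, hk⟩ := hg.src
  have hr2 : r / 2 ≤ r := by linarith [hk.hr]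
  obtain ⟨ε, hε, hh⟩ := near_one d (hk.sub' hr2) (near_mul hW)
  have hk0 := hk.hk0
  have hk1 := hk.hk1
  let ε' := min ε (min (1 / 2) ((1 - k) / 2))
  have h1 : 0 < ε' := lt_min hε (lt_min (by norm_num) (by linarith))
  have h2 : ε' ≤ (1 - k) / 2 := (min_le_right _ _).trans (min_le_right _ _)
  have h3 : ε' ≤ 1 / 2 := (min_le_right _ _).trans (min_le_left _ _)
  refine ⟨ε', h1, h3, fun K hK hok => ?_⟩
  obtain ⟨h4, h5⟩ := hg.pert_d hk hK (by linarith)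
    (by rw [div_lt_one (by linarith)]; linarith) hok
  exact ⟨h4, hh K (hK.mono le_rfl (min_le_left _ _)), h5⟩

end

/-- Chart expressions are `C¹`. -/
theorem smooth_expr (c c' : Cht I M F) (f : M ≃ₘ^1⟮I, I⟯ M) {z : F} (hz : z ∈ c.tgt)
    (h : f (c.ψ z) ∈ c'.src) : ContDiffAt ℝ 1 (fun w => c'.φ (f (c.ψ w))) z := by
  have h1 : ContMDiffAt 𝓘(ℝ, F) 𝓘(ℝ, F) 1 (fun w => c'.φ (f (c.ψ w))) z :=
    ContMDiffAt.comp z (g := c'.φ) (f := fun w => f (c.ψ w)) (c'.φ_at h)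
      (ContMDiffAt.comp z (g := f) (f := c.ψ) f.contMDiff.contMDiffAt (c.ψ_at hz))
  exact h1.contDiffAt

theorem ev_expr (c c' : Cht I M F) (f : M ≃ₘ^1⟮I, I⟯ M) {z : F} (hz : z ∈ c.tgt)
    (h : f (c.ψ z) ∈ c'.src) : ∀ᶠ w in 𝓝 z, w ∈ c.tgt ∧ f (c.ψ w) ∈ c'.src := by
  have h1 : ContinuousAt (fun w => f (c.ψ w)) z :=
    f.contMDiff.continuous.continuousAt.comp (c.ψ_at hz).continuousAt
  filter_upwards [c.open_tgt.mem_nhds hz, h1 (c'.open_src.mem_nhds h)] with w a b using ⟨a, b⟩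

theorem equiv_expr (c c' : Cht I M F) (f : M ≃ₘ^1⟮I, I⟯ M) {z : F} (hz : z ∈ c.tgt)
    (h : f (c.ψ z) ∈ c'.src) : ∃ L : F ≃L[ℝ] F,
      HasFDerivAt (fun w => c'.φ (f (c.ψ w))) (L : F →L[ℝ] F) z ∧
      HasFDerivAt (fun w => c.φ (f⁻¹ (c'.ψ w))) (L.symm : F →L[ℝ] F) (c'.φ (f (c.ψ z))) := by
  have hz' : c'.φ (f (c.ψ z)) ∈ c'.tgt := c'.φ_mem _ h
  have e1 : f⁻¹ (c'.ψ (c'.φ (f (c.ψ z)))) = c.ψ z := by rw [c'.ψφ _ h, d1_self_inv]
  have h' : f⁻¹ (c'.ψ (c'.φ (f (c.ψ z)))) ∈ c.src := by rw [e1]; exact c.ψ_mem z hz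
  have d1 := ((smooth_expr c c' f hz h).differentiableAt one_ne_zero).hasFDerivAt
  have d2 := ((smooth_expr c' c f⁻¹ hz' h').differentiableAt one_ne_zero).hasFDerivAt
  have e2 : c.φ (f⁻¹ (c'.ψ (c'.φ (f (c.ψ z))))) = z := by rw [e1, c.φψ z hz]
  have k1 : (fun w => c.φ (f⁻¹ (c'.ψ (c'.φ (f (c.ψ w)))))) =ᶠ[𝓝 z] id := by
    filter_upwards [ev_expr c c' f hz h] with w hw
    rw [c'.ψφ _ hw.2, d1_self_inv, c.φψ w hw.1]; rfl
  have k2 : (fun w => c'.φ (f (c.ψ (c.φ (f⁻¹ (c'.ψ w)))))) =ᶠ[𝓝 (c'.φ (f (c.ψ z)))] id := by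
    filter_upwards [ev_expr c' c f⁻¹ hz' h'] with w hw
    rw [c.ψφ _ hw.2, d1_inv_self, c'.φψ w hw.1]; rfl
  have m1 := (d2.comp z d1).congr_of_eventuallyEq (k1.symm.trans (by rfl))
  have m2 : HasFDerivAt (fun w => c'.φ (f (c.ψ w)))
      (fderiv ℝ (fun w => c'.φ (f (c.ψ w))) z) (c.φ (f⁻¹ (c'.ψ (c'.φ (f (c.ψ z)))))) := by
    rw [e2]; exact d1
  have m3 := (m2.comp (c'.φ (f (c.ψ z))) d2).congr_of_eventuallyEq (k2.symm.trans (by rfl))
  have n1 := m1.unique (hasFDerivAt_id z)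
  have n2 := m3.unique (hasFDerivAt_id _)
  let A := fderiv ℝ (fun w => c'.φ (f (c.ψ w))) z
  let B := fderiv ℝ (fun w => c.φ (f⁻¹ (c'.ψ w))) (c'.φ (f (c.ψ z)))
  refine ⟨ContinuousLinearEquiv.equivOfInverse A B ?_ ?_, ?_, ?_⟩
  · intro x; exact DFunLike.congr_fun n1 x
  · intro x; exact DFunLike.congr_fun n2 x
  · exact d1
  · exact d2

end Pool.Agent.H365R3
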