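import Mathlib
import Pool.Agent.H365R3.Steps

set_option autoImplicit false

open scoped Manifold ContDiff Topology
open Set Filter Bundle

noncomputable section

namespace Pool.Agent.H365R3

section

variable {F : Type} [NormedAddCommGroup F] [NormedSpace ℝ F]

theorem exists_patch_equiv [FiniteDimensional ℝ F] (J : F → F) (b : F) (hJb : J b = b)
    (hJ : ContDiffAt ℝ 1 J b) (hDJ : HasFDerivAt J (ContinuousLinearMap.id ℝ F) b) (ε ρ : ℝ)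
    (hε : 0 < ε) (hε2 : ε ≤ 1 / 2) (hρ : 0 < ρ) :
    ∃ K : F ≃ F, ContDiff ℝ 1 K ∧ ContDiff ℝ 1 K.symm ∧ (∀ x, ρ ≤ ‖x - b‖ → K x = x) ∧
      (∃ r > 0, ∀ x, ‖x - b‖ < r → K x = J x) ∧
      ∀ x, ‖fderiv ℝ K x - ContinuousLinearMap.id ℝ F‖ ≤ ε := by
  obtain ⟨K, h1, h2, h3, h4⟩ := exists_patch J b hJb hJ hDJ.fderiv ε ρ hε hρ
  obtain ⟨e, he, hes⟩ := exists_inverse K h1 fun x => (h4 x).trans hε2
  have heK : (e : F → F) = K := funext he
  refine ⟨e, ?_, hes, ?_, ?_, ?_⟩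
  · rw [heK]; exact h1
  · rw [heK]; exact h2
  · rw [heK]; exact h3
  · rw [heK]; exact h4

theorem center_lt {K : F ≃ F} {ρ : ℝ} {b : F} (h : ∀ z, ρ ≤ ‖z - b‖ → K z = z) {z : F}
    (hz : ‖z - b‖ < ρ) : ‖K z - b‖ < ρ := by
  by_contra hcon
  have h1 := h (K z) (not_lt.1 hcon)
  have h2 := K.injective h1
  rw [h2] at hcon
  exact hcon hz

end

variable {E : Type} [NormedAddCommGroup E] [NormedSpace ℝ E] {H : Type} [TopologicalSpace H]
  {I : ModelWithCorners ℝ E H} {M : Type} [TopologicalSpace M] [ChartedSpace H M]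
  {F : Type} [NormedAddCommGroup F] [NormedSpace ℝ F]

theorem lin_iter {c : Cht I M F} {h : M → M} {L : F →L[ℝ] F} {t : ℝ}
    (hlin : ∀ z, ‖z‖ < t → h (c.ψ z) = c.ψ (L z)) (hL : ∀ z, ‖L z‖ ≤ ‖z‖) (n : ℕ) (z : F)
    (hz : ‖z‖ < t) : h^[n] (c.ψ z) = c.ψ ((L ^ n) z) := by
  induction n generalizing z with
  | zero => rfl
  | succ n ih =>
    rw [Function.iterate_succ_apply, hlin z hz, ih (L z) ((hL z).trans_lt hz)]
    rfl

theorem pow_norm_le {L : F →L[ℝ] F} {k : ℝ} (hk0 : 0 ≤ k) (hL : ∀ z, ‖L z‖ ≤ k * ‖z‖) (n : ℕ)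
    (z : F) : ‖(L ^ n) z‖ ≤ k ^ n * ‖z‖ := by
  induction n generalizing z with
  | zero => simp
  | succ n ih =>
    have h1 : (L ^ (n + 1)) z = (L ^ n) (L z) := rfl
    rw [h1]
    calc _ ≤ k ^ n * ‖L z‖ := ih _
      _ ≤ k ^ n * (k * ‖z‖) := mul_le_mul_of_nonneg_left (hL z) (pow_nonneg hk0 n)
      _ = k ^ (n + 1) * ‖z‖ := by ring

theorem SinkAt.lin_norm {c : Cht I M F} {f : M ≃ₘ^1⟮I, I⟯ M} {k r s : ℝ} (h : SinkAt c f k r)
    (hs : 0 < s) {L : F →L[ℝ] F} (hlin : ∀ z, ‖z‖ < s → f (c.ψ z) = c.ψ (L z)) (z : F) :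
    ‖L z‖ ≤ k * ‖z‖ := by
  have hcont : ContinuousAt L 0 := L.continuous.continuousAt
  have h2 : ∀ᶠ z in 𝓝 (0 : F), L z ∈ c.tgt := by
    have h3 : c.tgt ∈ 𝓝 (L 0) := by rw [map_zero]; exact c.open_tgt.mem_nhds h.zero_mem
    exact hcont h3
  have h1 : (fun z => c.φ (f (c.ψ z))) =ᶠ[𝓝 0] L := by
    filter_upwards [Metric.ball_mem_nhds (0 : F) hs, h2] with w hw hw2
    rw [hlin w (by simpa using hw), c.φψ _ hw2]
  have h4 := h.norm_fderiv_le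
  rw [h1.fderiv_eq, ContinuousLinearMap.fderiv] at h4
  exact L.le_of_opNorm_le h4 z

section

variable [FiniteDimensional ℝ F] [T2Space M] [IsManifold I ∞ M] [IsManifold I 1 M]
  [FiniteDimensional ℝ E] [LocallyConnectedSpace H] {c d : Cht I M F} {r : ℝ}
  {f : M ≃ₘ^1⟮I, I⟯ M}

theorem Good.lin_c (hg : Good c d r f) {W : Set (M ≃ₘ^1⟮I, I⟯ M)} (hW : W ∈ 𝓝 f)
    (L : F ≃L[ℝ] F) (hL : HasFDerivAt (fun z => c.φ (f (c.ψ z))) (L : F →L[ℝ] F) 0) :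
    ∃ f' ∈ W, Good c d r f' ∧ (∃ s > 0, ∀ z, ‖z‖ < s → f' (c.ψ z) = c.ψ (L z)) ∧
      ∀ x ∈ disk d r, f'⁻¹ x = f⁻¹ x := by
  obtain ⟨ε, hε, hε2, hh⟩ := hg.near_c hW
  obtain ⟨k, hk⟩ := hg.snk
  have hr := hk.hr
  have hfp : f (c.ψ 0) ∈ c.src := by rw [hk.fix]; exact hk.p_src
  have hfp' : f⁻¹ (c.ψ 0) ∈ c.src := by rw [inv_fix hk.fix]; exact hk.p_src
  obtain ⟨L', hL', hL''⟩ := equiv_expr c c f hk.zero_mem hfp
  rw [hk.fix, hk.φp] at hL''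
  have hLL : L' = L := ContinuousLinearEquiv.coe_injective (hL'.unique hL)
  subst hLL
  let J : F → F := fun z => c.φ (f⁻¹ (c.ψ (L' z)))
  have hJ0 : J 0 = 0 := by
    simp only [J]; rw [map_zero, inv_fix hk.fix, hk.φp]
  have hsm : ContDiffAt ℝ 1 (fun w => c.φ (f⁻¹ (c.ψ w))) (L' 0) := by
    rw [map_zero]; exact smooth_expr c c f⁻¹ hk.zero_mem hfp'
  have hJc : ContDiffAt ℝ 1 J 0 := hsm.comp 0 L'.contDiff.contDiffAt
  have hJd : HasFDerivAt J (ContinuousLinearMap.id ℝ F) 0 := by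
    have h1 : HasFDerivAt (fun w => c.φ (f⁻¹ (c.ψ w))) (L'.symm : F →L[ℝ] F) (L' 0) := by
      rw [map_zero]; exact hL''
    have h2 := h1.comp 0 (L' : F →L[ℝ] F).hasFDerivAt
    have h3 : (L'.symm : F →L[ℝ] F).comp (L' : F →L[ℝ] F) = ContinuousLinearMap.id ℝ F := by
      ext x; simp
    rw [h3] at h2
    exact h2
  obtain ⟨K, hK1, hK2, hK3, ⟨s1, hs1, hK4⟩, hK5⟩ :=
    exists_patch_equiv J 0 hJ0 hJc hJd ε (r / 2) hε hε2 (by linarith)
  have hK : Sml (r / 2) ε K := ⟨hK1, hK2, fun z hz => hK3 z (by simpa using hz), hK5, by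
    rw [hK4 0 (by simpa using hs1), hJ0]⟩
  obtain ⟨h1, h2, h3⟩ := hh K hK (hK.ok c (hk.sub' (by linarith)))
  refine ⟨_, h2, h1, ?_, h3⟩
  have hev : ∀ᶠ z in 𝓝 (0 : F), ‖z‖ < s1 ∧ z ∈ c.tgt ∧ f⁻¹ (c.ψ (L' z)) ∈ c.src := by
    have e1 : ∀ᶠ w in 𝓝 (L' 0), f⁻¹ (c.ψ w) ∈ c.src := by
      rw [map_zero]
      filter_upwards [ev_expr c c f⁻¹ hk.zero_mem hfp'] with w hw using hw.2
    have e2 : ContinuousAt L' 0 := L'.continuous.continuousAt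
    filter_upwards [Metric.ball_mem_nhds (0 : F) hs1, c.open_tgt.mem_nhds hk.zero_mem,
      e2.eventually e1] with z a b d
    exact ⟨by simpa using a, b, d⟩
  obtain ⟨s, hs, hball⟩ := Metric.eventually_nhds_iff_ball.1 hev
  refine ⟨s, hs, fun z hz => ?_⟩
  obtain ⟨a, b, d⟩ := hball z (by simpa using hz)
  rw [d1_mul_apply, liftD_src c _ (c.ψ_mem z b), c.φψ z b, hK4 z (by simpa using a)]
  simp only [J]
  rw [c.ψφ _ d, d1_inv_self]

theorem Good.lin_d (hg : Good c d r f) {W : Set (M ≃ₘ^1⟮I, I⟯ M)} (hW : W ∈ 𝓝 f)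
    (L : F ≃L[ℝ] F) (hL : HasFDerivAt (fun z => d.φ (f⁻¹ (d.ψ z))) (L : F →L[ℝ] F) 0) :
    ∃ f' ∈ W, Good c d r f' ∧ (∃ s > 0, ∀ z, ‖z‖ < s → f'⁻¹ (d.ψ z) = d.ψ (L z)) ∧
      ∀ x ∈ disk c r, f' x = f x := by
  obtain ⟨ε, hε, hε2, hh⟩ := hg.near_d hW
  obtain ⟨k, hk⟩ := hg.src
  have hr := hk.hr
  have hfp' : f⁻¹ (d.ψ 0) ∈ d.src := by rw [hk.fix]; exact hk.p_src
  let J : F → F := fun z => d.φ (f⁻¹ (d.ψ (L.symm z)))
  have hJ0 : J 0 = 0 := by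
    simp only [J]; rw [map_zero, hk.fix, hk.φp]
  have hsm : ContDiffAt ℝ 1 (fun w => d.φ (f⁻¹ (d.ψ w))) (L.symm 0) := by
    rw [map_zero]; exact smooth_expr d d f⁻¹ hk.zero_mem hfp'
  have hJc : ContDiffAt ℝ 1 J 0 := hsm.comp 0 L.symm.contDiff.contDiffAt
  have hJd : HasFDerivAt J (ContinuousLinearMap.id ℝ F) 0 := by
    have h1 : HasFDerivAt (fun w => d.φ (f⁻¹ (d.ψ w))) (L : F →L[ℝ] F) (L.symm 0) := by
      rw [map_zero]; exact hL
    have h2 := h1.comp 0 (L.symm : F →L[ℝ] F).hasFDerivAt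
    have h3 : (L : F →L[ℝ] F).comp (L.symm : F →L[ℝ] F) = ContinuousLinearMap.id ℝ F := by
      ext x; simp
    rw [h3] at h2
    exact h2
  obtain ⟨K, hK1, hK2, hK3, ⟨s1, hs1, hK4⟩, hK5⟩ :=
    exists_patch_equiv J 0 hJ0 hJc hJd ε (r / 2) hε hε2 (by linarith)
  have hK : Sml (r / 2) ε K := ⟨hK1, hK2, fun z hz => hK3 z (by simpa using hz), hK5, by
    rw [hK4 0 (by simpa using hs1), hJ0]⟩
  have hok := hK.ok d (hk.sub' (by linarith))
  obtain ⟨h1, h2, h3⟩ := hh K hK hok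
  refine ⟨_, h2, h1, ?_, h3⟩
  have hev : ∀ᶠ z in 𝓝 (0 : F), ‖L z‖ < s1 ∧ f⁻¹ (d.ψ z) ∈ d.src := by
    have e2 : ContinuousAt (fun z => ‖L z‖) 0 := L.continuous.norm.continuousAt
    have e3 : ∀ᶠ z in 𝓝 (0 : F), ‖L z‖ < s1 :=
      e2.eventually_lt continuousAt_const (by simpa using hs1)
    filter_upwards [e3, ev_expr d d f⁻¹ hk.zero_mem hfp'] with z a b using ⟨a, b.2⟩
  obtain ⟨s, hs, hball⟩ := Metric.eventually_nhds_iff_ball.1 hev
  refine ⟨s, hs, fun z hz => ?_⟩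
  obtain ⟨a, b⟩ := hball z (by simpa using hz)
  have h4 : K (L z) = d.φ (f⁻¹ (d.ψ z)) := by
    rw [hK4 (L z) (by simpa using a)]
    simp only [J]
    rw [L.symm_apply_apply]
  rw [mul_inv_rev, liftD_inv, d1_mul_apply, liftD_src d _ b, ← h4, K.symm_apply_apply]

/-- The linearised situation, with a linear transit map. -/
structure Conn (c d : Cht I M F) (f : M ≃ₘ^1⟮I, I⟯ M) (L L' A : F ≃L[ℝ] F) (r k s t ρ : ℝ)
    (b a : F) (N : ℕ) : Prop where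
  linc : ∀ z, ‖z‖ < s → f (c.ψ z) = c.ψ (L z)
  lind : ∀ z, ‖z‖ < t → f⁻¹ (d.ψ z) = d.ψ (L' z)
  s0 : 0 < s
  sr : s ≤ r / 2
  tr : t ≤ r / 2
  k0 : 0 < k
  k1 : k < 1
  Lk : ∀ z, ‖L z‖ ≤ k * ‖z‖
  Lk' : ∀ z, ‖L' z‖ ≤ k * ‖z‖
  ρ0 : 0 < ρ
  bt : ‖b‖ + ρ < t
  bk : k * (‖b‖ + ρ) < ‖b‖ - ρ
  trans : ∀ u, ‖u - b‖ ≤ ρ → ‖a + A (u - b)‖ < s ∧ f^[N] (d.ψ u) = c.ψ (a + A (u - b))

theorem Good.conn_lin (hg : Good c d r f) {W : Set (M ≃ₘ^1⟮I, I⟯ M)} (hW : W ∈ 𝓝 f)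
    (L L' : F ≃L[ℝ] F) {s : ℝ} (hs : 0 < s) (hlc : ∀ z, ‖z‖ < s → f (c.ψ z) = c.ψ (L z))
    (hld : ∀ z, ‖z‖ < s → f⁻¹ (d.ψ z) = d.ψ (L' z)) (hsr : s ≤ r / 2) :
    ∃ f' ∈ W, Good c d r f' ∧ ∃ (A : F ≃L[ℝ] F) (k t ρ : ℝ) (b a : F) (N : ℕ),
      Conn c d f' L L' A r k s t ρ b a N := by
  obtain ⟨ε, hε, hε2, hh⟩ := hg.near_d hW
  obtain ⟨k1, hk1⟩ := hg.snk
  obtain ⟨k2, hk2⟩ := hg.src
  obtain ⟨n, y, hy, hny⟩ := hg.conn
  have hr := hk1.hr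
  have hLk1 : ∀ z, ‖L z‖ ≤ k1 * ‖z‖ := hk1.lin_norm (L := (L : F →L[ℝ] F)) hs hlc
  have hLk2 : ∀ z, ‖L' z‖ ≤ k2 * ‖z‖ := hk2.lin_norm (L := (L' : F →L[ℝ] F)) hs hld
  let k := max k1 k2
  have hk0 : 0 < k := hk1.hk0.trans_le (le_max_left _ _)
  have hk1' : k < 1 := max_lt hk1.hk1 hk2.hk1
  have hLk : ∀ z, ‖L z‖ ≤ k * ‖z‖ := fun z =>
    (hLk1 z).trans (mul_le_mul_of_nonneg_right (le_max_left _ _) (norm_nonneg _))
  have hLk' : ∀ z, ‖L' z‖ ≤ k * ‖z‖ := fun z =>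
    (hLk2 z).trans (mul_le_mul_of_nonneg_right (le_max_right _ _) (norm_nonneg _))
  -- move deep into the linear regions
  obtain ⟨m, hm⟩ : ∃ m : ℕ, k2 ^ m * r < s := by
    have : Tendsto (fun m : ℕ => k2 ^ m * r) atTop (𝓝 (0 * r)) :=
      (tendsto_pow_atTop_nhds_zero_of_lt_one hk2.hk0.le hk2.hk1).mul_const r
    rw [zero_mul] at this
    exact (this.eventually_lt_const hs).exists
  obtain ⟨m', hm'⟩ : ∃ m : ℕ, k1 ^ m * r < s := by
    have : Tendsto (fun m : ℕ => k1 ^ m * r) atTop (𝓝 (0 * r)) :=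
      (tendsto_pow_atTop_nhds_zero_of_lt_one hk1.hk0.le hk1.hk1).mul_const r
    rw [zero_mul] at this
    exact (this.eventually_lt_const hs).exists
  let y1 := (⇑f⁻¹)^[m] y
  obtain ⟨hy1s, hy1n, -⟩ := hk2.iter hy.1 hy.2 m
  change y1 ∈ d.src at hy1s
  change ‖d.φ y1‖ ≤ _ at hy1n
  let b := d.φ y1
  have hb : ‖b‖ < s := by
    refine (hy1n.trans ?_).trans_lt hm
    exact mul_le_mul_of_nonneg_left hy.2 (pow_nonneg hk2.hk0.le m)
  let N := m' + (n + m)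
  have hN : f^[N] y1 = f^[m'] (f^[n] y) := by
    simp only [N]
    rw [Function.iterate_add_apply, Function.iterate_add_apply]
    simp only [y1]
    rw [iter_inv]
  obtain ⟨hNs, hNn, -⟩ := hk1.iter hny.1 hny.2 m'
  rw [← hN] at hNs hNn
  have hNn' : ‖c.φ (f^[N] y1)‖ < s := by
    refine (hNn.trans ?_).trans_lt hm'
    exact mul_le_mul_of_nonneg_left hny.2 (pow_nonneg hk1.hk0.le m')
  have hmemc : f^[N] y1 ∈ disk c r := ⟨hNs, by linarith⟩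
  have hmemd : y1 ∈ disk d r := ⟨hy1s, by change ‖b‖ ≤ r; linarith⟩
  have hb0 : b ≠ 0 := by
    intro h0
    have h1 : y1 = d.ψ 0 := hk2.eq_p hy1s h0
    have h2 : f (d.ψ 0) = d.ψ 0 := by
      have := inv_fix hk2.fix
      rwa [inv_inv] at this
    rw [h1, iter_fix h2, ← h1] at hmemc
    exact hg.disj.ne_of_mem hmemc hmemd rfl
  have hbpos : 0 < ‖b‖ := norm_pos_iff.2 hb0
  have hN0 : N ≠ 0 := by
    intro h0
    rw [h0] at hmemc
    exact hg.disj.ne_of_mem hmemc hmemd rfl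
  obtain ⟨N', hN'⟩ := Nat.exists_eq_succ_of_ne_zero hN0
  let g : M ≃ₘ^1⟮I, I⟯ M := f ^ N
  have hgx : ∀ x, g x = f^[N] x := fun x => d1_pow_apply f N x
  have hbt : b ∈ d.tgt := d.φ_mem _ hy1s
  have hψb : d.ψ b = y1 := d.ψφ _ hy1s
  have hgb : g (d.ψ b) ∈ c.src := by rw [hgx, hψb]; exact hNs
  obtain ⟨A, hA, hA'⟩ := equiv_expr d c g hbt hgb
  let a := c.φ (g (d.ψ b))
  change HasFDerivAt _ _ a at hA'
  have hat : a ∈ c.tgt := c.φ_mem _ hgb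
  have hψa : c.ψ a = g (d.ψ b) := c.ψφ _ hgb
  have hga : g⁻¹ (c.ψ a) ∈ d.src := by rw [hψa, d1_self_inv]; exact d.ψ_mem b hbt
  have hna : ‖a‖ < s := by simp only [a]; rw [hgx, hψb]; exact hNn'
  let J : F → F := fun x => d.φ (g⁻¹ (c.ψ (a + A (x - b))))
  have haff : a + A (b - b) = a := by simp
  have hJb : J b = b := by
    simp only [J]; rw [haff, hψa, d1_self_inv, d.φψ b hbt]
  have hJc : ContDiffAt ℝ 1 J b := by
    have h1 : ContDiffAt ℝ 1 (fun w => d.φ (g⁻¹ (c.ψ w))) (a + A (b - b)) := by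
      rw [haff]; exact smooth_expr c d g⁻¹ hat hga
    have h2 : ContDiffAt ℝ 1 (fun x => a + A (x - b)) b :=
      contDiffAt_const.add (A.contDiff.contDiffAt.comp b (contDiffAt_id.sub contDiffAt_const))
    exact ContDiffAt.comp b (g := fun w => d.φ (g⁻¹ (c.ψ w))) (f := fun x => a + A (x - b)) h1 h2
  have hJd : HasFDerivAt J (ContinuousLinearMap.id ℝ F) b := by
    have h1 : HasFDerivAt (fun w => d.φ (g⁻¹ (c.ψ w))) (A.symm : F →L[ℝ] F) (a + A (b - b)) := by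
      rw [haff]; exact hA'
    have h0 : HasFDerivAt (fun x => a + A (x - b)) (A : F →L[ℝ] F) b := by
      have e1 : HasFDerivAt (fun x : F => x - b) (ContinuousLinearMap.id ℝ F) b :=
        (hasFDerivAt_id b).sub_const b
      have e3 : HasFDerivAt (fun y : F => (A : F →L[ℝ] F) y) (A : F →L[ℝ] F)
        ((fun x : F => x - b) b) := (A : F →L[ℝ] F).hasFDerivAt
      have e2 := HasFDerivAt.comp (f := fun x : F => x - b) b e3 e1
      exact e2.const_add a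
    have h2 := h1.comp b h0
    have h3 : (A.symm : F →L[ℝ] F).comp (A : F →L[ℝ] F) = ContinuousLinearMap.id ℝ F := by
      ext x; simp
    rw [h3] at h2
    exact h2
  obtain ⟨ρ', hρ', hρ1, hρ2⟩ : ∃ ρ' : ℝ, 0 < ρ' ∧ ‖b‖ + ρ' < s ∧
      k * (‖b‖ + ρ') < ‖b‖ - ρ' := by
    refine ⟨min ((s - ‖b‖) / 2) (‖b‖ * (1 - k) / 4), lt_min (by linarith) ?_, ?_, ?_⟩
    · have : 0 < 1 - k := by linarith
      positivity
    · have := min_le_left ((s - ‖b‖) / 2) (‖b‖ * (1 - k) / 4)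
      linarith
    · have h1 := min_le_right ((s - ‖b‖) / 2) (‖b‖ * (1 - k) / 4)
      have h0 : 0 < min ((s - ‖b‖) / 2) (‖b‖ * (1 - k) / 4) := lt_min (by linarith) (by
        have : 0 < 1 - k := by linarith
        positivity)
      have h2 : 0 < ‖b‖ * (1 - k) := mul_pos hbpos (by linarith)
      nlinarith
  obtain ⟨K, hK1, hK2, hK3, ⟨s1, hs1, hK4⟩, hK5⟩ :=
    exists_patch_equiv J b hJb hJc hJd ε ρ' hε hε2 hρ'
  have hρb : ρ' ≤ ‖b‖ := by nlinarith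
  have hK : Sml (r / 2) ε K := ⟨hK1, hK2, fun z hz => hK3 z (by
    have := norm_sub_norm_le z b
    linarith), hK5, hK3 0 (by simpa using hρb)⟩
  have hok := hK.ok d (hk2.sub' (by linarith))
  obtain ⟨h1, h2, h3⟩ := hh K hK hok
  -- points outside the support
  let S : Set M := {x | x ∈ d.src ∧ ‖d.φ x - b‖ < ρ'}
  have hlS : ∀ x, x ∉ S → liftD d K hok x = x := by
    intro x hx
    apply liftD_off
    intro hxs
    apply hK3
    by_contra hcon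
    exact hx ⟨hxs, not_le.1 hcon⟩
  have hSd : ∀ x, x ∈ S → ‖d.φ x‖ < ‖b‖ + ρ' ∧ ‖b‖ - ρ' < ‖d.φ x‖ := by
    intro x hx
    have e1 := norm_sub_norm_le (d.φ x) b
    have e2 := norm_sub_norm_le b (d.φ x)
    rw [norm_sub_rev] at e2
    have e3 := hx.2
    constructor <;> linarith
  have hret : ∀ x ∈ S, ∀ j : ℕ, f^[j + 1] x ∉ S := by
    intro x hx j hxj
    have e1 := hSd x hx
    have e2 := hSd _ hxj
    let v' := d.φ (f^[j + 1] x)
    have e3 : (⇑f⁻¹)^[j + 1] (d.ψ v') = d.ψ (((L' : F →L[ℝ] F) ^ (j + 1)) v') :=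
      lin_iter (L := (L' : F →L[ℝ] F)) hld
        (fun z => (hLk' z).trans (by nlinarith [norm_nonneg z])) _ _ (by
          change ‖d.φ (f^[j + 1] x)‖ < s; linarith)
    have e4 : d.ψ v' = f^[j + 1] x := d.ψφ _ hxj.1
    rw [e4, inv_iter] at e3
    have e5 := pow_norm_le hk0.le (L := (L' : F →L[ℝ] F)) hLk' (j + 1) v'
    have e6 : d.φ x = ((L' : F →L[ℝ] F) ^ (j + 1)) v' := by
      rw [e3, d.φψ]
      refine hk2.tgt ?_
      have : k ^ (j + 1) ≤ 1 := pow_le_one₀ hk0.le hk1'.le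
      have h7 : k ^ (j + 1) * ‖v'‖ ≤ 1 * ‖v'‖ := mul_le_mul_of_nonneg_right this (norm_nonneg _)
      have h8 : ‖v'‖ < ‖b‖ + ρ' := e2.1
      linarith
    rw [← e6] at e5
    have h7 : k ^ (j + 1) ≤ k := by
      calc k ^ (j + 1) ≤ k ^ 1 := pow_le_pow_of_le_one hk0.le hk1'.le (by omega)
        _ = k := pow_one k
    have h8 : k ^ (j + 1) * ‖v'‖ ≤ k * (‖b‖ + ρ') :=
      mul_le_mul h7 e2.1.le (norm_nonneg _) hk0.le
    linarith [e1.2]
  have hiter : ∀ x ∈ S, ∀ j : ℕ, (f * liftD d K hok)^[j] (f x) = f^[j] (f x) := by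
    intro x hx j
    induction j with
    | zero => rfl
    | succ j ih =>
      rw [Function.iterate_succ_apply', Function.iterate_succ_apply', ih, d1_mul_apply, hlS]
      rw [← Function.iterate_succ_apply]
      exact hret x hx j
  have hev : ∀ᶠ u in 𝓝 b, ‖u - b‖ < s1 ∧ ‖u - b‖ < ρ' ∧ ‖a + A (u - b)‖ < s ∧
      g⁻¹ (c.ψ (a + A (u - b))) ∈ d.src := by
    have e0 : ContinuousAt (fun u => a + A (u - b)) b :=
      (continuous_const.add (A.continuous.comp (continuous_id.sub continuous_const))).continuousAt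
    have e1 : ∀ᶠ w in 𝓝 (a + A (b - b)), g⁻¹ (c.ψ w) ∈ d.src := by
      rw [haff]
      filter_upwards [ev_expr c d g⁻¹ hat hga] with w hw using hw.2
    have e2 : ∀ᶠ u in 𝓝 b, ‖a + A (u - b)‖ < s :=
      e0.norm.eventually_lt continuousAt_const (by rw [haff]; exact hna)
    filter_upwards [Metric.ball_mem_nhds b hs1, Metric.ball_mem_nhds b hρ', e2,
      e0.eventually e1] with u p1 p2 p3 p4
    exact ⟨by simpa [dist_eq_norm] using p1, by simpa [dist_eq_norm] using p2, p3, p4⟩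
  obtain ⟨s2, hs2, hball⟩ := Metric.eventually_nhds_iff_ball.1 hev
  have hρmin : 0 < min (s2 / 2) (ρ' / 2) := lt_min (by linarith) (by linarith)
  have hρl := min_le_left (s2 / 2) (ρ' / 2)
  have hρr := min_le_right (s2 / 2) (ρ' / 2)
  refine ⟨_, h2, h1, A, k, ‖b‖ + ρ', min (s2 / 2) (ρ' / 2), b, a, N, ?_, ?_, hs, hsr, by linarith,
    hk0, hk1', hLk, hLk', hρmin, by linarith, by nlinarith, ?_⟩
  · intro z hz
    rw [h3 _ ⟨c.ψ_mem z (hk1.tgt (by linarith)), by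
      rw [c.φψ z (hk1.tgt (by linarith))]; linarith⟩, hlc z hz]
  · intro z hz
    have e1 : ‖L' z‖ ≤ k * ‖z‖ := hLk' z
    have e2 : k * ‖z‖ ≤ k * (‖b‖ + ρ') := mul_le_mul_of_nonneg_left hz.le hk0.le
    have e3 : d.ψ (L' z) ∉ S := by
      intro hS
      have e4 := (hSd _ hS).2
      rw [d.φψ _ (hk2.tgt (by linarith))] at e4
      linarith
    have e5 := hlS _ e3
    rw [mul_inv_rev, d1_mul_apply, hld z (by linarith)]
    conv_lhs => rw [← e5]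
    exact d1_self_inv _ _
  · intro u hu
    have hu' : u ∈ Metric.ball b s2 := by
      rw [Metric.mem_ball, dist_eq_norm]; linarith
    obtain ⟨p1, p2, p3, p4⟩ := hball u hu'
    refine ⟨p3, ?_⟩
    have hut : u ∈ d.tgt := hk2.tgt (by
      have := norm_sub_norm_le u b
      linarith)
    have hKu : ‖K u - b‖ < ρ' := center_lt hK3 p2
    have hKut : K u ∈ d.tgt := hk2.tgt (by
      have := norm_sub_norm_le (K u) b
      linarith)
    have hS : d.ψ (K u) ∈ S := ⟨d.ψ_mem _ hKut, by rw [d.φψ _ hKut]; exact hKu⟩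
    have e1 : (f * liftD d K hok) (d.ψ u) = f (d.ψ (K u)) := by
      rw [d1_mul_apply, liftD_src d hok (d.ψ_mem u hut), d.φψ u hut]
    rw [hN', Function.iterate_succ_apply, e1, hiter _ hS, ← Function.iterate_succ_apply, ← hN',
      ← hgx, hK4 u p1]
    simp only [J]
    rw [d.ψφ _ p4, d1_inv_self]

end

end Pool.Agent.H365R3
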