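import Mathlib
import Pool.Agent.H365R3.Steps2

set_option autoImplicit false

open scoped Manifold ContDiff Topology
open Set Filter Bundle

noncomputable section

namespace Pool.Agent.H365R3

section

variable {F : Type} [NormedAddCommGroup F] [NormedSpace ℝ F]

theorem symm_pow_pow (L : F ≃L[ℝ] F) (n : ℕ) (z : F) :
    ((L.symm : F →L[ℝ] F) ^ n) (((L : F →L[ℝ] F) ^ n) z) = z := by
  induction n generalizing z with
  | zero => rfl
  | succ n ih =>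
    have h1 : ((L : F →L[ℝ] F) ^ (n + 1)) z = L (((L : F →L[ℝ] F) ^ n) z) := by
      rw [pow_succ']; rfl
    have h2 : ((L.symm : F →L[ℝ] F) ^ (n + 1)) (L (((L : F →L[ℝ] F) ^ n) z))
      = ((L.symm : F →L[ℝ] F) ^ n) (L.symm (L (((L : F →L[ℝ] F) ^ n) z))) := rfl
    rw [h1, h2, L.symm_apply_apply, ih]

theorem pow_symm_pow (L : F ≃L[ℝ] F) (n : ℕ) (z : F) :
    ((L : F →L[ℝ] F) ^ n) (((L.symm : F →L[ℝ] F) ^ n) z) = z := by
  have := symm_pow_pow L.symm n z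
  rwa [ContinuousLinearEquiv.symm_symm] at this

theorem chainF [FiniteDimensional ℝ F] (L : F ≃L[ℝ] F) {k s : ℝ} (hk0 : 0 < k) (hk1 : k < 1)
    (hLk : ∀ z, ‖L z‖ ≤ k * ‖z‖) (v : F) (C : ℝ)
    (hC : ∀ n : ℕ, ‖((L : F →L[ℝ] F) ^ n) v‖ * ‖(L.symm : F →L[ℝ] F) ^ n‖ ≤ C)
    (B : Set F) (hB : IsClosed B) (hBs : ∀ z ∈ B, ‖z‖ < s)
    (hw : ∀ z ∈ B, ∀ j : ℕ, ((L : F →L[ℝ] F) ^ (j + 1)) z ∉ B)
    (α : ℕ → F → ℝ) (hα : ∀ n, ContDiff ℝ 1 (α n)) (hsupp : ∀ n x, x ∉ B → α n x = 0)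
    (δ ε : ℝ) (hδ : ∀ n x, ‖fderiv ℝ (α n) x‖ ≤ δ)
    (hlim : ∀ ε' > 0, ∀ᶠ n in atTop, ∀ x, ‖fderiv ℝ (α n) x‖ ≤ ε')
    (hCδ : C * δ ≤ ε) (hε0 : 0 ≤ ε) (hε : ε ≤ 1 / 2) :
    ∃ T : F ≃ F, Sml s ε T ∧ (∀ n : ℕ, ∀ z ∈ B, z + α n z • v ∈ B ∧
      T (((L : F →L[ℝ] F) ^ n) z) = ((L : F →L[ℝ] F) ^ n) (z + α n z • v)) ∧
      ∀ z, (∀ n : ℕ, ∀ w ∈ B, z ≠ ((L : F →L[ℝ] F) ^ n) w) → T z = z := by
  have hC0 : 0 ≤ C := le_trans (by positivity) (hC 0)
  have hδ0 : 0 ≤ δ := (norm_nonneg _).trans (hδ 0 0)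
  let e : ℕ → ℝ := fun n => ⨆ x, ‖fderiv ℝ (α n) x‖
  have hbdd : ∀ n, BddAbove (range fun x => ‖fderiv ℝ (α n) x‖) := fun n =>
    ⟨δ, by rintro _ ⟨x, rfl⟩; exact hδ n x⟩
  have he1 : ∀ n x, ‖fderiv ℝ (α n) x‖ ≤ e n := fun n x => le_ciSup (hbdd n) x
  have he2 : ∀ n, e n ≤ δ := fun n => ciSup_le (hδ n)
  have he3 : Tendsto e atTop (𝓝 0) := by
    rw [Metric.tendsto_atTop]
    intro ε' hε'
    obtain ⟨N, hN⟩ := (hlim (ε' / 2) (by linarith)).exists_forall_of_atTop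
    refine ⟨N, fun n hn => ?_⟩
    have h1 : e n ≤ ε' / 2 := ciSup_le (hN n hn)
    have h2 : 0 ≤ e n := (norm_nonneg _).trans (he1 n 0)
    rw [Real.dist_eq, sub_zero, abs_of_nonneg h2]
    linarith
  have hdisj' : ∀ z, ∀ m n : ℕ, m < n → ((L.symm : F →L[ℝ] F) ^ m) z ∈ B →
      ((L.symm : F →L[ℝ] F) ^ n) z ∉ B := by
    intro z m n hmn hm hn
    obtain ⟨j, rfl⟩ := Nat.exists_eq_add_of_lt hmn
    apply hw _ hn j
    have h1 : ((L.symm : F →L[ℝ] F) ^ (m + j + 1)) z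
        = ((L.symm : F →L[ℝ] F) ^ (j + 1)) (((L.symm : F →L[ℝ] F) ^ m) z) := by
      have : m + j + 1 = (j + 1) + m := by omega
      rw [this, pow_add]; rfl
    rw [h1, pow_symm_pow]
    exact hm
  have hdisj : ∀ z, ∀ m n : ℕ, ((L.symm : F →L[ℝ] F) ^ m) z ∈ B →
      ((L.symm : F →L[ℝ] F) ^ n) z ∈ B → m = n := by
    intro z m n hm hn
    rcases lt_trichotomy m n with h | h | h
    · exact absurd hn (hdisj' z m n h hm)
    · exact h
    · exact absurd hm (hdisj' z n m h hn)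
  obtain ⟨T0, hT1, hT2, hT3, hT4⟩ := chain (L : F →L[ℝ] F) (L.symm : F →L[ℝ] F) v C hC B hB hdisj
    α hα hsupp e he3 he1 ε hε0 (fun n => (mul_le_mul_of_nonneg_left (he2 n) hC0).trans hCδ)
  obtain ⟨T, hT, hTs⟩ := exists_inverse T0 hT1 fun x => (hT2 x).trans hε
  have hTe : (T : F → F) = T0 := funext hT
  have hpn : ∀ (n : ℕ) z, ‖((L : F →L[ℝ] F) ^ n) z‖ ≤ ‖z‖ := by
    intro n z
    refine (pow_norm_le hk0.le (L := (L : F →L[ℝ] F)) hLk n z).trans ?_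
    have : k ^ n ≤ 1 := pow_le_one₀ hk0.le hk1.le
    nlinarith [norm_nonneg z]
  have hzB : (0 : F) ∉ B := by
    intro h0
    have := hw 0 h0 0
    rw [map_zero] at this
    exact this h0
  refine ⟨T, ⟨?_, hTs, ?_, ?_, ?_⟩, ?_, ?_⟩
  · rw [hTe]; exact hT1
  · intro z hz
    rw [hT]
    refine hT4 z fun n hn => ?_
    have h1 := hpn n (((L.symm : F →L[ℝ] F) ^ n) z)
    rw [pow_symm_pow] at h1
    have := hBs _ hn
    linarith
  · rw [hTe]; exact hT2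
  · rw [hT]
    refine hT4 0 fun n hn => ?_
    rw [map_zero] at hn
    exact hzB hn
  · intro n z hz
    constructor
    · by_contra hcon
      let g : F → F := fun x => x + α n x • v
      have hv : ‖v‖ ≤ C := by
        by_cases hv0 : v = 0
        · rw [hv0, norm_zero]; exact hC0
        · have : Nontrivial F := ⟨v, 0, hv0⟩
          have h1 := hC 0
          rw [pow_zero, pow_zero] at h1
          have h2 : ‖(1 : F →L[ℝ] F)‖ = 1 := norm_one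
          rw [h2, mul_one] at h1
          exact h1
      have hgd : Differentiable ℝ g :=
        differentiable_id.add (((hα n).differentiable one_ne_zero).smul_const v)
      have hgs : ∀ x, ‖fderiv ℝ g x - ContinuousLinearMap.id ℝ F‖ ≤ ε := by
        intro x
        have h1 : HasFDerivAt g (ContinuousLinearMap.id ℝ F + (fderiv ℝ (α n) x).smulRight v) x :=
          (hasFDerivAt_id x).add
            (((hα n).differentiable one_ne_zero x).hasFDerivAt.smul_const v)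
        rw [h1.fderiv, add_sub_cancel_left, ContinuousLinearMap.norm_smulRight_apply]
        calc ‖fderiv ℝ (α n) x‖ * ‖v‖ ≤ δ * C :=
              mul_le_mul (hδ n x) hv (norm_nonneg _) hδ0
          _ = C * δ := mul_comm _ _
          _ ≤ ε := hCδ
      have hgg : g (g z) = g z := by
        have : α n (g z) = 0 := hsupp n _ hcon
        change g z + α n (g z) • v = g z
        rw [this, zero_smul, add_zero]
      have h2 := le_norm_sub_of_small g hgd ε hgs (g z) z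
      rw [hgg, sub_self, norm_zero] at h2
      have h3 : ‖g z - z‖ ≤ 0 := by
        have h4 : 0 ≤ ‖g z - z‖ := norm_nonneg _
        nlinarith
      have h5 : g z = z := by
        rw [← sub_eq_zero, ← norm_le_zero_iff]; exact h3
      have h6 : g z ∉ B := hcon
      rw [h5] at h6
      exact h6 hz
    · rw [hT]
      have h1 := hT3 n (((L : F →L[ℝ] F) ^ n) z) (by rw [symm_pow_pow]; exact hz)
      rw [h1, symm_pow_pow, map_add, map_smul]
  · intro z hz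
    rw [hT]
    refine hT4 z fun n hn => ?_
    exact hz n _ hn (pow_symm_pow L n z).symm

end

variable {E : Type} [NormedAddCommGroup E] [NormedSpace ℝ E] {H : Type} [TopologicalSpace H]
  {I : ModelWithCorners ℝ E H} {M : Type} [TopologicalSpace M] [ChartedSpace H M]
  {F : Type} [NormedAddCommGroup F] [NormedSpace ℝ F]

theorem iter_zpow (f : M ≃ₘ^1⟮I, I⟯ M) (n : ℕ) (x : M) : f^[n] x = (f ^ (n : ℤ)) x := by
  rw [zpow_natCast, d1_pow_apply]

theorem iter_inv_zpow (f : M ≃ₘ^1⟮I, I⟯ M) (n : ℕ) (x : M) :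
    (⇑f⁻¹)^[n] x = (f ^ (-(n : ℤ))) x := by
  rw [zpow_neg, zpow_natCast, ← inv_pow, d1_pow_apply]

theorem zpow_add_apply (f : M ≃ₘ^1⟮I, I⟯ M) (i j : ℤ) (x : M) :
    (f ^ i) ((f ^ j) x) = (f ^ (i + j)) x := by
  rw [zpow_add]; rfl

variable [FiniteDimensional ℝ F] [T2Space M]

/-- Build a diffeomorphism acting on the orbit of a small wandering ball. -/
theorem build (e d : Cht I M F) {f : M ≃ₘ^1⟮I, I⟯ M} {L L' A : F ≃L[ℝ] F} {r k s t ρ : ℝ}
    {b a : F} {N : ℕ} (hc : Conn e d f L L' A r k s t ρ b a N)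
    (hr1 : Metric.closedBall (0 : F) r ⊆ e.tgt) (hr2 : Metric.closedBall (0 : F) r ⊆ d.tgt)
    (w : F) (C : ℝ)
    (hC1 : ∀ n : ℕ, ‖((L' : F →L[ℝ] F) ^ n) w‖ * ‖(L'.symm : F →L[ℝ] F) ^ n‖ ≤ C)
    (hC2 : ∀ n : ℕ, ‖((L : F →L[ℝ] F) ^ n) (A w)‖ * ‖(L.symm : F →L[ℝ] F) ^ n‖ ≤ C)
    (β : ℤ → F → ℝ) (hβ : ∀ j, ContDiff ℝ 1 (β j)) (hβs : ∀ j x, ρ ≤ ‖x - b‖ → β j x = 0)
    (hβ0 : ∀ j : ℤ, 0 ≤ j → j < N → ∀ x, β j x = 0) (δ ε : ℝ)
    (hδ : ∀ j x, ‖fderiv ℝ (β j) x‖ ≤ δ)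
    (hlim : ∀ ε' > 0, ∃ N₀ : ℤ, ∀ j : ℤ, N₀ ≤ |j| → ∀ x, ‖fderiv ℝ (β j) x‖ ≤ ε')
    (hCδ : C * (1 + ‖(A.symm : F →L[ℝ] F)‖) * δ ≤ ε) (hε : ε ≤ 1 / 2) :
    ∃ T₁ T₂ : F ≃ F, Sml s ε T₁ ∧ Sml t ε T₂ ∧ ∀ (h₁ : LiftOK e T₁) (h₂ : LiftOK d T₂),
      (∀ (j : ℤ) (u : F), ‖u - b‖ ≤ ρ → ‖u + β j u • w - b‖ ≤ ρ ∧
        (liftD e T₁ h₁ * liftD d T₂ h₂) ((f ^ j) (d.ψ u)) = (f ^ j) (d.ψ (u + β j u • w))) ∧
      ∀ x, (∀ (j : ℤ) (u : F), ‖u - b‖ ≤ ρ → x ≠ (f ^ j) (d.ψ u)) →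
        (liftD e T₁ h₁ * liftD d T₂ h₂) x = x := by
  have hC0 : 0 ≤ C := le_trans (by positivity) (hC1 0)
  have hδ0 : 0 ≤ δ := (norm_nonneg _).trans (hδ 0 0)
  have hε0 : 0 ≤ ε := le_trans (by positivity) hCδ
  have hk0 := hc.k0
  have hk1 := hc.k1
  have hs0 := hc.s0
  have hsr := hc.sr
  have htr := hc.tr
  have hetgt : ∀ z, ‖z‖ < s → z ∈ e.tgt := fun z hz => hr1 (by
    rw [mem_closedBall_zero_iff]; linarith)
  have hdtgt : ∀ z, ‖z‖ < t → z ∈ d.tgt := fun z hz => hr2 (by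
    rw [mem_closedBall_zero_iff]
    have := norm_nonneg z
    linarith)
  have hub : ∀ u, ‖u - b‖ ≤ ρ → ‖u‖ < t ∧ ‖b‖ - ρ ≤ ‖u‖ ∧ ‖u‖ ≤ ‖b‖ + ρ := by
    intro u hu
    have e1 := norm_sub_norm_le u b
    have e2 := norm_sub_norm_le b u
    rw [norm_sub_rev] at e2
    have e3 := hc.bt
    refine ⟨by linarith, by linarith, by linarith⟩
  -- wandering
  have hwand : ∀ (m : ℕ) (u u' : F), ‖u - b‖ ≤ ρ → ‖u' - b‖ ≤ ρ →
      ((L' : F →L[ℝ] F) ^ (m + 1)) u ≠ u' := by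
    intro m u u' hu hu' heq
    have e1 := pow_norm_le hk0.le (L := (L' : F →L[ℝ] F)) hc.Lk' (m + 1) u
    rw [heq] at e1
    have h7 : k ^ (m + 1) ≤ k := by
      calc k ^ (m + 1) ≤ k ^ 1 := pow_le_pow_of_le_one hk0.le hk1.le (by omega)
        _ = k := pow_one k
    have h8 : k ^ (m + 1) * ‖u‖ ≤ k * (‖b‖ + ρ) :=
      mul_le_mul h7 (hub u hu).2.2 (norm_nonneg _) hk0.le
    have h9 := hc.bk
    have := (hub u' hu').2.1
    linarith
  have hback : ∀ (m : ℕ) (u : F), ‖u - b‖ ≤ ρ →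
      (⇑f⁻¹)^[m] (d.ψ u) = d.ψ (((L' : F →L[ℝ] F) ^ m) u) := fun m u hu =>
    lin_iter (L := (L' : F →L[ℝ] F)) hc.lind
      (fun z => (hc.Lk' z).trans (by nlinarith [norm_nonneg z])) m u (hub u hu).1
  have hpn : ∀ (n : ℕ) z, ‖((L' : F →L[ℝ] F) ^ n) z‖ ≤ ‖z‖ := by
    intro n z
    refine (pow_norm_le hk0.le (L := (L' : F →L[ℝ] F)) hc.Lk' n z).trans ?_
    have : k ^ n ≤ 1 := pow_le_one₀ hk0.le hk1.le
    nlinarith [norm_nonneg z]
  have hnr : ∀ (m : ℕ) (u u' : F), ‖u - b‖ ≤ ρ → ‖u' - b‖ ≤ ρ →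
      (f ^ ((m : ℤ) + 1)) (d.ψ u') ≠ d.ψ u := by
    intro m u u' hu hu' heq
    have h1 : (f ^ (-((m : ℤ) + 1))) (d.ψ u) = d.ψ u' := by
      rw [← heq, zpow_add_apply, neg_add_cancel, zpow_zero]; rfl
    have h2 := hback (m + 1) u hu
    have hcast : -(((m + 1 : ℕ) : ℤ)) = -((m : ℤ) + 1) := by push_cast; ring
    rw [iter_inv_zpow, hcast, h1] at h2
    have h3 := congrArg d.φ h2
    rw [d.φψ _ (hdtgt _ (hub u' hu').1), d.φψ _ (hdtgt _ ((hpn _ _).trans_lt (hub u hu).1))] at h3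
    exact hwand m u u' hu hu' h3.symm
  have huniq : ∀ (i j : ℤ) (u u' : F), ‖u - b‖ ≤ ρ → ‖u' - b‖ ≤ ρ →
      (f ^ i) (d.ψ u) = (f ^ j) (d.ψ u') → i = j := by
    have key : ∀ (i j : ℤ) (u u' : F), ‖u - b‖ ≤ ρ → ‖u' - b‖ ≤ ρ →
      (f ^ i) (d.ψ u) = (f ^ j) (d.ψ u') → ¬ i < j := by
      intro i j u u' hu hu' heq hij
      obtain ⟨m, hm⟩ := Int.eq_ofNat_of_zero_le (a := j - i - 1) (by omega)
      have h1 : (f ^ (-i)) ((f ^ i) (d.ψ u)) = (f ^ (-i)) ((f ^ j) (d.ψ u')) := by rw [heq]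
      rw [zpow_add_apply, zpow_add_apply, neg_add_cancel, zpow_zero] at h1
      have h2 : -i + j = (m : ℤ) + 1 := by omega
      rw [h2] at h1
      exact hnr m u u' hu hu' h1.symm
    intro i j u u' hu hu' heq
    rcases lt_trichotomy i j with h | h | h
    · exact absurd h (key i j u u' hu hu' heq)
    · exact h
    · exact absurd h (key j i u' u hu' hu heq.symm)
  -- the chain at the source
  have hB2 : IsClosed {u : F | ‖u - b‖ ≤ ρ} :=
    isClosed_le (continuous_id.sub continuous_const).norm continuous_const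
  let α₂ : ℕ → F → ℝ := fun n x => if n = 0 then 0 else β (-(n : ℤ)) x
  have hα2 : ∀ n, α₂ n = if n = 0 then (fun _ => 0) else β (-(n : ℤ)) := by
    intro n
    funext x
    by_cases h : n = 0
    · simp [α₂, h]
    · simp [α₂, h]
  have hα2d : ∀ n x, ‖fderiv ℝ (α₂ n) x‖ ≤ ‖fderiv ℝ (β (-(n : ℤ))) x‖ := by
    intro n x
    rw [hα2]
    by_cases h : n = 0
    · rw [if_pos h]; simp
    · rw [if_neg h]
  obtain ⟨T₂, hT2a, hT2b, hT2c⟩ := chainF L' (s := t) hk0 hk1 hc.Lk' w C hC1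
    {u : F | ‖u - b‖ ≤ ρ} hB2 (fun z hz => (hub z hz).1)
    (fun z hz j hj => hwand j z _ hz hj rfl) α₂
    (by
      intro n
      rw [hα2]
      by_cases h : n = 0
      · rw [if_pos h]; exact contDiff_const
      · rw [if_neg h]; exact hβ _)
    (by
      intro n x hx
      have hx' : ρ < ‖x - b‖ := not_le.1 hx
      by_cases h : n = 0
      · simp [α₂, h]
      · simp only [α₂, if_neg h]; exact hβs _ x hx'.le)
    δ ε (fun n x => (hα2d n x).trans (hδ _ x))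
    (by
      intro ε' hε'
      obtain ⟨N₀, hN₀⟩ := hlim ε' hε'
      filter_upwards [eventually_ge_atTop N₀.toNat] with n hn x
      refine (hα2d n x).trans (hN₀ _ ?_ x)
      rw [abs_neg, abs_of_nonneg (by positivity)]
      omega)
    (by
      refine le_trans ?_ hCδ
      have h1 : C * 1 ≤ C * (1 + ‖(A.symm : F →L[ℝ] F)‖) :=
        mul_le_mul_of_nonneg_left (by linarith [norm_nonneg (A.symm : F →L[ℝ] F)]) hC0
      rw [mul_one] at h1
      exact mul_le_mul_of_nonneg_right h1 hδ0)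
    hε0 hε
  -- the chain at the sink
  let ι : F → F := fun z => b + A.symm (z - a)
  have hιsm : ContDiff ℝ 1 ι :=
    contDiff_const.add (A.symm.contDiff.comp (contDiff_id.sub contDiff_const))
  have hιd : ∀ z, HasFDerivAt ι (A.symm : F →L[ℝ] F) z := by
    intro z
    have e1 : HasFDerivAt (fun x : F => x - a) (ContinuousLinearMap.id ℝ F) z :=
      (hasFDerivAt_id z).sub_const a
    have e3 : HasFDerivAt (fun y : F => (A.symm : F →L[ℝ] F) y) (A.symm : F →L[ℝ] F)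
      ((fun x : F => x - a) z) := (A.symm : F →L[ℝ] F).hasFDerivAt
    exact (HasFDerivAt.comp (f := fun x : F => x - a) z e3 e1).const_add b
  have hιA : ∀ u, ι (a + A (u - b)) = u := by
    intro u; simp [ι]
  have hAι : ∀ z, a + A (ι z - b) = z := by
    intro z; simp [ι]
  let B₁ : Set F := {z | ‖ι z - b‖ ≤ ρ}
  have hB1 : IsClosed B₁ :=
    isClosed_le (hιsm.continuous.sub continuous_const).norm continuous_const
  have hB1s : ∀ z ∈ B₁, ‖z‖ < s := by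
    intro z hz
    have := (hc.trans (ι z) hz).1
    rwa [hAι] at this
  have hB1t : ∀ z ∈ B₁, e.ψ z = (f ^ (N : ℤ)) (d.ψ (ι z)) := by
    intro z hz
    have := (hc.trans (ι z) hz).2
    rw [hAι, iter_zpow] at this
    exact this.symm
  have hfwd : ∀ (m : ℕ) (z : F), ‖z‖ < s →
      f^[m] (e.ψ z) = e.ψ (((L : F →L[ℝ] F) ^ m) z) := fun m z hz =>
    lin_iter (L := (L : F →L[ℝ] F)) hc.linc
      (fun z => (hc.Lk z).trans (by nlinarith [norm_nonneg z])) m z hz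
  have hw1 : ∀ z ∈ B₁, ∀ j : ℕ, ((L : F →L[ℝ] F) ^ (j + 1)) z ∉ B₁ := by
    intro z hz j hj
    have h1 := hfwd (j + 1) z (hB1s z hz)
    rw [hB1t z hz, hB1t _ hj, iter_zpow, zpow_add_apply] at h1
    have h2 := huniq _ _ _ _ hz hj h1
    push_cast at h2
    omega
  let α₁ : ℕ → F → ℝ := fun n z => β ((N : ℤ) + n) (ι z)
  have hα1d : ∀ n z, ‖fderiv ℝ (α₁ n) z‖
      ≤ ‖fderiv ℝ (β ((N : ℤ) + n)) (ι z)‖ * ‖(A.symm : F →L[ℝ] F)‖ := by
    intro n z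
    have h1 : HasFDerivAt (α₁ n)
        ((fderiv ℝ (β ((N : ℤ) + n)) (ι z)).comp (A.symm : F →L[ℝ] F)) z :=
      (((hβ ((N : ℤ) + n)).differentiable one_ne_zero (ι z)).hasFDerivAt).comp z (hιd z)
    rw [h1.fderiv]
    exact ContinuousLinearMap.opNorm_comp_le _ _
  obtain ⟨T₁, hT1a, hT1b, hT1c⟩ := chainF L (s := s) hk0 hk1 hc.Lk (A w) C hC2
    B₁ hB1 hB1s hw1 α₁ (fun n => (hβ _).comp hιsm)
    (fun n x hx => hβs _ _ (not_le.1 hx).le)
    (δ * ‖(A.symm : F →L[ℝ] F)‖) ε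
    (fun n z => (hα1d n z).trans (mul_le_mul_of_nonneg_right (hδ _ _) (norm_nonneg _)))
    (by
      intro ε' hε'
      obtain ⟨N₀, hN₀⟩ := hlim (ε' / (1 + ‖(A.symm : F →L[ℝ] F)‖)) (by positivity)
      filter_upwards [eventually_ge_atTop N₀.toNat] with n hn z
      refine (hα1d n z).trans ?_
      have h1 := hN₀ ((N : ℤ) + n) (by
        rw [abs_of_nonneg (by positivity)]
        omega) (ι z)
      have h2 : 0 < 1 + ‖(A.symm : F →L[ℝ] F)‖ := by positivity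
      calc ‖fderiv ℝ (β ((N : ℤ) + n)) (ι z)‖ * ‖(A.symm : F →L[ℝ] F)‖
          ≤ (ε' / (1 + ‖(A.symm : F →L[ℝ] F)‖)) * (1 + ‖(A.symm : F →L[ℝ] F)‖) :=
            mul_le_mul h1 (by linarith) (norm_nonneg _) (by positivity)
        _ = ε' := div_mul_cancel₀ _ h2.ne')
    (by
      refine le_trans ?_ hCδ
      have h1 : C * (δ * ‖(A.symm : F →L[ℝ] F)‖) ≤ C * (δ * (1 + ‖(A.symm : F →L[ℝ] F)‖)) :=
        mul_le_mul_of_nonneg_left
          (mul_le_mul_of_nonneg_left (by linarith) hδ0) hC0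
      linarith)
    hε0 hε
  refine ⟨T₁, T₂, hT1a, hT2a, fun h₁ h₂ => ?_⟩
  -- action of the two lifts
  have hD2 : ∀ (m : ℕ) (u : F), ‖u - b‖ ≤ ρ → ‖u + α₂ m u • w - b‖ ≤ ρ ∧
      liftD d T₂ h₂ ((f ^ (-(m : ℤ))) (d.ψ u)) = (f ^ (-(m : ℤ))) (d.ψ (u + α₂ m u • w)) := by
    intro m u hu
    obtain ⟨g1, g2⟩ := hT2b m u hu
    refine ⟨g1, ?_⟩
    have e1 := hback m u hu
    have e2 := hback m _ g1
    rw [iter_inv_zpow] at e1 e2
    have e3 : ((L' : F →L[ℝ] F) ^ m) u ∈ d.tgt := hdtgt _ ((hpn _ _).trans_lt (hub u hu).1)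
    rw [e1, e2, liftD_src d h₂ (d.ψ_mem _ e3), d.φψ _ e3, g2]
  have hD2' : ∀ x, (∀ (m : ℕ) (u : F), ‖u - b‖ ≤ ρ → x ≠ (f ^ (-(m : ℤ))) (d.ψ u)) →
      liftD d T₂ h₂ x = x := by
    intro x hx
    apply liftD_off
    intro hxs
    apply hT2c
    intro n u hu heq
    apply hx n u hu
    rw [← iter_inv_zpow, hback n u hu, ← heq, d.ψφ x hxs]
  have hpn1 : ∀ (n : ℕ) z, ‖((L : F →L[ℝ] F) ^ n) z‖ ≤ ‖z‖ := by
    intro n z
    refine (pow_norm_le hk0.le (L := (L : F →L[ℝ] F)) hc.Lk n z).trans ?_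
    have : k ^ n ≤ 1 := pow_le_one₀ hk0.le hk1.le
    nlinarith [norm_nonneg z]
  have hD1 : ∀ (m : ℕ) (u : F), ‖u - b‖ ≤ ρ → ‖u + β ((N : ℤ) + m) u • w - b‖ ≤ ρ ∧
      liftD e T₁ h₁ ((f ^ ((N : ℤ) + m)) (d.ψ u))
        = (f ^ ((N : ℤ) + m)) (d.ψ (u + β ((N : ℤ) + m) u • w)) := by
    intro m u hu
    let z := a + A (u - b)
    have hιz : ι z = u := hιA u
    have hz : z ∈ B₁ := by
      change ‖ι z - b‖ ≤ ρ
      rw [hιz]; exact hu
    obtain ⟨g1, g2⟩ := hT1b m z hz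
    have hα : α₁ m z = β ((N : ℤ) + m) u := by
      change β ((N : ℤ) + m) (ι z) = _
      rw [hιz]
    rw [hα] at g1 g2
    have hz' : ι (z + β ((N : ℤ) + m) u • A w) = u + β ((N : ℤ) + m) u • w := by
      have : z + β ((N : ℤ) + m) u • A w = a + A ((u + β ((N : ℤ) + m) u • w) - b) := by
        simp only [z]
        rw [add_sub_right_comm, map_add, map_smul]
        abel
      rw [this, hιA]
    have g1' : ‖u + β ((N : ℤ) + m) u • w - b‖ ≤ ρ := by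
      have : ‖ι (z + β ((N : ℤ) + m) u • A w) - b‖ ≤ ρ := g1
      rwa [hz'] at this
    refine ⟨g1', ?_⟩
    have e1 := hfwd m z (hB1s z hz)
    have e2 := hfwd m _ (hB1s _ g1)
    rw [hB1t z hz, hιz, iter_zpow, zpow_add_apply, add_comm] at e1
    rw [hB1t _ g1, hz', iter_zpow, zpow_add_apply, add_comm] at e2
    have e3 : ((L : F →L[ℝ] F) ^ m) z ∈ e.tgt := hetgt _ ((hpn1 _ _).trans_lt (hB1s z hz))
    rw [e1, e2, liftD_src e h₁ (e.ψ_mem _ e3), e.φψ _ e3, g2]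
  have hD1' : ∀ x, (∀ (m : ℕ) (u : F), ‖u - b‖ ≤ ρ → x ≠ (f ^ ((N : ℤ) + m)) (d.ψ u)) →
      liftD e T₁ h₁ x = x := by
    intro x hx
    apply liftD_off
    intro hxs
    apply hT1c
    intro n z hz heq
    apply hx n (ι z) hz
    have h1 := hfwd n z (hB1s z hz)
    rw [← heq, e.ψφ x hxs, hB1t z hz, iter_zpow, zpow_add_apply, add_comm] at h1
    exact h1.symm
  constructor
  · intro j u hu
    rw [d1_mul_apply]
    rcases lt_or_ge j 0 with hj | hj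
    · -- negative times
      obtain ⟨m, hm⟩ := Int.eq_ofNat_of_zero_le (a := -j) (by omega)
      have hj' : j = -(m : ℤ) := by omega
      have hm0 : m ≠ 0 := by omega
      subst hj'
      obtain ⟨g1, g2⟩ := hD2 m u hu
      have hα : α₂ m u = β (-(m : ℤ)) u := by
        simp only [α₂, if_neg hm0]
      rw [hα] at g1 g2
      refine ⟨g1, ?_⟩
      rw [g2]
      apply hD1'
      intro m' u' hu' heq
      have := huniq _ _ _ _ g1 hu' heq
      omega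
    · have h2 : liftD d T₂ h₂ ((f ^ j) (d.ψ u)) = (f ^ j) (d.ψ u) := by
        rcases hj.lt_or_eq with hj1 | hj1
        · apply hD2'
          intro m u' hu' heq
          have := huniq _ _ _ _ hu hu' heq
          omega
        · obtain ⟨g1, g2⟩ := hD2 0 u hu
          have : α₂ 0 u = 0 := by simp [α₂]
          rw [this, zero_smul, add_zero] at g2
          rw [← hj1]
          simpa using g2
      rw [h2]
      rcases lt_or_ge j N with hjN | hjN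
      · rw [hβ0 j hj hjN u, zero_smul, add_zero]
        refine ⟨hu, ?_⟩
        apply hD1'
        intro m u' hu' heq
        have := huniq _ _ _ _ hu hu' heq
        omega
      · obtain ⟨m, hm⟩ := Int.eq_ofNat_of_zero_le (a := j - N) (by omega)
        have hj' : j = (N : ℤ) + m := by omega
        rw [hj']
        exact hD1 m u hu
  · intro x hx
    rw [d1_mul_apply, hD2' x fun m u hu => hx _ u hu]
    exact hD1' x fun m u hu => hx _ u hu

end Pool.Agent.H365R3
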