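import Mathlib
import Pool.Agent.H365R3.Good

set_option autoImplicit false

open scoped Manifold ContDiff Topology
open Set Filter Bundle

noncomputable section

namespace Pool.Agent.H365R3

section Linear

variable {F G : Type} [NormedAddCommGroup F] [NormedSpace ℝ F] [NormedAddCommGroup G]
  [NormedSpace ℝ G]

/-- `D` is hyperbolic with constants `C`, `l`. -/
def LH (D : F →L[ℝ] F) (C l : ℝ) : Prop :=
  ∃ Es Eu : Submodule ℝ F, IsCompl Es Eu ∧ (∀ v ∈ Es, D v ∈ Es) ∧ (∀ v ∈ Eu, D v ∈ Eu) ∧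
    (∀ v ∈ Es, ∀ n : ℕ, ‖(D ^ n) v‖ ≤ C * l ^ n * ‖v‖) ∧
    ∀ v ∈ Eu, ∀ n : ℕ, ‖v‖ ≤ C * l ^ n * ‖(D ^ n) v‖

theorem LH.mono {D : F →L[ℝ] F} {C l C' l' : ℝ} (h : LH D C l) (hC : 0 ≤ C) (hl : 0 ≤ l)
    (hC' : C ≤ C') (hl' : l ≤ l') : LH D C' l' := by
  obtain ⟨Es, Eu, h1, h2, h3, h4, h5⟩ := h
  exact ⟨Es, Eu, h1, h2, h3,
    fun v hv n => (h4 v hv n).trans (pow_bound (norm_nonneg _) hC hC' hl hl' n),
    fun v hv n => (h5 v hv n).trans (pow_bound (norm_nonneg _) hC hC' hl hl' n)⟩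

theorem pow_succ_app (D : F →L[ℝ] F) (n : ℕ) (v : F) : (D ^ (n + 1)) v = (D ^ n) (D v) := rfl

theorem LH_contr (D : F →L[ℝ] F) {l : ℝ} (hl : 0 ≤ l) (h : ∀ v, ‖D v‖ ≤ l * ‖v‖) : LH D 1 l := by
  refine ⟨⊤, ⊥, isCompl_top_bot, fun _ _ => trivial, ?_, ?_, ?_⟩
  · intro v hv
    rw [Submodule.mem_bot] at hv
    rw [hv, map_zero]; exact Submodule.zero_mem _
  · intro v _ n
    rw [one_mul]
    induction n generalizing v with
    | zero => simp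
    | succ n ih =>
      rw [pow_succ_app]
      refine (ih (D v) trivial).trans ?_
      calc l ^ n * ‖D v‖ ≤ l ^ n * (l * ‖v‖) := mul_le_mul_of_nonneg_left (h v) (pow_nonneg hl n)
        _ = l ^ (n + 1) * ‖v‖ := by ring
  · intro v hv n
    rw [Submodule.mem_bot] at hv
    rw [hv, map_zero, norm_zero, mul_zero]

theorem LH_exp (D : F →L[ℝ] F) {l : ℝ} (hl : 0 ≤ l) (h : ∀ v, ‖v‖ ≤ l * ‖D v‖) : LH D 1 l := by
  refine ⟨⊥, ⊤, isCompl_bot_top, ?_, fun _ _ => trivial, ?_, ?_⟩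
  · intro v hv
    rw [Submodule.mem_bot] at hv
    rw [hv, map_zero]; exact Submodule.zero_mem _
  · intro v hv n
    rw [Submodule.mem_bot] at hv
    rw [hv, map_zero, norm_zero, mul_zero]
  · intro v _ n
    rw [one_mul]
    induction n generalizing v with
    | zero => simp
    | succ n ih =>
      rw [pow_succ_app]
      calc ‖v‖ ≤ l * ‖D v‖ := h v
        _ ≤ l * (l ^ n * ‖(D ^ n) (D v)‖) := mul_le_mul_of_nonneg_left (ih (D v) trivial) hl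
        _ = l ^ (n + 1) * ‖(D ^ n) (D v)‖ := by ring

theorem pow_eigen (D : F →L[ℝ] F) {u : F} {a : ℝ} (h : D u = a • u) (n : ℕ) :
    (D ^ n) u = a ^ n • u := by
  induction n with
  | zero => simp
  | succ n ih =>
    rw [pow_succ_app, h, map_smul, ih, smul_smul]
    congr 1; ring

theorem LH_saddle (D : F →L[ℝ] F) (u w : F) (hu : D u = (3 / 4 : ℝ) • u)
    (hw : D w = (5 / 4 : ℝ) • w)
    (hc : IsCompl (Submodule.span ℝ {u}) (Submodule.span ℝ {w})) : LH D 1 (4 / 5) := by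
  refine ⟨Submodule.span ℝ {u}, Submodule.span ℝ {w}, hc, ?_, ?_, ?_, ?_⟩
  · intro v hv
    obtain ⟨a, rfl⟩ := Submodule.mem_span_singleton.1 hv
    rw [map_smul, hu, smul_smul]
    exact Submodule.smul_mem _ _ (Submodule.mem_span_singleton_self u)
  · intro v hv
    obtain ⟨a, rfl⟩ := Submodule.mem_span_singleton.1 hv
    rw [map_smul, hw, smul_smul]
    exact Submodule.smul_mem _ _ (Submodule.mem_span_singleton_self w)
  · intro v hv n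
    obtain ⟨a, rfl⟩ := Submodule.mem_span_singleton.1 hv
    rw [map_smul, pow_eigen D hu, one_mul, smul_comm, norm_smul, norm_pow]
    refine mul_le_mul_of_nonneg_right (pow_le_pow_left₀ (norm_nonneg _) ?_ n) (norm_nonneg _)
    rw [Real.norm_eq_abs, abs_of_pos] <;> norm_num
  · intro v hv n
    obtain ⟨a, rfl⟩ := Submodule.mem_span_singleton.1 hv
    rw [map_smul, pow_eigen D hw, one_mul, smul_comm, norm_smul ((5 / 4 : ℝ) ^ n) (a • w),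
      norm_pow, ← mul_assoc, ← mul_pow]
    have : (4 / 5 : ℝ) * ‖(5 / 4 : ℝ)‖ = 1 := by
      rw [Real.norm_eq_abs, abs_of_pos] <;> norm_num
    rw [this, one_pow, one_mul]

theorem LH.prod {D : F →L[ℝ] F} {D' : G →L[ℝ] G} {C l : ℝ} (h : LH D C l) (h' : LH D' C l)
    (hC : 0 ≤ C) (hl : 0 ≤ l) : LH (D.prodMap D') C l := by
  obtain ⟨Es, Eu, h1, h2, h3, h4, h5⟩ := h
  obtain ⟨Es', Eu', h1', h2', h3', h4', h5'⟩ := h'
  have hpow : ∀ (n : ℕ) (v : F × G), ((D.prodMap D') ^ n) v = ((D ^ n) v.1, (D' ^ n) v.2) := by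
    intro n
    induction n with
    | zero => intro v; rfl
    | succ n ih => intro v; rw [pow_succ_app, ih]; rfl
  refine ⟨Es.prod Es', Eu.prod Eu', ?_, ?_, ?_, ?_, ?_⟩
  · refine IsCompl.of_eq ?_ ?_
    · rw [Submodule.prod_inf_prod, h1.inf_eq_bot, h1'.inf_eq_bot, Submodule.prod_bot]
    · rw [Submodule.prod_sup_prod, h1.sup_eq_top, h1'.sup_eq_top, Submodule.prod_top]
  · intro v hv; exact ⟨h2 _ hv.1, h2' _ hv.2⟩
  · intro v hv; exact ⟨h3 _ hv.1, h3' _ hv.2⟩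
  · intro v hv n
    rw [hpow, Prod.norm_def]
    have hp : 0 ≤ C * l ^ n := mul_nonneg hC (pow_nonneg hl n)
    exact max_le ((h4 _ hv.1 n).trans (mul_le_mul_of_nonneg_left (norm_fst_le v) hp))
      ((h4' _ hv.2 n).trans (mul_le_mul_of_nonneg_left (norm_snd_le v) hp))
  · intro v hv n
    rw [hpow, Prod.norm_def (x := v)]
    have hp : 0 ≤ C * l ^ n := mul_nonneg hC (pow_nonneg hl n)
    exact max_le ((h5 _ hv.1 n).trans (mul_le_mul_of_nonneg_left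
        (norm_fst_le ((D ^ n) v.1, (D' ^ n) v.2)) hp))
      ((h5' _ hv.2 n).trans (mul_le_mul_of_nonneg_left
        (norm_snd_le ((D ^ n) v.1, (D' ^ n) v.2)) hp))

end Linear

variable {E : Type} [NormedAddCommGroup E] [NormedSpace ℝ E] {H : Type} [TopologicalSpace H]
  {I : ModelWithCorners ℝ E H} {M : Type} [TopologicalSpace M] [ChartedSpace H M]
  {F : Type} [NormedAddCommGroup F] [NormedSpace ℝ F]

/-- The tangent map at a fixed point in a chart. -/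
theorem tangent_fix [IsManifold I 1 M] (c : Cht I M F) (f : M ≃ₘ^1⟮I, I⟯ M)
    (h0 : (0 : F) ∈ c.tgt) (hfix : f (c.ψ 0) = c.ψ 0) (n : ℕ) (ξ : F) :
    (tangentMap I I f)^[n] (c.dψ (0, ξ))
      = c.dψ (0, ((fderiv ℝ (fun z => c.φ (f (c.ψ z))) 0) ^ n) ξ) := by
  let L := fderiv ℝ (fun z => c.φ (f (c.ψ z))) 0
  have hφp : c.φ (c.ψ 0) = 0 := c.φψ 0 h0
  have hps : c.ψ 0 ∈ c.src := c.ψ_mem 0 h0
  have hT : ∀ ξ : F, tangentMap I I f (c.dψ (0, ξ)) = c.dψ (0, L ξ) := by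
    intro ξ
    have hsrc : (c.dψ (0, ξ)).1 ∈ c.src := hps
    have hfix' : f (c.dψ (0, ξ)).1 = c.ψ 0 := hfix
    have hfs : f (c.dψ (0, ξ)).1 ∈ c.src := by rw [hfix']; exact hps
    have h1 := c.dφ_tangentMap c f (c.dψ (0, ξ)) hsrc hfs f.contMDiff.contMDiffAt
    have h2 := c.dψ_dφ (tangentMap I I f (c.dψ (0, ξ))) hfs
    rw [← h2, h1, c.dφ_dψ (0, ξ) h0, hfix', hφp]
    have h3 : c.φ (c.dψ (0, ξ)).1 = 0 := hφp
    rw [h3]
  induction n generalizing ξ with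
  | zero => rfl
  | succ n ih =>
    rw [Function.iterate_succ_apply, hT, ih]
    rfl

/-- Hyperbolicity at one fixed point. -/
theorem hyp_point [FiniteDimensional ℝ F] [IsManifold I 1 M] (f : M ≃ₘ^1⟮I, I⟯ M)
    {N : TangentBundle I M → ℝ} (hN : IsFibreNorm N) (x : M) (c : Cht I M F)
    (h0 : (0 : F) ∈ c.tgt) (hx : c.ψ 0 = x) (hfix : f x = x) (C l : ℝ) (hC : 0 < C) (hl : 0 < l)
    (hD : LH (fderiv ℝ (fun z => c.φ (f (c.ψ z))) 0) C l) :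
    ∃ (Es Eu : Submodule ℝ E) (C' : ℝ), 0 < C' ∧ IsCompl Es Eu ∧
      (∀ v ∈ Es, (mfderiv I I f x : E →L[ℝ] E) v ∈ Es) ∧
      (∀ v ∈ Eu, (mfderiv I I f x : E →L[ℝ] E) v ∈ Eu) ∧
      (∀ v ∈ Es, ∀ n : ℕ, N ((tangentMap I I f)^[n] ⟨x, v⟩) ≤ C' * l ^ n * N ⟨x, v⟩) ∧
      ∀ v ∈ Eu, ∀ n : ℕ, N ⟨x, v⟩ ≤ C' * l ^ n * N ((tangentMap I I f)^[n] ⟨x, v⟩) := by
  subst hx
  obtain ⟨Ps, Pu, h1, h2, h3, h4, h5⟩ := hD
  obtain ⟨m, B, hm, hB, hmB⟩ := SinkAt.norm_equiv (c := c) hN h0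
  have hφp : c.φ (c.ψ 0) = 0 := c.φψ 0 h0
  have hps : c.ψ 0 ∈ c.src := c.ψ_mem 0 h0
  let a : E →L[ℝ] F := mfderiv I 𝓘(ℝ, F) c.φ (c.ψ 0)
  let b : F →L[ℝ] E := mfderiv 𝓘(ℝ, F) I c.ψ 0
  have hab : ∀ ξ, a (b ξ) = ξ := by
    intro ξ
    exact congrArg Prod.snd (c.dφ_dψ (0, ξ) h0)
  have hva : ∀ v : E, (⟨c.ψ 0, v⟩ : TangentBundle I M) = c.dψ (0, a v) := by
    intro v
    have e1 := c.dψ_dφ (⟨c.ψ 0, v⟩ : TangentBundle I M) hps
    have e2 : c.dφ (⟨c.ψ 0, v⟩ : TangentBundle I M) = (0, a v) := Prod.ext hφp rfl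
    rw [e2] at e1
    exact e1.symm
  have hba : ∀ v : E, b (a v) = v := by
    intro v
    have e1 := hva v
    have e2 : (⟨c.ψ 0, v⟩ : TangentBundle I M) = ⟨c.ψ 0, b (a v)⟩ := e1
    exact (TotalSpace.mk_inj.1 e2).symm
  let θ : E ≃ₗ[ℝ] F := LinearEquiv.ofLinearMap (a : E →ₗ[ℝ] F) (b : F →ₗ[ℝ] E)
    (by ext ξ; exact hab ξ) (by ext v; exact hba v)
  have hθ : ∀ v, θ v = a v := fun v => rfl
  let D := fderiv ℝ (fun z => c.φ (f (c.ψ z))) 0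
  have hT : ∀ (v : E) (n : ℕ), (tangentMap I I f)^[n] (⟨c.ψ 0, v⟩ : TangentBundle I M)
      = c.dψ (0, (D ^ n) (a v)) := by
    intro v n
    rw [hva v]; exact tangent_fix c f h0 hfix n (a v)
  have hDa : ∀ v : E, a ((mfderiv I I f (c.ψ 0) : E →L[ℝ] E) v) = D (a v) := by
    intro v
    have e1 := hT v 1
    rw [pow_one, Function.iterate_one] at e1
    have e2 : tangentMap I I f (⟨c.ψ 0, v⟩ : TangentBundle I M)
      = (⟨f (c.ψ 0), (mfderiv I I f (c.ψ 0) : E →L[ℝ] E) v⟩ : TangentBundle I M) := rfl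
    rw [e2] at e1
    have e3 : (⟨f (c.ψ 0), (mfderiv I I f (c.ψ 0) : E →L[ℝ] E) v⟩ : TangentBundle I M)
      = (⟨c.ψ 0, (mfderiv I I f (c.ψ 0) : E →L[ℝ] E) v⟩ : TangentBundle I M) := by
      refine TotalSpace.ext hfix ?_
      exact HEq.rfl
    have e5 : c.dψ (0, a ((mfderiv I I f (c.ψ 0) : E →L[ℝ] E) v)) = c.dψ (0, D (a v)) :=
      (hva _).symm.trans (e3.symm.trans e1)
    have e4 := congrArg c.dφ e5
    rw [c.dφ_dψ _ h0, c.dφ_dψ _ h0] at e4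
    exact congrArg Prod.snd e4
  refine ⟨Ps.comap (θ : E →ₗ[ℝ] F), Pu.comap (θ : E →ₗ[ℝ] F), B * C / m, by positivity, ?_, ?_, ?_,
    ?_, ?_⟩
  · exact (Submodule.orderIsoMapComap θ).symm.isCompl h1
  · intro v hv
    change a _ ∈ Ps
    rw [hDa]; exact h2 _ hv
  · intro v hv
    change a _ ∈ Pu
    rw [hDa]; exact h3 _ hv
  · intro v hv n
    rw [hT, hva]
    have e1 := h4 (a v) hv n
    have e2 := (hmB ((D ^ n) (a v))).2
    have e3 := (hmB (a v)).1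
    calc N (c.dψ (0, (D ^ n) (a v))) ≤ B * ‖(D ^ n) (a v)‖ := e2
      _ ≤ B * (C * l ^ n * ‖a v‖) := mul_le_mul_of_nonneg_left e1 hB.le
      _ = B * C / m * l ^ n * (m * ‖a v‖) := by field_simp
      _ ≤ B * C / m * l ^ n * N (c.dψ (0, a v)) :=
        mul_le_mul_of_nonneg_left e3 (by positivity)
  · intro v hv n
    rw [hT, hva]
    have e1 := h5 (a v) hv n
    have e2 := (hmB (a v)).2
    have e3 := (hmB ((D ^ n) (a v))).1
    calc N (c.dψ (0, a v)) ≤ B * ‖a v‖ := e2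
      _ ≤ B * (C * l ^ n * ‖(D ^ n) (a v)‖) := mul_le_mul_of_nonneg_left e1 hB.le
      _ = B * C / m * l ^ n * (m * ‖(D ^ n) (a v)‖) := by field_simp
      _ ≤ B * C / m * l ^ n * N (c.dψ (0, (D ^ n) (a v))) :=
        mul_le_mul_of_nonneg_left e3 (by positivity)

/-- A finite set of hyperbolic fixed points is hyperbolic. -/
theorem hyp_finite [FiniteDimensional ℝ F] [IsManifold I 1 M] (f : M ≃ₘ^1⟮I, I⟯ M)
    {N : TangentBundle I M → ℝ} (hN : IsFibreNorm N) (Λ : Set M) (hfin : Λ.Finite)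
    (C l : ℝ) (hC : 0 < C) (hl : 0 < l) (hl1 : l < 1)
    (h : ∀ x ∈ Λ, f x = x ∧ ∃ c : Cht I M F, (0 : F) ∈ c.tgt ∧ c.ψ 0 = x ∧
      LH (fderiv ℝ (fun z => c.φ (f (c.ψ z))) 0) C l) : IsHyperbolicSet f Λ := by
  classical
  have h1 : ∀ x ∈ Λ, ∃ (Es Eu : Submodule ℝ E) (C' : ℝ), 0 < C' ∧ IsCompl Es Eu ∧
      (∀ v ∈ Es, (mfderiv I I f x : E →L[ℝ] E) v ∈ Es) ∧
      (∀ v ∈ Eu, (mfderiv I I f x : E →L[ℝ] E) v ∈ Eu) ∧
      (∀ v ∈ Es, ∀ n : ℕ, N ((tangentMap I I f)^[n] ⟨x, v⟩) ≤ C' * l ^ n * N ⟨x, v⟩) ∧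
      ∀ v ∈ Eu, ∀ n : ℕ, N ⟨x, v⟩ ≤ C' * l ^ n * N ((tangentMap I I f)^[n] ⟨x, v⟩) := by
    intro x hx
    obtain ⟨hfix, c, h0, hcx, hD⟩ := h x hx
    exact hyp_point f hN x c h0 hcx hfix C l hC hl hD
  choose! Es Eu C' hC' g1 g2 g3 g4 g5 using h1
  obtain ⟨B, hB⟩ := (hfin.image C').bddAbove
  have hB' : ∀ x ∈ Λ, C' x ≤ max B 1 := fun x hx => (hB ⟨x, hx, rfl⟩).trans (le_max_left _ _)
  refine ⟨N, fun x => (Es x : Submodule ℝ E), fun x => (Eu x : Submodule ℝ E), max B 1, l, hN,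
    lt_of_lt_of_le one_pos (le_max_right _ _), hl, hl1, g1, ?_, ?_, ?_, ?_⟩
  · rintro ⟨x, v⟩ hx hv
    have e1 := g2 x hx v hv
    have e2 : f x = x := (h x hx).1
    have e3 : Es (f x) = Es x := by rw [e2]
    change (mfderiv I I f x : E →L[ℝ] E) v ∈ Es (f x)
    rw [e3]; exact e1
  · rintro ⟨x, v⟩ hx hv
    have e1 := g3 x hx v hv
    have e2 : f x = x := (h x hx).1
    have e3 : Eu (f x) = Eu x := by rw [e2]
    change (mfderiv I I f x : E →L[ℝ] E) v ∈ Eu (f x)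
    rw [e3]; exact e1
  · intro x hx v hv n
    exact (g4 x hx v hv n).trans (pow_bound (fibreNorm_nonneg hN _ _) (hC' x hx).le (hB' x hx)
      hl.le le_rfl n)
  · intro x hx v hv n
    refine (g5 x hx v hv n).trans (pow_bound ?_ (hC' x hx).le (hB' x hx) hl.le le_rfl n)
    exact fibreNorm_nonneg hN _ _

end Pool.Agent.H365R3
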