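import Mathlib
import Pool.Agent.H365R3.Pert

set_option autoImplicit false

open scoped Manifold ContDiff Topology
open Set Filter Bundle

noncomputable section

namespace Pool.Agent.H365R3

variable {E : Type} [NormedAddCommGroup E] [NormedSpace ℝ E] {H : Type} [TopologicalSpace H]
  {I : ModelWithCorners ℝ E H} {M : Type} [TopologicalSpace M] [ChartedSpace H M]

theorem lyap_iter {f : M → M} {V : M → ℝ} (hle : ∀ x, V (f x) ≤ V x) (x : M) (n : ℕ) :
    V (f^[n] x) ≤ V x := by
  induction n generalizing x with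
  | zero => exact le_rfl
  | succ n ih => rw [Function.iterate_succ_apply]; exact (ih _).trans (hle x)

theorem omega_of_lyap {f : M ≃ₘ^1⟮I, I⟯ M} {V : M → ℝ} (hV : Continuous V)
    (hle : ∀ x, V (f x) ≤ V x) {x : M} (hlt : V (f x) < V x) : x ∉ Omega f := by
  intro hx
  obtain ⟨a, ha1, ha2⟩ := exists_between hlt
  have hfc : Continuous f := f.contMDiff.continuous
  have hU : {y | V (f y) < a ∧ a < V y} ∈ 𝓝 x :=
    ((isOpen_lt (hV.comp hfc) continuous_const).inter (isOpen_lt continuous_const hV)).mem_nhds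
      ⟨ha1, ha2⟩
  obtain ⟨n, hn, y, ⟨z, hz, hzy⟩, hy⟩ := hx _ hU
  obtain ⟨m, rfl⟩ := Nat.exists_eq_add_of_le hn
  have h1 : V y ≤ V (f z) := by
    rw [← hzy, add_comm, Function.iterate_succ_apply]
    exact lyap_iter hle _ _
  have h2 := hz.1
  have h3 := hy.2
  linarith

theorem noCycles_of_lyap [T1Space M] {f : M ≃ₘ^1⟮I, I⟯ M} {V : M → ℝ} (hV : Continuous V)
    (hle : ∀ x, V (f x) ≤ V x) (hlt : ∀ x, f x ≠ x → V (f x) < V x)
    (hΩ : ∀ x ∈ Omega f, f x = x) : NoCycles f := by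
  rintro k Λ hS ⟨m, i, hm, him, hcyc⟩
  have hsub : ∀ i, Λ i ⊆ Omega f := fun i => by rw [← hS.union]; exact subset_iUnion _ i
  have hsing : ∀ i, ∃ x, Λ i = {x} := by
    intro i
    obtain ⟨x, hx, hx2⟩ := hS.transitive i
    refine ⟨x, Subset.antisymm ?_ (singleton_subset_iff.2 hx)⟩
    have hfx := hΩ x (hsub i hx)
    have hfixz : ∀ m : ℤ, (f ^ m) x = x := by
      intro m
      obtain ⟨l, rfl | rfl⟩ := m.eq_nat_or_neg
      · rw [zpow_natCast, d1_pow_apply]; exact iter_fix hfx l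
      · rw [zpow_neg, zpow_natCast, ← inv_pow, d1_pow_apply]; exact iter_fix (inv_fix hfx) l
    have h4 : range (fun n : ℤ => (f ^ n) x) ⊆ {x} := by
      rintro _ ⟨n, rfl⟩; exact hfixz n
    exact hx2.trans (closure_minimal h4 isClosed_singleton)
  choose x hx using hsing
  have hstab : ∀ (g : M ≃ₘ^1⟮I, I⟯ M) (y a : M), y ∈ StableSet g {a} →
      Tendsto (fun n : ℕ => g^[n] y) atTop (𝓝 a) := by
    intro g y a hy
    rw [tendsto_nhds]
    intro s hs has
    exact hy s hs (singleton_subset_iff.2 has)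
  have hdec : ∀ j < m, V (x (i (j + 1))) < V (x (i j)) := by
    intro j hj
    obtain ⟨y, ⟨hy1, hy2⟩, hy3⟩ := hcyc j hj
    rw [hx] at hy1 hy2
    have h1 := (hV.tendsto _).comp (hstab f y _ hy2)
    have h2 := (hV.tendsto _).comp (hstab f⁻¹ y _ hy1)
    have hne : f y ≠ y := fun h => hy3 (omega_of_fix h)
    have h3 : V (x (i (j + 1))) ≤ V (f y) := by
      refine le_of_tendsto h1 ?_
      filter_upwards [eventually_ge_atTop 1] with n hn
      obtain ⟨l, rfl⟩ := Nat.exists_eq_add_of_le hn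
      rw [Function.comp_apply, add_comm, Function.iterate_succ_apply]
      exact lyap_iter hle _ _
    have h4 : V y ≤ V (x (i j)) := by
      refine ge_of_tendsto' h2 fun n => ?_
      have := lyap_iter hle ((⇑f⁻¹)^[n] y) n
      rwa [iter_inv] at this
    exact h3.trans_lt ((hlt y hne).trans_le h4)
  have hall : ∀ j ≤ m, j ≠ 0 → V (x (i j)) < V (x (i 0)) := by
    intro j
    induction j with
    | zero => intro _ h; exact absurd rfl h
    | succ j ih =>
      intro hj _
      have h1 := hdec j (by omega)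
      rcases Nat.eq_zero_or_pos j with h0 | h0
      · rw [h0] at h1 ⊢; exact h1
      · exact h1.trans (ih (by omega) (by omega))
  have := hall m le_rfl (by omega)
  rw [him] at this
  exact lt_irrefl _ this

/-- LaSalle's principle. -/
theorem lasalle [CompactSpace M] {f : M ≃ₘ^1⟮I, I⟯ M} {V : M → ℝ}
    (hV : Continuous V) (hle : ∀ x, V (f x) ≤ V x) (heq : ∀ x, V (f x) = V x → f x = x)
    {y p : M} {Z : Set M} (hZ : IsClosed Z) (hyZ : ∀ᶠ n : ℕ in atTop, f^[n] y ∈ Z)
    (hZp : ∀ z ∈ Z, f z = z → z = p) : Tendsto (fun n : ℕ => f^[n] y) atTop (𝓝 p) := by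
  have hfc : Continuous f := f.contMDiff.continuous
  rw [tendsto_nhds]
  intro U hU hpU
  by_contra hcon
  have hfreq : ∃ᶠ n : ℕ in atTop, f^[n] y ∈ Uᶜ := by
    intro h
    exact hcon (by filter_upwards [h] with n hn; exact not_not.1 hn)
  obtain ⟨a, haU, ha⟩ := hU.isClosed_compl.isCompact.exists_mapClusterPt_of_frequently hfreq
  have haZ : a ∈ Z := by
    by_contra haZ
    have h1 : ∃ᶠ n : ℕ in atTop, f^[n] y ∈ Zᶜ :=
      ha.frequently (hZ.isOpen_compl.mem_nhds haZ)
    exact h1 (by filter_upwards [hyZ] with n hn h; exact h hn)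
  have hanti : Antitone fun n : ℕ => V (f^[n] y) := by
    refine antitone_nat_of_succ_le fun n => ?_
    rw [Function.iterate_succ_apply']; exact hle _
  have hbdd : BddBelow (range fun n : ℕ => V (f^[n] y)) := by
    obtain ⟨b, hb⟩ := (isCompact_range hV).bddBelow
    refine ⟨b, ?_⟩
    rintro _ ⟨n, rfl⟩
    exact hb ⟨_, rfl⟩
  have hlim := tendsto_atTop_ciInf hanti hbdd
  have hval : ∀ b : M, MapClusterPt b atTop (fun n : ℕ => f^[n] y) →
      V b = ⨅ n : ℕ, V (f^[n] y) := by
    intro b hb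
    have h1 : MapClusterPt (V b) atTop (V ∘ fun n : ℕ => f^[n] y) :=
      hb.tendsto_comp hV.continuousAt
    have h2 : ClusterPt (V b) (𝓝 (⨅ n : ℕ, V (f^[n] y))) := ClusterPt.mono h1 hlim
    have h3 : (𝓝 (V b) ⊓ 𝓝 (⨅ n : ℕ, V (f^[n] y))).NeBot := h2
    exact eq_of_nhds_neBot h3
  have hfa : MapClusterPt (f a) atTop (fun n : ℕ => f^[n] y) := by
    have h1 : MapClusterPt (f a) atTop (f ∘ fun n : ℕ => f^[n] y) :=
      ha.tendsto_comp hfc.continuousAt
    have h2 : (f ∘ fun n : ℕ => f^[n] y) = (fun n : ℕ => f^[n] y) ∘ fun n => n + 1 := by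
      funext n
      simp only [Function.comp_apply]
      rw [Function.iterate_succ_apply']
    rw [h2] at h1
    exact h1.of_comp (tendsto_add_atTop_nat 1)
  have h5 := hZp a haZ (heq a ((hval _ hfa).trans (hval _ ha).symm))
  exact haU (h5 ▸ hpU)

end Pool.Agent.H365R3
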