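import Mathlib
import Pool.Agent.H365R3.Build
import Pool.Agent.H365R3.Aff2

set_option autoImplicit false

open scoped Manifold ContDiff Topology
open Set Filter Bundle

noncomputable section

namespace Pool.Agent.H365R3

variable {E : Type} [NormedAddCommGroup E] [NormedSpace ℝ E] {H : Type} [TopologicalSpace H]
  {I : ModelWithCorners ℝ E H} {M : Type} [TopologicalSpace M] [ChartedSpace H M]
  {F : Type} [NormedAddCommGroup F] [NormedSpace ℝ F]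

/-- Pull back a chart by a diffeomorphism. -/
def Cht.pull (c : Cht I M F) (g : M ≃ₘ^1⟮I, I⟯ M) : Cht I M F where
  src := g ⁻¹' c.src
  tgt := c.tgt
  φ x := c.φ (g x)
  ψ z := g⁻¹ (c.ψ z)
  open_src := c.open_src.preimage g.contMDiff.continuous
  open_tgt := c.open_tgt
  φ_mem x hx := c.φ_mem _ hx
  ψ_mem z hz := by
    change g (g⁻¹ (c.ψ z)) ∈ c.src
    rw [d1_inv_self]; exact c.ψ_mem z hz
  ψφ x hx := by
    change g⁻¹ (c.ψ (c.φ (g x))) = x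
    rw [c.ψφ _ hx, d1_self_inv]
  φψ z hz := by
    change c.φ (g (g⁻¹ (c.ψ z))) = z
    rw [d1_inv_self, c.φψ z hz]
  smooth_φ := c.smooth_φ.comp g.contMDiff.contMDiffOn fun _ hx => hx
  smooth_ψ := (g⁻¹).contMDiff.comp_contMDiffOn c.smooth_ψ

/-- The times. -/
def DD (N : ℕ) (j : ℤ) : ℤ := max (-j) 0 + max (j - N) 0

theorem DD_nonneg (N : ℕ) (j : ℤ) : 0 ≤ DD N j := by unfold DD; omega

theorem DD_step (N : ℕ) (j : ℤ) : |DD N (j + 1) - DD N j| ≤ 1 := by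
  unfold DD; rw [abs_le]; omega

theorem DD_zero (N : ℕ) (j : ℤ) (h0 : 0 ≤ j) (hN : j < N) : DD N j = 0 ∧ DD N (j + 1) = 0 := by
  unfold DD; omega

theorem DD_ge (N : ℕ) (j : ℤ) : |j| - N ≤ DD N j := by
  unfold DD
  rcases abs_cases j with ⟨h, h'⟩ | ⟨h, h'⟩ <;> rw [h] <;> omega

variable [FiniteDimensional ℝ F] [T2Space M] [IsManifold I ∞ M] [IsManifold I 1 M]
  [FiniteDimensional ℝ E] [LocallyConnectedSpace H] {c d : Cht I M F} {r : ℝ}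
  {f : M ≃ₘ^1⟮I, I⟯ M}

theorem Good.near_cd (hg : Good c d r f) {W : Set (M ≃ₘ^1⟮I, I⟯ M)} (hW : W ∈ 𝓝 f) :
    ∃ ε : ℝ, 0 < ε ∧ ε ≤ 1 / 2 ∧ ∀ (K₁ K₂ : F ≃ F) (_ : Sml (r / 2) ε K₁)
      (_ : Sml (r / 2) ε K₂) (h₁ : LiftOK c K₁) (h₂ : LiftOK d K₂),
      Good c d r (f * (liftD c K₁ h₁ * liftD d K₂ h₂)) ∧
        f * (liftD c K₁ h₁ * liftD d K₂ h₂) ∈ W := by
  obtain ⟨k1, hk1⟩ := hg.snk
  obtain ⟨k2, hk2⟩ := hg.src
  have hr2 : r / 2 ≤ r := by linarith [hk1.hr]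
  have hWm := near_mul hW
  have hcont : ContinuousAt (fun p : (M ≃ₘ^1⟮I, I⟯ M) × (M ≃ₘ^1⟮I, I⟯ M) => p.1 * p.2) (1, 1) :=
    continuous_mul.continuousAt
  have hpre : (fun p : (M ≃ₘ^1⟮I, I⟯ M) × (M ≃ₘ^1⟮I, I⟯ M) => p.1 * p.2) ⁻¹' {h | f * h ∈ W}
      ∈ 𝓝 ((1 : M ≃ₘ^1⟮I, I⟯ M), (1 : M ≃ₘ^1⟮I, I⟯ M)) := by
    refine hcont ?_
    simpa using hWm
  rw [nhds_prod_eq, mem_prod_iff] at hpre
  obtain ⟨V1, hV1, V2, hV2, hV⟩ := hpre
  obtain ⟨ε1, hε1, hh1⟩ := near_one c (hk1.sub' hr2) hV1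
  obtain ⟨ε2, hε2, hh2⟩ := near_one d (hk2.sub' hr2) hV2
  have a1 := hk1.hk0
  have a2 := hk1.hk1
  have b1 := hk2.hk0
  have b2 := hk2.hk1
  let ε' := min (min ε1 ε2) (min (1 / 2) (min ((1 - k1) / 2) ((1 - k2) / 2)))
  have h1 : 0 < ε' := lt_min (lt_min hε1 hε2) (lt_min (by norm_num)
    (lt_min (by linarith) (by linarith)))
  have h2 : ε' ≤ (1 - k1) / 2 :=
    (min_le_right _ _).trans ((min_le_right _ _).trans (min_le_left _ _))
  have h2' : ε' ≤ (1 - k2) / 2 :=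
    (min_le_right _ _).trans ((min_le_right _ _).trans (min_le_right _ _))
  have h3 : ε' ≤ 1 / 2 := (min_le_right _ _).trans (min_le_left _ _)
  refine ⟨ε', h1, h3, fun K₁ K₂ hK₁ hK₂ h₁ h₂ => ?_⟩
  obtain ⟨g1, g2⟩ := hg.pert_c hk1 hK₁ h1.le (by nlinarith) h₁
  have hk2' : SinkAt d (f * liftD c K₁ h₁)⁻¹ k2 r := hk2.congr g2
  obtain ⟨g3, g4⟩ := g1.pert_d hk2' hK₂ (by linarith)
    (by rw [div_lt_one (by linarith)]; linarith) h₂
  rw [mul_assoc] at g3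
  refine ⟨g3, ?_⟩
  exact hV (mk_mem_prod (hh1 K₁ (hK₁.mono le_rfl ((min_le_left _ _).trans (min_le_left _ _))))
    (hh2 K₂ (hK₂.mono le_rfl ((min_le_left _ _).trans (min_le_right _ _)))))

theorem Good.final (hg : Good c d r f) {W : Set (M ≃ₘ^1⟮I, I⟯ M)} (hW : W ∈ 𝓝 f)
    {L L' A : F ≃L[ℝ] F} {k s t ρ : ℝ} {b a : F} {N : ℕ}
    (hc : Conn c d f L L' A r k s t ρ b a N) (w : F) (hw : w ≠ 0) (C : ℝ)
    (hC1 : ∀ n : ℕ, ‖((L' : F →L[ℝ] F) ^ n) w‖ * ‖(L'.symm : F →L[ℝ] F) ^ n‖ ≤ C)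
    (hC2 : ∀ n : ℕ, ‖((L : F →L[ℝ] F) ^ n) (A w)‖ * ‖(L.symm : F →L[ℝ] F) ^ n‖ ≤ C) :
    ∃ f' ∈ W, AxiomA f' ∧ NoCycles f' ∧ ¬ TrivialCentralizer f' := by
  obtain ⟨ε, hε, hε2, hnear⟩ := hg.near_cd hW
  obtain ⟨k1, hk1⟩ := hg.snk
  obtain ⟨k2, hk2⟩ := hg.src
  have hC0 : 0 ≤ C := le_trans (by positivity) (hC1 0)
  obtain ⟨σ, κ, hσc, hκc, hσs, hκs, hσe, hκe, hκ1, hσb, hσn, hrel⟩ :=
    exists_action w hw b ρ hc.ρ0
  let a' : ℝ := 1 + ‖(A.symm : F →L[ℝ] F)‖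
  have ha' : 0 < a' := by positivity
  let δ : ℝ := ε / (1 + C * a')
  have hδ : 0 < δ := by positivity
  have hCδ : C * a' * δ ≤ ε := by
    have h1 : (1 + C * a') * δ = ε := by
      have : (1 + C * a') ≠ 0 := by positivity
      simp only [δ]; field_simp
    nlinarith
  have evσ : ∀ ε' > 0, ∃ η > 0, ∀ s, |s| < η → ∀ x, ‖fderiv ℝ (σ s) x‖ ≤ ε' := by
    intro ε' hε'
    obtain ⟨η, hη, h⟩ := Metric.eventually_nhds_iff.1 (hσe ε' hε')
    exact ⟨η, hη, fun s hs => h (by simpa [Real.dist_eq] using hs)⟩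
  have evκ : ∀ ε' > 0, ∃ η > 0, ∀ l, |l - 1| < η → ∀ x, ‖fderiv ℝ (κ l) x‖ ≤ ε' := by
    intro ε' hε'
    obtain ⟨η, hη, h⟩ := Metric.eventually_nhds_iff.1 (hκe ε' hε')
    exact ⟨η, hη, fun s hs => h (by simpa [Real.dist_eq] using hs)⟩
  obtain ⟨η1, hη1, hσ1⟩ := evσ δ hδ
  obtain ⟨η2, hη2, hκ2⟩ := evκ δ hδ
  obtain ⟨m, hm⟩ := exists_nat_gt (4 + 1 / η1 + 1 / η2)
  have i1 : 0 < 1 / η1 := by positivity
  have i2 : 0 < 1 / η2 := by positivity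
  have hm4 : (4 : ℝ) < m := by linarith
  have hmη1 : 1 / η1 < m := by linarith
  have hmη2 : 1 / η2 < m := by linarith
  -- the parameters
  let sj : ℤ → ℝ := fun j => 1 / ((m : ℝ) + (DD N j : ℝ))
  let lj : ℤ → ℝ := fun j => sj (j + 1) / sj j
  have hD0 : ∀ j, (0 : ℝ) ≤ (DD N j : ℝ) := fun j => by exact_mod_cast DD_nonneg N j
  have hpos : ∀ j, (0 : ℝ) < (m : ℝ) + (DD N j : ℝ) := fun j => by linarith [hD0 j]
  have hspos : ∀ j, 0 < sj j := fun j => one_div_pos.2 (hpos j)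
  have hsle : ∀ j, sj j < 1 / 4 := by
    intro j
    have h1 := hpos j
    rw [div_lt_div_iff₀ h1 (by norm_num)]
    linarith [hD0 j]
  have hsη : ∀ j, |sj j| < η1 := by
    intro j
    rw [abs_of_pos (hspos j), div_lt_iff₀ (hpos j)]
    have h1 : 1 = η1 * (1 / η1) := by field_simp
    have h2 : η1 * (1 / η1) < η1 * ((m : ℝ) + (DD N j : ℝ)) :=
      mul_lt_mul_of_pos_left (by linarith [hD0 j]) hη1
    linarith
  have hl1 : ∀ j, |lj j - 1| ≤ 1 / ((m : ℝ) + (DD N (j + 1) : ℝ)) := by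
    intro j
    have h1 := hpos j
    have h2 := hpos (j + 1)
    have h3 : lj j - 1 = ((DD N j : ℝ) - DD N (j + 1)) / ((m : ℝ) + (DD N (j + 1) : ℝ)) := by
      simp only [lj, sj]
      field_simp
      ring
    rw [h3, abs_div, abs_of_pos h2]
    refine div_le_div_of_nonneg_right ?_ h2.le
    have h4 : |(DD N (j + 1) : ℝ) - DD N j| ≤ 1 := by exact_mod_cast DD_step N j
    rwa [abs_sub_comm] at h4
  have hl2 : ∀ j, |lj j - 1| ≤ 1 / 4 := by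
    intro j
    refine (hl1 j).trans ?_
    rw [div_le_div_iff₀ (hpos _) (by norm_num)]
    linarith [hD0 (j + 1)]
  have hlη : ∀ j, |lj j - 1| < η2 := by
    intro j
    refine (hl1 j).trans_lt ?_
    rw [div_lt_iff₀ (hpos _)]
    have h1 : 1 = η2 * (1 / η2) := by field_simp
    have h2 : η2 * (1 / η2) < η2 * ((m : ℝ) + (DD N (j + 1) : ℝ)) :=
      mul_lt_mul_of_pos_left (by linarith [hD0 (j + 1)]) hη2
    linarith
  have hlim : ∀ η > 0, ∃ N₀ : ℤ, ∀ j : ℤ, N₀ ≤ |j| → sj j < η ∧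
      1 / ((m : ℝ) + (DD N (j + 1) : ℝ)) < η := by
    intro η hη
    obtain ⟨m', hm'⟩ := exists_nat_gt (1 / η)
    refine ⟨(m' : ℤ) + N + 1, fun j hj => ?_⟩
    have e1 : (m' : ℤ) ≤ DD N j := by
      have := DD_ge N j
      omega
    have e2 : (m' : ℤ) ≤ DD N (j + 1) := by
      have h1 := DD_ge N (j + 1)
      have h2 : |j| ≤ |j + 1| + 1 := by
        have := abs_sub (j + 1) 1
        simpa using this
      omega
    have e1' : (m' : ℝ) ≤ (DD N j : ℝ) := by exact_mod_cast e1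
    have e2' : (m' : ℝ) ≤ (DD N (j + 1) : ℝ) := by exact_mod_cast e2
    have h1 : 1 = η * (1 / η) := by field_simp
    constructor
    · change 1 / ((m : ℝ) + (DD N j : ℝ)) < η
      rw [div_lt_iff₀ (hpos _)]
      have h2 : η * (1 / η) < η * ((m : ℝ) + (DD N j : ℝ)) :=
        mul_lt_mul_of_pos_left (by linarith) hη
      linarith
    · rw [div_lt_iff₀ (hpos _)]
      have h2 : η * (1 / η) < η * ((m : ℝ) + (DD N (j + 1) : ℝ)) :=
        mul_lt_mul_of_pos_left (by linarith) hη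
      linarith
  -- the diffeomorphism `K`
  obtain ⟨T1, T2, hT1, hT2, hTT⟩ := build c d hc hk1.sub hk2.sub w C hC1 hC2
    (fun j => κ (lj j)) (fun j => hκc _ (hl2 j)) (fun j x hx => hκs _ x hx)
    (by
      intro j h0 hN x
      have h1 : lj j = 1 := by
        obtain ⟨e1, e2⟩ := DD_zero N j h0 hN
        simp only [lj, sj]
        rw [e1, e2]
        have : (m : ℝ) + ((0 : ℤ) : ℝ) ≠ 0 := by simp; intro h; rw [h] at hm4; norm_num at hm4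
        field_simp
      rw [h1]; exact hκ1 x)
    δ ε (fun j x => hκ2 _ (hlη j) x)
    (by
      intro ε' hε'
      obtain ⟨η, hη, h⟩ := evκ ε' hε'
      obtain ⟨N₀, hN₀⟩ := hlim η hη
      exact ⟨N₀, fun j hj x => h _ ((hl1 j).trans_lt (hN₀ j hj).2) x⟩)
    hCδ hε2
  have hsr := hc.sr
  have htr := hc.tr
  have hS1 : Sml (r / 2) ε T1 := hT1.mono hsr le_rfl
  have hS2 : Sml (r / 2) ε T2 := hT2.mono htr le_rfl
  have hr := hk1.hr
  have hok1 : LiftOK c T1 := hS1.ok c (hk1.sub' (by linarith))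
  have hok2 : LiftOK d T2 := hS2.ok d (hk2.sub' (by linarith))
  obtain ⟨hgood, hfW⟩ := hnear T1 T2 hS1 hS2 hok1 hok2
  obtain ⟨hK1, hK2⟩ := hTT hok1 hok2
  -- the diffeomorphism `G`
  let g : M ≃ₘ^1⟮I, I⟯ M := f ^ N
  let e := c.pull g
  have hcomm : ∀ x, g⁻¹ (f x) = f (g⁻¹ x) := by
    intro x
    have : g⁻¹ * f = f * g⁻¹ := (Commute.pow_self f N).inv_left.eq
    exact DFunLike.congr_fun this x
  have hce : Conn e d f L L' A r k s t ρ b a 0 := by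
    refine ⟨?_, hc.lind, hc.s0, hc.sr, hc.tr, hc.k0, hc.k1, hc.Lk, hc.Lk', hc.ρ0, hc.bt, hc.bk, ?_⟩
    · intro z hz
      change f (g⁻¹ (c.ψ z)) = g⁻¹ (c.ψ (L z))
      rw [← hcomm, hc.linc z hz]
    · intro u hu
      obtain ⟨e1, e2⟩ := hc.trans u hu
      refine ⟨e1, ?_⟩
      change d.ψ u = g⁻¹ (c.ψ (a + A (u - b)))
      rw [← e2, ← d1_pow_apply]
      exact (d1_self_inv g _).symm
  obtain ⟨T3, T4, hT3, hT4, hTG⟩ := build e d hce hk1.sub hk2.sub w C hC1 hC2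
    (fun j => σ (sj j))
    (fun j => hσc _ (by rw [abs_of_pos (hspos j)]; linarith [hsle j]))
    (fun j x hx => hσs _ x hx) (by intro j h0 h1; exact absurd h1 (not_lt.2 (by simpa using h0)))
    δ ε (fun j x => hσ1 _ (hsη j) x)
    (by
      intro ε' hε'
      obtain ⟨η, hη, h⟩ := evσ ε' hε'
      obtain ⟨N₀, hN₀⟩ := hlim η hη
      exact ⟨N₀, fun j hj x => h _ (by rw [abs_of_pos (hspos j)]; exact (hN₀ j hj).1) x⟩)
    hCδ hε2
  have hok3 : LiftOK e T3 := hT3.ok e ((hk1.sub' (by linarith) : _ ⊆ c.tgt))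
  have hok4 : LiftOK d T4 := hT4.ok d (hk2.sub' (by linarith))
  obtain ⟨hG1, hG2⟩ := hTG hok3 hok4
  generalize hKdef : liftD c T1 hok1 * liftD d T2 hok2 = K at hK1 hK2 hgood hfW
  generalize hGdef : liftD e T3 hok3 * liftD d T4 hok4 = G at hG1 hG2
  have hfj : ∀ (j : ℤ) (x : M), f ((f ^ j) x) = (f ^ (j + 1)) x := by
    intro j x
    rw [add_comm, zpow_add, zpow_one]; rfl
  refine ⟨f * K, hfW, hgood.ax, hgood.nc, fun htriv => ?_⟩
  have hcommG : G * (f * K) = (f * K) * G := by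
    apply Diffeomorph.ext
    intro x
    rw [d1_mul_apply, d1_mul_apply, d1_mul_apply, d1_mul_apply]
    by_cases hx : ∃ (j : ℤ) (u : F), ‖u - b‖ ≤ ρ ∧ x = (f ^ j) (d.ψ u)
    · obtain ⟨j, u, hu, rfl⟩ := hx
      obtain ⟨p1, p2⟩ := hK1 j u hu
      obtain ⟨q1, q2⟩ := hG1 j u hu
      obtain ⟨p3, p4⟩ := hK1 j _ q1
      obtain ⟨q3, q4⟩ := hG1 (j + 1) _ p1
      beta_reduce at p1 p2 p3 p4 q1 q2 q3 q4
      rw [p2, q2, p4, hfj, hfj, q4]
      have hsj : sj (j + 1) = lj j * sj j := by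
        simp only [lj]
        rw [div_mul_cancel₀ _ (hspos j).ne']
      have hr1 := hrel (lj j) (sj j) u (hl2 j)
        (by rw [abs_of_pos (hspos j)]; linarith [hsle j])
      rw [← hsj] at hr1
      congr 2
      have e1 : u + κ (lj j) u • w + σ (sj (j + 1)) (u + κ (lj j) u • w) • w
          = u + (σ (sj (j + 1)) (u + κ (lj j) u • w) + κ (lj j) u) • w := by
        rw [add_smul]; abel
      have e2 : u + σ (sj j) u • w + κ (lj j) (u + σ (sj j) u • w) • w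
          = u + (κ (lj j) (u + σ (sj j) u • w) + σ (sj j) u) • w := by
        rw [add_smul]; abel
      rw [e1, e2, hr1]
    · have hx' : ∀ (j : ℤ) (u : F), ‖u - b‖ ≤ ρ → x ≠ (f ^ j) (d.ψ u) :=
        fun j u hu heq => hx ⟨j, u, hu, heq⟩
      have hfx : ∀ (j : ℤ) (u : F), ‖u - b‖ ≤ ρ → f x ≠ (f ^ j) (d.ψ u) := by
        intro j u hu heq
        apply hx' (j - 1) u hu
        have h1 : f⁻¹ (f x) = f⁻¹ ((f ^ j) (d.ψ u)) := by rw [heq]
        rw [d1_self_inv] at h1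
        rw [h1]
        have : f ^ (j - 1) = f⁻¹ * f ^ j := by
          rw [sub_eq_neg_add, zpow_add, zpow_neg, zpow_one]
        rw [this]; rfl
      rw [hK2 x hx', hG2 x hx', hK2 x hx', hG2 _ hfx]
  obtain ⟨n, hn⟩ := htriv G hcommG
  obtain ⟨k3, hk3⟩ := hgood.src
  have hρ0 := hc.ρ0
  have hbt := hc.bt
  have hbk := hc.bk
  have hk0 := hc.k0
  have hb0 : 0 < ‖b‖ := by
    by_contra hcon
    have h1 : ‖b‖ = 0 := le_antisymm (not_lt.1 hcon) (norm_nonneg _)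
    rw [h1] at hbk
    nlinarith
  have hbρ : 0 < ‖b‖ - ρ := by nlinarith
  rcases eq_or_ne n 0 with h0 | h0
  · -- `G` is not the identity
    rw [h0, zpow_zero] at hn
    obtain ⟨p1, p2⟩ := hG1 0 b (by simpa using hρ0.le)
    rw [hn, zpow_zero] at p2
    have p3 : d.ψ b = d.ψ (b + σ (sj 0) b • w) := p2
    have p4 := congrArg d.φ p3
    have hbm : b ∈ d.tgt := hk2.tgt (by linarith)
    have hbm' : b + σ (sj 0) b • w ∈ d.tgt := hk2.tgt (by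
      beta_reduce at p1
      have := norm_sub_norm_le (b + σ (sj 0) b • w) b
      linarith)
    rw [d.φψ b hbm, d.φψ _ hbm'] at p4
    have p5 : σ (sj 0) b • w = 0 := by
      have := p4.symm
      rwa [add_eq_left] at this
    rcases smul_eq_zero.1 p5 with h | h
    · exact hσb (sj 0) (by rw [abs_of_pos (hspos 0)]; linarith [hsle 0]) (hspos 0).ne' h
    · exact hw h
  · -- a wandering fixed point of `G`
    let u := b + (ρ / ‖b‖) • b
    have hu1 : ‖u - b‖ = ρ := by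
      have h1 : u - b = (ρ / ‖b‖) • b := by simp only [u, add_sub_cancel_left]
      rw [h1, norm_smul, Real.norm_eq_abs, abs_of_pos (div_pos hρ0 hb0),
        div_mul_cancel₀ _ hb0.ne']
    obtain ⟨-, p2⟩ := hG1 0 u hu1.le
    have hσ0 : σ (sj 0) u = 0 := hσs _ _ hu1.ge
    beta_reduce at p2
    rw [hσ0, zero_smul, add_zero, zpow_zero, hn] at p2
    have p3 : ((f * K) ^ n) (d.ψ u) = d.ψ u := p2
    have hΩ : d.ψ u ∈ Omega (f * K) := by
      have key : ∀ m : ℕ, m ≠ 0 → (f * K)^[m] (d.ψ u) = d.ψ u → d.ψ u ∈ Omega (f * K) := by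
        intro m hm h U hU
        exact ⟨m, Nat.one_le_iff_ne_zero.2 hm, d.ψ u, ⟨d.ψ u, mem_of_mem_nhds hU, h⟩,
          mem_of_mem_nhds hU⟩
      obtain ⟨m, rfl | rfl⟩ := n.eq_nat_or_neg
      · refine key m (by simpa using h0) ?_
        rw [iter_zpow]; exact p3
      · refine key m (by simpa using h0) ?_
        have h1 : ((f * K) ^ (m : ℤ)) (((f * K) ^ (-(m : ℤ))) (d.ψ u)) = d.ψ u := by
          rw [zpow_add_apply, add_neg_cancel, zpow_zero]; rfl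
        rw [p3] at h1
        rw [iter_zpow]; exact h1
    have hut : ‖u‖ < r := by
      have := norm_sub_norm_le u b
      linarith
    have hum : u ∈ d.tgt := hk2.tgt hut.le
    have h1 := hk3.omega (x := d.ψ u) (d.ψ_mem u hum) (by rw [d.φψ u hum]; exact hut)
      (by rw [Omega_inv]; exact hΩ)
    have h2 := congrArg d.φ h1
    rw [d.φψ u hum, hk3.φp] at h2
    have h3 := norm_sub_norm_le b u
    rw [norm_sub_rev, hu1, h2, norm_zero] at h3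
    linarith

/-- The perturbation theorem. -/
theorem Good.main (hg : Good c d r f) {W : Set (M ≃ₘ^1⟮I, I⟯ M)} (hW : W ∈ 𝓝 f)
    (L L' : F ≃L[ℝ] F) (hL : HasFDerivAt (fun z => c.φ (f (c.ψ z))) (L : F →L[ℝ] F) 0)
    (hL' : HasFDerivAt (fun z => d.φ (f⁻¹ (d.ψ z))) (L' : F →L[ℝ] F) 0)
    (hal : ∀ A : F ≃L[ℝ] F, ∃ (w : F) (C : ℝ), w ≠ 0 ∧
      (∀ n : ℕ, ‖((L' : F →L[ℝ] F) ^ n) w‖ * ‖(L'.symm : F →L[ℝ] F) ^ n‖ ≤ C) ∧
      ∀ n : ℕ, ‖((L : F →L[ℝ] F) ^ n) (A w)‖ * ‖(L.symm : F →L[ℝ] F) ^ n‖ ≤ C) :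
    ∃ f' ∈ W, AxiomA f' ∧ NoCycles f' ∧ ¬ TrivialCentralizer f' := by
  obtain ⟨k1, hk1⟩ := hg.snk
  obtain ⟨k2, hk2⟩ := hg.src
  have hr := hk1.hr
  obtain ⟨f1, hf1V, hg1, ⟨s1, hs1, hlin1⟩, heq1⟩ := hg.lin_c (interior_mem_nhds.2 hW) L hL
  have hL1 : HasFDerivAt (fun z => d.φ (f1⁻¹ (d.ψ z))) (L' : F →L[ℝ] F) 0 := by
    refine hL'.congr_of_eventuallyEq ?_
    filter_upwards [Metric.closedBall_mem_nhds (0 : F) hr] with z hz
    have hz' : ‖z‖ ≤ r := by simpa using hz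
    rw [heq1 (d.ψ z) ⟨d.ψ_mem z (hk2.tgt hz'), by rw [d.φψ z (hk2.tgt hz')]; exact hz'⟩]
  obtain ⟨f2, hf2V, hg2, ⟨s2, hs2, hlin2⟩, heq2⟩ := hg1.lin_d
    (isOpen_interior.mem_nhds hf1V) L' hL1
  let s := min (min s1 s2) (r / 2)
  have hs : 0 < s := lt_min (lt_min hs1 hs2) (by linarith)
  have hsr : s ≤ r / 2 := min_le_right _ _
  have hss1 : s ≤ s1 := (min_le_left _ _).trans (min_le_left _ _)
  have hss2 : s ≤ s2 := (min_le_left _ _).trans (min_le_right _ _)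
  have hlc : ∀ z, ‖z‖ < s → f2 (c.ψ z) = c.ψ (L z) := by
    intro z hz
    have hz' : ‖z‖ ≤ r := by linarith
    rw [heq2 (c.ψ z) ⟨c.ψ_mem z (hk1.tgt hz'), by rw [c.φψ z (hk1.tgt hz')]; exact hz'⟩]
    exact hlin1 z (hz.trans_le hss1)
  have hld : ∀ z, ‖z‖ < s → f2⁻¹ (d.ψ z) = d.ψ (L' z) := fun z hz =>
    hlin2 z (hz.trans_le hss2)
  obtain ⟨f3, hf3V, hg3, A, k, t, ρ, b, a, N, hconn⟩ := hg2.conn_lin
    (isOpen_interior.mem_nhds hf2V) L L' hs hlc hld hsr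
  obtain ⟨w, C, hw, hC1, hC2⟩ := hal A
  obtain ⟨f', hf', h1, h2, h3⟩ := hg3.final (isOpen_interior.mem_nhds hf3V) hconn w hw C hC1 hC2
  exact ⟨f', interior_subset hf', h1, h2, h3⟩

end Pool.Agent.H365R3
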