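import Mathlib
import Pool.Agent.H365R3.Main

set_option autoImplicit false

open scoped Manifold ContDiff Topology
open Set Filter Bundle

noncomputable section

namespace Pool.Agent.H365R3

variable {E : Type} [NormedAddCommGroup E] [NormedSpace ℝ E] {H : Type} [TopologicalSpace H]
  {I : ModelWithCorners ℝ E H} {M : Type} [TopologicalSpace M] [ChartedSpace H M]
  {F : Type} [NormedAddCommGroup F] [NormedSpace ℝ F]

/-- Shift a chart. -/
def Cht.shift (c : Cht I M F) (a : F) : Cht I M F where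
  src := c.src
  tgt := {z | z + a ∈ c.tgt}
  φ x := c.φ x - a
  ψ z := c.ψ (z + a)
  open_src := c.open_src
  open_tgt := c.open_tgt.preimage (continuous_id.add continuous_const)
  φ_mem x hx := by
    change c.φ x - a + a ∈ c.tgt
    rw [sub_add_cancel]; exact c.φ_mem x hx
  ψ_mem z hz := c.ψ_mem _ hz
  ψφ x hx := by
    rw [sub_add_cancel]; exact c.ψφ x hx
  φψ z hz := by
    rw [c.φψ _ hz, add_sub_cancel_right]
  smooth_φ := c.smooth_φ.sub contMDiffOn_const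
  smooth_ψ := by
    have h1 : ContMDiff 𝓘(ℝ, F) 𝓘(ℝ, F) 1 (fun z : F => z + a) :=
      (contDiff_id.add contDiff_const).contMDiff
    exact c.smooth_ψ.comp h1.contMDiffOn fun _ hz => hz

theorem SinkAt.mono {c : Cht I M F} {f : M ≃ₘ^1⟮I, I⟯ M} {k r r' : ℝ} (h : SinkAt c f k r)
    (h0 : 0 < r') (hr : r' ≤ r) : SinkAt c f k r' :=
  ⟨h.hk0, h.hk1, h0, h.sub' hr, h.fix, fun z hz => h.src z (hz.trans hr),
    fun z z' hz hz' => h.lip z z' (hz.trans hr) (hz'.trans hr)⟩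

theorem locallyCompact_tangent [FiniteDimensional ℝ E] [IsManifold I ∞ M] [IsManifold I 1 M]
    [T2Space M] : LocallyCompactSpace (TangentBundle I M) := by
  have : T2Space (TangentBundle I M) := t2_tangent
  exact Manifold.locallyCompact_of_finiteDimensional (M := TangentBundle I M) I.tangent

theorem continuous_ev [FiniteDimensional ℝ E] [IsManifold I ∞ M] [IsManifold I 1 M] [T2Space M] :
    Continuous fun p : (M ≃ₘ^1⟮I, I⟯ M) × TangentBundle I M => tanMap p.1 p.2 := by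
  have := locallyCompact_tangent (I := I) (M := M)
  exact (continuous_tanMap.comp continuous_fst).eval continuous_snd

theorem continuous_apply [FiniteDimensional ℝ E] [IsManifold I ∞ M] [IsManifold I 1 M]
    [T2Space M] (x : M) : Continuous fun g : M ≃ₘ^1⟮I, I⟯ M => g x := by
  have h1 : Continuous fun g : M ≃ₘ^1⟮I, I⟯ M => tanMap g (⟨x, 0⟩ : TangentBundle I M) :=
    continuous_ev.comp (continuous_id.prodMk continuous_const)
  exact (FiberBundle.continuous_proj E (TangentSpace I : M → Type)).comp h1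

/-- `C¹`-close diffeomorphisms have `C¹`-close chart expressions. -/
theorem close_c1 [FiniteDimensional ℝ E] [IsManifold I ∞ M] [IsManifold I 1 M] [T2Space M]
    [FiniteDimensional ℝ F] (c c' : Cht I M F) (f : M ≃ₘ^1⟮I, I⟯ M) (K : Set F) (hK : IsCompact K)
    (hKt : K ⊆ c.tgt) (hf : ∀ z ∈ K, f (c.ψ z) ∈ c'.src) (ε : ℝ) (hε : 0 < ε) :
    ∀ᶠ g : M ≃ₘ^1⟮I, I⟯ M in 𝓝 f, ∀ z ∈ K, g (c.ψ z) ∈ c'.src ∧
      ‖c'.φ (g (c.ψ z)) - c'.φ (f (c.ψ z))‖ ≤ ε ∧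
      ‖fderiv ℝ (fun w => c'.φ (g (c.ψ w))) z - fderiv ℝ (fun w => c'.φ (f (c.ψ w))) z‖ ≤ ε := by
  have hprojc : Continuous (TotalSpace.proj : TangentBundle I M → M) :=
    FiberBundle.continuous_proj E (TangentSpace I : M → Type)
  have hcomp : IsCompact (K ×ˢ Metric.closedBall (0 : F) 1) :=
    hK.prod (isCompact_closedBall 0 1)
  have key : ∀ᶠ g : M ≃ₘ^1⟮I, I⟯ M in 𝓝 f, ∀ p ∈ K ×ˢ Metric.closedBall (0 : F) 1,
      g (c.ψ p.1) ∈ c'.src ∧ ‖c'.φ (g (c.ψ p.1)) - c'.φ (f (c.ψ p.1))‖ < ε ∧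
      ‖fderiv ℝ (fun w => c'.φ (g (c.ψ w))) p.1 p.2
        - fderiv ℝ (fun w => c'.φ (f (c.ψ w))) p.1 p.2‖ < ε := by
    apply hcomp.eventually_forall_of_forall_eventually
    rintro p₀ ⟨hp₀, -⟩
    have hp₀t : p₀.1 ∈ c.tgt := hKt hp₀
    have hopen2 : IsOpen (Prod.fst ⁻¹' c.tgt : Set (F × F)) := c.open_tgt.preimage continuous_fst
    have hψc : ContinuousAt c.dψ p₀ := c.continuousOn_dψ.continuousAt (hopen2.mem_nhds hp₀t)
    have hopen1 : IsOpen (TotalSpace.proj ⁻¹' c'.src : Set (TangentBundle I M)) :=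
      c'.open_src.preimage hprojc
    have hmem0 : tanMap f (c.dψ p₀) ∈ (TotalSpace.proj ⁻¹' c'.src : Set (TangentBundle I M)) :=
      hf p₀.1 hp₀
    have hφc : ContinuousAt c'.dφ (tanMap f (c.dψ p₀)) :=
      c'.continuousOn_dφ.continuousAt (hopen1.mem_nhds hmem0)
    -- the two maps
    have hg : Tendsto (fun q : (M ≃ₘ^1⟮I, I⟯ M) × (F × F) => tanMap q.1 (c.dψ q.2)) (𝓝 (f, p₀))
        (𝓝 (tanMap f (c.dψ p₀))) := by
      have h1 : ContinuousAt (fun q : (M ≃ₘ^1⟮I, I⟯ M) × (F × F) => (q.1, c.dψ q.2)) (f, p₀) :=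
        continuousAt_fst.prodMk (ContinuousAt.comp (f := fun q : (M ≃ₘ^1⟮I, I⟯ M) × (F × F) => q.2)
          (g := c.dψ) hψc continuousAt_snd)
      exact (continuous_ev (I := I) (M := M)).continuousAt.tendsto.comp h1
    have hf2 : Tendsto (fun q : (M ≃ₘ^1⟮I, I⟯ M) × (F × F) => tanMap f (c.dψ q.2)) (𝓝 (f, p₀))
        (𝓝 (tanMap f (c.dψ p₀))) := by
      have h1 : ContinuousAt (fun q : (M ≃ₘ^1⟮I, I⟯ M) × (F × F) => c.dψ q.2) (f, p₀) :=
        ContinuousAt.comp (f := fun q : (M ≃ₘ^1⟮I, I⟯ M) × (F × F) => q.2)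
          (g := c.dψ) hψc continuousAt_snd
      exact (tanMap f).continuous.continuousAt.tendsto.comp h1
    have hg1 := hg.eventually (hopen1.mem_nhds hmem0)
    have hf1 := hf2.eventually (hopen1.mem_nhds hmem0)
    have hdiff : Tendsto (fun q : (M ≃ₘ^1⟮I, I⟯ M) × (F × F) =>
        ‖c'.dφ (tanMap q.1 (c.dψ q.2)) - c'.dφ (tanMap f (c.dψ q.2))‖) (𝓝 (f, p₀)) (𝓝 0) := by
      have := ((hφc.tendsto.comp hg).sub (hφc.tendsto.comp hf2)).norm
      simpa using this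
    have hlt := hdiff.eventually_lt_const hε
    have htgt : ∀ᶠ q : (M ≃ₘ^1⟮I, I⟯ M) × (F × F) in 𝓝 (f, p₀), q.2.1 ∈ c.tgt :=
      (continuousAt_snd.fst).eventually (c.open_tgt.mem_nhds hp₀t)
    filter_upwards [hg1, hf1, hlt, htgt] with q h1 h2 h3 h4
    have h1' : q.1 (c.ψ q.2.1) ∈ c'.src := h1
    have h2' : f (c.ψ q.2.1) ∈ c'.src := h2
    have e1 := c.dφ_tangentMap c' q.1 (c.dψ q.2) (c.ψ_mem _ h4) h1 (q.1).contMDiff.contMDiffAt
    have e2 := c.dφ_tangentMap c' f (c.dψ q.2) (c.ψ_mem _ h4) h2 f.contMDiff.contMDiffAt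
    rw [c.dφ_dψ q.2 h4] at e1 e2
    have e3 : c.φ (c.dψ q.2).1 = q.2.1 := c.φψ _ h4
    rw [e3] at e1 e2
    have e1' : c'.dφ (tanMap q.1 (c.dψ q.2)) = _ := e1
    have e2' : c'.dφ (tanMap f (c.dψ q.2)) = _ := e2
    rw [e1', e2', Prod.norm_def, max_lt_iff] at h3
    exact ⟨h1', h3.1, h3.2⟩
  filter_upwards [key] with g hgk z hz
  refine ⟨(hgk (z, 0) ⟨hz, by simp⟩).1, (hgk (z, 0) ⟨hz, by simp⟩).2.1.le, ?_⟩
  refine ContinuousLinearMap.opNorm_le_of_unit_norm hε.le fun x hx => ?_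
  exact (hgk (z, x) ⟨hz, by simp [hx]⟩).2.2.le

/-- Sinks persist. -/
theorem sink_near [FiniteDimensional ℝ E] [IsManifold I ∞ M] [IsManifold I 1 M] [T2Space M]
    [FiniteDimensional ℝ F] {c : Cht I M F} {f : M ≃ₘ^1⟮I, I⟯ M} {k r : ℝ} (h : SinkAt c f k r)
    (ε : ℝ) (hε : 0 < ε) : ∀ᶠ g : M ≃ₘ^1⟮I, I⟯ M in 𝓝 f, ∃ a : F, ‖a‖ ≤ ε ∧ ‖a‖ ≤ r / 4 ∧
      SinkAt (c.shift a) g ((1 + k) / 2) (r / 2) ∧
      ‖fderiv ℝ (fun z => (c.shift a).φ (g ((c.shift a).ψ z))) 0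
        - fderiv ℝ (fun z => c.φ (f (c.ψ z))) 0‖ ≤ ε := by
  have hk0 := h.hk0
  have hk1 := h.hk1
  have hr := h.hr
  have hfp : f (c.ψ 0) ∈ c.src := by rw [h.fix]; exact h.p_src
  -- continuity of the derivative
  have hcd : ContDiffAt ℝ 1 (fun z => c.φ (f (c.ψ z))) 0 := smooth_expr c c f h.zero_mem hfp
  have hcont : ContinuousAt (fderiv ℝ (fun z => c.φ (f (c.ψ z)))) 0 :=
    (hcd.fderiv_right (m := 0) (by simp)).continuousAt
  obtain ⟨η, hη, hηc⟩ := Metric.continuousAt_iff.1 hcont (ε / 2) (by linarith)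
  have h1k : 0 < 1 - k := by linarith
  let ε₁ := min (min ε (r / 4)) (η / 2)
  have hε₁ : 0 < ε₁ := lt_min (lt_min hε (by linarith)) (by linarith)
  have hε₁a : ε₁ ≤ ε := (min_le_left _ _).trans (min_le_left _ _)
  have hε₁b : ε₁ ≤ r / 4 := (min_le_left _ _).trans (min_le_right _ _)
  have hε₁c : ε₁ ≤ η / 2 := min_le_right _ _
  let δ := min (min ((1 - k) / 2) (ε / 2)) (min ((1 - k) * ε₁) ((1 - k) * (3 * r / 4)))
  have hδ : 0 < δ := lt_min (lt_min (by linarith) (by linarith))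
    (lt_min (mul_pos h1k hε₁) (mul_pos h1k (by linarith)))
  have hδa : δ ≤ (1 - k) / 2 := (min_le_left _ _).trans (min_le_left _ _)
  have hδb : δ ≤ ε / 2 := (min_le_left _ _).trans (min_le_right _ _)
  have hδc : δ ≤ (1 - k) * ε₁ := (min_le_right _ _).trans (min_le_left _ _)
  have hδd : δ ≤ (1 - k) * (3 * r / 4) := (min_le_right _ _).trans (min_le_right _ _)
  let K := Metric.closedBall (0 : F) (3 * r / 4)
  have hKn : ∀ z ∈ K, ‖z‖ ≤ 3 * r / 4 := fun z hz => by simpa [K] using hz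
  have hKt : K ⊆ c.tgt := fun z hz => h.tgt (by have := hKn z hz; linarith)
  have hKs : ∀ z ∈ K, f (c.ψ z) ∈ c.src := fun z hz => h.src z (by have := hKn z hz; linarith)
  have hKd : ∀ z ∈ K, ‖fderiv ℝ (fun z => c.φ (f (c.ψ z))) z‖ ≤ k := by
    intro z hz
    refine norm_fderiv_le_of_lip' ℝ hk0.le ?_
    have hzr : z ∈ Metric.ball (0 : F) r := by
      have := hKn z hz
      rw [mem_ball_zero_iff]; linarith
    filter_upwards [Metric.isOpen_ball.mem_nhds hzr] with w hw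
    have hw' : ‖w‖ < r := by simpa using hw
    exact h.lip w z hw'.le (by have := hKn z hz; linarith)
  filter_upwards [close_c1 c c f K (isCompact_closedBall 0 _) hKt hKs δ hδ] with g hg
  let G : F → F := fun z => c.φ (g (c.ψ z))
  have hGd : ∀ z ∈ K, DifferentiableAt ℝ G z := fun z hz =>
    (smooth_expr c c g (hKt hz) (hg z hz).1).differentiableAt one_ne_zero
  have hGk : ∀ z ∈ K, ‖fderiv ℝ G z‖ ≤ (1 + k) / 2 := by
    intro z hz
    have e1 := (hg z hz).2.2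
    have e2 := hKd z hz
    have e3 : ‖fderiv ℝ G z‖ ≤ ‖fderiv ℝ G z - fderiv ℝ (fun z => c.φ (f (c.ψ z))) z‖
        + ‖fderiv ℝ (fun z => c.φ (f (c.ψ z))) z‖ := norm_le_norm_sub_add _ _
    have e4 : ‖fderiv ℝ G z - fderiv ℝ (fun z => c.φ (f (c.ψ z))) z‖ ≤ δ := e1
    linarith
  have hGl : ∀ z ∈ K, ∀ z' ∈ K, ‖G z - G z'‖ ≤ (1 + k) / 2 * ‖z - z'‖ := fun z hz z' hz' =>
    (convex_closedBall (0 : F) _).norm_image_sub_le_of_norm_fderiv_le hGd hGk hz' hz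
  have hfz : ∀ z ∈ K, ‖c.φ (f (c.ψ z))‖ ≤ k * ‖z‖ := by
    intro z hz
    have := h.lip z 0 (by have := hKn z hz; linarith) (by simp [hr.le])
    rwa [h.fix, h.φp, sub_zero, sub_zero] at this
  have hGn : ∀ z ∈ K, ‖G z‖ ≤ δ + k * ‖z‖ := by
    intro z hz
    have e1 := (hg z hz).2.1
    have e2 := hfz z hz
    have e3 : ‖G z‖ ≤ ‖G z - c.φ (f (c.ψ z))‖ + ‖c.φ (f (c.ψ z))‖ := norm_le_norm_sub_add _ _
    have e4 : ‖G z - c.φ (f (c.ψ z))‖ ≤ δ := e1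
    linarith
  have hGm : MapsTo G K K := by
    intro z hz
    have e1 := hGn z hz
    have e2 := hKn z hz
    have e3 : k * ‖z‖ ≤ k * (3 * r / 4) := mul_le_mul_of_nonneg_left e2 hk0.le
    have : ‖G z‖ ≤ 3 * r / 4 := by linarith
    simpa [K] using this
  -- the fixed point
  obtain ⟨a, haK, haG, -⟩ : ∃ a ∈ K, Function.IsFixedPt G a ∧ True := by
    let k' : NNReal := ⟨(1 + k) / 2, by linarith⟩
    have hcontr : ContractingWith k' (hGm.restrict G K K) := by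
      refine ⟨?_, ?_⟩
      · rw [← NNReal.coe_lt_coe]; change (1 + k) / 2 < 1; linarith
      · refine LipschitzWith.of_dist_le_mul fun x y => ?_
        rw [Subtype.dist_eq, Subtype.dist_eq, dist_eq_norm, dist_eq_norm]
        exact hGl x.1 x.2 y.1 y.2
    have h0K : (0 : F) ∈ K := by simp [K]; linarith
    obtain ⟨y, hy, hy2, -⟩ := ContractingWith.exists_fixedPoint'
      (isCompact_closedBall (0 : F) (3 * r / 4)).isComplete hGm hcontr h0K (edist_ne_top _ _)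
    exact ⟨y, hy, hy2, trivial⟩
  have haG' : c.φ (g (c.ψ a)) = a := haG
  have han : ‖a‖ ≤ ε₁ := by
    have e1 := hGn a haK
    have e2 : G a = a := haG
    rw [e2] at e1
    by_contra hcon
    push Not at hcon
    have : (1 - k) * ε₁ < (1 - k) * ‖a‖ := mul_lt_mul_of_pos_left hcon h1k
    linarith
  have hfix : g (c.ψ a) = c.ψ a := by
    rw [← c.ψφ _ (hg a haK).1, haG']
  have hshK : ∀ z, ‖z‖ ≤ r / 2 → z + a ∈ K := by
    intro z hz
    have : ‖z + a‖ ≤ 3 * r / 4 := by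
      have := norm_add_le z a
      linarith
    simpa [K] using this
  refine ⟨a, han.trans hε₁a, han.trans hε₁b, ⟨by linarith, by linarith, by linarith, ?_, ?_, ?_,
    ?_⟩, ?_⟩
  · intro z hz
    exact hKt (hshK z (by simpa using hz))
  · change g (c.ψ (0 + a)) = c.ψ (0 + a)
    rw [zero_add]; exact hfix
  · intro z hz
    exact (hg (z + a) (hshK z hz)).1
  · intro z z' hz hz'
    change ‖(c.φ (g (c.ψ (z + a))) - a) - (c.φ (g (c.ψ (z' + a))) - a)‖ ≤ _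
    have e1 := hGl (z + a) (hshK z hz) (z' + a) (hshK z' hz')
    have e2 : (c.φ (g (c.ψ (z + a))) - a) - (c.φ (g (c.ψ (z' + a))) - a)
        = G (z + a) - G (z' + a) := by simp only [G]; abel
    have e3 : z + a - (z' + a) = z - z' := by abel
    rw [e2, ← e3]; exact e1
  · have e1 : fderiv ℝ (fun z => (c.shift a).φ (g ((c.shift a).ψ z))) 0 = fderiv ℝ G a := by
      have e2 : HasFDerivAt G (fderiv ℝ G a) (0 + a) := by
        rw [zero_add]; exact (hGd a haK).hasFDerivAt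
      have e3 : HasFDerivAt (fun z : F => z + a) (ContinuousLinearMap.id ℝ F) 0 :=
        (hasFDerivAt_id (0 : F)).add_const a
      have e4 := (HasFDerivAt.comp (f := fun z : F => z + a) (0 : F) e2 e3).sub_const a
      rw [ContinuousLinearMap.comp_id] at e4
      exact e4.fderiv
    rw [e1]
    have e2 := (hg a haK).2.2
    have e3 : dist a (0 : F) < η := by rw [dist_zero_right]; linarith
    have e4 := hηc e3
    rw [dist_eq_norm] at e4
    calc _ ≤ ‖fderiv ℝ G a - fderiv ℝ (fun z => c.φ (f (c.ψ z))) a‖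
          + ‖fderiv ℝ (fun z => c.φ (f (c.ψ z))) a - fderiv ℝ (fun z => c.φ (f (c.ψ z))) 0‖ :=
          norm_sub_le_norm_sub_add_norm_sub _ _ _
      _ ≤ δ + ε / 2 := add_le_add e2 e4.le
      _ ≤ ε := by linarith

/-- The set of Axiom A diffeomorphisms without cycles. -/
def OSet (I : ModelWithCorners ℝ E H) (M : Type) [TopologicalSpace M] [ChartedSpace H M]
    [IsManifold I 1 M] : Set (M ≃ₘ^1⟮I, I⟯ M) := {f | AxiomA f ∧ NoCycles f}

/-- The general criterion: near `f` all Axiom A diffeomorphisms without cycles are limits of such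
diffeomorphisms with nontrivial centralizer. -/
theorem criterion [FiniteDimensional ℝ E] [IsManifold I ∞ M] [IsManifold I 1 M] [T2Space M]
    [LocallyConnectedSpace H] [FiniteDimensional ℝ F] {c d : Cht I M F} {f : M ≃ₘ^1⟮I, I⟯ M}
    {k₁ k₂ r : ℝ} (hc : SinkAt c f k₁ r) (hd : SinkAt d f⁻¹ k₂ r)
    (hne : c.ψ 0 ≠ d.ψ 0) (y : M) (hy1 : Tendsto (fun n : ℕ => f^[n] y) atTop (𝓝 (c.ψ 0)))
    (hy2 : Tendsto (fun n : ℕ => (⇑f⁻¹)^[n] y) atTop (𝓝 (d.ψ 0))) (ε : ℝ) (hε : 0 < ε)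
    (hal : ∀ L L' : F ≃L[ℝ] F,
      ‖(L : F →L[ℝ] F) - fderiv ℝ (fun z => c.φ (f (c.ψ z))) 0‖ ≤ ε →
      ‖(L' : F →L[ℝ] F) - fderiv ℝ (fun z => d.φ (f⁻¹ (d.ψ z))) 0‖ ≤ ε →
      ∀ A : F ≃L[ℝ] F, ∃ (w : F) (C : ℝ), w ≠ 0 ∧
      (∀ n : ℕ, ‖((L' : F →L[ℝ] F) ^ n) w‖ * ‖(L'.symm : F →L[ℝ] F) ^ n‖ ≤ C) ∧
      ∀ n : ℕ, ‖((L : F →L[ℝ] F) ^ n) (A w)‖ * ‖(L.symm : F →L[ℝ] F) ^ n‖ ≤ C) :
    ∀ᶠ g : M ≃ₘ^1⟮I, I⟯ M in 𝓝 f, g ∈ OSet I M → ∀ W ∈ 𝓝 g,
      ∃ g' ∈ W, g' ∈ OSet I M ∧ ¬ TrivialCentralizer g' := by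
  have hr := hc.hr
  -- small radius
  obtain ⟨u, v, hu, hv, hcu, hdv, huv⟩ := t2_separation hne
  have hsmall : ∀ (e : Cht I M F) (k : ℝ) (h : M ≃ₘ^1⟮I, I⟯ M) (_ : SinkAt e h k r) (u : Set M)
      (_ : IsOpen u) (_ : e.ψ 0 ∈ u), ∃ r' > 0, r' ≤ r ∧ disk e r' ⊆ u := by
    intro e k h he u hu heu
    have h1 : ContinuousAt e.ψ 0 := (e.ψ_at he.zero_mem).continuousAt
    obtain ⟨r', hr', hball⟩ := Metric.eventually_nhds_iff_ball.1 (h1 (hu.mem_nhds heu))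
    refine ⟨min (r' / 2) r, lt_min (by linarith) hr, min_le_right _ _, fun x hx => ?_⟩
    have h2 : ‖e.φ x‖ < r' := by
      have := hx.2.trans (min_le_left _ _)
      linarith
    have h3 := hball (e.φ x) (by simpa using h2)
    have h4 : e.ψ (e.φ x) ∈ u := h3
    rwa [e.ψφ x hx.1] at h4
  obtain ⟨r1, hr1, hr1r, hdc⟩ := hsmall c k₁ f hc u hu hcu
  obtain ⟨r2, hr2, hr2r, hdd⟩ := hsmall d k₂ f⁻¹ hd v hv hdv
  let ρ := min r1 r2
  have hρ : 0 < ρ := lt_min hr1 hr2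
  have hdisj : Disjoint (disk c ρ) (disk d ρ) := by
    refine huv.mono ?_ ?_
    · exact (disk_mono c (min_le_left _ _)).trans hdc
    · exact (disk_mono d (min_le_right _ _)).trans hdd
  have hc' : SinkAt c f k₁ ρ := hc.mono hρ ((min_le_left _ _).trans hr1r)
  have hd' : SinkAt d f⁻¹ k₂ ρ := hd.mono hρ ((min_le_right _ _).trans hr2r)
  -- a connecting orbit
  have hopen : ∀ e : Cht I M F, IsOpen {x | x ∈ e.src ∧ ‖e.φ x‖ < ρ / 4} := by
    intro e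
    have h1 : ContinuousOn (fun x => ‖e.φ x‖) e.src := e.smooth_φ.continuousOn.norm
    have h2 := h1.isOpen_inter_preimage e.open_src (isOpen_Iio (a := ρ / 4))
    exact h2
  have hm1 : c.ψ 0 ∈ {x | x ∈ c.src ∧ ‖c.φ x‖ < ρ / 4} :=
    ⟨hc'.p_src, by rw [hc'.φp, norm_zero]; linarith⟩
  have hm2 : d.ψ 0 ∈ {x | x ∈ d.src ∧ ‖d.φ x‖ < ρ / 4} :=
    ⟨hd'.p_src, by rw [hd'.φp, norm_zero]; linarith⟩
  obtain ⟨n1, hn1⟩ := (hy1.eventually ((hopen c).mem_nhds hm1)).exists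
  obtain ⟨n2, hn2⟩ := (hy2.eventually ((hopen d).mem_nhds hm2)).exists
  let y' := (⇑f⁻¹)^[n2] y
  have hfy : f^[n1 + n2] y' ∈ {x | x ∈ c.src ∧ ‖c.φ x‖ < ρ / 4} := by
    rw [Function.iterate_add_apply]
    simp only [y']
    rw [iter_inv]; exact hn1
  have hev1 : ∀ᶠ g : M ≃ₘ^1⟮I, I⟯ M in 𝓝 f,
      g^[n1 + n2] y' ∈ {x | x ∈ c.src ∧ ‖c.φ x‖ < ρ / 4} := by
    have h1 : Continuous fun g : M ≃ₘ^1⟮I, I⟯ M => (g ^ (n1 + n2)) y' :=
      (continuous_apply y').comp (continuous_pow (n1 + n2))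
    have h2 : (f ^ (n1 + n2)) y' ∈ {x | x ∈ c.src ∧ ‖c.φ x‖ < ρ / 4} := by
      rw [d1_pow_apply]; exact hfy
    have h3 := h1.continuousAt.eventually ((hopen c).mem_nhds h2)
    filter_upwards [h3] with g hg
    rwa [← d1_pow_apply]
  have hev2 := sink_near hc' ε hε
  have hev3 : ∀ᶠ g : M ≃ₘ^1⟮I, I⟯ M in 𝓝 f, ∃ a : F, ‖a‖ ≤ ε ∧ ‖a‖ ≤ ρ / 4 ∧
      SinkAt (d.shift a) g⁻¹ ((1 + k₂) / 2) (ρ / 2) ∧
      ‖fderiv ℝ (fun z => (d.shift a).φ (g⁻¹ ((d.shift a).ψ z))) 0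
        - fderiv ℝ (fun z => d.φ (f⁻¹ (d.ψ z))) 0‖ ≤ ε :=
    continuous_inv.continuousAt.eventually (sink_near hd' ε hε)
  have hdsub : ∀ (e : Cht I M F) (a : F), ‖a‖ ≤ ρ / 4 → disk (e.shift a) (ρ / 2) ⊆ disk e ρ := by
    intro e a ha x hx
    refine ⟨hx.1, ?_⟩
    have h1 : ‖e.φ x - a‖ ≤ ρ / 2 := hx.2
    have h2 := norm_sub_norm_le (e.φ x) a
    linarith
  have hdsub' : ∀ (e : Cht I M F) (a : F) (x : M), ‖a‖ ≤ ρ / 4 → x ∈ e.src → ‖e.φ x‖ < ρ / 4 →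
      x ∈ disk (e.shift a) (ρ / 2) := by
    intro e a x ha hx hx2
    refine ⟨hx, ?_⟩
    change ‖e.φ x - a‖ ≤ ρ / 2
    have := norm_sub_le (e.φ x) a
    linarith
  filter_upwards [hev1, hev2, hev3] with g hg1 hg2 hg3 hgO W hW
  obtain ⟨a, -, ha2, ha3, ha4⟩ := hg2
  obtain ⟨a', -, hb2, hb3, hb4⟩ := hg3
  have hgood : Good (c.shift a) (d.shift a') (ρ / 2) g := by
    refine ⟨hgO.1, hgO.2, ⟨_, ha3⟩, ⟨_, hb3⟩, hdisj.mono (hdsub c a ha2) (hdsub d a' hb2),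
      n1 + n2, y', hdsub' d a' y' hb2 hn2.1 hn2.2, hdsub' c a _ ha2 hg1.1 hg1.2⟩
  obtain ⟨L, hL, -⟩ := equiv_expr (c.shift a) (c.shift a) g ha3.zero_mem
    (by rw [ha3.fix]; exact ha3.p_src)
  obtain ⟨L', hL', -⟩ := equiv_expr (d.shift a') (d.shift a') g⁻¹ hb3.zero_mem
    (by rw [hb3.fix]; exact hb3.p_src)
  obtain ⟨g', hg', h1, h2, h3⟩ := hgood.main hW L L' hL hL'
    (hal L L' (by rw [← hL.fderiv]; exact ha4) (by rw [← hL'.fderiv]; exact hb4))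
  exact ⟨g', hg', ⟨h1, h2⟩, h3⟩

end Pool.Agent.H365R3
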