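import Mathlib

set_option autoImplicit false

open scoped Topology
open Set Filter

noncomputable section

namespace Pool.Agent.H365R3

section

variable {F : Type} [NormedAddCommGroup F] [NormedSpace ℝ F] [FiniteDimensional ℝ F]

theorem symm_pow_pow' (L : F ≃L[ℝ] F) (n : ℕ) (z : F) :
    ((L : F →L[ℝ] F) ^ n) (((L.symm : F →L[ℝ] F) ^ n) z) = z := by
  induction n generalizing z with
  | zero => rfl
  | succ n ih =>
    have h1 : ((L.symm : F →L[ℝ] F) ^ (n + 1)) z = L.symm (((L.symm : F →L[ℝ] F) ^ n) z) := by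
      rw [pow_succ']; rfl
    have h2 : ((L : F →L[ℝ] F) ^ (n + 1)) (L.symm (((L.symm : F →L[ℝ] F) ^ n) z))
      = ((L : F →L[ℝ] F) ^ n) (L (L.symm (((L.symm : F →L[ℝ] F) ^ n) z))) := rfl
    rw [h1, h2, L.apply_symm_apply, ih]

/-- Vectors in the kernel of `s` are contracted as strongly as possible. -/
theorem dom (L : F ≃L[ℝ] F) (s : F →L[ℝ] ℝ) (τ : F →L[ℝ] ℂ) (μ : ℝ) (l β : ℂ)
    (h1 : ∀ z, s (L z) = μ * s z) (h2 : ∀ z, τ (L z) = l * τ z + (s z : ℂ) * β)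
    (hinj : ∀ z, s z = 0 → τ z = 0 → z = 0) (hl : l ≠ 0) (hlt : ‖l‖ < |μ|) (v : F)
    (hv : s v = 0) :
    ∃ C : ℝ, ∀ n : ℕ, ‖((L : F →L[ℝ] F) ^ n) v‖ * ‖(L.symm : F →L[ℝ] F) ^ n‖ ≤ C := by
  have hl0 : 0 < ‖l‖ := norm_pos_iff.2 hl
  have hd : 0 < |μ| - ‖l‖ := by linarith
  let K : ℝ := ‖β‖ / (|μ| - ‖l‖) + 1
  have hK1 : 1 ≤ K := by
    have : 0 ≤ ‖β‖ / (|μ| - ‖l‖) := by positivity
    linarith
  have hKβ : ‖β‖ ≤ K * (|μ| - ‖l‖) := by
    simp only [K]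
    rw [add_mul, div_mul_cancel₀ _ hd.ne']
    linarith
  let N : F → ℝ := fun z => ‖τ z‖ + K * |s z|
  have hN : ∀ z, ‖l‖ * N z ≤ N (L z) := by
    intro z
    simp only [N]
    rw [h1, h2, abs_mul]
    have e1 : ‖l‖ * ‖τ z‖ - |s z| * ‖β‖ ≤ ‖l * τ z + (s z : ℂ) * β‖ := by
      have := norm_sub_le_norm_add (l * τ z) ((s z : ℂ) * β)
      rw [norm_mul, norm_mul, Complex.norm_real, Real.norm_eq_abs] at this
      exact this
    have e2 : |s z| * ‖β‖ ≤ |s z| * (K * (|μ| - ‖l‖)) :=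
      mul_le_mul_of_nonneg_left hKβ (abs_nonneg _)
    nlinarith
  have hNn : ∀ (n : ℕ) z, ‖l‖ ^ n * N z ≤ N (((L : F →L[ℝ] F) ^ n) z) := by
    intro n
    induction n with
    | zero => intro z; simp
    | succ n ih =>
      intro z
      have e1 := ih (L z)
      have e2 : ((L : F →L[ℝ] F) ^ (n + 1)) z = ((L : F →L[ℝ] F) ^ n) (L z) := rfl
      rw [e2]
      calc ‖l‖ ^ (n + 1) * N z = ‖l‖ ^ n * (‖l‖ * N z) := by ring
        _ ≤ ‖l‖ ^ n * N (L z) := mul_le_mul_of_nonneg_left (hN z) (by positivity)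
        _ ≤ _ := e1
  have hvn : ∀ n : ℕ, s (((L : F →L[ℝ] F) ^ n) v) = 0 ∧
      ‖τ (((L : F →L[ℝ] F) ^ n) v)‖ = ‖l‖ ^ n * ‖τ v‖ := by
    intro n
    induction n with
    | zero => simp [hv]
    | succ n ih =>
      have e2 : ((L : F →L[ℝ] F) ^ (n + 1)) v = L (((L : F →L[ℝ] F) ^ n) v) := by
        rw [pow_succ']; rfl
      rw [e2, h1, h2, ih.1]
      refine ⟨by simp, ?_⟩
      rw [Complex.ofReal_zero, zero_mul, add_zero, norm_mul, ih.2]
      ring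
  obtain ⟨m, hm, hanti⟩ := LinearMap.exists_antilipschitzWith
    ((τ.prod s : F →L[ℝ] ℂ × ℝ) : F →ₗ[ℝ] ℂ × ℝ) (by
      rw [LinearMap.ker_eq_bot']
      intro z hz
      have hz' : (τ z, s z) = (0, 0) := hz
      rw [Prod.mk.injEq] at hz'
      exact hinj z hz'.2 hz'.1)
  have hmN : ∀ z, ‖z‖ ≤ m * N z := by
    intro z
    have e1 := hanti.le_mul_norm (x := z) (by simp)
    have e2 : ‖((τ.prod s : F →L[ℝ] ℂ × ℝ) : F →ₗ[ℝ] ℂ × ℝ) z‖ ≤ N z := by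
      change ‖(τ z, s z)‖ ≤ N z
      rw [Prod.norm_def]
      simp only [N, Real.norm_eq_abs]
      have := abs_nonneg (s z)
      have := norm_nonneg (τ z)
      apply max_le <;> nlinarith
    exact e1.trans (mul_le_mul_of_nonneg_left e2 m.2)
  let M' : ℝ := ‖τ‖ + K * ‖s‖
  have hM'0 : 0 ≤ M' := by
    have : 0 ≤ K := by linarith
    positivity
  have hNM : ∀ z, N z ≤ M' * ‖z‖ := by
    intro z
    have e1 := τ.le_opNorm z
    have e2 := s.le_opNorm z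
    rw [Real.norm_eq_abs] at e2
    simp only [N, M']
    have e3 : K * |s z| ≤ K * (‖s‖ * ‖z‖) := mul_le_mul_of_nonneg_left e2 (by linarith)
    linarith
  have hm0 : (0 : ℝ) ≤ m := m.2
  have hNv : ∀ n : ℕ, ‖((L : F →L[ℝ] F) ^ n) v‖ ≤ m * (‖l‖ ^ n * ‖τ v‖) := by
    intro n
    refine (hmN _).trans (mul_le_mul_of_nonneg_left ?_ hm0)
    simp only [N]
    rw [(hvn n).1, (hvn n).2]; simp
  have hinv : ∀ n : ℕ, ‖(L.symm : F →L[ℝ] F) ^ n‖ ≤ m * M' / ‖l‖ ^ n := by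
    intro n
    refine ContinuousLinearMap.opNorm_le_bound _ (by positivity) fun y => ?_
    have e1 := hmN (((L.symm : F →L[ℝ] F) ^ n) y)
    have e2 := hNn n (((L.symm : F →L[ℝ] F) ^ n) y)
    rw [symm_pow_pow'] at e2
    have e3 := hNM y
    have hp : 0 < ‖l‖ ^ n := by positivity
    have e4 : N (((L.symm : F →L[ℝ] F) ^ n) y) ≤ M' * ‖y‖ / ‖l‖ ^ n := by
      rw [le_div_iff₀ hp]; linarith
    calc _ ≤ m * N (((L.symm : F →L[ℝ] F) ^ n) y) := e1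
      _ ≤ m * (M' * ‖y‖ / ‖l‖ ^ n) := mul_le_mul_of_nonneg_left e4 hm0
      _ = m * M' / ‖l‖ ^ n * ‖y‖ := by ring
  refine ⟨m * ‖τ v‖ * (m * M'), fun n => ?_⟩
  have hp : 0 < ‖l‖ ^ n := by positivity
  calc _ ≤ (m * (‖l‖ ^ n * ‖τ v‖)) * (m * M' / ‖l‖ ^ n) :=
        mul_le_mul (hNv n) (hinv n) (norm_nonneg _) (by positivity)
    _ = m * ‖τ v‖ * (m * M') := by field_simp

end

/-- The three-dimensional space. -/
abbrev F3 : Type := ℝ × ℝ × ℝ

/-- Solve the graph equation by contraction. -/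
theorem graph_eq (a b c d e g p q m A ε m0 : ℝ) (hε : 0 ≤ ε) (hac : |a| + |c| ≤ A)
    (hbd : |b| + |d| ≤ A) (he : |e| ≤ ε) (hg : |g| ≤ ε) (hp : |p| ≤ ε) (hq : |q| ≤ ε)
    (hm : m0 ≤ m) (hm0 : 0 < m0) (hA : A + 5 * ε < m0) :
    ∃ h1 h2 : ℝ, |h1| ≤ 1 ∧ |h2| ≤ 1 ∧ p - h1 * a - h2 * c = -(m - h1 * e - h2 * g) * h1 ∧
      q - h1 * b - h2 * d = -(m - h1 * e - h2 * g) * h2 := by
  have hmpos : 0 < m := hm0.trans_le hm
  let Θ : ℝ × ℝ → ℝ × ℝ := fun h =>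
    ((h.1 * a + h.2 * c - p + h.1 * (h.1 * e + h.2 * g)) / m,
      (h.1 * b + h.2 * d - q + h.2 * (h.1 * e + h.2 * g)) / m)
  let K : Set (ℝ × ℝ) := Metric.closedBall 0 1
  have hK : ∀ h ∈ K, |h.1| ≤ 1 ∧ |h.2| ≤ 1 := by
    intro h hh
    have h1 : ‖h‖ ≤ 1 := by simpa [K] using hh
    exact ⟨(norm_fst_le h).trans h1, (norm_snd_le h).trans h1⟩
  have key : ∀ (x y u v w : ℝ), |u| ≤ 1 → |v| ≤ 1 → |w| ≤ 1 → ∀ p, |p| ≤ ε → |x| + |y| ≤ A →
      |u * x + v * y - p + w * (u * e + v * g)| ≤ A + 3 * ε := by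
    intro x y u v w hu hv hw p hp hxy
    have e1 : |u * x| ≤ |x| := by
      rw [abs_mul]; exact mul_le_of_le_one_left (abs_nonneg _) hu
    have e2 : |v * y| ≤ |y| := by
      rw [abs_mul]; exact mul_le_of_le_one_left (abs_nonneg _) hv
    have e3 : |u * e| ≤ ε := by
      rw [abs_mul]; exact (mul_le_of_le_one_left (abs_nonneg _) hu).trans he
    have e4 : |v * g| ≤ ε := by
      rw [abs_mul]; exact (mul_le_of_le_one_left (abs_nonneg _) hv).trans hg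
    have e5 : |w * (u * e + v * g)| ≤ 2 * ε := by
      rw [abs_mul]
      refine (mul_le_of_le_one_left (abs_nonneg _) hw).trans ?_
      exact (abs_add_le _ _).trans (by linarith)
    have e6 := abs_add_le (u * x + v * y - p) (w * (u * e + v * g))
    have e7 := abs_sub (u * x + v * y) p
    have e8 := abs_add_le (u * x) (v * y)
    linarith
  have hmaps : MapsTo Θ K K := by
    intro h hh
    obtain ⟨h1, h2⟩ := hK h hh
    have e1 := key a c h.1 h.2 h.1 h1 h2 h1 p hp hac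
    have e2 := key b d h.1 h.2 h.2 h1 h2 h2 q hq hbd
    have e3 : ‖Θ h‖ ≤ 1 := by
      rw [Prod.norm_def]
      simp only [Θ, Real.norm_eq_abs, abs_div, abs_of_pos hmpos]
      apply max_le <;> rw [div_le_one hmpos] <;> linarith
    simpa [K] using e3
  have hdiff : ∀ h ∈ K, ∀ h' ∈ K, ‖Θ h - Θ h'‖ ≤ ((A + 4 * ε) / m0) * ‖h - h'‖ := by
    intro h hh h' hh'
    obtain ⟨h1, h2⟩ := hK h hh
    obtain ⟨h1', h2'⟩ := hK h' hh'
    let D := ‖h - h'‖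
    have hD0 : 0 ≤ D := norm_nonneg _
    have d1 : |h.1 - h'.1| ≤ D := norm_fst_le (h - h')
    have d2 : |h.2 - h'.2| ≤ D := norm_snd_le (h - h')
    have main : ∀ (x y u w w' p : ℝ), |x| + |y| ≤ A → |w| ≤ 1 → |w'| ≤ 1 → |w - w'| ≤ D →
        |(h.1 * x + h.2 * y - p + w * (h.1 * e + h.2 * g))
          - (h'.1 * x + h'.2 * y - p + w' * (h'.1 * e + h'.2 * g))| ≤ (A + 4 * ε) * D := by
      intro x y u w w' p hxy hw hw' hww
      have e0 : (h.1 * x + h.2 * y - p + w * (h.1 * e + h.2 * g))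
          - (h'.1 * x + h'.2 * y - p + w' * (h'.1 * e + h'.2 * g))
          = (h.1 - h'.1) * x + (h.2 - h'.2) * y + ((w - w') * (h.1 * e + h.2 * g)
            + w' * ((h.1 - h'.1) * e + (h.2 - h'.2) * g)) := by ring
      rw [e0]
      have e1 : |(h.1 - h'.1) * x| ≤ D * |x| := by
        rw [abs_mul]; exact mul_le_mul_of_nonneg_right d1 (abs_nonneg _)
      have e2 : |(h.2 - h'.2) * y| ≤ D * |y| := by
        rw [abs_mul]; exact mul_le_mul_of_nonneg_right d2 (abs_nonneg _)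
      have e3 : |h.1 * e + h.2 * g| ≤ 2 * ε := by
        have a1 : |h.1 * e| ≤ ε := by
          rw [abs_mul]; exact (mul_le_of_le_one_left (abs_nonneg _) h1).trans he
        have a2 : |h.2 * g| ≤ ε := by
          rw [abs_mul]; exact (mul_le_of_le_one_left (abs_nonneg _) h2).trans hg
        exact (abs_add_le _ _).trans (by linarith)
      have e4 : |(w - w') * (h.1 * e + h.2 * g)| ≤ D * (2 * ε) := by
        rw [abs_mul]
        exact mul_le_mul hww e3 (abs_nonneg _) hD0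
      have e5 : |(h.1 - h'.1) * e + (h.2 - h'.2) * g| ≤ D * (2 * ε) := by
        have a1 : |(h.1 - h'.1) * e| ≤ D * ε := by
          rw [abs_mul]; exact mul_le_mul d1 he (abs_nonneg _) hD0
        have a2 : |(h.2 - h'.2) * g| ≤ D * ε := by
          rw [abs_mul]; exact mul_le_mul d2 hg (abs_nonneg _) hD0
        exact (abs_add_le _ _).trans (by linarith)
      have e6 : |w' * ((h.1 - h'.1) * e + (h.2 - h'.2) * g)| ≤ D * (2 * ε) := by
        rw [abs_mul]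
        exact (mul_le_of_le_one_left (abs_nonneg _) hw').trans e5
      have e7 := abs_add_le ((h.1 - h'.1) * x + (h.2 - h'.2) * y)
        ((w - w') * (h.1 * e + h.2 * g) + w' * ((h.1 - h'.1) * e + (h.2 - h'.2) * g))
      have e8 := abs_add_le ((h.1 - h'.1) * x) ((h.2 - h'.2) * y)
      have e9 := abs_add_le ((w - w') * (h.1 * e + h.2 * g))
        (w' * ((h.1 - h'.1) * e + (h.2 - h'.2) * g))
      have e10 : D * |x| + D * |y| ≤ D * A := by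
        rw [← mul_add]; exact mul_le_mul_of_nonneg_left hxy hD0
      linarith
    have f1 := main a c 0 h.1 h'.1 p hac h1 h1' d1
    have f2 := main b d 0 h.2 h'.2 q hbd h2 h2' d2
    have hA0 : 0 ≤ A + 4 * ε := by
      have := abs_nonneg a
      have := abs_nonneg c
      linarith
    have fin : ∀ t t' : ℝ, |t - t'| ≤ (A + 4 * ε) * D →
        |t / m - t' / m| ≤ ((A + 4 * ε) / m0) * D := by
      intro t t' htt
      rw [← sub_div, abs_div, abs_of_pos hmpos, div_le_iff₀ hmpos]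
      refine htt.trans ?_
      have : (A + 4 * ε) / m0 * D * m0 ≤ (A + 4 * ε) / m0 * D * m :=
        mul_le_mul_of_nonneg_left hm (by positivity)
      refine le_trans (le_of_eq ?_) this
      field_simp
    rw [Prod.norm_def]
    exact max_le (fin _ _ f1) (fin _ _ f2)
  have hA0 : 0 ≤ A + 4 * ε := by
    have := abs_nonneg a
    have := abs_nonneg c
    linarith
  obtain ⟨h, hhK, hh⟩ : ∃ h ∈ K, Function.IsFixedPt Θ h := by
    let k' : NNReal := ⟨(A + 4 * ε) / m0, by positivity⟩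
    have hcontr : ContractingWith k' (hmaps.restrict Θ K K) := by
      refine ⟨?_, ?_⟩
      · rw [← NNReal.coe_lt_coe]
        change (A + 4 * ε) / m0 < 1
        rw [div_lt_one hm0]; linarith
      · refine LipschitzWith.of_dist_le_mul fun x y => ?_
        rw [Subtype.dist_eq, Subtype.dist_eq, dist_eq_norm, dist_eq_norm]
        exact hdiff x.1 x.2 y.1 y.2
    have h0K : (0 : ℝ × ℝ) ∈ K := by simp [K]
    obtain ⟨y, hy, hy2, -⟩ := ContractingWith.exists_fixedPoint'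
      (isCompact_closedBall (0 : ℝ × ℝ) 1).isComplete hmaps hcontr h0K (edist_ne_top _ _)
    exact ⟨y, hy, hy2⟩
  have hh' : Θ h = h := hh
  have e1 : (h.1 * a + h.2 * c - p + h.1 * (h.1 * e + h.2 * g)) / m = h.1 :=
    congrArg Prod.fst hh'
  have e2 : (h.1 * b + h.2 * d - q + h.2 * (h.1 * e + h.2 * g)) / m = h.2 :=
    congrArg Prod.snd hh'
  rw [div_eq_iff hmpos.ne'] at e1 e2
  refine ⟨h.1, h.2, (hK h hhK).1, (hK h hhK).2, ?_, ?_⟩ <;> linarith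

/-- The dominated functional for maps near the model. -/
theorem dominated (L : F3 ≃L[ℝ] F3) (a0 b0 m0 ε : ℝ) (ha0 : 0 < a0) (hb0 : 0 < b0)
    (hε : 0 < ε) (hεb : 8 * ε ≤ b0) (hm : a0 + b0 + 16 * ε ≤ m0)
    (hL : ∀ z : F3, ‖L z - (m0 * z.1, a0 * z.2.1 + b0 * z.2.2, -b0 * z.2.1 + a0 * z.2.2)‖
      ≤ ε * ‖z‖) :
    ∃ s : F3 →L[ℝ] ℝ, ∀ v, s v = 0 →
      ∃ C : ℝ, ∀ n : ℕ, ‖((L : F3 →L[ℝ] F3) ^ n) v‖ * ‖(L.symm : F3 →L[ℝ] F3) ^ n‖ ≤ C := by
  -- entries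
  let E1 := L (1, 0, 0)
  let E2 := L (0, 1, 0)
  let E3 := L (0, 0, 1)
  have hexp : ∀ z : F3, L z = (z.1 * E1.1 + z.2.1 * E2.1 + z.2.2 * E3.1,
      z.1 * E1.2.1 + z.2.1 * E2.2.1 + z.2.2 * E3.2.1,
      z.1 * E1.2.2 + z.2.1 * E2.2.2 + z.2.2 * E3.2.2) := by
    intro z
    have h1 : z = z.1 • ((1, 0, 0) : F3) + z.2.1 • ((0, 1, 0) : F3) + z.2.2 • ((0, 0, 1) : F3) := by
      ext <;> simp
    conv_lhs => rw [h1]
    rw [map_add, map_add, map_smul, map_smul, map_smul]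
    rfl
  have n1 : ‖((1, 0, 0) : F3)‖ = 1 := by simp [Prod.norm_def]
  have n2 : ‖((0, 1, 0) : F3)‖ = 1 := by simp [Prod.norm_def]
  have n3 : ‖((0, 0, 1) : F3)‖ = 1 := by simp [Prod.norm_def]
  have c1 := (hL (1, 0, 0)).trans (by rw [n1, mul_one])
  have c2 := (hL (0, 1, 0)).trans (by rw [n2, mul_one])
  have c3 := (hL (0, 0, 1)).trans (by rw [n3, mul_one])
  have cc : ∀ z w : F3, ‖z - w‖ ≤ ε →
      |z.1 - w.1| ≤ ε ∧ |z.2.1 - w.2.1| ≤ ε ∧ |z.2.2 - w.2.2| ≤ ε := by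
    intro z w h
    exact ⟨(norm_fst_le (z - w)).trans h, ((norm_fst_le (z - w).2).trans (norm_snd_le _)).trans h,
      ((norm_snd_le (z - w).2).trans (norm_snd_le _)).trans h⟩
  obtain ⟨i1, i2, i3⟩ := cc _ _ c1
  obtain ⟨j1, j2, j3⟩ := cc _ _ c2
  obtain ⟨k1, k2, k3⟩ := cc _ _ c3
  simp only [mul_one, mul_zero, add_zero, zero_add, sub_zero] at i1 i2 i3 j1 j2 j3 k1 k2 k3
  change |E1.1 - m0| ≤ ε at i1
  change |E1.2.1| ≤ ε at i2
  change |E1.2.2| ≤ ε at i3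
  change |E2.1| ≤ ε at j1
  change |E2.2.1 - a0| ≤ ε at j2
  change |E2.2.2 - -b0| ≤ ε at j3
  change |E3.1| ≤ ε at k1
  change |E3.2.1 - b0| ≤ ε at k2
  change |E3.2.2 - a0| ≤ ε at k3
  generalize E1.1 = m at *
  generalize E1.2.1 = e at *
  generalize E1.2.2 = g at *
  generalize E2.1 = p at *
  generalize E2.2.1 = a at *
  generalize E2.2.2 = c at *
  generalize E3.1 = q at *
  generalize E3.2.1 = b at *
  generalize E3.2.2 = d at *
  obtain ⟨i1a, i1b⟩ := abs_le.1 i1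
  obtain ⟨j2a, j2b⟩ := abs_le.1 j2
  obtain ⟨j3a, j3b⟩ := abs_le.1 j3
  obtain ⟨k2a, k2b⟩ := abs_le.1 k2
  obtain ⟨k3a, k3b⟩ := abs_le.1 k3
  have hac : |a| + |c| ≤ a0 + b0 + 2 * ε := by
    have h1 : |a| ≤ a0 + ε := abs_le.2 ⟨by linarith, by linarith⟩
    have h2 : |c| ≤ b0 + ε := abs_le.2 ⟨by linarith, by linarith⟩
    linarith
  have hbd : |b| + |d| ≤ a0 + b0 + 2 * ε := by
    have h1 : |d| ≤ a0 + ε := abs_le.2 ⟨by linarith, by linarith⟩
    have h2 : |b| ≤ b0 + ε := abs_le.2 ⟨by linarith, by linarith⟩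
    linarith
  obtain ⟨h1, h2, hh1, hh2, eq1, eq2⟩ := graph_eq a b c d e g p q m (a0 + b0 + 2 * ε) ε (m0 - ε)
    hε.le hac hbd i2 i3 j1 k1 (by linarith) (by linarith) (by linarith)
  let μ : ℝ := m - h1 * e - h2 * g
  have b1 : |h1 * e| ≤ ε := by
    rw [abs_mul]; exact (mul_le_of_le_one_left (abs_nonneg _) hh1).trans i2
  have b2 : |h2 * g| ≤ ε := by
    rw [abs_mul]; exact (mul_le_of_le_one_left (abs_nonneg _) hh2).trans i3
  have b3 : |h2 * e| ≤ ε := by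
    rw [abs_mul]; exact (mul_le_of_le_one_left (abs_nonneg _) hh2).trans i2
  have b4 : |h1 * g| ≤ ε := by
    rw [abs_mul]; exact (mul_le_of_le_one_left (abs_nonneg _) hh1).trans i3
  obtain ⟨b1a, b1b⟩ := abs_le.1 b1
  obtain ⟨b2a, b2b⟩ := abs_le.1 b2
  obtain ⟨b3a, b3b⟩ := abs_le.1 b3
  obtain ⟨b4a, b4b⟩ := abs_le.1 b4
  have hμ : m0 - 3 * ε ≤ μ := by simp only [μ]; linarith
  obtain ⟨B11, hB11⟩ : ∃ x, x = a + h1 * e := ⟨_, rfl⟩
  obtain ⟨B12, hB12⟩ : ∃ x, x = b + h2 * e := ⟨_, rfl⟩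
  obtain ⟨B21, hB21⟩ : ∃ x, x = c + h1 * g := ⟨_, rfl⟩
  obtain ⟨B22, hB22⟩ : ∃ x, x = d + h2 * g := ⟨_, rfl⟩
  have r1 : a0 - 2 * ε ≤ B11 ∧ B11 ≤ a0 + 2 * ε := ⟨by linarith, by linarith⟩
  have r2 : b0 - 2 * ε ≤ B12 ∧ B12 ≤ b0 + 2 * ε := ⟨by linarith, by linarith⟩
  have r3 : b0 - 2 * ε ≤ -B21 ∧ -B21 ≤ b0 + 2 * ε := ⟨by linarith, by linarith⟩
  have r4 : a0 - 2 * ε ≤ B22 ∧ B22 ≤ a0 + 2 * ε := ⟨by linarith, by linarith⟩
  let T : ℝ := B11 + B22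
  let Δ : ℝ := B11 * B22 - B12 * B21
  have hdisc : 0 < 4 * Δ - T ^ 2 := by
    have t1 : 4 * Δ - T ^ 2 = 4 * (B12 * -B21) - (B11 - B22) ^ 2 := by
      simp only [T, Δ]; ring
    have t2 : (b0 - 2 * ε) * (b0 - 2 * ε) ≤ B12 * -B21 :=
      mul_le_mul r2.1 r3.1 (by linarith) (by linarith [r2.1])
    have t3 : (B11 - B22) ^ 2 ≤ (4 * ε) ^ 2 := by
      apply sq_le_sq'
      · linarith [r1.1, r4.2]
      · linarith [r1.2, r4.1]
    have t4 : (6 * ε) * (6 * ε) ≤ (b0 - 2 * ε) * (b0 - 2 * ε) :=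
      mul_le_mul (by linarith) (by linarith) (by linarith) (by linarith)
    have t5 : 0 < ε * ε := mul_pos hε hε
    rw [t1]
    linarith
  have hΔ0 : 0 < Δ := by linarith [sq_nonneg T]
  have hΔμ : Δ < μ ^ 2 := by
    have t1 : |B11 * B22| ≤ (a0 + 2 * ε) * (a0 + 2 * ε) := by
      rw [abs_mul]
      refine mul_le_mul (abs_le.2 ⟨by linarith [r1.1], r1.2⟩) (abs_le.2 ⟨by linarith [r4.1], r4.2⟩)
        (abs_nonneg _) (by linarith)
    have t2 : |B12 * -B21| ≤ (b0 + 2 * ε) * (b0 + 2 * ε) := by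
      rw [abs_mul]
      refine mul_le_mul (abs_le.2 ⟨by linarith [r2.1], r2.2⟩) (abs_le.2 ⟨by linarith [r3.1], r3.2⟩)
        (abs_nonneg _) (by linarith)
    have t3 : Δ = B11 * B22 + B12 * -B21 := by simp only [Δ]; ring
    have t4 := le_abs_self (B11 * B22)
    have t5 := le_abs_self (B12 * -B21)
    have t6 : (a0 + 2 * ε) * (a0 + 2 * ε) + (b0 + 2 * ε) * (b0 + 2 * ε)
        ≤ (a0 + b0 + 4 * ε) ^ 2 := by
      have u1 : 0 < (a0 + 2 * ε) * (b0 + 2 * ε) := by positivity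
      have u2 : (a0 + b0 + 4 * ε) ^ 2 = (a0 + 2 * ε) * (a0 + 2 * ε)
        + (b0 + 2 * ε) * (b0 + 2 * ε) + 2 * ((a0 + 2 * ε) * (b0 + 2 * ε)) := by ring
      linarith
    have t7 : (a0 + b0 + 4 * ε) ^ 2 < μ ^ 2 := by
      apply sq_lt_sq'
      · linarith
      · linarith
    linarith
  let S := √(4 * Δ - T ^ 2)
  have hS : S ^ 2 = 4 * Δ - T ^ 2 := Real.sq_sqrt hdisc.le
  have hS0 : 0 < S := Real.sqrt_pos.2 hdisc
  let l : ℂ := ⟨T / 2, S / 2⟩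
  have hlsq : l * l = T * l - Δ := by
    apply Complex.ext
    · simp only [l, Complex.mul_re, Complex.sub_re, Complex.ofReal_re, Complex.ofReal_im]
      linarith
    · simp only [l, Complex.mul_im, Complex.sub_im, Complex.ofReal_re, Complex.ofReal_im]
      ring
  have hnl : ‖l‖ ^ 2 = Δ := by
    rw [← Complex.normSq_eq_norm_sq, Complex.normSq_apply]
    simp only [l]; linarith
  have hl0 : l ≠ 0 := by
    intro h
    rw [h, norm_zero] at hnl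
    norm_num at hnl
    linarith
  have hlμ : ‖l‖ < |μ| := by
    apply lt_of_pow_lt_pow_left₀ 2 (abs_nonneg _)
    rw [hnl, sq_abs]; exact hΔμ
  let X : F3 →L[ℝ] ℝ := (ContinuousLinearMap.fst ℝ ℝ ℝ).comp (ContinuousLinearMap.snd ℝ ℝ (ℝ × ℝ))
  let Y : F3 →L[ℝ] ℝ := (ContinuousLinearMap.snd ℝ ℝ ℝ).comp (ContinuousLinearMap.snd ℝ ℝ (ℝ × ℝ))
  let W : F3 →L[ℝ] ℝ := ContinuousLinearMap.fst ℝ ℝ (ℝ × ℝ)
  let s : F3 →L[ℝ] ℝ := W - h1 • X - h2 • Y
  let τ : F3 →L[ℝ] ℂ := X.smulRight (B21 : ℂ) + Y.smulRight (l - B11)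
  have hs : ∀ z : F3, s z = z.1 - h1 * z.2.1 - h2 * z.2.2 := fun z => rfl
  have hτ : ∀ z : F3, τ z = z.2.1 * (B21 : ℂ) + z.2.2 * (l - B11) := by
    intro z
    change z.2.1 • (B21 : ℂ) + z.2.2 • (l - B11) = _
    rw [Complex.real_smul, Complex.real_smul]
  refine ⟨s, fun v hv => dom L s τ μ l (B21 * e + (l - B11) * g) ?_ ?_ ?_ hl0 hlμ v hv⟩
  · intro z
    rw [hs, hs, hexp]
    simp only [μ]
    linear_combination z.2.1 * eq1 + z.2.2 * eq2
  · intro z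
    rw [hτ, hτ, hs, hexp]
    push_cast
    have hT : (T : ℂ) = B11 + B22 := by simp only [T]; push_cast; ring
    have hD : (Δ : ℂ) = B11 * B22 - B12 * B21 := by simp only [Δ]; push_cast; ring
    rw [hT, hD] at hlsq
    have g11 : (B11 : ℂ) = a + h1 * e := by rw [hB11]; push_cast; ring
    have g12 : (B12 : ℂ) = b + h2 * e := by rw [hB12]; push_cast; ring
    have g21 : (B21 : ℂ) = c + h1 * g := by rw [hB21]; push_cast; ring
    have g22 : (B22 : ℂ) = d + h2 * g := by rw [hB22]; push_cast; ring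
    have ha : (a : ℂ) = B11 - h1 * e := by rw [g11]; ring
    have hb : (b : ℂ) = B12 - h2 * e := by rw [g12]; ring
    have hc : (c : ℂ) = B21 - h1 * g := by rw [g21]; ring
    have hd : (d : ℂ) = B22 - h2 * g := by rw [g22]; ring
    rw [ha, hb, hc, hd]
    linear_combination (-(z.2.2 : ℂ)) * hlsq
  · intro z hz1 hz2
    rw [hs] at hz1
    rw [hτ] at hz2
    have him := congrArg Complex.im hz2
    have hre := congrArg Complex.re hz2
    simp [l] at him hre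
    have hy : z.2.2 = 0 := by
      rcases him with h | h
      · exact h
      · exact absurd h hS0.ne'
    rw [hy] at hre hz1
    simp at hre hz1
    have hB21' : B21 ≠ 0 := by
      intro h; rw [h] at r3; linarith [r3.1]
    have hx : z.2.1 = 0 := by
      rcases hre with h | h
      · exact h
      · exact absurd h hB21'
    rw [hx] at hz1
    simp at hz1
    ext
    · exact hz1
    · exact hx
    · exact hy

/-- Alignment is automatic in dimension three. -/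
theorem align (L L' : F3 ≃L[ℝ] F3) (s s' : F3 →L[ℝ] ℝ)
    (h : ∀ v, s v = 0 →
      ∃ C : ℝ, ∀ n : ℕ, ‖((L : F3 →L[ℝ] F3) ^ n) v‖ * ‖(L.symm : F3 →L[ℝ] F3) ^ n‖ ≤ C)
    (h' : ∀ v, s' v = 0 →
      ∃ C : ℝ, ∀ n : ℕ, ‖((L' : F3 →L[ℝ] F3) ^ n) v‖ * ‖(L'.symm : F3 →L[ℝ] F3) ^ n‖ ≤ C)
    (A : F3 ≃L[ℝ] F3) : ∃ (w : F3) (C : ℝ), w ≠ 0 ∧
      (∀ n : ℕ, ‖((L' : F3 →L[ℝ] F3) ^ n) w‖ * ‖(L'.symm : F3 →L[ℝ] F3) ^ n‖ ≤ C) ∧
      ∀ n : ℕ, ‖((L : F3 →L[ℝ] F3) ^ n) (A w)‖ * ‖(L.symm : F3 →L[ℝ] F3) ^ n‖ ≤ C := by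
  let f : F3 →ₗ[ℝ] ℝ × ℝ := ((s'.prod (s.comp (A : F3 →L[ℝ] F3)) : F3 →L[ℝ] ℝ × ℝ) : F3 →ₗ[ℝ] ℝ × ℝ)
  have hker : LinearMap.ker f ≠ ⊥ := by
    apply LinearMap.ker_ne_bot_of_finrank_lt
    simp
  obtain ⟨w, hw, hw0⟩ := (Submodule.ne_bot_iff _).1 hker
  have hw' : (s' w, s (A w)) = ((0 : ℝ), (0 : ℝ)) := hw
  rw [Prod.mk.injEq] at hw'
  obtain ⟨C, hC⟩ := h' w hw'.1
  obtain ⟨C', hC'⟩ := h (A w) hw'.2
  exact ⟨w, max C C', hw0, fun n => (hC n).trans (le_max_left _ _),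
    fun n => (hC' n).trans (le_max_right _ _)⟩

end Pool.Agent.H365R3
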