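import Mathlib
import Pool.Agent.H365R3.Nbhd

set_option autoImplicit false

open scoped Manifold ContDiff Topology
open Set Filter Bundle

noncomputable section

namespace Pool.Agent.H365R3

/-- The three-dimensional torus. -/
abbrev T3 : Type := Circle × Circle × Circle

/-- The model with corners of the torus. -/
abbrev I3 := (𝓡 1).prod ((𝓡 1).prod (𝓡 1))

/-- The covering map. -/
def E3 (z : ℝ × ℝ × ℝ) : T3 := (Circle.exp z.1, Circle.exp z.2.1, Circle.exp z.2.2)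

/-- A section of the covering map. -/
def S3 (X : T3) : ℝ × ℝ × ℝ :=
  (Complex.arg (X.1 : ℂ), Complex.arg (X.2.1 : ℂ), Complex.arg (X.2.2 : ℂ))

theorem E3_S3 (X : T3) : E3 (S3 X) = X := by
  simp only [E3, S3, Circle.exp_arg]

theorem E3_add (z w : ℝ × ℝ × ℝ) : E3 (z + w) = E3 z * E3 w := by
  simp only [E3, Prod.fst_add, Prod.snd_add, Circle.exp_add]; rfl

/-- The local argument function. -/
def ag (t : ℝ) (x : Circle) : ℝ := Complex.arg ((x * Circle.exp (-t) : Circle) : ℂ)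

/-- The domain of the local argument function. -/
def dom1 (t : ℝ) : Set Circle := {x | ((x * Circle.exp (-t) : Circle) : ℂ) ∈ Complex.slitPlane}

theorem contMDiff_mul_exp (t : ℝ) {m : WithTop ℕ∞} :
    ContMDiff (𝓡 1) (𝓡 1) m (fun x : Circle => x * Circle.exp (-t)) :=
  contMDiff_id.mul contMDiff_const

theorem contMDiff_coeC {m : WithTop ℕ∞} :
    ContMDiff (𝓡 1) 𝓘(ℝ, ℂ) m (fun x : Circle => (x : ℂ)) := by
  have : Fact (Module.finrank ℝ ℂ = 1 + 1) := finrank_real_complex_fact'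
  exact contMDiff_coe_sphere

theorem contDiffAt_arg {z : ℂ} (hz : z ∈ Complex.slitPlane) {m : WithTop ℕ∞} :
    ContDiffAt ℝ m Complex.arg z := by
  have h : ContDiffAt ℂ m Complex.log z := Complex.contDiffAt_log hz
  have h2 : ContDiffAt ℝ m (fun z : ℂ => (Complex.log z).im) z :=
    Complex.imCLM.contDiff.contDiffAt.comp _ (h.restrict_scalars ℝ)
  simpa [Complex.log_im] using h2

theorem isOpen_dom1 (t : ℝ) : IsOpen (dom1 t) :=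
  Complex.isOpen_slitPlane.preimage
    ((contMDiff_coeC (m := 0)).continuous.comp (contMDiff_mul_exp t (m := 0)).continuous)

theorem ag_smooth (t : ℝ) {m : WithTop ℕ∞} : ContMDiffOn (𝓡 1) 𝓘(ℝ, ℝ) m (ag t) (dom1 t) := by
  intro x hx
  have h1 : ContMDiffAt (𝓡 1) 𝓘(ℝ, ℂ) m (fun x : Circle => ((x * Circle.exp (-t) : Circle) : ℂ)) x :=
    (contMDiff_coeC.comp (contMDiff_mul_exp t)).contMDiffAt
  have h2 : ContMDiffAt 𝓘(ℝ, ℂ) 𝓘(ℝ, ℝ) m Complex.arg ((x * Circle.exp (-t) : Circle) : ℂ) :=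
    (contDiffAt_arg hx).contMDiffAt
  exact (ContMDiffAt.comp (g := Complex.arg)
    (f := fun x : Circle => ((x * Circle.exp (-t) : Circle) : ℂ)) x h2 h1).contMDiffWithinAt

theorem ag_lt {t : ℝ} {x : Circle} (hx : x ∈ dom1 t) : |ag t x| < Real.pi := by
  rw [abs_lt]
  refine ⟨Complex.neg_pi_lt_arg _, lt_of_le_of_ne (Complex.arg_le_pi _) ?_⟩
  exact (Complex.mem_slitPlane_iff_arg.1 hx).1

theorem exp_ag (t : ℝ) (x : Circle) : Circle.exp (t + ag t x) = x := by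
  rw [ag, Circle.exp_add, Circle.exp_arg, mul_comm x, ← mul_assoc, ← Circle.exp_add,
    add_neg_cancel, Circle.exp_zero, one_mul]

theorem ag_exp {t z : ℝ} (hz : |z| < Real.pi) : ag t (Circle.exp (t + z)) = z := by
  rw [abs_lt] at hz
  rw [ag, ← Circle.exp_add]
  have : t + z + -t = z := by ring
  rw [this, Circle.arg_exp hz.1 hz.2.le]

theorem exp_mem_dom1 {t z : ℝ} (hz : |z| < Real.pi) : Circle.exp (t + z) ∈ dom1 t := by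
  have h1 := ag_exp (t := t) hz
  rw [abs_lt] at hz
  change ((Circle.exp (t + z) * Circle.exp (-t) : Circle) : ℂ) ∈ Complex.slitPlane
  rw [Complex.mem_slitPlane_iff_arg]
  refine ⟨?_, Circle.coe_ne_zero _⟩
  change ag t (Circle.exp (t + z)) ≠ Real.pi
  rw [h1]; exact hz.2.ne

theorem exp_smooth {m : WithTop ℕ∞} (t : ℝ) :
    ContMDiff 𝓘(ℝ, ℝ) (𝓡 1) m (fun z : ℝ => Circle.exp (t + z)) :=
  contMDiff_circleExp.comp (contDiff_const.add contDiff_id).contMDiff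

/-- The chart of the torus centred at `E3 t`. -/
def cht (t : ℝ × ℝ × ℝ) : Cht I3 T3 (ℝ × ℝ × ℝ) where
  src := dom1 t.1 ×ˢ dom1 t.2.1 ×ˢ dom1 t.2.2
  tgt := {z | |z.1| < Real.pi ∧ |z.2.1| < Real.pi ∧ |z.2.2| < Real.pi}
  φ X := (ag t.1 X.1, ag t.2.1 X.2.1, ag t.2.2 X.2.2)
  ψ z := E3 (t + z)
  open_src := (isOpen_dom1 _).prod ((isOpen_dom1 _).prod (isOpen_dom1 _))
  open_tgt := (isOpen_lt (continuous_abs.comp continuous_fst) continuous_const).inter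
    ((isOpen_lt (continuous_abs.comp (continuous_fst.comp continuous_snd)) continuous_const).inter
      (isOpen_lt (continuous_abs.comp (continuous_snd.comp continuous_snd)) continuous_const))
  φ_mem X hX := ⟨ag_lt hX.1, ag_lt hX.2.1, ag_lt hX.2.2⟩
  ψ_mem z hz := ⟨exp_mem_dom1 hz.1, exp_mem_dom1 hz.2.1, exp_mem_dom1 hz.2.2⟩
  ψφ X _ := by
    simp only [E3, Prod.fst_add, Prod.snd_add, exp_ag]
  φψ z hz := by
    simp only [E3, Prod.fst_add, Prod.snd_add, ag_exp hz.1, ag_exp hz.2.1, ag_exp hz.2.2]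
  smooth_φ := by
    have h1 : ContMDiffOn I3 𝓘(ℝ, ℝ) 1 (fun X : T3 => ag t.1 X.1)
        (dom1 t.1 ×ˢ dom1 t.2.1 ×ˢ dom1 t.2.2) :=
      (ag_smooth t.1).comp contMDiffOn_fst fun X hX => hX.1
    have h2 : ContMDiffOn I3 𝓘(ℝ, ℝ) 1 (fun X : T3 => ag t.2.1 X.2.1)
        (dom1 t.1 ×ˢ dom1 t.2.1 ×ˢ dom1 t.2.2) :=
      (ag_smooth t.2.1).comp (contMDiff_fst.comp contMDiff_snd).contMDiffOn fun X hX => hX.2.1
    have h3 : ContMDiffOn I3 𝓘(ℝ, ℝ) 1 (fun X : T3 => ag t.2.2 X.2.2)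
        (dom1 t.1 ×ˢ dom1 t.2.1 ×ˢ dom1 t.2.2) :=
      (ag_smooth t.2.2).comp (contMDiff_snd.comp contMDiff_snd).contMDiffOn fun X hX => hX.2.2
    exact h1.prodMk_space (h2.prodMk_space h3)
  smooth_ψ := by
    have h1 : ContMDiff 𝓘(ℝ, ℝ × ℝ × ℝ) (𝓡 1) 1 (fun z : ℝ × ℝ × ℝ => Circle.exp (t.1 + z.1)) :=
      (exp_smooth t.1).comp contDiff_fst.contMDiff
    have h2 : ContMDiff 𝓘(ℝ, ℝ × ℝ × ℝ) (𝓡 1) 1 (fun z : ℝ × ℝ × ℝ => Circle.exp (t.2.1 + z.2.1)) :=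
      (exp_smooth t.2.1).comp (contDiff_fst.comp contDiff_snd).contMDiff
    have h3 : ContMDiff 𝓘(ℝ, ℝ × ℝ × ℝ) (𝓡 1) 1 (fun z : ℝ × ℝ × ℝ => Circle.exp (t.2.2 + z.2.2)) :=
      (exp_smooth t.2.2).comp (contDiff_snd.comp contDiff_snd).contMDiff
    exact (h1.prodMk (h2.prodMk h3)).contMDiffOn

theorem cht_φ (t : ℝ × ℝ × ℝ) (X : T3) : E3 (t + (cht t).φ X) = X := by
  change E3 (t + (ag t.1 X.1, ag t.2.1 X.2.1, ag t.2.2 X.2.2)) = X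
  simp only [E3, Prod.fst_add, Prod.snd_add, exp_ag]

/-- Maps with `C¹` lifts are `C¹`. -/
theorem smooth_of_lift (h : T3 → T3) (g : ℝ × ℝ × ℝ → ℝ × ℝ × ℝ) (hg : ContDiff ℝ 1 g)
    (hlift : ∀ z, h (E3 z) = E3 (g z)) : ContMDiff I3 I3 1 h := by
  intro X
  let t := S3 X
  have hX : X = (cht t).ψ 0 := by
    change X = E3 (t + 0)
    rw [add_zero, E3_S3]
  have h0 : (0 : ℝ × ℝ × ℝ) ∈ (cht t).tgt := by
    refine ⟨?_, ?_, ?_⟩ <;> simp [Real.pi_pos]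
  have hXs : X ∈ (cht t).src := by rw [hX]; exact (cht t).ψ_mem 0 h0
  have h1 : h = fun Y => E3 (g (t + (cht t).φ Y)) := by
    funext Y
    rw [← hlift, cht_φ]
  rw [h1]
  have h2 : ContMDiffAt I3 𝓘(ℝ, ℝ × ℝ × ℝ) 1 (cht t).φ X := (cht t).φ_at hXs
  have h3 : ContMDiff 𝓘(ℝ, ℝ × ℝ × ℝ) 𝓘(ℝ, ℝ × ℝ × ℝ) 1 (fun z => g (t + z)) :=
    (hg.comp (contDiff_const.add contDiff_id)).contMDiff
  have h4 : ContMDiff 𝓘(ℝ, ℝ × ℝ × ℝ) I3 1 E3 := by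
    have e1 : ContMDiff 𝓘(ℝ, ℝ × ℝ × ℝ) (𝓡 1) 1 (fun z : ℝ × ℝ × ℝ => Circle.exp z.1) :=
      contMDiff_circleExp.comp contDiff_fst.contMDiff
    have e2 : ContMDiff 𝓘(ℝ, ℝ × ℝ × ℝ) (𝓡 1) 1 (fun z : ℝ × ℝ × ℝ => Circle.exp z.2.1) :=
      contMDiff_circleExp.comp (contDiff_fst.comp contDiff_snd).contMDiff
    have e3 : ContMDiff 𝓘(ℝ, ℝ × ℝ × ℝ) (𝓡 1) 1 (fun z : ℝ × ℝ × ℝ => Circle.exp z.2.2) :=
      contMDiff_circleExp.comp (contDiff_snd.comp contDiff_snd).contMDiff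
    exact e1.prodMk (e2.prodMk e3)
  exact (h4.comp h3).contMDiffAt.comp X h2

/-- A diffeomorphism of the torus from a diffeomorphism of the universal cover. -/
def ofLift (g : (ℝ × ℝ × ℝ) ≃ (ℝ × ℝ × ℝ)) (h1 : ContDiff ℝ 1 g) (h2 : ContDiff ℝ 1 g.symm)
    (e1 : ∀ z z', E3 z = E3 z' → E3 (g z) = E3 (g z'))
    (e2 : ∀ z z', E3 z = E3 z' → E3 (g.symm z) = E3 (g.symm z')) : T3 ≃ₘ^1⟮I3, I3⟯ T3 where
  toFun X := E3 (g (S3 X))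
  invFun X := E3 (g.symm (S3 X))
  left_inv X := by
    have : E3 (g.symm (S3 (E3 (g (S3 X))))) = E3 (g.symm (g (S3 X))) :=
      e2 _ _ (E3_S3 _)
    beta_reduce
    rw [this, g.symm_apply_apply, E3_S3]
  right_inv X := by
    have : E3 (g (S3 (E3 (g.symm (S3 X))))) = E3 (g (g.symm (S3 X))) :=
      e1 _ _ (E3_S3 _)
    beta_reduce
    rw [this, g.apply_symm_apply, E3_S3]
  contMDiff_toFun := smooth_of_lift _ g h1 fun z => e1 _ _ (E3_S3 _)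
  contMDiff_invFun := smooth_of_lift _ g.symm h2 fun z => e2 _ _ (E3_S3 _)

/-- The lift of the example. -/
def fh (z : ℝ × ℝ × ℝ) : ℝ × ℝ × ℝ :=
  (z.1 + 1 / 40 * Real.sin z.1,
    z.2.1 + (1 / 5 * Real.sin z.2.1 - 3 / 20 * Real.sin z.2.2),
    z.2.2 + (3 / 20 * Real.sin z.2.1 + 1 / 5 * Real.sin z.2.2))

theorem fh_smooth : ContDiff ℝ 1 fh := by
  unfold fh
  have s : ContDiff ℝ 1 Real.sin := Real.contDiff_sin
  fun_prop

/-- The derivative of the lift. -/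
def fhD (z : ℝ × ℝ × ℝ) : (ℝ × ℝ × ℝ) →L[ℝ] (ℝ × ℝ × ℝ) :=
  let W : (ℝ × ℝ × ℝ) →L[ℝ] ℝ := ContinuousLinearMap.fst ℝ ℝ (ℝ × ℝ)
  let X : (ℝ × ℝ × ℝ) →L[ℝ] ℝ :=
    (ContinuousLinearMap.fst ℝ ℝ ℝ).comp (ContinuousLinearMap.snd ℝ ℝ (ℝ × ℝ))
  let Y : (ℝ × ℝ × ℝ) →L[ℝ] ℝ :=
    (ContinuousLinearMap.snd ℝ ℝ ℝ).comp (ContinuousLinearMap.snd ℝ ℝ (ℝ × ℝ))
  (W + (1 / 40 * Real.cos z.1) • W).prod
    ((X + ((1 / 5 * Real.cos z.2.1) • X - (3 / 20 * Real.cos z.2.2) • Y)).prod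
      (Y + ((3 / 20 * Real.cos z.2.1) • X + (1 / 5 * Real.cos z.2.2) • Y)))

theorem fhD_apply (z v : ℝ × ℝ × ℝ) : fhD z v =
    (v.1 + 1 / 40 * Real.cos z.1 * v.1,
      v.2.1 + (1 / 5 * Real.cos z.2.1 * v.2.1 - 3 / 20 * Real.cos z.2.2 * v.2.2),
      v.2.2 + (3 / 20 * Real.cos z.2.1 * v.2.1 + 1 / 5 * Real.cos z.2.2 * v.2.2)) := rfl

theorem fh_hasFDerivAt (z : ℝ × ℝ × ℝ) : HasFDerivAt fh (fhD z) z := by
  have hW : HasFDerivAt (fun z : ℝ × ℝ × ℝ => z.1) (ContinuousLinearMap.fst ℝ ℝ (ℝ × ℝ)) z :=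
    hasFDerivAt_fst
  have hX : HasFDerivAt (fun z : ℝ × ℝ × ℝ => z.2.1)
      ((ContinuousLinearMap.fst ℝ ℝ ℝ).comp (ContinuousLinearMap.snd ℝ ℝ (ℝ × ℝ))) z :=
    ((ContinuousLinearMap.fst ℝ ℝ ℝ).comp (ContinuousLinearMap.snd ℝ ℝ (ℝ × ℝ))).hasFDerivAt
  have hY : HasFDerivAt (fun z : ℝ × ℝ × ℝ => z.2.2)
      ((ContinuousLinearMap.snd ℝ ℝ ℝ).comp (ContinuousLinearMap.snd ℝ ℝ (ℝ × ℝ))) z :=
    ((ContinuousLinearMap.snd ℝ ℝ ℝ).comp (ContinuousLinearMap.snd ℝ ℝ (ℝ × ℝ))).hasFDerivAt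
  have h1 := hW.add (hW.sin.const_mul (1 / 40))
  have h2 := hX.add ((hX.sin.const_mul (1 / 5)).sub (hY.sin.const_mul (3 / 20)))
  have h3 := hY.add ((hX.sin.const_mul (3 / 20)).add (hY.sin.const_mul (1 / 5)))
  have h4 := h1.prodMk (h2.prodMk h3)
  refine (h4.congr_fderiv ?_)
  ext <;> simp [fhD]

theorem norm3_le {v : ℝ × ℝ × ℝ} {B : ℝ} (h1 : |v.1| ≤ B) (h2 : |v.2.1| ≤ B) (h3 : |v.2.2| ≤ B) :
    ‖v‖ ≤ B := by
  rw [Prod.norm_def, Prod.norm_def]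
  exact max_le h1 (max_le h2 h3)

theorem abs1_le (v : ℝ × ℝ × ℝ) : |v.1| ≤ ‖v‖ ∧ |v.2.1| ≤ ‖v‖ ∧ |v.2.2| ≤ ‖v‖ :=
  ⟨norm_fst_le v, (norm_fst_le v.2).trans (norm_snd_le v), (norm_snd_le v.2).trans (norm_snd_le v)⟩

theorem fhD_close (z : ℝ × ℝ × ℝ) : ‖fhD z - ContinuousLinearMap.id ℝ (ℝ × ℝ × ℝ)‖ ≤ 1 / 2 := by
  refine ContinuousLinearMap.opNorm_le_bound _ (by norm_num) fun v => ?_
  obtain ⟨h1, h2, h3⟩ := abs1_le v
  have hc : ∀ t u : ℝ, |Real.cos t * u| ≤ |u| := by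
    intro t u
    rw [abs_mul]
    exact mul_le_of_le_one_left (abs_nonneg _) (Real.abs_cos_le_one t)
  have e0 : (fhD z - ContinuousLinearMap.id ℝ (ℝ × ℝ × ℝ)) v =
      (1 / 40 * (Real.cos z.1 * v.1),
        1 / 5 * (Real.cos z.2.1 * v.2.1) - 3 / 20 * (Real.cos z.2.2 * v.2.2),
        3 / 20 * (Real.cos z.2.1 * v.2.1) + 1 / 5 * (Real.cos z.2.2 * v.2.2)) := by
    rw [sub_apply, fhD_apply]
    ext <;> simp <;> ring
  rw [e0]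
  have a1 := (hc z.1 v.1).trans h1
  have a2 := (hc z.2.1 v.2.1).trans h2
  have a3 := (hc z.2.2 v.2.2).trans h3
  rw [abs_le] at a1 a2 a3
  have hn := norm_nonneg v
  refine norm3_le ?_ ?_ ?_ <;> rw [abs_le] <;> constructor <;> simp only <;> linarith

theorem exists_fe : ∃ g : (ℝ × ℝ × ℝ) ≃ (ℝ × ℝ × ℝ), (∀ z, g z = fh z) ∧ ContDiff ℝ 1 g.symm :=
  exists_inverse fh fh_smooth fun z => by
    rw [(fh_hasFDerivAt z).fderiv]; exact fhD_close z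

/-- The lift as a bijection. -/
def fe : (ℝ × ℝ × ℝ) ≃ (ℝ × ℝ × ℝ) := exists_fe.choose

theorem fe_eq (z : ℝ × ℝ × ℝ) : fe z = fh z := exists_fe.choose_spec.1 z

theorem fe_symm_smooth : ContDiff ℝ 1 fe.symm := exists_fe.choose_spec.2

theorem fe_smooth : ContDiff ℝ 1 fe := by
  have : (fe : _ → _) = fh := funext fe_eq
  rw [this]; exact fh_smooth

/-- Integer translations. -/
def tr (k : ℤ × ℤ × ℤ) : ℝ × ℝ × ℝ :=
  (k.1 * (2 * Real.pi), k.2.1 * (2 * Real.pi), k.2.2 * (2 * Real.pi))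

theorem E3_eq_iff (z z' : ℝ × ℝ × ℝ) : E3 z = E3 z' ↔ ∃ k, z = z' + tr k := by
  constructor
  · intro h
    simp only [E3, Prod.mk.injEq, Circle.exp_eq_exp] at h
    obtain ⟨⟨a, ha⟩, ⟨b, hb⟩, ⟨c, hc⟩⟩ := h
    refine ⟨(a, b, c), ?_⟩
    ext
    · exact ha
    · exact hb
    · exact hc
  · rintro ⟨k, rfl⟩
    simp only [E3, Prod.mk.injEq, Circle.exp_eq_exp]
    exact ⟨⟨k.1, rfl⟩, ⟨k.2.1, rfl⟩, ⟨k.2.2, rfl⟩⟩

theorem fh_tr (z : ℝ × ℝ × ℝ) (k : ℤ × ℤ × ℤ) : fh (z + tr k) = fh z + tr k := by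
  simp only [fh, tr, Prod.fst_add, Prod.snd_add, Real.sin_add_int_mul_two_pi]
  ext <;> simp <;> ring

/-- The example. -/
def f1 : T3 ≃ₘ^1⟮I3, I3⟯ T3 := ofLift fe fe_smooth fe_symm_smooth
  (by
    intro z z' h
    obtain ⟨k, rfl⟩ := (E3_eq_iff _ _).1 h
    rw [fe_eq, fe_eq, fh_tr]
    exact (E3_eq_iff _ _).2 ⟨k, rfl⟩)
  (by
    intro z z' h
    obtain ⟨k, rfl⟩ := (E3_eq_iff _ _).1 h
    refine (E3_eq_iff _ _).2 ⟨k, ?_⟩
    rw [Equiv.symm_apply_eq, fe_eq, fh_tr, ← fe_eq, fe.apply_symm_apply])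

theorem f1_E3 (z : ℝ × ℝ × ℝ) : f1 (E3 z) = E3 (fh z) := by
  have h1 : f1 (E3 z) = E3 (fe (S3 (E3 z))) := rfl
  obtain ⟨k, hk⟩ := (E3_eq_iff _ _).1 (E3_S3 (E3 z))
  rw [h1, fe_eq, hk, fh_tr]
  exact (E3_eq_iff _ _).2 ⟨k, rfl⟩

theorem f1_inv_E3 (z : ℝ × ℝ × ℝ) : f1⁻¹ (E3 z) = E3 (fe.symm z) := by
  have h1 : f1 (E3 (fe.symm z)) = E3 z := by
    rw [f1_E3, ← fe_eq, fe.apply_symm_apply]
  rw [← h1]
  exact d1_self_inv f1 _

end Pool.Agent.H365R3
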