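import Mathlib
import Pool.Agent.H365R3.TorusE
import Pool.Agent.H365R3.Star
import Pool.Agent.H365R3.Hyp
import Pool.Agent.H365R3.Lyap

set_option autoImplicit false

open scoped Manifold ContDiff Topology
open Set Filter Bundle

noncomputable section

namespace Pool.Agent.H365R3

theorem ψ_eq (t z : ℝ × ℝ × ℝ) : (cht t).ψ z = E3 (t + z) := rfl

theorem zero_mem_tgt (t : ℝ × ℝ × ℝ) : (0 : ℝ × ℝ × ℝ) ∈ (cht t).tgt := by
  refine ⟨?_, ?_, ?_⟩ <;> simp [Real.pi_pos]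

theorem mem_tgt_of_norm (t : ℝ × ℝ × ℝ) {z : ℝ × ℝ × ℝ} (hz : ‖z‖ < 3) : z ∈ (cht t).tgt := by
  obtain ⟨h1, h2, h3⟩ := abs1_le z
  have := Real.pi_gt_three
  exact ⟨by linarith, by linarith, by linarith⟩

theorem expr_of (t t' z u : ℝ × ℝ × ℝ) (g : T3 → T3) (hg : g (E3 (t + z)) = E3 (t' + u))
    (hu : u ∈ (cht t').tgt) : g ((cht t).ψ z) ∈ (cht t').src ∧ (cht t').φ (g ((cht t).ψ z)) = u := by
  rw [ψ_eq, hg]
  exact ⟨(cht t').ψ_mem u hu, (cht t').φψ u hu⟩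

/-- `sin` is close to the identity near `0`. -/
theorem sin_lip {x y : ℝ} (hx : |x| ≤ 1 / 2) (hy : |y| ≤ 1 / 2) :
    |(Real.sin x - x) - (Real.sin y - y)| ≤ 1 / 8 * |x - y| := by
  have h1 : ∀ z ∈ Icc (-(1 / 2) : ℝ) (1 / 2), DifferentiableAt ℝ (fun t => Real.sin t - t) z :=
    fun z _ => (Real.differentiableAt_sin).sub differentiableAt_id
  have h2 : ∀ z ∈ Icc (-(1 / 2) : ℝ) (1 / 2), ‖deriv (fun t => Real.sin t - t) z‖ ≤ 1 / 8 := by
    intro z hz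
    have e1 : HasDerivAt (fun t => Real.sin t - t) (Real.cos z - 1) z :=
      (Real.hasDerivAt_sin z).sub (hasDerivAt_id z)
    rw [e1.deriv, Real.norm_eq_abs, abs_le]
    have e2 := Real.one_sub_sq_div_two_le_cos (x := z)
    have e3 := Real.cos_le_one z
    have e4 : z ^ 2 ≤ 1 / 4 := by nlinarith [hz.1, hz.2]
    constructor <;> linarith
  exact (convex_Icc (-(1 / 2) : ℝ) (1 / 2)).norm_image_sub_le_of_norm_deriv_le h1 h2
    (abs_le.1 hy) (abs_le.1 hx)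

/-- The position of the sink. -/
def pp : ℝ × ℝ × ℝ := (Real.pi, Real.pi, Real.pi)

theorem fh_pp (z : ℝ × ℝ × ℝ) : fh (pp + z) - pp = (z.1 - 1 / 40 * Real.sin z.1,
    z.2.1 - 1 / 5 * Real.sin z.2.1 + 3 / 20 * Real.sin z.2.2,
    z.2.2 - 3 / 20 * Real.sin z.2.1 - 1 / 5 * Real.sin z.2.2) := by
  have hs : ∀ x : ℝ, Real.sin (Real.pi + x) = - Real.sin x := by
    intro x; rw [add_comm, Real.sin_add_pi]
  simp only [fh, pp, Prod.fst_add, Prod.snd_add, hs]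
  ext <;> simp <;> ring

theorem fpp_lip (z z' : ℝ × ℝ × ℝ) (hz : ‖z‖ ≤ 1 / 4) (hz' : ‖z'‖ ≤ 1 / 4) :
    ‖(fh (pp + z) - pp) - (fh (pp + z') - pp)‖ ≤ 199 / 200 * ‖z - z'‖ := by
  obtain ⟨a1, a2, a3⟩ := abs1_le z
  obtain ⟨b1, b2, b3⟩ := abs1_le z'
  obtain ⟨c1, c2, c3⟩ := abs1_le (z - z')
  have s1 := sin_lip (x := z.1) (y := z'.1) (by linarith) (by linarith)
  have s2 := sin_lip (x := z.2.1) (y := z'.2.1) (by linarith) (by linarith)
  have s3 := sin_lip (x := z.2.2) (y := z'.2.2) (by linarith) (by linarith)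
  change |z.1 - z'.1| ≤ _ at c1
  change |z.2.1 - z'.2.1| ≤ _ at c2
  change |z.2.2 - z'.2.2| ≤ _ at c3
  have s1' := abs_le.1 (s1.trans (mul_le_mul_of_nonneg_left c1 (by norm_num)))
  have s2' := abs_le.1 (s2.trans (mul_le_mul_of_nonneg_left c2 (by norm_num)))
  have s3' := abs_le.1 (s3.trans (mul_le_mul_of_nonneg_left c3 (by norm_num)))
  have c1' := abs_le.1 c1
  have c2' := abs_le.1 c2
  have c3' := abs_le.1 c3
  have hn := norm_nonneg (z - z')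
  rw [fh_pp, fh_pp]
  refine norm3_le ?_ ?_ ?_ <;> rw [abs_le] <;> constructor <;>
    simp only [Prod.fst_sub, Prod.snd_sub] <;> linarith

theorem E3_fix (t : ℝ × ℝ × ℝ) (h1 : Real.sin t.1 = 0) (h2 : Real.sin t.2.1 = 0)
    (h3 : Real.sin t.2.2 = 0) : fh t = t := by
  simp only [fh, h1, h2, h3]
  ext <;> simp

theorem fh_ppfix : fh pp = pp := E3_fix pp Real.sin_pi Real.sin_pi Real.sin_pi

theorem sinkP : SinkAt (cht pp) f1 (199 / 200) (1 / 4) := by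
  have hval : ∀ z : ℝ × ℝ × ℝ, ‖z‖ ≤ 1 / 4 → f1 ((cht pp).ψ z) ∈ (cht pp).src ∧
      (cht pp).φ (f1 ((cht pp).ψ z)) = fh (pp + z) - pp := by
    intro z hz
    refine expr_of pp pp z _ f1 ?_ ?_
    · rw [f1_E3]; congr 1; abel
    · apply mem_tgt_of_norm
      have := fpp_lip z 0 hz (by simp)
      rw [add_zero, fh_ppfix, sub_self, sub_zero, sub_zero] at this
      linarith
  refine ⟨by norm_num, by norm_num, by norm_num, ?_, ?_, ?_, ?_⟩
  · intro z hz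
    have : ‖z‖ ≤ 1 / 4 := by simpa using hz
    exact mem_tgt_of_norm _ (by linarith)
  · rw [ψ_eq, add_zero, f1_E3, fh_ppfix]
  · intro z hz; exact (hval z hz).1
  · intro z z' hz hz'
    rw [(hval z hz).2, (hval z' hz').2]
    exact fpp_lip z z' hz hz'

theorem fh_zero : fh 0 = 0 := E3_fix 0 Real.sin_zero Real.sin_zero Real.sin_zero

theorem fe_symm_zero : fe.symm 0 = 0 := by
  rw [Equiv.symm_apply_eq, fe_eq, fh_zero]

theorem fh_lower (z z' : ℝ × ℝ × ℝ) (hz : ‖z‖ ≤ 1 / 2) (hz' : ‖z'‖ ≤ 1 / 2) :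
    ‖z - z'‖ ≤ 199 / 200 * ‖fh z - fh z'‖ := by
  obtain ⟨a1, a2, a3⟩ := abs1_le z
  obtain ⟨b1, b2, b3⟩ := abs1_le z'
  obtain ⟨c1, c2, c3⟩ := abs1_le (fh z - fh z')
  have s1 := abs_le.1 (sin_lip (x := z.1) (y := z'.1) (by linarith) (by linarith))
  have s2 := abs_le.1 (sin_lip (x := z.2.1) (y := z'.2.1) (by linarith) (by linarith))
  have s3 := abs_le.1 (sin_lip (x := z.2.2) (y := z'.2.2) (by linarith) (by linarith))
  have c1' := abs_le.1 c1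
  have c2' := abs_le.1 c2
  have c3' := abs_le.1 c3
  simp only [fh, Prod.fst_sub, Prod.snd_sub] at c1' c2' c3'
  obtain ⟨R, hR⟩ : ∃ R, R = ‖fh z - fh z'‖ := ⟨_, rfl⟩
  have hc : ∀ R', R' = ‖fh z - fh z'‖ → R' = R := fun R' h => h.trans hR.symm
  simp only [fh] at hR
  rw [← hR] at c1' c2' c3'
  have hgoal : ‖fh z - fh z'‖ = R := by rw [hR]; rfl
  rw [hgoal]
  have hR0 : 0 ≤ R := by rw [hR]; exact norm_nonneg _
  refine norm3_le ?_ ?_ ?_
  · change |z.1 - z'.1| ≤ _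
    rcases abs_cases (z.1 - z'.1) with ⟨h, h'⟩ | ⟨h, h'⟩ <;> rw [h] at s1 ⊢ <;> linarith
  · change |z.2.1 - z'.2.1| ≤ _
    rcases abs_cases (z.2.1 - z'.2.1) with ⟨h, h'⟩ | ⟨h, h'⟩ <;>
    rcases abs_cases (z.2.2 - z'.2.2) with ⟨k, k'⟩ | ⟨k, k'⟩ <;>
    rw [h] at s2 ⊢ <;> rw [k] at s3 <;>
    rcases le_total |z.2.1 - z'.2.1| |z.2.2 - z'.2.2| with m | m <;> rw [h, k] at m <;> linarith
  · change |z.2.2 - z'.2.2| ≤ _
    rcases abs_cases (z.2.1 - z'.2.1) with ⟨h, h'⟩ | ⟨h, h'⟩ <;>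
    rcases abs_cases (z.2.2 - z'.2.2) with ⟨k, k'⟩ | ⟨k, k'⟩ <;>
    rw [k] at s3 ⊢ <;> rw [h] at s2 <;>
    rcases le_total |z.2.1 - z'.2.1| |z.2.2 - z'.2.2| with m | m <;> rw [h, k] at m <;> linarith

theorem fe_symm_norm (z : ℝ × ℝ × ℝ) : ‖fe.symm z‖ ≤ 2 * ‖z‖ := by
  have h1 := le_norm_sub_of_small fh (fh_smooth.differentiable one_ne_zero) (1 / 2)
    (fun x => by rw [(fh_hasFDerivAt x).fderiv]; exact fhD_close x) (fe.symm z) 0
  rw [← fe_eq, fe.apply_symm_apply, fh_zero, sub_zero, sub_zero] at h1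
  linarith

theorem feinv_lip (z z' : ℝ × ℝ × ℝ) (hz : ‖z‖ ≤ 1 / 4) (hz' : ‖z'‖ ≤ 1 / 4) :
    ‖fe.symm z - fe.symm z'‖ ≤ 199 / 200 * ‖z - z'‖ := by
  have h1 := fe_symm_norm z
  have h2 := fe_symm_norm z'
  have h3 := fh_lower (fe.symm z) (fe.symm z') (by linarith) (by linarith)
  rwa [← fe_eq, ← fe_eq, fe.apply_symm_apply, fe.apply_symm_apply] at h3

theorem sinkQ : SinkAt (cht 0) f1⁻¹ (199 / 200) (1 / 4) := by
  have hval : ∀ z : ℝ × ℝ × ℝ, ‖z‖ ≤ 1 / 4 → f1⁻¹ ((cht 0).ψ z) ∈ (cht 0).src ∧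
      (cht 0).φ (f1⁻¹ ((cht 0).ψ z)) = fe.symm z := by
    intro z hz
    refine expr_of 0 0 z _ (⇑f1⁻¹) ?_ ?_
    · rw [f1_inv_E3, zero_add, zero_add]
    · apply mem_tgt_of_norm
      have := fe_symm_norm z
      linarith
  refine ⟨by norm_num, by norm_num, by norm_num, ?_, ?_, ?_, ?_⟩
  · intro z hz
    have : ‖z‖ ≤ 1 / 4 := by simpa using hz
    exact mem_tgt_of_norm _ (by linarith)
  · rw [ψ_eq, add_zero, f1_inv_E3, fe_symm_zero]
  · intro z hz; exact (hval z hz).1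
  · intro z z' hz hz'
    rw [(hval z hz).2, (hval z' hz').2]
    exact feinv_lip z z' hz hz'

/-- The derivative of the example at a fixed point, in the chart. -/
theorem deriv_fix (t : ℝ × ℝ × ℝ) (ht : fh t = t) :
    fderiv ℝ (fun z => (cht t).φ (f1 ((cht t).ψ z))) 0 = fhD t := by
  have h1 : HasFDerivAt (fun z => fh (t + z) - t) (fhD t) 0 := by
    have e1 : HasFDerivAt fh (fhD t) (t + 0) := by rw [add_zero]; exact fh_hasFDerivAt t
    have e2 : HasFDerivAt (fun z : ℝ × ℝ × ℝ => t + z) (ContinuousLinearMap.id ℝ _) 0 :=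
      (hasFDerivAt_id (0 : ℝ × ℝ × ℝ)).const_add t
    have e3 := (HasFDerivAt.comp (f := fun z : ℝ × ℝ × ℝ => t + z) (0 : ℝ × ℝ × ℝ) e1 e2).sub_const t
    rw [ContinuousLinearMap.comp_id] at e3
    exact e3
  have h2 : (fun z => (cht t).φ (f1 ((cht t).ψ z))) =ᶠ[𝓝 0] fun z => fh (t + z) - t := by
    have e1 : ContinuousAt (fun z => fh (t + z) - t) 0 := h1.continuousAt
    have e2 : (fun z => fh (t + z) - t) 0 = 0 := by
      change fh (t + 0) - t = 0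
      rw [add_zero, ht, sub_self]
    have e3 : (cht t).tgt ∈ 𝓝 ((fun z => fh (t + z) - t) 0) := by
      rw [e2]; exact (cht t).open_tgt.mem_nhds (zero_mem_tgt t)
    filter_upwards [e1 e3] with z hz
    refine (expr_of t t z _ f1 ?_ hz).2
    rw [f1_E3]
    congr 1
    exact (add_sub_cancel t (fh (t + z))).symm
  rw [h2.fderiv_eq, h1.fderiv]

theorem deriv_p (v : ℝ × ℝ × ℝ) :
    fderiv ℝ (fun z => (cht pp).φ (f1 ((cht pp).ψ z))) 0 v =
      (39 / 40 * v.1, 4 / 5 * v.2.1 + 3 / 20 * v.2.2, -(3 / 20) * v.2.1 + 4 / 5 * v.2.2) := by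
  rw [deriv_fix pp fh_ppfix, fhD_apply]
  simp only [pp, Real.cos_pi]
  ext <;> simp <;> ring

theorem deriv_q (v : ℝ × ℝ × ℝ) :
    fderiv ℝ (fun z => (cht 0).φ (f1⁻¹ ((cht 0).ψ z))) 0 v =
      (40 / 41 * v.1, 32 / 39 * v.2.1 + 4 / 39 * v.2.2,
        -(4 / 39) * v.2.1 + 32 / 39 * v.2.2) := by
  have h2 : (fun z => (cht 0).φ (f1⁻¹ ((cht 0).ψ z))) =ᶠ[𝓝 0] fe.symm := by
    filter_upwards [Metric.ball_mem_nhds (0 : ℝ × ℝ × ℝ) one_pos] with z hz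
    have hz' : ‖z‖ < 1 := by simpa using hz
    refine (expr_of 0 0 z _ (⇑f1⁻¹) ?_ ?_).2
    · rw [f1_inv_E3, zero_add, zero_add]
    · apply mem_tgt_of_norm
      have := fe_symm_norm z
      linarith
  rw [h2.fderiv_eq]
  have h3 : HasFDerivAt fe.symm (fderiv ℝ fe.symm 0) 0 :=
    (fe_symm_smooth.differentiable one_ne_zero 0).hasFDerivAt
  have h4 : HasFDerivAt fh (fhD 0) (fe.symm 0) := by
    rw [fe_symm_zero]; exact fh_hasFDerivAt 0
  have h5 := h4.comp (0 : ℝ × ℝ × ℝ) h3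
  have h6 : fh ∘ fe.symm = id := by
    funext z
    rw [Function.comp_apply, ← fe_eq, fe.apply_symm_apply]; rfl
  rw [h6] at h5
  have h7 := h5.unique (hasFDerivAt_id _)
  have h8 := DFunLike.congr_fun h7 v
  obtain ⟨u, hu⟩ : ∃ u, u = fderiv ℝ fe.symm 0 v := ⟨_, rfl⟩
  have h9 : fhD 0 u = v := by rw [hu]; exact h8
  rw [← hu]
  rw [fhD_apply] at h9
  simp only [Prod.fst_zero, Prod.snd_zero, Real.cos_zero, mul_one] at h9
  have g1 := congrArg Prod.fst h9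
  have g2 := congrArg (fun z => z.2.1) h9
  have g3 := congrArg (fun z => z.2.2) h9
  simp only at g1 g2 g3
  ext
  · change u.1 = 40 / 41 * v.1
    linarith
  · change u.2.1 = 32 / 39 * v.2.1 + 4 / 39 * v.2.2
    linarith
  · change u.2.2 = -(4 / 39) * v.2.1 + 32 / 39 * v.2.2
    linarith

end Pool.Agent.H365R3
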