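import Mathlib
import Pool.Agent.H365R3.TorusF

set_option autoImplicit false

open scoped Manifold ContDiff Topology
open Set Filter Bundle

noncomputable section

namespace Pool.Agent.H365R3

/-! ### A fibre norm on the torus -/

/-- The inclusion of the torus. -/
def inc (X : T3) : ℂ × ℂ × ℂ := ((X.1 : ℂ), (X.2.1 : ℂ), (X.2.2 : ℂ))

theorem inc_smooth : ContMDiff I3 𝓘(ℝ, ℂ × ℂ × ℂ) 1 inc := by
  have h1 : ContMDiff I3 𝓘(ℝ, ℂ) 1 (fun X : T3 => (X.1 : ℂ)) := contMDiff_coeC.comp contMDiff_fst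
  have h2 : ContMDiff I3 𝓘(ℝ, ℂ) 1 (fun X : T3 => (X.2.1 : ℂ)) :=
    contMDiff_coeC.comp (contMDiff_fst.comp contMDiff_snd)
  have h3 : ContMDiff I3 𝓘(ℝ, ℂ) 1 (fun X : T3 => (X.2.2 : ℂ)) :=
    contMDiff_coeC.comp (contMDiff_snd.comp contMDiff_snd)
  exact h1.prodMk_space (h2.prodMk_space h3)

/-- The model vector space. -/
abbrev EE : Type :=
  EuclideanSpace ℝ (Fin 1) × EuclideanSpace ℝ (Fin 1) × EuclideanSpace ℝ (Fin 1)

/-- The derivative of the inclusion. -/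
def incD (X : T3) : EE →L[ℝ] ℂ × ℂ × ℂ := mfderiv I3 𝓘(ℝ, ℂ × ℂ × ℂ) inc X

/-- The fibre norm. -/
def NN (z : TangentBundle I3 T3) : ℝ := ‖incD z.1 z.2‖

theorem NN_continuous : Continuous NN := by
  have h1 : Continuous (tangentMap I3 𝓘(ℝ, ℂ × ℂ × ℂ) inc) := inc_smooth.continuous_tangentMap le_rfl
  have h2 : Continuous (fun z => ((tangentBundleModelSpaceHomeomorph 𝓘(ℝ, ℂ × ℂ × ℂ))
      (tangentMap I3 𝓘(ℝ, ℂ × ℂ × ℂ) inc z))) :=
    (tangentBundleModelSpaceHomeomorph 𝓘(ℝ, ℂ × ℂ × ℂ)).continuous.comp h1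
  exact (continuous_snd.comp h2).norm

theorem inc_inj (X : T3) (v : TangentSpace I3 X) (h : (mfderiv I3 𝓘(ℝ, ℂ × ℂ × ℂ) inc X v) = 0) :
    v = 0 := by
  let t := S3 X
  have hX : X = (cht t).ψ 0 := by
    change X = E3 (t + 0)
    rw [add_zero, E3_S3]
  have hXs : X ∈ (cht t).src := by rw [hX]; exact (cht t).ψ_mem 0 (zero_mem_tgt t)
  let G : ℂ × ℂ × ℂ → ℝ × ℝ × ℝ := fun z =>
    (Complex.arg (z.1 * Circle.exp (-t.1)), Complex.arg (z.2.1 * Circle.exp (-t.2.1)),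
      Complex.arg (z.2.2 * Circle.exp (-t.2.2)))
  have hG : ContDiffAt ℝ 1 G (inc X) := by
    have a1 : ContDiffAt ℝ 1 (fun z : ℂ × ℂ × ℂ => Complex.arg (z.1 * Circle.exp (-t.1))) (inc X) :=
      ContDiffAt.comp (g := Complex.arg) (f := fun z : ℂ × ℂ × ℂ => z.1 * (Circle.exp (-t.1) : ℂ))
        (inc X) (contDiffAt_arg hXs.1) (by fun_prop)
    have a2 : ContDiffAt ℝ 1 (fun z : ℂ × ℂ × ℂ => Complex.arg (z.2.1 * Circle.exp (-t.2.1)))
        (inc X) :=
      ContDiffAt.comp (g := Complex.arg) (f := fun z : ℂ × ℂ × ℂ => z.2.1 * (Circle.exp (-t.2.1) : ℂ))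
        (inc X) (contDiffAt_arg hXs.2.1) (by fun_prop)
    have a3 : ContDiffAt ℝ 1 (fun z : ℂ × ℂ × ℂ => Complex.arg (z.2.2 * Circle.exp (-t.2.2)))
        (inc X) :=
      ContDiffAt.comp (g := Complex.arg) (f := fun z : ℂ × ℂ × ℂ => z.2.2 * (Circle.exp (-t.2.2) : ℂ))
        (inc X) (contDiffAt_arg hXs.2.2) (by fun_prop)
    exact a1.prodMk (a2.prodMk a3)
  have hcomp : (cht t).φ = G ∘ inc := rfl
  have hm : mfderiv I3 𝓘(ℝ, ℝ × ℝ × ℝ) (cht t).φ X v = 0 := by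
    rw [hcomp, mfderiv_comp X (I' := 𝓘(ℝ, ℂ × ℂ × ℂ)) (hG.contMDiffAt.mdifferentiableAt one_ne_zero)
      (inc_smooth.mdifferentiable one_ne_zero X)]
    change mfderiv 𝓘(ℝ, ℂ × ℂ × ℂ) 𝓘(ℝ, ℝ × ℝ × ℝ) G (inc X)
      (mfderiv I3 𝓘(ℝ, ℂ × ℂ × ℂ) inc X v) = 0
    rw [h]
    exact map_zero (mfderiv 𝓘(ℝ, ℂ × ℂ × ℂ) 𝓘(ℝ, ℝ × ℝ × ℝ) G (inc X))
  have e1 := (cht t).dψ_dφ (⟨X, v⟩ : TangentBundle I3 T3) hXs
  have e0 := (cht t).dψ_dφ (⟨X, 0⟩ : TangentBundle I3 T3) hXs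
  have e2 : (cht t).dφ (⟨X, v⟩ : TangentBundle I3 T3) = (cht t).dφ (⟨X, 0⟩ : TangentBundle I3 T3) := by
    refine Prod.ext rfl ?_
    change mfderiv I3 𝓘(ℝ, ℝ × ℝ × ℝ) (cht t).φ X v = mfderiv I3 𝓘(ℝ, ℝ × ℝ × ℝ) (cht t).φ X 0
    rw [hm]
    exact (map_zero (mfderiv I3 𝓘(ℝ, ℝ × ℝ × ℝ) (cht t).φ X)).symm
  rw [e2, e0] at e1
  exact (TotalSpace.mk_inj.1 e1).symm

theorem NN_norm : IsFibreNorm (M := T3) NN where
  continuous := NN_continuous
  pos x v hv := norm_pos_iff.2 fun h => hv (inc_inj x v h)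
  smul x a v := by
    have h1 : incD x (a • v) = a • incD x v := (incD x).map_smul a v
    change ‖incD x (a • v)‖ = |a| * ‖incD x v‖
    rw [h1, norm_smul, Real.norm_eq_abs]
  add x v w := by
    have h1 : incD x (v + w) = incD x v + incD x w := (incD x).map_add v w
    change ‖incD x (v + w)‖ ≤ ‖incD x v‖ + ‖incD x w‖
    rw [h1]
    exact norm_add_le _ _

/-! ### The Lyapunov function -/

theorem cos_add_le {a : ℝ} (ha : |a| ≤ 1) (x : ℝ) :
    Real.cos (x + a) ≤ Real.cos x - a * Real.sin x + a ^ 2 := by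
  have h1 : 1 - a ^ 2 / 2 ≤ Real.cos a := Real.one_sub_sq_div_two_le_cos
  have h2 := Real.cos_le_one a
  have h3 := Real.sin_bound ha
  have h4 : |a| ^ 5 ≤ a ^ 2 := by
    rw [← sq_abs a]
    exact pow_le_pow_of_le_one (abs_nonneg _) ha (by norm_num)
  have h5 : |a ^ 3| ≤ a ^ 2 := by
    rw [abs_pow, ← sq_abs a]
    exact pow_le_pow_of_le_one (abs_nonneg _) ha (by norm_num)
  have h6 : |a - Real.sin a| ≤ a ^ 2 / 3 := by
    have h7 := abs_le.1 h3
    have h8 := abs_le.1 h5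
    rw [abs_le]
    constructor <;> nlinarith [sq_nonneg a]
  rw [Real.cos_add]
  have k1 : Real.cos x * Real.cos a - Real.cos x ≤ a ^ 2 / 2 := by
    have := Real.abs_cos_le_one x
    rw [abs_le] at this
    nlinarith
  have k2 : a * Real.sin x - Real.sin x * Real.sin a ≤ a ^ 2 / 3 := by
    have e1 : a * Real.sin x - Real.sin x * Real.sin a = Real.sin x * (a - Real.sin a) := by ring
    rw [e1]
    calc Real.sin x * (a - Real.sin a) ≤ |Real.sin x * (a - Real.sin a)| := le_abs_self _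
      _ = |Real.sin x| * |a - Real.sin a| := abs_mul _ _
      _ ≤ 1 * (a ^ 2 / 3) := mul_le_mul (Real.abs_sin_le_one x) h6 (abs_nonneg _) zero_le_one
      _ = a ^ 2 / 3 := one_mul _
  nlinarith [sq_nonneg a]

/-- The first Lyapunov function. -/
def V1 (X : T3) : ℝ := (X.1 : ℂ).re

/-- The second Lyapunov function. -/
def V2 (X : T3) : ℝ := (X.2.1 : ℂ).re + (X.2.2 : ℂ).re

theorem V1_cont : Continuous V1 :=
  Complex.continuous_re.comp (continuous_subtype_val.comp continuous_fst)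

theorem V2_cont : Continuous V2 :=
  (Complex.continuous_re.comp (continuous_subtype_val.comp (continuous_fst.comp continuous_snd))).add
    (Complex.continuous_re.comp (continuous_subtype_val.comp (continuous_snd.comp continuous_snd)))

theorem re_exp (t : ℝ) : ((Circle.exp t : Circle) : ℂ).re = Real.cos t := by
  rw [Circle.coe_exp, Complex.exp_ofReal_mul_I_re]

theorem im_exp (t : ℝ) : ((Circle.exp t : Circle) : ℂ).im = Real.sin t := by
  rw [Circle.coe_exp, Complex.exp_ofReal_mul_I_im]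

theorem V1_E3 (z : ℝ × ℝ × ℝ) : V1 (E3 z) = Real.cos z.1 := re_exp _

theorem V2_E3 (z : ℝ × ℝ × ℝ) : V2 (E3 z) = Real.cos z.2.1 + Real.cos z.2.2 := by
  change ((Circle.exp z.2.1 : Circle) : ℂ).re + ((Circle.exp z.2.2 : Circle) : ℂ).re = _
  rw [re_exp, re_exp]

theorem E3_surj (X : T3) : ∃ z, E3 z = X := ⟨S3 X, E3_S3 X⟩

theorem V1_dec (z : ℝ × ℝ × ℝ) :
    V1 (f1 (E3 z)) ≤ V1 (E3 z) - 1 / 80 * Real.sin z.1 ^ 2 := by
  rw [f1_E3, V1_E3, V1_E3]
  have hs := abs_le.1 (Real.abs_sin_le_one z.1)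
  have ha : |1 / 40 * Real.sin z.1| ≤ 1 := by
    rw [abs_le]; constructor <;> linarith
  have := cos_add_le ha z.1
  simp only [fh]
  nlinarith [sq_nonneg (Real.sin z.1)]

theorem V2_dec (z : ℝ × ℝ × ℝ) : V2 (f1 (E3 z)) ≤
    V2 (E3 z) - 1 / 10 * (Real.sin z.2.1 ^ 2 + Real.sin z.2.2 ^ 2) := by
  rw [f1_E3, V2_E3, V2_E3]
  have hs := abs_le.1 (Real.abs_sin_le_one z.2.1)
  have ht := abs_le.1 (Real.abs_sin_le_one z.2.2)
  have ha : |1 / 5 * Real.sin z.2.1 - 3 / 20 * Real.sin z.2.2| ≤ 1 := by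
    rw [abs_le]; constructor <;> linarith
  have hb : |3 / 20 * Real.sin z.2.1 + 1 / 5 * Real.sin z.2.2| ≤ 1 := by
    rw [abs_le]; constructor <;> linarith
  have h1 := cos_add_le ha z.2.1
  have h2 := cos_add_le hb z.2.2
  simp only [fh]
  generalize Real.sin z.2.1 = S at *
  generalize Real.sin z.2.2 = T at *
  have e1 : -(1 / 5 * S - 3 / 20 * T) * S + (1 / 5 * S - 3 / 20 * T) ^ 2
      - (3 / 20 * S + 1 / 5 * T) * T + (3 / 20 * S + 1 / 5 * T) ^ 2
      = -(11 / 80) * (S ^ 2 + T ^ 2) := by ring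
  nlinarith [sq_nonneg S, sq_nonneg T]

theorem V1_le (X : T3) : V1 (f1 X) ≤ V1 X := by
  obtain ⟨z, rfl⟩ := E3_surj X
  have := V1_dec z
  nlinarith [sq_nonneg (Real.sin z.1)]

theorem V2_le (X : T3) : V2 (f1 X) ≤ V2 X := by
  obtain ⟨z, rfl⟩ := E3_surj X
  have := V2_dec z
  nlinarith [sq_nonneg (Real.sin z.2.1), sq_nonneg (Real.sin z.2.2)]

theorem V1_eq (X : T3) (h : V1 (f1 X) = V1 X) : (X.1 : ℂ).im = 0 ∧ (f1 X).1 = X.1 := by
  obtain ⟨z, rfl⟩ := E3_surj X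
  have h1 := V1_dec z
  have h2 : Real.sin z.1 = 0 := by
    have : Real.sin z.1 ^ 2 ≤ 0 := by linarith
    nlinarith [sq_nonneg (Real.sin z.1)]
  refine ⟨?_, ?_⟩
  · change ((Circle.exp z.1 : Circle) : ℂ).im = 0
    rw [im_exp, h2]
  · rw [f1_E3]
    change Circle.exp (z.1 + 1 / 40 * Real.sin z.1) = Circle.exp z.1
    rw [h2, mul_zero, add_zero]

theorem V2_eq (X : T3) (h : V2 (f1 X) = V2 X) :
    (X.2.1 : ℂ).im = 0 ∧ (X.2.2 : ℂ).im = 0 ∧ (f1 X).2 = X.2 := by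
  obtain ⟨z, rfl⟩ := E3_surj X
  have h1 := V2_dec z
  have h2 : Real.sin z.2.1 ^ 2 + Real.sin z.2.2 ^ 2 ≤ 0 := by linarith
  have h3 : Real.sin z.2.1 = 0 := by
    nlinarith [sq_nonneg (Real.sin z.2.1), sq_nonneg (Real.sin z.2.2)]
  have h4 : Real.sin z.2.2 = 0 := by
    nlinarith [sq_nonneg (Real.sin z.2.1), sq_nonneg (Real.sin z.2.2)]
  refine ⟨?_, ?_, ?_⟩
  · change ((Circle.exp z.2.1 : Circle) : ℂ).im = 0
    rw [im_exp, h3]
  · change ((Circle.exp z.2.2 : Circle) : ℂ).im = 0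
    rw [im_exp, h4]
  · rw [f1_E3]
    simp only [fh, E3, h3, h4]
    simp

/-- The full Lyapunov function. -/
def VV (X : T3) : ℝ := V1 X + V2 X

theorem VV_cont : Continuous VV := V1_cont.add V2_cont

theorem VV_le (X : T3) : VV (f1 X) ≤ VV X := add_le_add (V1_le X) (V2_le X)

theorem VV_eq (X : T3) (h : VV (f1 X) = VV X) : f1 X = X := by
  have h1 := V1_le X
  have h2 := V2_le X
  have h3 : V1 (f1 X) = V1 X := by simp only [VV] at h; linarith
  have h4 : V2 (f1 X) = V2 X := by simp only [VV] at h; linarith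
  exact Prod.ext (V1_eq X h3).2 (V2_eq X h4).2.2

theorem VV_lt (X : T3) (h : f1 X ≠ X) : VV (f1 X) < VV X :=
  lt_of_le_of_ne (VV_le X) fun he => h (VV_eq X he)

theorem omega_fix (X : T3) (h : X ∈ Omega f1) : f1 X = X := by
  by_contra hne
  exact omega_of_lyap VV_cont VV_le (VV_lt X hne) h

theorem f1_noCycles : NoCycles f1 := noCycles_of_lyap VV_cont VV_le VV_lt omega_fix

/-- A point of the circle with zero imaginary part. -/
theorem circ_pm (x : Circle) (h : (x : ℂ).im = 0) : x = Circle.exp 0 ∨ x = Circle.exp Real.pi := by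
  have h1 := Circle.normSq_coe x
  rw [Complex.normSq_apply, h] at h1
  have h2 : (x : ℂ).re = 1 ∨ (x : ℂ).re = -1 := by
    have : ((x : ℂ).re - 1) * ((x : ℂ).re + 1) = 0 := by linarith
    rcases mul_eq_zero.1 this with h | h
    · left; linarith
    · right; linarith
  rcases h2 with h2 | h2
  · left
    apply Circle.ext
    apply Complex.ext
    · rw [re_exp, Real.cos_zero, h2]
    · rw [im_exp, Real.sin_zero, h]
  · right
    apply Circle.ext
    apply Complex.ext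
    · rw [re_exp, Real.cos_pi, h2]
    · rw [im_exp, Real.sin_pi, h]

theorem fix_pts (X : T3) (h : f1 X = X) : ∃ t : ℝ × ℝ × ℝ, (t.1 = 0 ∨ t.1 = Real.pi) ∧
    (t.2.1 = 0 ∨ t.2.1 = Real.pi) ∧ (t.2.2 = 0 ∨ t.2.2 = Real.pi) ∧ X = E3 t := by
  have h1 := (V1_eq X (by rw [h])).1
  obtain ⟨h2, h3, -⟩ := V2_eq X (by rw [h])
  obtain ⟨X1, X2, X3⟩ := X
  have k : ∀ x : Circle, (x : ℂ).im = 0 → ∃ t : ℝ, (t = 0 ∨ t = Real.pi) ∧ x = Circle.exp t := by
    intro x hx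
    rcases circ_pm x hx with h | h
    · exact ⟨0, Or.inl rfl, h⟩
    · exact ⟨Real.pi, Or.inr rfl, h⟩
  obtain ⟨a, ha, ha'⟩ := k X1 h1
  obtain ⟨b, hb, hb'⟩ := k X2 h2
  obtain ⟨c, hc, hc'⟩ := k X3 h3
  exact ⟨(a, b, c), ha, hb, hc, by simp only [E3]; rw [ha', hb', hc']⟩

theorem omega_finite : (Omega f1).Finite := by
  have h1 : (({0, Real.pi} : Set ℝ) ×ˢ (({0, Real.pi} : Set ℝ) ×ˢ ({0, Real.pi} : Set ℝ))).Finite :=
    (Set.toFinite _).prod ((Set.toFinite _).prod (Set.toFinite _))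
  refine (h1.image E3).subset ?_
  intro X hX
  obtain ⟨t, a, b, c, h⟩ := fix_pts X (omega_fix X hX)
  exact ⟨t, ⟨a, b, c⟩, h.symm⟩

/-! ### Hyperbolicity of the derivative -/

theorem isCompl_31 : IsCompl (Submodule.span ℝ {((3, 1) : ℝ × ℝ)})
    (Submodule.span ℝ {((1, -3) : ℝ × ℝ)}) := by
  constructor
  · rw [Submodule.disjoint_def]
    intro v hv hw
    obtain ⟨a, ha⟩ := Submodule.mem_span_singleton.1 hv
    obtain ⟨b, hb⟩ := Submodule.mem_span_singleton.1 hw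
    rw [← ha] at hb
    have e1 := congrArg Prod.fst hb
    have e2 := congrArg Prod.snd hb
    simp at e1 e2
    have : a = 0 := by linarith
    rw [← ha, this, zero_smul]
  · rw [codisjoint_iff, eq_top_iff]
    intro v _
    rw [Submodule.mem_sup]
    refine ⟨((3 * v.1 + v.2) / 10) • (3, 1), Submodule.smul_mem _ _
      (Submodule.mem_span_singleton_self _), ((v.1 - 3 * v.2) / 10) • (1, -3),
      Submodule.smul_mem _ _ (Submodule.mem_span_singleton_self _), ?_⟩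
    ext <;> simp <;> ring

/-- The block. -/
def blk (p q : ℝ) : (ℝ × ℝ) →L[ℝ] (ℝ × ℝ) :=
  let X : (ℝ × ℝ) →L[ℝ] ℝ := ContinuousLinearMap.fst ℝ ℝ ℝ
  let Y : (ℝ × ℝ) →L[ℝ] ℝ := ContinuousLinearMap.snd ℝ ℝ ℝ
  (X + ((1 / 5 * p) • X - (3 / 20 * q) • Y)).prod (Y + ((3 / 20 * p) • X + (1 / 5 * q) • Y))

theorem blk_apply (p q : ℝ) (v : ℝ × ℝ) : blk p q v =
    (v.1 + (1 / 5 * p * v.1 - 3 / 20 * q * v.2), v.2 + (3 / 20 * p * v.1 + 1 / 5 * q * v.2)) := rfl

theorem norm2_le {v : ℝ × ℝ} {B : ℝ} (h1 : |v.1| ≤ B) (h2 : |v.2| ≤ B) : ‖v‖ ≤ B := by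
  rw [Prod.norm_def]; exact max_le h1 h2

theorem blk_LH (p q : ℝ) (hp : p = 1 ∨ p = -1) (hq : q = 1 ∨ q = -1) :
    LH (blk p q) 1 (99 / 100) := by
  rcases hp with rfl | rfl <;> rcases hq with rfl | rfl
  · apply LH_exp _ (by norm_num)
    intro v
    obtain ⟨R, hR⟩ : ∃ R, R = ‖blk 1 1 v‖ := ⟨_, rfl⟩
    have c1 : |(blk 1 1 v).1| ≤ R := by rw [hR]; exact norm_fst_le (blk 1 1 v)
    have c2 : |(blk 1 1 v).2| ≤ R := by rw [hR]; exact norm_snd_le (blk 1 1 v)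
    rw [← hR]
    rw [blk_apply] at c1 c2
    simp only [mul_one] at c1 c2
    have c1' := abs_le.1 c1
    have c2' := abs_le.1 c2
    refine norm2_le ?_ ?_
    · rcases abs_cases v.1 with ⟨h, h'⟩ | ⟨h, h'⟩ <;>
      rcases abs_cases v.2 with ⟨k, k'⟩ | ⟨k, k'⟩ <;>
      rcases le_total |v.1| |v.2| with m | m <;> rw [h, k] at m <;> rw [h] <;> linarith
    · rcases abs_cases v.1 with ⟨h, h'⟩ | ⟨h, h'⟩ <;>
      rcases abs_cases v.2 with ⟨k, k'⟩ | ⟨k, k'⟩ <;>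
      rcases le_total |v.1| |v.2| with m | m <;> rw [h, k] at m <;> rw [k] <;> linarith
  · refine (LH_saddle (blk 1 (-1)) (1, -3) (3, 1) ?_ ?_ isCompl_31.symm).mono (by norm_num)
      (by norm_num) le_rfl (by norm_num)
    · rw [blk_apply]; ext <;> norm_num
    · rw [blk_apply]; ext <;> norm_num
  · refine (LH_saddle (blk (-1) 1) (3, 1) (1, -3) ?_ ?_ isCompl_31).mono (by norm_num)
      (by norm_num) le_rfl (by norm_num)
    · rw [blk_apply]; ext <;> norm_num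
    · rw [blk_apply]; ext <;> norm_num
  · apply LH_contr _ (by norm_num)
    intro v
    have c1 := abs_le.1 (norm_fst_le v)
    have c2 := abs_le.1 (norm_snd_le v)
    have hn := norm_nonneg v
    rw [blk_apply]
    refine norm2_le ?_ ?_ <;> rw [abs_le] <;> constructor <;> simp only <;> linarith

/-- The one-dimensional factor. -/
def one1 (p : ℝ) : ℝ →L[ℝ] ℝ := (1 + 1 / 40 * p) • ContinuousLinearMap.id ℝ ℝ

theorem one1_LH (p : ℝ) (hp : p = 1 ∨ p = -1) : LH (one1 p) 1 (99 / 100) := by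
  rcases hp with rfl | rfl
  · apply LH_exp _ (by norm_num)
    intro v
    have : one1 1 v = 41 / 40 * v := by
      simp only [one1, smul_apply, ContinuousLinearMap.id_apply, smul_eq_mul]
      ring
    rw [this, norm_mul, Real.norm_eq_abs (41 / 40), abs_of_pos (by norm_num)]
    have := norm_nonneg v
    linarith
  · apply LH_contr _ (by norm_num)
    intro v
    have : one1 (-1) v = 39 / 40 * v := by
      simp only [one1, smul_apply, ContinuousLinearMap.id_apply, smul_eq_mul]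
      ring
    rw [this, norm_mul, Real.norm_eq_abs (39 / 40), abs_of_pos (by norm_num)]
    have := norm_nonneg v
    linarith

theorem fhD_prod (t : ℝ × ℝ × ℝ) :
    fhD t = (one1 (Real.cos t.1)).prodMap (blk (Real.cos t.2.1) (Real.cos t.2.2)) := by
  apply ContinuousLinearMap.ext
  intro v
  rw [fhD_apply]
  change _ = (one1 (Real.cos t.1) v.1, blk (Real.cos t.2.1) (Real.cos t.2.2) v.2)
  rw [blk_apply]
  have : one1 (Real.cos t.1) v.1 = v.1 + 1 / 40 * Real.cos t.1 * v.1 := by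
    simp only [one1, smul_apply, ContinuousLinearMap.id_apply, smul_eq_mul]
    ring
  rw [this]

theorem f1_axiomA : AxiomA f1 := by
  constructor
  · refine hyp_finite (F := ℝ × ℝ × ℝ) f1 NN_norm (Omega f1) omega_finite 1 (99 / 100) one_pos
      (by norm_num) (by norm_num) ?_
    intro X hX
    have hfix := omega_fix X hX
    obtain ⟨t, a, b, c, h⟩ := fix_pts X hfix
    have hsin : ∀ x : ℝ, (x = 0 ∨ x = Real.pi) → Real.sin x = 0 := by
      rintro x (rfl | rfl)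
      · exact Real.sin_zero
      · exact Real.sin_pi
    have hcos : ∀ x : ℝ, (x = 0 ∨ x = Real.pi) → Real.cos x = 1 ∨ Real.cos x = -1 := by
      rintro x (rfl | rfl)
      · left; exact Real.cos_zero
      · right; exact Real.cos_pi
    refine ⟨hfix, cht t, zero_mem_tgt t, ?_, ?_⟩
    · rw [ψ_eq, add_zero, h]
    · rw [deriv_fix t (E3_fix t (hsin _ a) (hsin _ b) (hsin _ c)), fhD_prod]
      exact (one1_LH _ (hcos _ a)).prod (blk_LH _ _ (hcos _ b) (hcos _ c)) zero_le_one (by norm_num)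
  · intro X hX
    exact subset_closure ⟨1, one_pos, omega_fix X hX⟩

/-! ### The connecting orbit -/

/-- The starting point. -/
def y0 : T3 := E3 (Real.pi / 2, Real.pi / 2, Real.pi / 2)

theorem V1_y0 : V1 y0 = 0 := by rw [y0, V1_E3]; exact Real.cos_pi_div_two

theorem V2_y0 : V2 y0 = 0 := by rw [y0, V2_E3]; simp [Real.cos_pi_div_two]

theorem im1_y0 : (y0.1 : ℂ).im = 1 := by
  change ((Circle.exp (Real.pi / 2) : Circle) : ℂ).im = 1
  rw [im_exp, Real.sin_pi_div_two]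

theorem im2_y0 : (y0.2.1 : ℂ).im = 1 := by
  change ((Circle.exp (Real.pi / 2) : Circle) : ℂ).im = 1
  rw [im_exp, Real.sin_pi_div_two]

theorem fwd : Tendsto (fun n : ℕ => f1^[n] y0) atTop (𝓝 ((cht pp).ψ 0)) := by
  have h1 : V1 (f1 y0) < 0 := by
    rw [← V1_y0]
    refine lt_of_le_of_ne (V1_le y0) fun h => ?_
    have := (V1_eq y0 h).1
    rw [im1_y0] at this
    norm_num at this
  have h2 : V2 (f1 y0) < 0 := by
    rw [← V2_y0]
    refine lt_of_le_of_ne (V2_le y0) fun h => ?_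
    have := (V2_eq y0 h).1
    rw [im2_y0] at this
    norm_num at this
  refine lasalle (Z := {X | V1 X ≤ V1 (f1 y0) ∧ V2 X ≤ V2 (f1 y0)}) VV_cont VV_le VV_eq
    ((isClosed_le V1_cont continuous_const).inter (isClosed_le V2_cont continuous_const)) ?_ ?_
  · filter_upwards [eventually_ge_atTop 1] with n hn
    obtain ⟨l, rfl⟩ := Nat.exists_eq_add_of_le hn
    rw [add_comm, Function.iterate_succ_apply]
    exact ⟨lyap_iter V1_le _ _, lyap_iter V2_le _ _⟩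
  · rintro X ⟨hX1, hX2⟩ hX
    obtain ⟨t, a, b, c, rfl⟩ := fix_pts X hX
    rw [V1_E3] at hX1
    rw [V2_E3] at hX2
    have ha : t.1 = Real.pi := by
      rcases a with a | a
      · rw [a, Real.cos_zero] at hX1; linarith
      · exact a
    have hb : t.2.1 = Real.pi := by
      rcases b with b | b
      · rw [b, Real.cos_zero] at hX2
        have := Real.neg_one_le_cos t.2.2
        linarith
      · exact b
    have hc : t.2.2 = Real.pi := by
      rcases c with c | c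
      · rw [c, Real.cos_zero] at hX2
        have := Real.neg_one_le_cos t.2.1
        linarith
      · exact c
    rw [ψ_eq, add_zero]
    congr 1
    exact Prod.ext ha (Prod.ext hb hc)

theorem bwd : Tendsto (fun n : ℕ => (⇑f1⁻¹)^[n] y0) atTop (𝓝 ((cht 0).ψ 0)) := by
  have h1 : 0 < V1 (f1⁻¹ y0) := by
    have h0 := V1_le (f1⁻¹ y0)
    rw [d1_inv_self, V1_y0] at h0
    refine lt_of_le_of_ne h0 fun h => ?_
    have h2 := V1_eq (f1⁻¹ y0) (by rw [d1_inv_self, V1_y0]; exact h)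
    rw [d1_inv_self] at h2
    rw [← h2.2, im1_y0] at h2
    norm_num at h2
  have h2 : 0 < V2 (f1⁻¹ y0) := by
    have h0 := V2_le (f1⁻¹ y0)
    rw [d1_inv_self, V2_y0] at h0
    refine lt_of_le_of_ne h0 fun h => ?_
    have h2 := V2_eq (f1⁻¹ y0) (by rw [d1_inv_self, V2_y0]; exact h)
    rw [d1_inv_self] at h2
    have h3 := h2.1
    rw [← h2.2.2, im2_y0] at h3
    norm_num at h3
  have hle1 : ∀ X, -V1 (f1⁻¹ X) ≤ -V1 X := by
    intro X
    have := V1_le (f1⁻¹ X)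
    rw [d1_inv_self] at this
    linarith
  have hle2 : ∀ X, -V2 (f1⁻¹ X) ≤ -V2 X := by
    intro X
    have := V2_le (f1⁻¹ X)
    rw [d1_inv_self] at this
    linarith
  refine lasalle (f := f1⁻¹) (V := fun X => -VV X)
    (Z := {X | V1 (f1⁻¹ y0) ≤ V1 X ∧ V2 (f1⁻¹ y0) ≤ V2 X}) VV_cont.neg ?_ ?_
    ((isClosed_le continuous_const V1_cont).inter (isClosed_le continuous_const V2_cont)) ?_ ?_
  · intro X
    have e1 := hle1 X
    have e2 := hle2 X
    simp only [VV]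
    linarith
  · intro X hX
    have e1 : VV (f1 (f1⁻¹ X)) = VV (f1⁻¹ X) := by
      rw [d1_inv_self]
      have hX' : -VV (f1⁻¹ X) = -VV X := hX
      linarith
    have e2 := VV_eq _ e1
    rw [d1_inv_self] at e2
    exact e2.symm
  · filter_upwards [eventually_ge_atTop 1] with n hn
    obtain ⟨l, rfl⟩ := Nat.exists_eq_add_of_le hn
    rw [add_comm, Function.iterate_succ_apply]
    have e1 := lyap_iter (V := fun X => -V1 X) hle1 (f1⁻¹ y0) l
    have e2 := lyap_iter (V := fun X => -V2 X) hle2 (f1⁻¹ y0) l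
    exact ⟨by linarith, by linarith⟩
  · rintro X ⟨hX1, hX2⟩ hX
    have hX' : f1 X = X := by
      have := congrArg f1 hX
      rw [d1_inv_self] at this
      exact this.symm
    obtain ⟨t, a, b, c, rfl⟩ := fix_pts X hX'
    rw [V1_E3] at hX1
    rw [V2_E3] at hX2
    have ha : t.1 = 0 := by
      rcases a with a | a
      · exact a
      · rw [a, Real.cos_pi] at hX1; linarith
    have hb : t.2.1 = 0 := by
      rcases b with b | b
      · exact b
      · rw [b, Real.cos_pi] at hX2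
        have := Real.cos_le_one t.2.2
        linarith
    have hc : t.2.2 = 0 := by
      rcases c with c | c
      · exact c
      · rw [c, Real.cos_pi] at hX2
        have := Real.cos_le_one t.2.1
        linarith
    rw [ψ_eq, add_zero]
    congr 1
    exact Prod.ext ha (Prod.ext hb hc)

/-! ### The conclusion -/

theorem near_align (L L' : (ℝ × ℝ × ℝ) ≃L[ℝ] (ℝ × ℝ × ℝ))
    (h : ‖(L : (ℝ × ℝ × ℝ) →L[ℝ] (ℝ × ℝ × ℝ))
      - fderiv ℝ (fun z => (cht pp).φ (f1 ((cht pp).ψ z))) 0‖ ≤ 1 / 1000)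
    (h' : ‖(L' : (ℝ × ℝ × ℝ) →L[ℝ] (ℝ × ℝ × ℝ))
      - fderiv ℝ (fun z => (cht 0).φ (f1⁻¹ ((cht 0).ψ z))) 0‖ ≤ 1 / 1000)
    (A : (ℝ × ℝ × ℝ) ≃L[ℝ] (ℝ × ℝ × ℝ)) : ∃ (w : ℝ × ℝ × ℝ) (C : ℝ), w ≠ 0 ∧
      (∀ n : ℕ, ‖((L' : (ℝ × ℝ × ℝ) →L[ℝ] (ℝ × ℝ × ℝ)) ^ n) w‖
        * ‖(L'.symm : (ℝ × ℝ × ℝ) →L[ℝ] (ℝ × ℝ × ℝ)) ^ n‖ ≤ C) ∧
      ∀ n : ℕ, ‖((L : (ℝ × ℝ × ℝ) →L[ℝ] (ℝ × ℝ × ℝ)) ^ n) (A w)‖
        * ‖(L.symm : (ℝ × ℝ × ℝ) →L[ℝ] (ℝ × ℝ × ℝ)) ^ n‖ ≤ C := by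
  obtain ⟨s, hs⟩ := dominated L (4 / 5) (3 / 20) (39 / 40) (1 / 1000) (by norm_num) (by norm_num)
    (by norm_num) (by norm_num) (by norm_num) (by
      intro z
      have e1 := ContinuousLinearMap.le_of_opNorm_le _ h z
      rw [sub_apply, deriv_p] at e1
      exact e1)
  obtain ⟨s', hs'⟩ := dominated L' (32 / 39) (4 / 39) (40 / 41) (1 / 1000) (by norm_num)
    (by norm_num) (by norm_num) (by norm_num) (by norm_num) (by
      intro z
      have e1 := ContinuousLinearMap.le_of_opNorm_le _ h' z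
      rw [sub_apply, deriv_q] at e1
      exact e1)
  exact align L L' s s' hs hs' A

end Pool.Agent.H365R3
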